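import Mathlib

/-! Isolated zeros of a system of polynomials are algebraic. -/

namespace Cr

open MvPolynomial

variable {k L : Type} [Field k] [Field L] [Algebra k L] {ι : Type} [Fintype ι] [DecidableEq ι]

omit [DecidableEq ι] in
/-- The chain rule for a derivation. -/
theorem der_aeval {N : Type} [AddCommGroup N] [Module k N] [Module L N]
    (D : Derivation k L N) (y : ι → L) (h : MvPolynomial ι k) :
    D (aeval y h) = ∑ a, aeval y (pderiv a h) • D (y a) := by
  induction h using MvPolynomial.induction_on with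
  | C r => simp
  | add f g hf hg =>
    simp only [map_add, add_smul, Finset.sum_add_distrib, hf, hg]
  | mul_X f i hf =>
    rw [map_mul, D.leibniz, hf, aeval_X]
    simp only [pderiv_mul, map_add, map_mul, aeval_X, add_smul, Finset.sum_add_distrib]
    rw [add_comm, Finset.smul_sum]
    congr 1
    · refine Finset.sum_congr rfl fun a _ => ?_
      rw [smul_smul, mul_comm]
    · rw [Finset.sum_eq_single i]
      · rw [pderiv_X_self, map_one, mul_one]
      · intro a _ ha
        rw [pderiv_X_of_ne ha.symm, map_zero, mul_zero, zero_smul]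
      · intro h
        exact absurd (Finset.mem_univ i) h

theorem isAlgebraic_of_jac (g : ι → MvPolynomial ι k) (y : ι → L)
    (h0 : ∀ e, aeval y (g e) = 0)
    (hJ : (Matrix.of fun e a => aeval y (pderiv a (g e))).det ≠ 0) (a : ι) :
    IsAlgebraic k (y a) := by
  obtain ⟨E, hE⟩ : ∃ E, E = IntermediateField.adjoin k (Set.range y) := ⟨_, rfl⟩
  have hmem : ∀ a, y a ∈ E := fun a => by
    rw [hE]
    exact IntermediateField.subset_adjoin k _ ⟨a, rfl⟩
  obtain ⟨y', hy'⟩ : ∃ y' : ι → E, ∀ a, (y' a : L) = y a := ⟨fun a => ⟨y a, hmem a⟩, fun _ => rfl⟩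
  have hval : ∀ h : MvPolynomial ι k, (aeval y' h : L) = aeval y h := by
    intro h
    have h1 := comp_aeval_apply y' E.val h
    refine h1.trans ?_
    congr 2
    funext a
    exact hy' a
  have hfg : E.FG := by
    rw [hE]
    exact ⟨(Set.finite_range y).toFinset, by rw [Set.Finite.coe_toFinset]⟩
  have hess : Algebra.EssFiniteType k E := IntermediateField.essFiniteType_iff.2 hfg
  let D := KaehlerDifferential.D k E
  -- the differentials of the coordinates vanish
  have h1 : ∀ e, ∑ a, aeval y' (pderiv a (g e)) • D (y' a) = 0 := by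
    intro e
    rw [← der_aeval]
    have h2 : aeval y' (g e) = 0 := Subtype.ext ((hval _).trans (h0 e))
    rw [h2, map_zero]
  obtain ⟨J, hJ'⟩ : ∃ J : Matrix ι ι E, J = Matrix.of fun e a => aeval y' (pderiv a (g e)) :=
    ⟨_, rfl⟩
  have hdet : IsUnit J.det := by
    rw [isUnit_iff_ne_zero]
    intro h2
    apply hJ
    have h3 : (Matrix.of fun e a => aeval y (pderiv a (g e))) = (J.map E.val) := by
      ext e a
      rw [hJ']
      exact (hval _).symm
    rw [h3, ← AlgHom.mapMatrix_apply, ← AlgHom.map_det, h2, map_zero]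
  have h4 : ∀ a, D (y' a) = 0 := by
    intro a
    have h5 : D (y' a) = ∑ e, (J⁻¹ a e) • ∑ a', J e a' • D (y' a') := by
      have h6 : ∀ a', ∑ e, J⁻¹ a e * J e a' = (1 : Matrix ι ι E) a a' := fun a' => by
        rw [← Matrix.nonsing_inv_mul J hdet, Matrix.mul_apply]
      simp only [Finset.smul_sum, smul_smul]
      rw [Finset.sum_comm]
      simp only [← Finset.sum_smul, h6, Matrix.one_apply, ite_smul, one_smul, zero_smul,
        Finset.sum_ite_eq, Finset.mem_univ, if_true]
    rw [h5]
    refine Finset.sum_eq_zero fun e _ => ?_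
    have h7 := h1 e
    rw [hJ']
    simp only [Matrix.of_apply]
    rw [h7, smul_zero]
  have h8 : ∀ x : L, ∀ hx : x ∈ E, D ⟨x, hx⟩ = 0 := by
    intro x hx
    have hx' : x ∈ IntermediateField.adjoin k (Set.range y) := hE ▸ hx
    have key : ∀ hx : x ∈ E, D ⟨x, hx⟩ = 0 := by
      clear hx
      induction hx' using IntermediateField.adjoin_induction with
      | mem x hxr =>
        obtain ⟨a, rfl⟩ := hxr
        intro hx
        have h9 : (⟨y a, hx⟩ : E) = y' a := Subtype.ext (hy' a).symm
        rw [h9, h4]
      | algebraMap r =>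
        intro hx
        exact D.map_algebraMap r
      | add u v hu hv ihu ihv =>
        intro hx
        have hu' : u ∈ E := hE ▸ hu
        have hv' : v ∈ E := hE ▸ hv
        have h9 : (⟨u + v, hx⟩ : E) = ⟨u, hu'⟩ + ⟨v, hv'⟩ := rfl
        rw [h9, map_add, ihu hu', ihv hv', add_zero]
      | inv u hu ihu =>
        intro hx
        have hu' : u ∈ E := hE ▸ hu
        have h9 : (⟨u⁻¹, hx⟩ : E) = (⟨u, hu'⟩ : E)⁻¹ := rfl
        rw [h9, D.leibniz_inv, ihu hu', smul_zero]
      | mul u v hu hv ihu ihv =>
        intro hx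
        have hu' : u ∈ E := hE ▸ hu
        have hv' : v ∈ E := hE ▸ hv
        have h9 : (⟨u * v, hx⟩ : E) = ⟨u, hu'⟩ * ⟨v, hv'⟩ := rfl
        rw [h9, D.leibniz, ihu hu', ihv hv', smul_zero, smul_zero, add_zero]
    exact key hx
  have h10 : Subsingleton (KaehlerDifferential k E) := by
    have h11 := KaehlerDifferential.span_range_derivation k E
    have h12 : Set.range (KaehlerDifferential.D k E) ⊆ {0} := by
      rintro _ ⟨x, rfl⟩
      exact h8 x.1 x.2
    have h13 : (⊤ : Submodule E (KaehlerDifferential k E)) ≤ ⊥ := by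
      rw [← h11, Submodule.span_le]
      exact h12
    exact (Submodule.subsingleton_iff E).1 (subsingleton_of_bot_eq_top (le_bot_iff.1 h13).symm)
  have h14 : Algebra.FormallyUnramified k E := ⟨h10⟩
  have h15 : Algebra.IsSeparable k E := Algebra.FormallyUnramified.isSeparable k E
  have h16 : IsAlgebraic k (y' a) := Algebra.IsAlgebraic.isAlgebraic (y' a)
  have h17 := h16.algebraMap (A := L)
  have h18 : algebraMap E L (y' a) = y a := hy' a
  rwa [h18] at h17

end Cr
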