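import Pool.Agent.Lib.MP_f80667_ag.Cr.Mat

/-! Choice of two vectors of the plane. -/

namespace Cr

open Cu

theorem cht_mul {E V : Type*} [Field E] [AddCommGroup V] [Module E V] (φ ψ : V →ₗ[E] E) (b' : V)
    (hb' : φ b' ≠ 0) (h : ∀ b, φ b = 0 → ψ b = 0) : ∃ c : E, ∀ z, ψ z = c * φ z := by
  refine ⟨ψ b' / φ b', fun z => ?_⟩
  have h1 := h (z - (φ z / φ b') • b') (by
    rw [map_sub, map_smul, smul_eq_mul, div_mul_cancel₀ _ hb', sub_self])
  rw [map_sub, map_smul, smul_eq_mul, sub_eq_zero] at h1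
  rw [h1]
  ring

theorem cht_up {E K : Type*} [Field E] [Field K] [Algebra E K] {n : ℕ}
    (ψ : (Fin n → K) →ₗ[K] K) (h : ∀ y : Fin n → E, ψ (up K y) = 0) (z : Fin n → K) :
    ψ z = 0 := by
  have h1 : ψ = 0 := by
    refine LinearMap.pi_ext fun i x => ?_
    have h2 : (Pi.single i x : Fin n → K) = x • up K (Pi.single i (1 : E)) := by
      funext j
      by_cases hj : j = i
      · subst hj
        simp [up]
      · simp [up, Pi.single_eq_of_ne hj]
    rw [h2, map_smul, h, smul_zero, LinearMap.zero_apply]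
  rw [h1, LinearMap.zero_apply]

/-- Smoothness over the base field. -/
theorem cht_sm {E : Type} [Field E] {n : ℕ} {T : Tn E n}
    (hs : ∀ x : Fin n → AlgebraicClosure E, x ≠ 0 → ∃ y, (ex T (AlgebraicClosure E)).D x y ≠ 0)
    (x : Fin n → E) (hx : x ≠ 0) : ∃ y, (ex T E).D x y ≠ 0 := by
  by_contra hcon
  push Not at hcon
  have h1 : up (AlgebraicClosure E) x ≠ 0 := by
    intro h0
    apply hx
    funext i
    have h2 := congrFun h0 i
    exact (map_eq_zero _).1 h2
  obtain ⟨y, hy⟩ := hs _ h1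
  apply hy
  refine cht_up (E := E) ((ex T (AlgebraicClosure E)).Dl (up (AlgebraicClosure E) x)) (fun z => ?_) y
  rw [Cb.Dl_apply, ex_D (M := E), hcon, map_zero]

/-- There are `t`, `t'` in the plane such that the linear forms `D t ·` and `E t t' ·` are linearly
independent. Proof. Otherwise `E t t' · = c(t, t') D t ·` for all `t ≠ 0`, `t'` of the plane. If
`D t ·`, `D t' ·` are linearly independent, then `E t t' = 0`, so `D (t + t') · = D t · + D t' ·` and
`E (t + t') t · = 2 D t ·` is a multiple of it, contradiction. So `D t · = c(t) L` for a fixed linear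
form `L` and a quadratic form `c` on the plane, which has a nontrivial zero over the algebraic closure
(already on the line `u₀`, `u₁`): contradiction to smoothness. -/
theorem exists_tt {E : Type} [Field E] [CharZero E] {n : ℕ} {T : Tn E n}
    {u : Fin 3 → Fin n → E} (h : Pln T u)
    (hs : ∀ x : Fin n → AlgebraicClosure E, x ≠ 0 → ∃ y, (ex T (AlgebraicClosure E)).D x y ≠ 0) :
    ∃ (t t' : Fin 3 → E) (b b' : Fin n → E), (ex T E).D (pl u t) b = 0 ∧
      (ex T E).E (pl u t) (pl u t') b ≠ 0 ∧ (ex T E).D (pl u t) b' ≠ 0 := by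
  by_contra H
  push Not at H
  have hind := Fintype.linearIndependent_iff.1 h.ind
  have hupE : ∀ v : Fin n → E, up E v = v := fun v => rfl
  have e0 : pl u ![(1 : E), 0, 0] = u 0 := by
    simp [pl, hupE]
  have e1 : pl u ![(0 : E), 1, 0] = u 1 := by
    simp [pl, hupE]
  have e2 : pl u ![(1 : E), 1, 0] = u 0 + u 1 := by
    simp [pl, hupE]
  have n0 : u 0 ≠ 0 := h.ind.ne_zero 0
  have n1 : u 1 ≠ 0 := h.ind.ne_zero 1
  have n2 : u 0 + u 1 ≠ 0 := by
    intro h0
    have h1 := hind ![1, 1, 0] (by simp [Fin.sum_univ_three, h0]) 0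
    simp at h1
  obtain ⟨y0, hy0⟩ := cht_sm hs _ n0
  obtain ⟨y1, hy1⟩ := cht_sm hs _ n1
  obtain ⟨y2, hy2⟩ := cht_sm hs _ n2
  obtain ⟨c, hc⟩ : ∃ c : E, ∀ z, (ex T E).E (u 0) (u 1) z = c * (ex T E).D (u 0) z := by
    refine cht_mul ((ex T E).Dl (u 0)) ((ex T E).El (u 0) (u 1)) y0 hy0 fun b hb => ?_
    by_contra hne
    have h1 := H ![1, 0, 0] ![0, 1, 0] b y0
    rw [e0, e1] at h1
    exact hy0 (h1 hb hne)
  obtain ⟨c', hc'⟩ : ∃ c : E, ∀ z, (ex T E).E (u 1) (u 0) z = c * (ex T E).D (u 1) z := by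
    refine cht_mul ((ex T E).Dl (u 1)) ((ex T E).El (u 1) (u 0)) y1 hy1 fun b hb => ?_
    by_contra hne
    have h1 := H ![0, 1, 0] ![1, 0, 0] b y1
    rw [e0, e1] at h1
    exact hy1 (h1 hb hne)
  obtain ⟨c'', hc''⟩ : ∃ c : E, ∀ z, (ex T E).E (u 0 + u 1) (u 0) z =
      c * (ex T E).D (u 0 + u 1) z := by
    refine cht_mul ((ex T E).Dl (u 0 + u 1)) ((ex T E).El (u 0 + u 1) (u 0)) y2 hy2 fun b hb => ?_
    by_contra hne
    have h1 := H ![1, 1, 0] ![1, 0, 0] b y2
    rw [e0, e2] at h1
    exact hy2 (h1 hb hne)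
  have hc2 : ∀ z, c * (ex T E).D (u 0) z = c' * (ex T E).D (u 1) z := fun z => by
    rw [← hc, ← hc', (ex T E).E_comm]
  have hc3 : ∀ z, 2 * (ex T E).D (u 0) z + c * (ex T E).D (u 0) z =
      c'' * ((ex T E).D (u 0) z + c * (ex T E).D (u 0) z + (ex T E).D (u 1) z) := fun z => by
    have h1 := hc'' z
    rw [(ex T E).add_D, (ex T E).E_add1, (ex T E).E_self, (ex T E).E_comm (u 1), hc] at h1
    exact h1
  -- the two linear forms are proportional
  obtain ⟨r, hr⟩ : ∃ r : E, ∀ z, (ex T E).D (u 1) z = r * (ex T E).D (u 0) z := by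
    by_cases hc0 : c = 0
    · have h1 : c'' ≠ 0 := by
        intro h0
        have h2 := hc3 y0
        rw [hc0, h0, zero_mul, zero_mul, add_zero] at h2
        exact hy0 ((mul_eq_zero.1 h2).resolve_left two_ne_zero)
      refine ⟨(2 - c'') / c'', fun z => ?_⟩
      have h2 := hc3 z
      rw [hc0, zero_mul, add_zero, add_zero] at h2
      field_simp
      linear_combination -h2
    · have h1 : c' ≠ 0 := by
        intro h0
        have h2 := hc2 y0
        rw [h0, zero_mul] at h2
        rcases mul_eq_zero.1 h2 with h3 | h3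
        · exact hc0 h3
        · exact hy0 h3
      refine ⟨c / c', fun z => ?_⟩
      have h2 := hc2 z
      field_simp
      linear_combination -h2
  -- a zero over the algebraic closure
  set K := AlgebraicClosure E with hK
  obtain ⟨s, hs2⟩ := IsAlgClosed.exists_pow_nat_eq (algebraMap E K (c ^ 2 - 4 * r)) two_pos
  have h2K : (2 : K) ≠ 0 := two_ne_zero
  set x : K := (-algebraMap E K c + s) / 2 with hx
  have hx0 : x ^ 2 + algebraMap E K c * x + algebraMap E K r = 0 := by
    rw [map_sub, map_pow, map_mul, map_ofNat] at hs2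
    have h3 : (4 : K) ≠ 0 := by
      have : (4 : K) = 2 * 2 := by norm_num
      rw [this]
      exact mul_ne_zero h2K h2K
    have h4 : 4 * (x ^ 2 + algebraMap E K c * x + algebraMap E K r) = 0 := by
      have h5 : 2 * x = -algebraMap E K c + s := by
        rw [hx, mul_div_assoc']
        exact mul_div_cancel_left₀ _ h2K
      linear_combination (2 * x + algebraMap E K c + s) * h5 + hs2
    exact (mul_eq_zero.1 h4).resolve_left h3
  have hX : x • up K (u 0) + up K (u 1) = 0 := by
    by_contra hne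
    obtain ⟨y, hy⟩ := hs _ hne
    apply hy
    refine cht_up (E := E) ((ex T K).Dl (x • up K (u 0) + up K (u 1))) (fun z => ?_) y
    rw [Cb.Dl_apply, (ex T K).add_D, (ex T K).smul_D, (ex T K).E_smul1, ex_D (M := E),
      ex_D (M := E), ex_E (M := E), hc, hr, map_mul, map_mul]
    linear_combination (algebraMap E K ((ex T E).D (u 0) z)) * hx0
  obtain ⟨i, hi⟩ : ∃ i, u 0 i ≠ 0 := by
    by_contra hcon
    push Not at hcon
    exact n0 (funext hcon)
  have h3 : ∀ j, x * algebraMap E K (u 0 j) + algebraMap E K (u 1 j) = 0 := fun j => congrFun hX j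
  have hi' : algebraMap E K (u 0 i) ≠ 0 := (map_ne_zero _).2 hi
  have h4 : x = algebraMap E K (-u 1 i / u 0 i) := by
    rw [map_div₀, map_neg, eq_div_iff hi']
    linear_combination h3 i
  have h5 : ∀ j, (-u 1 i / u 0 i) * u 0 j + u 1 j = 0 := by
    intro j
    have h6 := h3 j
    rw [h4, ← map_mul, ← map_add] at h6
    exact (map_eq_zero _).1 h6
  have h6 := hind ![-u 1 i / u 0 i, 1, 0] (by
    funext j
    simp only [Fin.sum_univ_three, Matrix.cons_val_zero, Matrix.cons_val_one, Matrix.cons_val,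
      one_smul, zero_smul, add_zero, Pi.add_apply, Pi.smul_apply, smul_eq_mul, Pi.zero_apply]
    exact h5 j) 1
  simp at h6

end Cr
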