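import Pool.Agent.Lib.MP_f80667_ag.Cr.Jac
import Pool.Agent.Lib.MP_f80667_ag.Bez

/-! Every zero of the special system lifts to a solution in formal power series. -/

namespace Cr

open MvPolynomial

variable {m : ℕ} {p : Fin m → ℕ} {K : Type} [Field K]

theorem exists_lift {δ : AV p → Fin m → ℕ} {c : (Σ e : AV p, Fc δ e) → K}
    (hc : Function.Injective c) (F : AV p → MvPolynomial (PV p) K) (σ : ∀ e : AV p, Fc δ e)
    (hσ : ∀ b, (Finset.univ.filter fun e => (σ e).1 = b).card = p b) :
    ∃ y : AV p → PowerSeries K, (∀ a, PowerSeries.constantCoeff (y a) = sol c σ a) ∧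
      ∀ e, eval y (hP (Gp c) F PowerSeries.X e) = 0 := by
  classical
  have hac : IsAdicComplete (Ideal.span {(PowerSeries.X : PowerSeries K)}) (PowerSeries K) :=
    Pool.Agent.Lib.MP_f80667_ag.adicComplete_powerSeries
  have hI : ∀ f : PowerSeries K, f ∈ Ideal.span {(PowerSeries.X : PowerSeries K)} ↔
      PowerSeries.constantCoeff f = 0 := fun f => by
    rw [Ideal.mem_span_singleton, PowerSeries.X_dvd_iff]
  let φ : PowerSeries K →ₐ[K] K :=
    { toRingHom := PowerSeries.constantCoeff
      commutes' := fun r => by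
        change PowerSeries.constantCoeff (algebraMap K (PowerSeries K) r) = r
        rw [PowerSeries.algebraMap_apply]
        simp }
  have hφ : ∀ f, φ f = PowerSeries.constantCoeff f := fun _ => rfl
  obtain ⟨J, hJ⟩ : ∃ J, J = jac (fun e => dh K (Gp c e)) (sol c σ) := ⟨_, rfl⟩
  have hdet : IsUnit J.det := by
    rw [hJ]
    exact isUnit_iff_ne_zero.2 (det_jac c hc σ hσ)
  let a : AV p → PowerSeries K := fun v => PowerSeries.C (sol c σ v)
  have ha : ∀ v, φ (a v) = sol c σ v := fun v => PowerSeries.constantCoeff_C _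
  have hmap : ∀ e, map (φ : PowerSeries K →+* K) (hP (Gp c) F PowerSeries.X e) = dh K (Gp c e) := by
    intro e
    rw [map_hP, hφ, PowerSeries.constantCoeff_X, hP_zero]
  have hjac : (jac (hP (Gp c) F PowerSeries.X) a).map φ = J := by
    have h1 := jac_map (φ : PowerSeries K →+* K) (hP (Gp c) F PowerSeries.X) a
    have h2 : (fun v => (φ : PowerSeries K →+* K) (a v)) = sol c σ := funext ha
    have h3 : (fun e => map (φ : PowerSeries K →+* K) (hP (Gp c) F PowerSeries.X e)) =
        fun e => dh K (Gp c e) := funext hmap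
    rw [h2, h3, ← hJ] at h1
    exact h1
  obtain ⟨b, hb1, hb2⟩ := Pool.Agent.Lib.MP_f80667_ag.hensel
    (Ideal.span {(PowerSeries.X : PowerSeries K)}) (hP (Gp c) F PowerSeries.X) a
    (fun k j => PowerSeries.C (J⁻¹ k j))
    (fun e => by
      rw [hI, ← hφ]
      have h1 : (φ : PowerSeries K →+* K) (eval a (hP (Gp c) F PowerSeries.X e)) =
          eval (fun v => (φ : PowerSeries K →+* K) (a v))
            (map (φ : PowerSeries K →+* K) (hP (Gp c) F PowerSeries.X e)) := by
        rw [eval_map]
        exact eval₂_comp (φ : PowerSeries K →+* K) a _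
      have h2 : (fun v => (φ : PowerSeries K →+* K) (a v)) = sol c σ := funext ha
      rw [h2, hmap, eval_dh, sol_zero c σ hσ] at h1
      exact h1)
    (fun i j => by
      rw [hI, map_sub, map_sum]
      have h1 : ∀ k, PowerSeries.constantCoeff (eval a (pderiv k (hP (Gp c) F PowerSeries.X i)) *
          PowerSeries.C (J⁻¹ k j)) = J i k * J⁻¹ k j := by
        intro k
        rw [map_mul, PowerSeries.constantCoeff_C, ← hφ]
        congr 1
        exact congrFun (congrFun hjac i) k
      rw [Finset.sum_congr rfl fun k _ => h1 k, ← Matrix.mul_apply, Matrix.mul_nonsing_inv J hdet,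
        Matrix.one_apply]
      split_ifs <;> simp)
  refine ⟨b, fun v => ?_, hb2⟩
  have h1 := (hI _).1 (hb1 v)
  rw [map_sub, sub_eq_zero] at h1
  rw [h1]
  exact PowerSeries.constantCoeff_C _

end Cr
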