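import Pool.Agent.Lib.MP_f80667_ag.Cr.Red
import Pool.Agent.Lib.MP_f80667_ag.Cr.Lift

/-! The solutions of the deformed system over a field which contains `K⟦X⟧` correspond to the
selections. -/

namespace Cr

open MvPolynomial IsLocalRing

variable {m : ℕ} {p : Fin m → ℕ} {K : Type} [Field K]

/-- Selections: one factor of each form, `p b` of them from the block `b`. -/
abbrev Sel (p : Fin m → ℕ) (δ : AV p → Fin m → ℕ) : Type :=
  {σ : ∀ e : AV p, Fc δ e // ∀ b, (Finset.univ.filter fun e => (σ e).1 = b).card = p b}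

section val

variable {O : Type} [CommRing O] [IsDomain O] [ValuationRing O] [Algebra K O]
  {M : Type} [Field M] [Algebra O M] [IsFractionRing O M] [Algebra K M] [IsScalarTower K O M]

theorem res_series (φ : PowerSeries K →ₐ[K] O) (hφ : residue O (φ PowerSeries.X) = 0)
    (g : PowerSeries K) :
    residue O (φ g) = algebraMap K (ResidueField O) (PowerSeries.constantCoeff g) := by
  obtain ⟨h, hh⟩ : ∃ h, g = algebraMap K (PowerSeries K) (PowerSeries.constantCoeff g) +
      PowerSeries.X * h := by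
    have h1 : PowerSeries.X ∣ g - algebraMap K (PowerSeries K) (PowerSeries.constantCoeff g) := by
      rw [PowerSeries.X_dvd_iff, map_sub, PowerSeries.algebraMap_apply]
      simp
    obtain ⟨h, hh⟩ := h1
    exact ⟨h, by rw [← hh]; ring⟩
  conv_lhs => rw [hh]
  rw [map_add, map_mul, map_add, map_mul, hφ, zero_mul, add_zero, AlgHom.commutes]
  rfl

theorem eval_alg {R S : Type} [CommRing R] [CommRing S] [Algebra K R] [Algebra K S]
    (φ : R →ₐ[K] S) (G F : AV p → MvPolynomial (PV p) K) (τ : R) (y : AV p → R) (e : AV p) :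
    eval (fun a => φ (y a)) (hP G F (φ τ) e) = φ (eval y (hP G F τ e)) := by
  rw [← map_hP, eval_map]
  exact (eval₂_comp (φ : R →+* S) y _).symm

theorem sel_of_val {δ : AV p → Fin m → ℕ} {c : (Σ e : AV p, Fc δ e) → K}
    (hc : Function.Injective c) {F : AV p → MvPolynomial (PV p) K} (hF : ∀ e, Sc (δ e) (F e))
    (L : Sel p δ → AV p → PowerSeries K)
    (hL : ∀ σ a, PowerSeries.constantCoeff (L σ a) = sol c σ.1 a)
    (hL0 : ∀ σ e, eval (L σ) (hP (Gp c) F PowerSeries.X e) = 0)
    (φ : PowerSeries K →ₐ[K] O) (hφ : residue O (φ PowerSeries.X) = 0) (y : AV p → M)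
    (hy : ∀ e, eval y (hP (Gp c) F (algebraMap O M (φ PowerSeries.X)) e) = 0) :
    (∃ σ, y = fun a => algebraMap O M (φ (L σ a))) ∧
      (jac (hP (Gp c) F (algebraMap O M (φ PowerSeries.X))) y).det ≠ 0 := by
  obtain ⟨σ, y', h1, _, h3, h4, h5⟩ := exists_red hc hF hφ (aff y)
    (fun b => ⟨Fin.last (p b), by rw [aff_last]; exact one_ne_zero⟩)
    (fun e => by rw [← eval_hP, hy])
  have h6 : y' = fun a => φ (L ⟨σ, h1⟩ a) := by
    refine unique_lift hc F hφ σ h1 _ _ h4 (fun a => ?_) h5 (fun e => ?_)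
    · rw [res_series φ hφ, hL]
    · rw [eval_alg, hL0, map_zero]
  have h7 : y = fun a => algebraMap O M (y' a) := by
    funext a
    have h8 := h3 a
    rw [aff_cast, aff_last, one_mul] at h8
    exact h8
  refine ⟨⟨⟨σ, h1⟩, ?_⟩, ?_⟩
  · rw [h7, h6]
  · have h9 := isUnit_det hc F hφ σ h1 y' h4
    have h10 := jac_map (algebraMap O M) (hP (Gp c) F (φ PowerSeries.X)) y'
    have h11 : (fun e => map (algebraMap O M) (hP (Gp c) F (φ PowerSeries.X) e)) =
        hP (Gp c) F (algebraMap O M (φ PowerSeries.X)) := by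
      funext e
      exact map_hP (IsScalarTower.toAlgHom K O M) (Gp c) F _ e
    rw [h11, ← h7] at h10
    rw [← h10, ← RingHom.mapMatrix_apply, ← RingHom.map_det]
    exact (h9.map (algebraMap O M)).ne_zero

end val

/-- The solutions over a field which contains `K⟦X⟧`. -/
theorem exists_sols {δ : AV p → Fin m → ℕ} {c : (Σ e : AV p, Fc δ e) → K}
    (hc : Function.Injective c) {F : AV p → MvPolynomial (PV p) K} (hF : ∀ e, Sc (δ e) (F e)) :
    ∃ L : Sel p δ → AV p → PowerSeries K,
      ∀ (Ω : Type) [Field Ω] [Algebra K Ω] (ψ : PowerSeries K →ₐ[K] Ω),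
        Function.Injective (fun (σ : Sel p δ) a => ψ (L σ a)) ∧
        (∀ σ e, eval (fun a => ψ (L σ a)) (hP (Gp c) F (ψ PowerSeries.X) e) = 0) ∧
        ∀ y : AV p → Ω, (∀ e, eval y (hP (Gp c) F (ψ PowerSeries.X) e) = 0) →
          (∃ σ, y = fun a => ψ (L σ a)) ∧ (jac (hP (Gp c) F (ψ PowerSeries.X)) y).det ≠ 0 := by
  choose L hL hL0 using fun σ : Sel p δ => exists_lift hc F σ.1 σ.2
  refine ⟨L, fun Ω _ _ ψ => ?_⟩
  obtain ⟨B, hB, hloc⟩ := IsLocalRing.exists_factor_valuationRing (ψ : PowerSeries K →+* Ω)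
  let φ' : PowerSeries K →+* B := (ψ : PowerSeries K →+* Ω).codRestrict B.toSubring hB
  have hφ' : ∀ g, (algebraMap B Ω) (φ' g) = ψ g := fun g => rfl
  letI : Algebra K B := (φ'.comp (algebraMap K (PowerSeries K))).toAlgebra
  have hKB : ∀ r : K, algebraMap K B r = φ' (algebraMap K (PowerSeries K) r) := fun r => rfl
  haveI : IsScalarTower K B Ω := IsScalarTower.of_algebraMap_eq fun r => by
    rw [hKB, hφ', AlgHom.commutes]
  let φ : PowerSeries K →ₐ[K] B := { φ' with commutes' := fun r => rfl }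
  have hφφ : ∀ g, φ g = φ' g := fun g => rfl
  have hX : residue B (φ PowerSeries.X) = 0 := by
    rw [residue_eq_zero_iff, mem_maximalIdeal, mem_nonunits_iff]
    intro h
    have h1 : IsUnit (PowerSeries.X : PowerSeries K) := hloc.map_nonunit _ h
    rw [PowerSeries.isUnit_iff_constantCoeff, PowerSeries.constantCoeff_X] at h1
    exact not_isUnit_zero h1
  refine ⟨fun σ τ h => ?_, fun σ e => ?_, fun y hy => ?_⟩
  · apply Subtype.ext
    refine sol_inj c hc σ.2 τ.2 (funext fun a => ?_)
    apply (algebraMap K (ResidueField B)).injective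
    rw [← hL, ← hL, ← res_series φ hX, ← res_series φ hX]
    congr 1
    exact IsFractionRing.injective B Ω (congrFun h a)
  · rw [eval_alg, hL0, map_zero]
  · exact sel_of_val hc hF L hL hL0 φ hX y hy

end Cr
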