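import Pool.Agent.Lib.MP_f80667_ag.Ts.Emb
import Pool.Agent.Lib.MP_f80667_ag.Fa.Dfs

/-! The cycle of a point over an extension at a real place: sum over the real embeddings, modulo
norms. -/

open scoped LinearAlgebra.Projectivization

namespace Cr

open ZC

/-- An embedding with values in `K` is an embedding into `K`. -/
theorem emb_fac {F K M Ω : Type} [Field F] [Field K] [Algebra F K] [Field Ω]
    [Algebra K Ω] [Algebra F Ω] [IsScalarTower F K Ω] [Field M] [Algebra F M] (σ : M →ₐ[F] Ω)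
    (h2 : ∀ x : M, ∃ y : K, algebraMap K Ω y = σ x) :
    ∃ τ : M →ₐ[F] K, (IsScalarTower.toAlgHom F K Ω).comp τ = σ := by
  set ι : K →ₐ[F] Ω := IsScalarTower.toAlgHom F K Ω with hι
  have h3 : ∀ x : M, σ x ∈ ι.range := h2
  refine ⟨((AlgEquiv.ofInjectiveField ι).symm : ι.range →ₐ[F] K).comp (σ.codRestrict ι.range h3), ?_⟩
  ext x
  obtain ⟨y, hy⟩ := h2 x
  have h4 : σ.codRestrict ι.range h3 x = AlgEquiv.ofInjectiveField ι y := by
    apply Subtype.ext
    exact hy.symm
  change ι ((AlgEquiv.ofInjectiveField ι).symm (σ.codRestrict ι.range h3 x)) = σ x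
  rw [h4, AlgEquiv.symm_apply_apply]
  exact hy

/-- A sum over a finite set with an involution without fixed points. -/
theorem sum_invol {A G : Type*} [DecidableEq A] [AddCommGroup G] (H : AddSubgroup G) (R : Finset A)
    (g : A → G) (c : A → A) (hR : ∀ a ∈ R, c a ∈ R) (hc : ∀ a ∈ R, c (c a) = a)
    (hne : ∀ a ∈ R, c a ≠ a) (hg : ∀ a ∈ R, g a + g (c a) ∈ H) : ∑ a ∈ R, g a ∈ H := by
  have h1 : ∑ a ∈ R, (QuotientAddGroup.mk' H) (g a) = 0 := by
    refine Finset.sum_involution (fun a _ => c a) (fun a ha => ?_) (fun a ha _ => hne a ha)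
      (fun a ha => hR a ha) (fun a ha => hc a ha)
    rw [← map_add]
    exact (QuotientAddGroup.eq_zero_iff _).2 (hg a ha)
  rw [← map_sum] at h1
  exact (QuotientAddGroup.eq_zero_iff _).1 h1

/-- Proof: the embeddings `σ : M → Ω` which do not factor through `K` are permuted without fixed points
by the nontrivial automorphism `s` of `Ω / K` (`Ct.exists_conj`, `Ct.norm_eq`, see `Ts.emb_norm`), each
pair gives an element of `normCyc`; those which factor through `K` are the `τ : M → K`. -/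
theorem emb_sum {F K M Ω : Type} [Field F] [CharZero F] [Field K] [Algebra F K] [Field Ω]
    [Algebra K Ω] [Algebra F Ω] [IsScalarTower F K Ω] [IsAlgClosure K Ω] [Field M] [Algebra F M]
    [FiniteDimensional F M] (e : K ≃+* ℝ) {n : ℕ} {κ : Type} {f : κ → MvPolynomial (Fin n) F}
    (hf : ∀ i, ∃ d, (f i).IsHomogeneous d) (y : ℙ M (Fin n → M)) (hy : Zer f M y.rep) :
    ∑ σ : M →ₐ[F] Ω, Finsupp.single (mapPt (σ : M →+* Ω) y) (1 : ℤ) -
        ∑ τ : M →ₐ[F] K, Finsupp.single (mapPt (algebraMap K Ω) (mapPt (τ : M →+* K) y)) (1 : ℤ) ∈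
      normCyc Ω (fun i => (f i).map (algebraMap F K)) := by
  classical
  have hK0 : CharZero K := charZero_of_injective_algebraMap (algebraMap F K).injective
  have hac : IsAlgClosed Ω := IsAlgClosure.isAlgClosed K
  have hf2 : Module.finrank K Ω = 2 := finrank_two K Ω e
  obtain ⟨s, hs, hs'⟩ := Ct.exists_conj (k := K) (Ω := Ω) hf2
  have hfd : FiniteDimensional K Ω := Module.finite_of_finrank_pos (by omega)
  have hgal := Ct.isGalois (k := K) (Ω := Ω) hf2
  have hss : ∀ x : Ω, s (s x) = x := by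
    intro x
    have h3 : s * s = 1 := by
      rcases hs' (s * s) with h | h
      · exact h
      · exact absurd (mul_eq_left.1 h) hs
    exact congrArg (fun t : Ω ≃ₐ[K] Ω => t x) h3
  set ι : K →ₐ[F] Ω := IsScalarTower.toAlgHom F K Ω with hι
  set g : (M →ₐ[F] Ω) → (ℙ Ω (Fin n → Ω) →₀ ℤ) :=
    fun σ => Finsupp.single (mapPt (σ : M →+* Ω) y) (1 : ℤ) with hg
  set S : Finset (M →ₐ[F] Ω) := Finset.univ.image fun τ : M →ₐ[F] K => ι.comp τ with hS
  set c : (M →ₐ[F] Ω) → (M →ₐ[F] Ω) :=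
    fun σ => ((s.restrictScalars F : Ω ≃ₐ[F] Ω) : Ω →ₐ[F] Ω).comp σ with hc
  have hcap : ∀ (σ : M →ₐ[F] Ω) (x : M), c σ x = s (σ x) := fun σ x => rfl
  have hcc : ∀ σ, c (c σ) = σ := by
    intro σ
    ext x
    rw [hcap, hcap, hss]
  have hinj : Function.Injective fun τ : M →ₐ[F] K => ι.comp τ := by
    intro τ τ' h
    ext x
    have h1 := congrArg (fun f : M →ₐ[F] Ω => f x) h
    exact (algebraMap K Ω).injective h1
  have h1 : ∑ τ : M →ₐ[F] K, Finsupp.single (mapPt (algebraMap K Ω) (mapPt (τ : M →+* K) y))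
      (1 : ℤ) = ∑ σ ∈ S, g σ := by
    rw [hS, Finset.sum_image fun a _ b _ h => hinj h]
    refine Finset.sum_congr rfl fun τ _ => ?_
    rw [hg, ZCTr.mapPt_comp]
    rfl
  have h2 : ∑ σ : M →ₐ[F] Ω, g σ = ∑ σ ∈ Sᶜ, g σ + ∑ σ ∈ S, g σ := by
    rw [add_comm, Finset.sum_add_sum_compl]
  change ∑ σ : M →ₐ[F] Ω, g σ - _ ∈ _
  rw [h1, h2, add_sub_cancel_right]
  refine sum_invol _ _ g c (fun σ hσ => ?_) (fun σ _ => hcc σ) (fun σ hσ => ?_) fun σ _ => ?_
  · rw [Finset.mem_compl] at hσ ⊢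
    intro h
    obtain ⟨τ, -, hτ⟩ := Finset.mem_image.1 h
    apply hσ
    refine Finset.mem_image.2 ⟨τ, Finset.mem_univ _, ?_⟩
    rw [← hcc σ, ← hτ]
    ext x
    rw [hcap]
    change algebraMap K Ω (τ x) = s (algebraMap K Ω (τ x))
    rw [AlgEquiv.commutes]
  · intro h
    rw [Finset.mem_compl] at hσ
    apply hσ
    have h3 : ∀ x : M, ∃ z : K, algebraMap K Ω z = σ x := by
      intro x
      have h4 : σ x ∈ (⊥ : IntermediateField K Ω) := by
        rw [IsGalois.mem_bot_iff_fixed]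
        intro t
        rcases hs' t with h5 | h5
        · rw [h5]
          rfl
        · rw [h5, ← hcap, h]
      exact IntermediateField.mem_bot.1 h4
    obtain ⟨τ, hτ⟩ := emb_fac σ h3
    exact Finset.mem_image.2 ⟨τ, Finset.mem_univ _, hτ⟩
  · refine AddSubgroup.subset_closure ⟨mapPt (σ : M →+* Ω) y, ?_, ?_⟩
    · exact (zer_hK f _).2 (ZCTr.zer_mapPt hf σ hy)
    · rw [Ct.norm_eq hf2 hs hs', ZCTr.mapPt_comp]
      rfl

/-- The trace of a point over `M` is a zero-cycle over `F`, its base change. Proof: see `Ts.PhL_mem`,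
`Ts.bc_PhL`. -/
theorem tr_bc {F M : Type} [Field F] [CharZero F] [Field M] [Algebra F M] [FiniteDimensional F M]
    {n : ℕ} {κ : Type} {f : κ → MvPolynomial (Fin n) F} (hf : ∀ i, ∃ d, (f i).IsHomogeneous d)
    (y : ℙ M (Fin n → M)) (hy : Zer f M y.rep) :
    trPt F (AlgebraicClosure F) y ∈ cyc (AlgebraicClosure F) f ∧
      deg (AlgebraicClosure F) (trPt F (AlgebraicClosure F) y) = Module.finrank F M ∧
      ∀ (E : Type) [Field E] [Algebra F E], bc (emb' F E) (trPt F (AlgebraicClosure F) y) =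
        ∑ σ : M →ₐ[F] AlgebraicClosure E, Finsupp.single (mapPt (σ : M →+* _) y) (1 : ℤ) := by
  refine ⟨ZCTr.tr_mem_cyc (AlgebraicClosure F) hf hy, ZCTr.deg_tr (AlgebraicClosure F) y, ?_⟩
  intro E _ _
  rw [trPt, map_sum]
  have hinj : Function.Injective
      (fun ι : M →ₐ[F] AlgebraicClosure F => (emb' F E).comp ι) := by
    intro ι ι' h
    ext x
    exact (emb' F E : AlgebraicClosure F →+* AlgebraicClosure E).injective (DFunLike.congr_fun h x)
  have hbij : Function.Bijective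
      (fun ι : M →ₐ[F] AlgebraicClosure F => (emb' F E).comp ι) := by
    rw [Fintype.bijective_iff_injective_and_card]
    exact ⟨hinj, by rw [AlgHom.card, AlgHom.card]⟩
  refine Fintype.sum_bijective _ hbij _ _ fun ι => ?_
  rw [bc_single, mapPt_comp]
  rfl

end Cr
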