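import Pool.Agent.Lib.MP_f80667_ag.Cr.PlnA
import Pool.Agent.Lib.MP_f80667_ag.Tq.SylB

/-! Planes on a cubic hypersurface over a number field with a real embedding. -/

open NumberField

namespace Cr

open Cu

/-- The real numbers which are algebraic over `F` have no extension of odd degree. -/
theorem noOdd_real (F : Type) [Field F] [Algebra F ℝ] : NoOdd (algebraicClosure F ℝ) := by
  intro f hf hodd
  have h1 : Odd (f.map (algebraMap (algebraicClosure F ℝ) ℝ)).natDegree := by
    rwa [Polynomial.natDegree_map]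
  obtain ⟨q, hq, hqo, hqd⟩ := Tq.odd_factor _ _ rfl h1
  have h2 := hq.natDegree_le_two
  have h3 : q.natDegree = 1 := by
    obtain ⟨m, hm⟩ := hqo
    omega
  obtain ⟨r, hr⟩ := Polynomial.exists_root_of_degree_eq_one
    ((Polynomial.degree_eq_iff_natDegree_eq_of_pos one_pos).2 h3)
  have h4 : (f.map (algebraMap (algebraicClosure F ℝ) ℝ)).IsRoot r := hr.dvd hqd
  have h5 : Polynomial.aeval r f = 0 := by
    rw [Polynomial.IsRoot.def, Polynomial.eval_map] at h4
    exact h4
  have h6 : IsAlgebraic (algebraicClosure F ℝ) r := ⟨f, hf.ne_zero, h5⟩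
  have h7 : IsAlgebraic F r := h6.restrictScalars F
  have h8 : r ∈ algebraicClosure F ℝ := mem_algebraicClosure_iff.2 h7
  have h9 : f.IsRoot (⟨r, h8⟩ : algebraicClosure F ℝ) := by
    rw [Polynomial.IsRoot.def]
    apply Subtype.ext
    have h10 := Polynomial.aeval_algebraMap_apply ℝ (⟨r, h8⟩ : algebraicClosure F ℝ) f
    rw [Polynomial.coe_aeval_eq_eval] at h10
    exact h10.symm.trans h5
  exact Polynomial.natDegree_eq_of_degree_eq_some
    (Polynomial.degree_eq_one_of_irreducible_of_root hf h9)

theorem exists_plane {F : Type} [Field F] [NumberField F] {n : ℕ} (hn : 7 ≤ n) (T : Tn F n)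
    (φ : F →+* ℝ) : ∃ (E : Type) (_ : Field E) (_ : Algebra F E) (_ : FiniteDimensional F E)
      (ι : E →+* ℝ) (u : Fin 3 → Fin n → E), ι.comp (algebraMap F E) = φ ∧
      Pln (T.map (algebraMap F E)) u := by
  let iR : Algebra F ℝ := φ.toAlgebra
  obtain ⟨K, hK⟩ : ∃ K : IntermediateField F ℝ, K = algebraicClosure F ℝ := ⟨_, rfl⟩
  have hal : Algebra.IsAlgebraic F K := by
    rw [hK]
    exact algebraicClosure.isAlgebraic F ℝ
  have hno : NoOdd K := by
    rw [hK]
    exact noOdd_real F
  obtain ⟨u, hu⟩ := exists_pln hno hn (fun v hv => by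
    have h1 : ∑ j, (v j : ℝ) * v j = 0 := by
      have h2 := congrArg (algebraMap K ℝ) hv
      rw [map_zero, map_sum] at h2
      simpa using h2
    have h2 := (Finset.sum_eq_zero_iff_of_nonneg fun j _ => mul_self_nonneg (v j : ℝ)).1 h1
    funext j
    apply Subtype.ext
    exact mul_self_eq_zero.1 (h2 j (Finset.mem_univ j))) (T.map (algebraMap F K))
  obtain ⟨E, hE⟩ : ∃ E : IntermediateField F K,
      E = IntermediateField.adjoin F (Set.range fun s : Fin 3 × Fin n => u s.1 s.2) := ⟨_, rfl⟩
  have hmem : ∀ i j, u i j ∈ E := fun i j => by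
    rw [hE]
    exact IntermediateField.subset_adjoin F _ ⟨(i, j), rfl⟩
  have hfd : FiniteDimensional F E := by
    rw [hE]
    exact IntermediateField.finiteDimensional_adjoin fun x _ =>
      (Algebra.IsAlgebraic.isAlgebraic (R := F) x).isIntegral
  let u' : Fin 3 → Fin n → E := fun i j => ⟨u i j, hmem i j⟩
  have hup : ∀ i, up K (u' i) = u i := fun i => rfl
  have hT : ex (T.map (algebraMap F E)) K = ex (T.map (algebraMap F K)) K := rfl
  have hinj := (algebraMap E K).injective
  refine ⟨E, inferInstance, inferInstance, hfd, (algebraMap K ℝ).comp (algebraMap E K), u', ?_,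
    ⟨?_, fun i => ?_, fun i j => ?_, ?_⟩⟩
  · rfl
  · rw [Fintype.linearIndependent_iff]
    intro g hg i
    apply hinj
    rw [map_zero]
    refine Fintype.linearIndependent_iff.1 hu.ind (fun i => algebraMap E K (g i)) ?_ i
    funext j
    have h1 := congrArg (algebraMap E K) (congrFun hg j)
    rw [Finset.sum_apply, map_sum] at h1
    rw [Finset.sum_apply]
    refine Eq.trans ?_ (h1.trans (map_zero _))
    exact Finset.sum_congr rfl fun i _ => rfl
  · apply hinj
    rw [← ex_f (M := E) (L := K), hup, hT, hu.f, map_zero]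
  · apply hinj
    rw [← ex_D (M := E) (L := K), hup, hup, hT, hu.D, map_zero]
  · apply hinj
    rw [← ex_E (M := E) (L := K), hup, hup, hup, hT, hu.E3, map_zero]

end Cr
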