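import Pool.Agent.Lib.MP_f80667_ag.Cr.RC
import Pool.Agent.Lib.MP_f80667_ag.Cu.ThZ
import Pool.Agent.Lib.MP_f80667_ag.Rl.Near
import Pool.Agent.Lib.MP_f80667_ag.Ts.NearA

/-! The classes of the real points modulo rational equivalence and norms. -/

open scoped LinearAlgebra.Projectivization
open MvPolynomial Topology Filter

namespace Cr

open Cu ZC

section

variable {K : Type} [Field K] {Ω : Type} [Field Ω] [Algebra K Ω] {n : ℕ}

/-- A smooth cubic hypersurface is smooth in the sense of `Rl.SmAt`. -/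
theorem rc_smAt {f : MvPolynomial (Fin n) K} (hf : f.IsHomogeneous 3)
    (hs : ∀ x : Fin n → Ω, x ≠ 0 → ∃ i, MvPolynomial.aeval x (MvPolynomial.pderiv i f) ≠ 0)
    {P : Fin n → K} (hP : P ≠ 0) : Rl.SmAt (fun _ : Unit => f) P := by
  refine ⟨1, fun _ => f, 1, fun _ => ⟨3, hf⟩, ?_, ?_, fun x _ =>
    ⟨fun h i => h 0, fun h i => h ()⟩⟩
  · rw [map_one]
    exact one_ne_zero
  · intro b hb
    have hP' : (fun i => algebraMap K Ω (P i)) ≠ 0 := by
      obtain ⟨j, hj⟩ := Function.ne_iff.1 hP
      exact Function.ne_iff.2 ⟨j, (map_ne_zero (algebraMap K Ω)).2 hj⟩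
    obtain ⟨i, hi⟩ := hs _ hP'
    have h1 : MvPolynomial.aeval (fun i => algebraMap K Ω (P i)) (MvPolynomial.pderiv i f) =
        algebraMap K Ω (MvPolynomial.aeval P (MvPolynomial.pderiv i f)) := by
      have h2 := MvPolynomial.comp_aeval_apply P (Algebra.ofId K Ω) (MvPolynomial.pderiv i f)
      exact h2.symm
    have h2 : MvPolynomial.aeval P (MvPolynomial.pderiv i f) ≠ 0 := by
      intro h
      apply hi
      rw [h1, h, map_zero]
    have h3 := hb i
    rw [Fin.sum_univ_one] at h3
    funext j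
    fin_cases j
    exact (mul_eq_zero.1 h3).resolve_right h2

end

/-- Proof: `cl y` = class of the point `e⁻¹ y` (`0` if `y = 0`). `curve`: `Cu.exists_th` (`Th.curve`), or
`Tq.push_curve`. `near`: `Rl.rel_near` as in `Ts.pt_near_aux`. -/
theorem exists_rc {K : Type} [Field K] (Ω : Type) [Field Ω] [Algebra K Ω] [IsAlgClosure K Ω]
    (e : K ≃+* ℝ) {n : ℕ} (f : MvPolynomial (Fin n) K) (hf : f.IsHomogeneous 3) (T : Tn K n)
    (hT : ∀ (R : Type) [CommRing R] [Algebra K R] (x : Fin n → R),
      MvPolynomial.aeval x f = (ex T R).f x)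
    (hs : ∀ x : Fin n → Ω, x ≠ 0 → ∃ i, MvPolynomial.aeval x (MvPolynomial.pderiv i f) ≠ 0) :
    ∃ C : RC (cb (T.map (e : K →+* ℝ))) ((ℙ Ω (Fin n → Ω) →₀ ℤ) ⧸
        (ratEq Ω (fun _ : Unit => f) ⊔ normCyc Ω (fun _ : Unit => f))),
      ∀ (x : Fin n → K) (hx : x ≠ 0), C.cl (fun i => e (x i)) =
        QuotientAddGroup.mk (Ct.pc Ω x hx) := by
  classical
  have hch : CharZero K := charZero_of_injective_ringHom (f := e.symm.toRingHom) e.symm.injective
  obtain ⟨C, hC⟩ := exists_th Ω f T hT
  have hid : ex T K = cb T := rfl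
  -- the form at a real point
  have hval : ∀ y : Fin n → ℝ, (cb (T.map (e : K →+* ℝ))).f y =
      e ((ex T K).f fun i => e.symm (y i)) := by
    intro y
    have h1 := map_f (e : K →+* ℝ) T (fun i => e.symm (y i))
    simp only [RingEquiv.coe_toRingHom, RingEquiv.apply_symm_apply] at h1
    rw [hid]
    exact h1
  have hne : ∀ {y : Fin n → ℝ}, y ≠ 0 → (fun i => e.symm (y i)) ≠ 0 := by
    intro y hy
    obtain ⟨j, hj⟩ := Function.ne_iff.1 hy
    exact Function.ne_iff.2 ⟨j, (map_ne_zero e.symm).2 hj⟩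
  let J : AddSubgroup (ℙ Ω (Fin n → Ω) →₀ ℤ) :=
    ratEq Ω (fun _ : Unit => f) ⊔ normCyc Ω (fun _ : Unit => f)
  let cl : (Fin n → ℝ) → (ℙ Ω (Fin n → Ω) →₀ ℤ) ⧸ J := fun y =>
    if hy : (fun i => e.symm (y i)) = 0 then 0 else
      QuotientAddGroup.mk (Ct.pc Ω (fun i => e.symm (y i)) hy)
  have hcl : ∀ (y : Fin n → ℝ) (hy : (fun i => e.symm (y i)) ≠ 0),
      cl y = QuotientAddGroup.mk (Ct.pc Ω (fun i => e.symm (y i)) hy) := fun y hy => dif_neg hy
  refine ⟨⟨cl, ?_, ?_, ?_⟩, ?_⟩
  · -- smul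
    intro a x ha
    by_cases hx : x = 0
    · rw [hx, smul_zero]
    · have h1 := hne hx
      have h2 := hne (smul_ne_zero ha hx)
      rw [hcl _ h1, hcl _ h2]
      congr 1
      have h3 : (fun i => e.symm ((a • x) i)) = e.symm a • fun i => e.symm (x i) := by
        funext i
        simp only [Pi.smul_apply, smul_eq_mul, map_mul]
      have h4 : ∀ (v : Fin n → K) (hv : v ≠ 0), v = e.symm a • (fun i => e.symm (x i)) →
          Ct.pc Ω v hv = Ct.pc Ω (fun i => e.symm (x i)) h1 := by
        intro v hv hve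
        subst hve
        exact Ct.pc_smul Ω _ h1 _ _
      exact h4 _ h2 h3
  · -- curve
    intro N d h0 hN hd
    have h1 := hne h0
    have h2 := hne hN
    rw [hcl _ h1, hcl _ h2]
    have h3 := C.curve K N (fun a i => e.symm (d a i)) h1 h2 (fun s => by
      have h4 := hd (e s)
      rw [hval] at h4
      have h5 := (map_eq_zero e).1 h4
      have h6 : (fun i => e.symm ((∑ a ∈ Finset.range (N + 1), e s ^ a • d a) i)) =
          ∑ a ∈ Finset.range (N + 1), s ^ a • fun i => e.symm (d a i) := by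
        funext i
        simp only [Finset.sum_apply, Pi.smul_apply, smul_eq_mul, map_sum, map_mul, map_pow,
          RingEquiv.symm_apply_apply]
      rw [h6] at h5
      exact h5)
    rw [hC, hC, clZ, clZ, dif_neg h1, dif_neg h2, trPt_self, trPt_self] at h3
    have h4 := QuotientAddGroup.eq.1 h3
    exact QuotientAddGroup.eq.2 (AddSubgroup.mem_sup_left h4)
  · -- near
    intro x hx fx
    let _ : TopologicalSpace K := TopologicalSpace.induced e inferInstance
    have he : Continuous e := continuous_induced_dom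
    have hes : Continuous e.symm := by
      rw [continuous_induced_rng]
      have : (e ∘ e.symm : ℝ → ℝ) = id := by
        funext x
        exact e.apply_symm_apply x
      rw [this]
      exact continuous_id
    have hP := hne hx
    have hz : ∀ {y : Fin n → ℝ}, (cb (T.map (e : K →+* ℝ))).f y = 0 →
        Zer (fun _ : Unit => f) K (fun i => e.symm (y i)) := by
      intro y hy _
      rw [hval] at hy
      rw [hT]
      exact (map_eq_zero e).1 hy
    have h := Rl.rel_near Ω e he (fun _ : Unit => ⟨3, hf⟩) hP (hz fx) (rc_smAt hf hs hP)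
    have hc : Continuous fun (y : Fin n → ℝ) (j : Fin n) => e.symm (y j) :=
      continuous_pi fun j => hes.comp (continuous_apply j)
    obtain ⟨δ, hδ, hb⟩ := Metric.eventually_nhds_iff.1 ((hc.tendsto x).eventually h)
    refine ⟨δ, hδ, fun y hy fy hyx => ?_⟩
    have h1 := hb (y := y) ((dist_pi_lt_iff hδ).2 fun i => by
      rw [Real.dist_eq]
      exact hyx i) (hz fy) (hne hy)
    rw [hcl _ hP, hcl _ (hne hy)]
    refine QuotientAddGroup.eq.2 ?_
    rw [neg_add_eq_sub]
    exact h1
  · intro x hx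
    have h1 : (fun i => e.symm ((fun i => e (x i)) i)) = x := by
      funext i
      exact e.symm_apply_apply (x i)
    have h2 : ∀ (v : Fin n → K) (hv : v ≠ 0), v = x → Ct.pc Ω v hv = Ct.pc Ω x hx := by
      intro v hv hve
      subst hve
      rfl
    have h3 : (fun i => e.symm ((fun i => e (x i)) i)) ≠ 0 := by rw [h1]; exact hx
    change cl (fun i => e (x i)) = _
    rw [hcl _ h3, h2 _ h3 h1]

end Cr
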