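import Pool.Agent.Lib.MP_f80667_ag.Cr.ResB

/-! The locus where the residual quadric has corank at least two has codimension at least two: the
entries of the adjugate of the generic matrix have no common prime divisor. -/

open MvPolynomial

namespace Cr.Re

universe u

theorem der_sym {k A : Type*} [CommRing k] [CommRing A] [Algebra k A] (δ : Derivation k A A)
    {m : ℕ} (N : Matrix (Fin m) (Fin m) A) (hN : N.transpose = N) (g : A) (p r q s : Fin m → A)
    (hp : N.mulVec p = g • r) (hq : N.mulVec q = g • s) :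
    ∃ c, p ⬝ᵥ (N.map δ).mulVec q = δ g * (p ⬝ᵥ s) + g * c := by
  have h1 : (N.map δ).mulVec q =
      g • (fun j => δ (s j)) + δ g • s - N.mulVec (fun j => δ (q j)) := by
    funext j
    have h2 := congrArg δ (congrFun hq j)
    simp only [Matrix.mulVec, dotProduct, map_sum, Derivation.leibniz, smul_eq_mul, Pi.smul_apply,
      Finset.sum_add_distrib] at h2
    simp only [Matrix.mulVec, dotProduct, Pi.sub_apply, Pi.add_apply, Pi.smul_apply, smul_eq_mul,
      Matrix.map_apply]
    have h3 : ∑ x, δ (N j x) * q x = ∑ x, q x * δ (N j x) :=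
      Finset.sum_congr rfl fun x _ => mul_comm _ _
    rw [h3]
    linear_combination h2
  have h4 : p ⬝ᵥ N.mulVec (fun j => δ (q j)) = g * (r ⬝ᵥ fun j => δ (q j)) := by
    rw [Matrix.dotProduct_mulVec]
    have h5 : Matrix.vecMul p N = g • r := by
      rw [← hp]
      nth_rw 1 [← hN]
      rw [Matrix.vecMul_transpose]
    rw [h5, smul_dotProduct, smul_eq_mul]
  refine ⟨(p ⬝ᵥ fun j => δ (s j)) - r ⬝ᵥ fun j => δ (q j), ?_⟩
  rw [h1, dotProduct_sub, dotProduct_add, dotProduct_smul, dotProduct_smul, h4, smul_eq_mul,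
    smul_eq_mul]
  ring

/-- Linear forms. -/
noncomputable def lf {k : Type*} [Field k] {n : ℕ} (l : Fin n → k) : MvPolynomial (Fin n) k :=
  ∑ j, C (l j) * X j

theorem aeval_lf {k : Type*} [Field k] {n : ℕ} (l : Fin n → k) {R : Type*} [CommRing R]
    [Algebra k R] (x : Fin n → R) : aeval x (lf l) = ∑ j, algebraMap k R (l j) * x j := by
  unfold lf
  rw [map_sum]
  exact Finset.sum_congr rfl fun j _ => by rw [map_mul, aeval_C, aeval_X]

theorem eval_lf {k : Type*} [Field k] {n : ℕ} (l : Fin n → k) (j : Fin n) :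
    eval (Pi.single j 1) (lf l) = l j := by
  classical
  unfold lf
  rw [map_sum, Finset.sum_eq_single j]
  · rw [map_mul, eval_C, eval_X, Pi.single_eq_same, mul_one]
  · intro i _ hi
    rw [map_mul, eval_C, eval_X, Pi.single_eq_of_ne hi, mul_zero]
  · intro h
    exact absurd (Finset.mem_univ j) h

theorem totalDegree_lf {k : Type*} [Field k] {n : ℕ} (l : Fin n → k) :
    (lf l).totalDegree ≤ 1 := by
  unfold lf
  refine (totalDegree_finsetSum _ _).trans (Finset.sup_le fun j _ => ?_)
  refine (totalDegree_mul _ _).trans ?_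
  rw [totalDegree_C, zero_add, totalDegree_X]

/-- A prime does not divide two independent linear forms. -/
theorem not_dvd_lf {k : Type*} [Field k] {n : ℕ} {g : MvPolynomial (Fin n) k} (hg : Prime g)
    {l l' : Fin n → k} (h : LinearIndependent k ![l, l']) (h1 : g ∣ lf l) (h2 : g ∣ lf l') :
    False := by
  rw [LinearIndependent.pair_iff] at h
  have hne : ∀ l : Fin n → k, l ≠ 0 → lf l ≠ 0 := by
    intro l hl h0
    apply hl
    funext j
    rw [← eval_lf l j, h0, map_zero, Pi.zero_apply]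
  have hg0 : 0 < g.totalDegree := by
    rw [Nat.pos_iff_ne_zero]
    intro h0
    rw [totalDegree_eq_zero_iff_eq_C] at h0
    apply hg.not_isUnit
    rw [h0]
    refine IsUnit.map C (isUnit_iff_ne_zero.2 fun h3 => ?_)
    apply hg.ne_zero
    rw [h0, h3, C_0]
  have key : ∀ l : Fin n → k, l ≠ 0 → g ∣ lf l → ∃ a : k, a ≠ 0 ∧ lf l = C a * g := by
    intro l hl hd
    obtain ⟨q, hq⟩ := hd
    have hq0 : q ≠ 0 := by
      rintro rfl
      exact hne l hl (by rw [hq, mul_zero])
    have h3 := totalDegree_mul_of_isDomain hg.ne_zero hq0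
    rw [← hq] at h3
    have h4 := totalDegree_lf l
    have h5 : q.totalDegree = 0 := by omega
    rw [totalDegree_eq_zero_iff_eq_C] at h5
    refine ⟨q.coeff 0, ?_, ?_⟩
    · intro h6
      exact hq0 (by rw [h5, h6, C_0])
    · rw [hq, mul_comm]
      nth_rw 1 [h5]
  have hl : l ≠ 0 := by
    rintro rfl
    exact one_ne_zero (h 1 0 (by simp)).1
  have hl' : l' ≠ 0 := by
    rintro rfl
    exact one_ne_zero (h 0 1 (by simp)).2
  obtain ⟨a, ha, e⟩ := key l hl h1
  obtain ⟨a', ha', e'⟩ := key l' hl' h2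
  apply ha'
  refine (h a' (-a) ?_).1
  funext j
  rw [Pi.add_apply, Pi.smul_apply, Pi.smul_apply, smul_eq_mul, smul_eq_mul, ← eval_lf l j,
    ← eval_lf l' j, e, e', map_mul, map_mul, eval_C, eval_C, Pi.zero_apply]
  ring

/-- A binary quadratic form over an algebraically closed field has a zero. -/
theorem quad2 {Ω : Type*} [Field Ω] [IsAlgClosed Ω] (a b c : Ω) :
    ∃ s t : Ω, (s ≠ 0 ∨ t ≠ 0) ∧ a * s ^ 2 + b * (s * t) + c * t ^ 2 = 0 := by
  by_cases ha : a = 0
  · exact ⟨1, 0, Or.inl one_ne_zero, by rw [ha]; ring⟩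
  · obtain ⟨s, hs⟩ := IsAlgClosed.exists_root
      (Polynomial.C a * Polynomial.X ^ 2 + Polynomial.C b * Polynomial.X + Polynomial.C c) (by
        rw [Polynomial.degree_quadratic ha]
        decide)
    refine ⟨s, 1, Or.inr one_ne_zero, ?_⟩
    rw [Polynomial.IsRoot] at hs
    simp only [Polynomial.eval_add, Polynomial.eval_mul, Polynomial.eval_C, Polynomial.eval_pow,
      Polynomial.eval_X] at hs
    linear_combination hs

section core

variable {k : Type u} [Field k] {n m : ℕ} (T : Cu.Tn k n) (w : Fin m → Fin n → k)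
  {Ω : Type*} [Field Ω] [Algebra k Ω] (φ : MvPolynomial (Fin n) k →ₐ[k] Ω)

private theorem single_map {R S : Type*} [CommRing R] [CommRing S] [Algebra k R] [Algebra k S]
    (φ : R →ₐ[k] S) (i : Fin n) : (fun j => φ ((Pi.single i 1 : Fin n → R) j)) = Pi.single i 1 := by
  funext j
  by_cases hj : j = i
  · rw [hj, Pi.single_eq_same, Pi.single_eq_same, map_one]
  · rw [Pi.single_eq_of_ne hj, Pi.single_eq_of_ne hj, map_zero]

private theorem der_gen (i : Fin n) (a c : Fin (m + 1)) :
    φ (pderiv i (Nt T w (MvPolynomial (Fin n) k) X a c)) =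
      Ntd T w Ω (fun j => φ (X j)) (Pi.single i 1) a c := by
  rw [der_Nt]
  have h1 : (fun l => pderiv i (X l : MvPolynomial (Fin n) k)) = Pi.single i 1 := by
    funext j
    rw [pderiv_X]
  rw [h1]
  have h2 := congrFun (congrFun (Ntd_map T φ w X (Pi.single i 1)) a) c
  rw [single_map] at h2
  exact h2

private theorem form_gen {g : MvPolynomial (Fin n) k} (hg0 : φ g = 0)
    (p r q s : Fin (m + 1) → MvPolynomial (Fin n) k)
    (hp : (Nt T w (MvPolynomial (Fin n) k) X).mulVec p = g • r)
    (hq : (Nt T w (MvPolynomial (Fin n) k) X).mulVec q = g • s) (i : Fin n) :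
    (fun j => φ (p j)) ⬝ᵥ (Ntd T w Ω (fun j => φ (X j)) (Pi.single i 1)).mulVec
      (fun j => φ (q j)) = φ (pderiv i g) * φ (p ⬝ᵥ s) := by
  obtain ⟨c, hc⟩ := der_sym (pderiv i) _ (Nt_transpose T w X) g p r q s hp hq
  have h3 := congrArg φ hc
  rw [map_add, map_mul, map_mul, hg0, zero_mul, add_zero] at h3
  rw [← h3]
  simp only [dotProduct, Matrix.mulVec, map_sum, map_mul, Matrix.map_apply, der_gen]

/-- A singular point over `Ω`. -/
private theorem sing_gen [IsAlgClosed Ω] {g : MvPolynomial (Fin n) k} (hg0 : φ g = 0)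
    (v v' c c' : Fin (m + 1) → MvPolynomial (Fin n) k)
    (hv : (Nt T w (MvPolynomial (Fin n) k) X).mulVec v = g • c)
    (hv' : (Nt T w (MvPolynomial (Fin n) k) X).mulVec v' = g • c')
    (hx : LinearIndependent Ω ![(fun i => φ (v i)), fun i => φ (v' i)]) :
    ∃ z : Fin (m + 1) → Ω, z ≠ 0 ∧ ∀ i, 2 * (Cu.ex T Ω).D
      ((ve (uw w Ω) z).1 + z (Fin.last m) • fun j => φ (X j)) (Pi.single i 1) = 0 := by
  obtain ⟨s, t, hst, hq⟩ := quad2 (φ (v ⬝ᵥ c)) (φ (v ⬝ᵥ c') + φ (v' ⬝ᵥ c)) (φ (v' ⬝ᵥ c'))
  have hE := form_gen T w φ hg0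
  generalize hb : (fun j => φ (X j)) = b at hE ⊢
  refine ⟨s • (fun i => φ (v i)) + t • fun i => φ (v' i), ?_, fun i => ?_⟩
  · intro h0
    rw [LinearIndependent.pair_iff] at hx
    obtain ⟨h3, h4⟩ := hx s t h0
    rcases hst with h5 | h5
    · exact h5 h3
    · exact h5 h4
  · have e1 := hE v c v c hv hv i
    have e2 := hE v c v' c' hv hv' i
    have e3 := hE v' c' v c hv' hv i
    have e4 := hE v' c' v' c' hv' hv' i
    rw [← dquad]
    change _ ⬝ᵥ (Ntd T w Ω b (Pi.single i 1)).mulVec _ = 0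
    generalize Ntd T w Ω b (Pi.single i 1) = E at e1 e2 e3 e4 ⊢
    rw [Matrix.mulVec_add, Matrix.mulVec_smul, Matrix.mulVec_smul, add_dotProduct,
      dotProduct_add, dotProduct_add, smul_dotProduct, smul_dotProduct, smul_dotProduct,
      smul_dotProduct, dotProduct_smul, dotProduct_smul, dotProduct_smul, dotProduct_smul,
      e1, e2, e3, e4]
    simp only [smul_eq_mul]
    linear_combination φ (pderiv i g) * hq

/-- The linear forms vanishing on the `w i` vanish at a point of their span over `Ω`. -/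
private theorem lf_gen (z : Fin (m + 1) → Ω) (hl : z (Fin.last m) ≠ 0) (b : Fin n → Ω)
    (hy : ∑ i : Fin m, z i.castSucc • uw w Ω i + z (Fin.last m) • b = 0) (l : Fin n → k)
    (h6 : ∀ i, ∑ j, w i j * l j = 0) : aeval b (lf l) = 0 := by
  rw [aeval_lf]
  have h4 := congrArg (fun y : Fin n → Ω => ∑ j, algebraMap k Ω (l j) * y j) hy
  simp only [Pi.add_apply, Finset.sum_apply, Pi.smul_apply, smul_eq_mul, Pi.zero_apply,
    mul_zero, Finset.sum_const_zero, mul_add, Finset.sum_add_distrib] at h4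
  have h5 : ∑ j, algebraMap k Ω (l j) * ∑ i, z i.castSucc * uw w Ω i j = 0 := by
    simp only [Finset.mul_sum]
    rw [Finset.sum_comm]
    refine Finset.sum_eq_zero fun i _ => ?_
    have h7 := congrArg (algebraMap k Ω) (h6 i)
    rw [map_sum, map_zero] at h7
    have h8 : ∑ j, algebraMap k Ω (l j) * (z i.castSucc * uw w Ω i j) =
        z i.castSucc * ∑ j, algebraMap k Ω (w i j * l j) := by
      rw [Finset.mul_sum]
      refine Finset.sum_congr rfl fun j _ => ?_
      rw [map_mul]
      change _ * (_ * algebraMap k Ω (w i j)) = _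
      ring
    rw [h8, h7, mul_zero]
  rw [h5, zero_add] at h4
  have h9 : z (Fin.last m) * ∑ j, algebraMap k Ω (l j) * b j = 0 := by
    rw [← h4, Finset.mul_sum]
    refine Finset.sum_congr rfl fun j _ => ?_
    ring
  exact (mul_eq_zero.1 h9).resolve_left hl

/-- Two independent linear forms vanishing on the `w i`. -/
private theorem exists_forms (hm : m + 2 ≤ n) :
    ∃ l l' : Fin n → k, LinearIndependent k ![l, l'] ∧ (∀ i, ∑ j, w i j * l j = 0) ∧
      ∀ i, ∑ j, w i j * l' j = 0 := by
  let F : (Fin n → k) →ₗ[k] (Fin m → k) := Matrix.mulVecLin (Matrix.of w)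
  have hker2 : 1 < Module.finrank k (LinearMap.ker F) := by
    have h3 := F.finrank_range_add_finrank_ker
    have h4 := Submodule.finrank_le (LinearMap.range F)
    rw [Module.finrank_fin_fun] at h3 h4
    omega
  obtain ⟨l, hl0⟩ := Module.finrank_pos_iff_exists_ne_zero.1 (zero_lt_one.trans hker2)
  obtain ⟨l', hl'⟩ := exists_linearIndependent_pair_of_one_lt_finrank hker2 hl0
  refine ⟨l, l', ?_, congrFun (LinearMap.mem_ker.1 l.2), congrFun (LinearMap.mem_ker.1 l'.2)⟩
  have h3 := hl'.map' (LinearMap.ker F).subtype (LinearMap.ker F).ker_subtype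
  have h4 : (LinearMap.ker F).subtype ∘ ![l, l'] = ![(l : Fin n → k), (l' : Fin n → k)] := by
    funext i
    fin_cases i <;> rfl
  rwa [h4] at h3

private theorem core [IsAlgClosed Ω] (hT : Cu.Sm T) (h2 : (2 : k) ≠ 0)
    (hw : LinearIndependent k w) (hm : m + 2 ≤ n)
    (g : MvPolynomial (Fin n) k) (hg : Prime g) (hker : ∀ a, φ a = 0 ↔ g ∣ a)
    (v v' c c' : Fin (m + 1) → MvPolynomial (Fin n) k)
    (hv : (Nt T w (MvPolynomial (Fin n) k) X).mulVec v = g • c)
    (hv' : (Nt T w (MvPolynomial (Fin n) k) X).mulVec v' = g • c')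
    (hx : LinearIndependent Ω ![(fun i => φ (v i)), fun i => φ (v' i)]) : False := by
  obtain ⟨z, hz, hD⟩ := sing_gen T w φ ((hker g).2 dvd_rfl) v v' c c' hv hv' hx
  have h2' : (2 : Ω) ≠ 0 := by
    intro h3
    apply h2
    apply (algebraMap k Ω).injective
    rw [map_ofNat, map_zero, h3]
  have hu : LinearIndependent Ω (uw w Ω) := (linearIndependent_algebraMap_comp_iff (S := Ω)).2 hw
  have hy := sm_red T hT Ω _ fun i => (mul_eq_zero.1 (hD i)).resolve_left h2'
  have h3 : (ve (uw w Ω) z).1 = ∑ i : Fin m, z i.castSucc • uw w Ω i := by rw [ve_eq]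
  rw [h3] at hy
  by_cases hl : z (Fin.last m) = 0
  · rw [hl, zero_smul, add_zero] at hy
    have h3 := Fintype.linearIndependent_iff.1 hu (fun i => z i.castSucc) hy
    apply hz
    funext i
    refine Fin.lastCases ?_ (fun i => ?_) i
    · exact hl
    · exact h3 i
  · obtain ⟨l, l', hlin, h4, h5⟩ := exists_forms w hm
    have h6 : φ = aeval (fun j => φ (X j)) := by
      apply MvPolynomial.algHom_ext
      intro j
      rw [aeval_X]
    have hdvd : ∀ l : Fin n → k, (∀ i, ∑ j, w i j * l j = 0) → g ∣ lf l := by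
      intro l hl'
      rw [← hker, h6]
      exact lf_gen w z hl _ hy l hl'
    exact not_dvd_lf hg hlin (hdvd l h4) (hdvd l' h5)

private theorem core' [IsAlgClosed Ω] (hT : Cu.Sm T) (h2 : (2 : k) ≠ 0)
    (hw : LinearIndependent k w) (hm : m + 2 ≤ n)
    (g : MvPolynomial (Fin n) k) (hg : Prime g)
    (h : ∀ i j, g ∣ (Nt T w (MvPolynomial (Fin n) k) X).adjugate i j)
    [Algebra (MvPolynomial (Fin n) k ⧸ Ideal.span {g}) Ω]
    [IsScalarTower k (MvPolynomial (Fin n) k ⧸ Ideal.span {g}) Ω]
    (hinj : Function.Injective (algebraMap (MvPolynomial (Fin n) k ⧸ Ideal.span {g}) Ω)) :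
    False := by
  obtain ⟨v, v', c, c', hv, hv', hlin⟩ := exists_pair _ g hg h
  have hF : FaithfulSMul (MvPolynomial (Fin n) k ⧸ Ideal.span {g}) Ω :=
    (faithfulSMul_iff_algebraMap_injective _ _).2 hinj
  refine core T w ((IsScalarTower.toAlgHom k (MvPolynomial (Fin n) k ⧸ Ideal.span {g}) Ω).comp
    (Ideal.Quotient.mkₐ k (Ideal.span {g}))) hT h2 hw hm g hg (fun a => ?_) v v' c c' hv hv' ?_
  · rw [← Ideal.mem_span_singleton, ← Ideal.Quotient.eq_zero_iff_mem]
    constructor
    · intro ha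
      exact hinj (ha.trans (map_zero _).symm)
    · intro ha
      change algebraMap (MvPolynomial (Fin n) k ⧸ Ideal.span {g}) Ω (Ideal.Quotient.mk _ a) = 0
      rw [ha, map_zero]
  · have h3 := (linearIndependent_algebraMap_comp_iff (S := Ω)).2 hlin
    have h4 : (fun i => algebraMap (MvPolynomial (Fin n) k ⧸ Ideal.span {g}) Ω ∘
        (![(fun i => Ideal.Quotient.mk (Ideal.span {g}) (v i)),
          fun i => Ideal.Quotient.mk (Ideal.span {g}) (v' i)] : Fin 2 → _) i) =
        ![(fun i => algebraMap (MvPolynomial (Fin n) k ⧸ Ideal.span {g}) Ω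
          (Ideal.Quotient.mk (Ideal.span {g}) (v i))),
          fun i => algebraMap (MvPolynomial (Fin n) k ⧸ Ideal.span {g}) Ω
            (Ideal.Quotient.mk (Ideal.span {g}) (v' i))] := by
      funext i
      fin_cases i <;> rfl
    rw [h4] at h3
    exact h3

end core

/-- The LEMMA: the entries of the adjugate of the generic matrix have no common prime divisor. -/
theorem no_prime {k : Type u} [Field k] {n m : ℕ} (T : Cu.Tn k n) (hT : Cu.Sm T)
    (h2 : (2 : k) ≠ 0) (w : Fin m → Fin n → k) (hw : LinearIndependent k w) (hm : m + 2 ≤ n)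
    (g : MvPolynomial (Fin n) k) (hg : Prime g)
    (h : ∀ i j, g ∣ (Nt T w (MvPolynomial (Fin n) k) X).adjugate i j) : False := by
  have hI : (Ideal.span {g}).IsPrime := (Ideal.span_singleton_prime hg.ne_zero).2 hg
  have hinj : Function.Injective (algebraMap (MvPolynomial (Fin n) k ⧸ Ideal.span {g})
      (AlgebraicClosure (FractionRing (MvPolynomial (Fin n) k ⧸ Ideal.span {g})))) := by
    rw [IsScalarTower.algebraMap_eq _
      (FractionRing (MvPolynomial (Fin n) k ⧸ Ideal.span {g}))
      (AlgebraicClosure (FractionRing (MvPolynomial (Fin n) k ⧸ Ideal.span {g})))]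
    exact (algebraMap (FractionRing (MvPolynomial (Fin n) k ⧸ Ideal.span {g}))
      (AlgebraicClosure (FractionRing (MvPolynomial (Fin n) k ⧸ Ideal.span {g})))).injective.comp
        (FaithfulSMul.algebraMap_injective _ _)
  have htow : IsScalarTower k (MvPolynomial (Fin n) k ⧸ Ideal.span {g})
      (AlgebraicClosure (FractionRing (MvPolynomial (Fin n) k ⧸ Ideal.span {g}))) :=
    .of_algebraMap_eq (R := k) (S := MvPolynomial (Fin n) k ⧸ Ideal.span {g})
      (A := AlgebraicClosure (FractionRing (MvPolynomial (Fin n) k ⧸ Ideal.span {g}))) fun x => by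
      rw [IsScalarTower.algebraMap_apply k
          (FractionRing (MvPolynomial (Fin n) k ⧸ Ideal.span {g})) (AlgebraicClosure
            (FractionRing (MvPolynomial (Fin n) k ⧸ Ideal.span {g}))),
        IsScalarTower.algebraMap_apply k (MvPolynomial (Fin n) k ⧸ Ideal.span {g})
          (FractionRing (MvPolynomial (Fin n) k ⧸ Ideal.span {g})),
        ← IsScalarTower.algebraMap_apply (MvPolynomial (Fin n) k ⧸ Ideal.span {g})
          (FractionRing (MvPolynomial (Fin n) k ⧸ Ideal.span {g})) (AlgebraicClosure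
            (FractionRing (MvPolynomial (Fin n) k ⧸ Ideal.span {g})))]
  exact core' T w hT h2 hw hm g hg h hinj

end Cr.Re
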