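import Pool.Agent.Lib.MP_f80667_ag.Cr.ResD

/-! A family of polynomials in `n` variables without a common prime divisor generates the unit ideal
on a general line `b0 + X b1`. -/

namespace Cr.Re

open MvPolynomial

variable {E : Type*} [Field E] {n : ℕ}

/-- The substitution `Z + X Y`: `E[Z] → E[Z][Y][X]`. -/
noncomputable def gl (E : Type*) [Field E] (n : ℕ) : MvPolynomial (Fin n) E →+*
    Polynomial (MvPolynomial (Fin n) (MvPolynomial (Fin n) E)) :=
  eval₂Hom (Polynomial.C.comp (C.comp C))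
    (fun i => Polynomial.C (C (X i)) + Polynomial.X * Polynomial.C (X i))

/-- The substitution `Z ↦ Z + a X Y`. -/
noncomputable def sh (a : Polynomial (MvPolynomial (Fin n) (MvPolynomial (Fin n) E))) :
    Polynomial (MvPolynomial (Fin n) (MvPolynomial (Fin n) E)) →+*
      Polynomial (MvPolynomial (Fin n) (MvPolynomial (Fin n) E)) :=
  Polynomial.eval₂RingHom (eval₂Hom (eval₂Hom (Polynomial.C.comp (C.comp C))
    (fun i => Polynomial.C (C (X i)) + a * (Polynomial.X * Polynomial.C (X i))))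
    (fun i => Polynomial.C (X i))) Polynomial.X

theorem sh_X (a : Polynomial (MvPolynomial (Fin n) (MvPolynomial (Fin n) E))) :
    sh a Polynomial.X = Polynomial.X := by
  unfold sh
  rw [Polynomial.coe_eval₂RingHom, Polynomial.eval₂_X]

theorem sh_C (a : Polynomial (MvPolynomial (Fin n) (MvPolynomial (Fin n) E)))
    (s : MvPolynomial (Fin n) (MvPolynomial (Fin n) E)) :
    sh a (Polynomial.C s) = eval₂Hom (eval₂Hom (Polynomial.C.comp (C.comp C))
      (fun i => Polynomial.C (C (X i)) + a * (Polynomial.X * Polynomial.C (X i))))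
      (fun i => Polynomial.C (X i)) s := by
  unfold sh
  rw [Polynomial.coe_eval₂RingHom, Polynomial.eval₂_C]

theorem sh_Y (a : Polynomial (MvPolynomial (Fin n) (MvPolynomial (Fin n) E))) (i : Fin n) :
    sh a (Polynomial.C (X i)) = Polynomial.C (X i) := by
  rw [sh_C, eval₂Hom_X']

theorem sh_Z (a : Polynomial (MvPolynomial (Fin n) (MvPolynomial (Fin n) E))) (i : Fin n) :
    sh a (Polynomial.C (C (X i))) =
      Polynomial.C (C (X i)) + a * (Polynomial.X * Polynomial.C (X i)) := by
  rw [sh_C, eval₂Hom_C, eval₂Hom_X']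

theorem sh_c (a : Polynomial (MvPolynomial (Fin n) (MvPolynomial (Fin n) E))) (e : E) :
    sh a (Polynomial.C (C (C e))) = Polynomial.C (C (C e)) := by
  rw [sh_C, eval₂Hom_C, eval₂Hom_C]
  rfl

private theorem map_neg_one' {R S : Type*} [CommRing R] [CommRing S] (φ : R →+* S) :
    φ (-1) = -1 := by
  rw [map_neg, map_one]

theorem sh_sh (s : Polynomial (MvPolynomial (Fin n) (MvPolynomial (Fin n) E))) :
    sh 1 (sh (-1) s) = s := by
  have h : ((sh 1).comp (sh (-1)) :
      Polynomial (MvPolynomial (Fin n) (MvPolynomial (Fin n) E)) →+* _) = RingHom.id _ := by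
    refine Polynomial.ringHom_ext' (MvPolynomial.ringHom_ext' (MvPolynomial.ringHom_ext' ?_ ?_)
      ?_) ?_
    · ext e : 1
      change sh 1 (sh (-1) (Polynomial.C (C (C e)))) = _
      rw [sh_c, sh_c]
      rfl
    · intro i
      change sh 1 (sh (-1) (Polynomial.C (C (X i)))) = _
      have hm := map_neg_one' (R := Polynomial (MvPolynomial (Fin n) (MvPolynomial (Fin n) E)))
        (S := Polynomial (MvPolynomial (Fin n) (MvPolynomial (Fin n) E))) (sh 1)
      rw [sh_Z, map_add, sh_Z, map_mul, map_mul, hm, sh_X, sh_Y]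
      change _ = Polynomial.C (C (X i))
      ring
    · intro i
      change sh 1 (sh (-1) (Polynomial.C (X i))) = _
      rw [sh_Y, sh_Y]
      rfl
    · change sh 1 (sh (-1) Polynomial.X) = _
      rw [sh_X, sh_X]
      rfl
  exact congrArg (fun f : Polynomial (MvPolynomial (Fin n) (MvPolynomial (Fin n) E)) →+* _ => f s) h

theorem sh_gl (p : MvPolynomial (Fin n) E) : sh (-1) (gl E n p) = Polynomial.C (C p) := by
  have h : (sh (-1)).comp (gl E n) = Polynomial.C.comp C := by
    refine MvPolynomial.ringHom_ext' ?_ ?_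
    · ext e : 1
      change sh (-1) (gl E n (C e)) = _
      have h1 : gl E n (C e) = Polynomial.C (C (C e)) := by
        unfold gl
        rw [eval₂Hom_C]
        rfl
      rw [h1, sh_c]
      rfl
    · intro i
      change sh (-1) (gl E n (X i)) = _
      have h1 : gl E n (X i) = Polynomial.C (C (X i)) + Polynomial.X * Polynomial.C (X i) := by
        unfold gl
        rw [eval₂Hom_X']
      rw [h1, map_add, sh_Z, map_mul, sh_X, sh_Y]
      change _ = Polynomial.C (C (X i))
      ring
  exact congrArg (fun f : MvPolynomial (Fin n) E →+* _ => f p) h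

/-- A common prime divisor on the generic line gives a common prime divisor. -/
theorem gl_prime {ι : Type*} (μ : ι → MvPolynomial (Fin n) E) (hne : ∃ i, μ i ≠ 0)
    (h : ∀ g : MvPolynomial (Fin n) E, Prime g → ∃ i, ¬ g ∣ μ i)
    (q : Polynomial (MvPolynomial (Fin n) (MvPolynomial (Fin n) E))) (hq : Prime q) :
    ∃ i, ¬ q ∣ gl E n (μ i) := by
  by_contra hcon
  push Not at hcon
  have h1 : ∀ i, sh (-1) q ∣ Polynomial.C (C (μ i)) := by
    intro i
    rw [← sh_gl]
    exact map_dvd _ (hcon i)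
  have hu : ¬ IsUnit (sh (-1) q) := by
    intro h2
    have h3 := h2.map (sh (1 : Polynomial (MvPolynomial (Fin n) (MvPolynomial (Fin n) E))))
    rw [sh_sh] at h3
    exact hq.not_isUnit h3
  obtain ⟨i₀, hi₀⟩ := hne
  generalize sh (-1) q = r at h1 hu
  have hC0 : (C (μ i₀) : MvPolynomial (Fin n) (MvPolynomial (Fin n) E)) ≠ 0 := by
    rw [ne_eq, C_eq_zero]
    exact hi₀
  have h2 : r.natDegree = 0 := by
    have h3 := Polynomial.natDegree_le_of_dvd (h1 i₀) (by
      rw [ne_eq, Polynomial.C_eq_zero]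
      exact hC0)
    rw [Polynomial.natDegree_C] at h3
    omega
  rw [Polynomial.eq_C_of_natDegree_eq_zero h2] at h1 hu
  generalize r.coeff 0 = s at h1 hu
  have h4 : ∀ i, s ∣ C (μ i) := by
    intro i
    have h5 := (Polynomial.C_dvd_iff_dvd_coeff _ _).1 (h1 i) 0
    rwa [Polynomial.coeff_C_zero] at h5
  have h5 : s.totalDegree = 0 := by
    have h6 := totalDegree_le_of_dvd_of_isDomain (h4 i₀) hC0
    rw [totalDegree_C] at h6
    omega
  rw [totalDegree_eq_zero_iff_eq_C] at h5
  rw [h5] at h4 hu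
  generalize s.coeff 0 = g at h4 hu
  have h7 : ∀ i, g ∣ μ i := by
    intro i
    have h8 := (C_dvd_iff_dvd_coeff _ _).1 (h4 i) 0
    rwa [coeff_C, if_pos rfl] at h8
  have hg : ¬ IsUnit g := fun h8 => hu ((h8.map C).map Polynomial.C)
  have hg0 : g ≠ 0 := by
    rintro rfl
    exact hi₀ (zero_dvd_iff.1 (h7 i₀))
  obtain ⟨p, hp, hpg⟩ := WfDvdMonoid.exists_irreducible_factor hg hg0
  obtain ⟨i, hi⟩ := h p hp.prime
  exact hi (hpg.trans (h7 i))

/-- Evaluation. -/
noncomputable def ev (b0 b1 : Fin n → E) :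
    MvPolynomial (Fin n) (MvPolynomial (Fin n) E) →+* E := eval₂Hom (eval b0) b1

/-- The iterated polynomials as polynomials in `2 n` variables. -/
noncomputable def tw (E : Type*) [Field E] (n : ℕ) : MvPolynomial (Fin n) (MvPolynomial (Fin n) E)
    →+* MvPolynomial (Fin n ⊕ Fin n) E :=
  eval₂Hom (eval₂Hom C (fun i => X (Sum.inl i))) fun i => X (Sum.inr i)

theorem tw_inj : Function.Injective (tw E n) := by
  let φ : MvPolynomial (Fin n ⊕ Fin n) E →+* MvPolynomial (Fin n) (MvPolynomial (Fin n) E) :=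
    eval₂Hom (C.comp C) (Sum.elim (fun i => C (X i)) fun i => X i)
  have h : φ.comp (tw E n) = RingHom.id _ := by
    refine MvPolynomial.ringHom_ext' (MvPolynomial.ringHom_ext' ?_ ?_) ?_
    · ext e
      simp [φ, tw]
    · intro i
      simp [φ, tw]
    · intro i
      simp [φ, tw]
  intro a b hab
  have h1 := congrArg φ hab
  have h2 : ∀ a, φ (tw E n a) = a := fun a =>
    congrArg (fun f : MvPolynomial (Fin n) (MvPolynomial (Fin n) E) →+* _ => f a) h
  rwa [h2, h2] at h1

theorem eval_tw (b0 b1 : Fin n → E) (s : MvPolynomial (Fin n) (MvPolynomial (Fin n) E)) :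
    eval (Sum.elim b0 b1) (tw E n s) = ev b0 b1 s := by
  have h : (eval (Sum.elim b0 b1)).comp (tw E n) = ev b0 b1 := by
    refine MvPolynomial.ringHom_ext' (MvPolynomial.ringHom_ext' ?_ ?_) ?_
    · ext e
      simp [ev, tw]
    · intro i
      simp [ev, tw]
    · intro i
      simp [ev, tw]
  exact congrArg (fun f : MvPolynomial (Fin n) (MvPolynomial (Fin n) E) →+* _ => f s) h

theorem map_gl (b0 b1 : Fin n → E) (p : MvPolynomial (Fin n) E) :
    (gl E n p).map (ev b0 b1) =
      aeval (fun i => Polynomial.C (b0 i) + Polynomial.X * Polynomial.C (b1 i)) p := by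
  have h : (Polynomial.mapRingHom (ev b0 b1)).comp (gl E n) =
      (aeval (R := E) (fun i => Polynomial.C (b0 i) + Polynomial.X * Polynomial.C (b1 i)) :
        MvPolynomial (Fin n) E →+* Polynomial E) := by
    refine MvPolynomial.ringHom_ext' ?_ ?_
    · ext e : 1
      simp [gl, ev]
    · intro i
      simp [gl, ev]
  exact congrArg (fun f : MvPolynomial (Fin n) E →+* _ => f p) h

/-- The general line. -/
theorem gen_line {ι : Type*} [Fintype ι] (μ : ι → MvPolynomial (Fin n) E) (hne : ∃ i, μ i ≠ 0)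
    (h : ∀ g : MvPolynomial (Fin n) E, Prime g → ∃ i, ¬ g ∣ μ i) :
    ∃ H : MvPolynomial (Fin n ⊕ Fin n) E, H ≠ 0 ∧ ∀ b0 b1 : Fin n → E,
      eval (Sum.elim b0 b1) H ≠ 0 → ∃ c : ι → Polynomial E, ∑ i, c i *
        aeval (fun l => Polynomial.C (b0 l) + Polynomial.X * Polynomial.C (b1 l)) (μ i) = 1 := by
  obtain ⟨s, hs, hs'⟩ := span_C (fun i => gl E n (μ i)) (gl_prime μ hne h)
  obtain ⟨c, hc⟩ := (Ideal.mem_span_range_iff_exists_fun).1 hs'
  refine ⟨tw E n s, fun h0 => hs (tw_inj (h0.trans (map_zero _).symm)), fun b0 b1 hb => ?_⟩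
  rw [eval_tw] at hb
  refine ⟨fun i => Polynomial.C (ev b0 b1 s)⁻¹ * (c i).map (ev b0 b1), ?_⟩
  have h1 := congrArg (Polynomial.map (ev b0 b1)) hc
  rw [Polynomial.map_sum, Polynomial.map_C] at h1
  have h2 : ∑ i, Polynomial.C (ev b0 b1 s)⁻¹ * (c i).map (ev b0 b1) *
      aeval (fun l => Polynomial.C (b0 l) + Polynomial.X * Polynomial.C (b1 l)) (μ i) =
      Polynomial.C (ev b0 b1 s)⁻¹ * ∑ i, (c i * gl E n (μ i)).map (ev b0 b1) := by
    rw [Finset.mul_sum]
    refine Finset.sum_congr rfl fun i _ => ?_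
    rw [Polynomial.map_mul, map_gl, mul_assoc]
  rw [h2, h1, ← Polynomial.C_mul, inv_mul_cancel₀ hb, Polynomial.C_1]

end Cr.Re
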