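import Pool.Agent.Lib.MP_f80667_ag.Cr.Gen
import Pool.Agent.Lib.MP_f80667_ag.Cr.ResC
import Pool.Agent.Lib.MP_f80667_ag.Cr.ResE

/-! The general line (helper20). -/

namespace Cr

open Cu

theorem rl_mt_eq {E : Type*} [Field E] {n : ℕ} (T : Tn E n) (u : Fin 3 → Fin n → E) {R : Type*}
    [CommRing R] [Algebra E R] (b : Fin n → R) : mt T u b = Re.Nt T u R b := by
  have h3 : Re.bs (R := R) (Re.uw u R) 3 = (0, 1) := Re.bs_last (Re.uw u R)
  have h0 : Re.bs (R := R) (Re.uw u R) 0 = (up R (u 0), 0) := Re.bs_cast (Re.uw u R) 0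
  have h1 : Re.bs (R := R) (Re.uw u R) 1 = (up R (u 1), 0) := Re.bs_cast (Re.uw u R) 1
  have h2 : Re.bs (R := R) (Re.uw u R) 2 = (up R (u 2), 0) := Re.bs_cast (Re.uw u R) 2
  have hz : ∀ x y : Fin n → R, (ex T R).E x 0 y = 0 := fun x y => by
    rw [(ex T R).E_comm', Cb.E_zero]
  have hz' : ∀ x y : Fin n → R, (ex T R).E 0 x y = 0 := fun x y => by
    rw [(ex T R).E_comm, hz]
  ext i j
  fin_cases i <;> fin_cases j <;>
    simp [mt, Re.Nt, Re.Nm, Re.rb, h0, h1, h2, h3, hz, hz']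

theorem rl_adj {R : Type*} [CommRing R] (M : Matrix (Fin 4) (Fin 4) R) (i j : Fin 4) :
    M.adjugate i j = (-1) ^ (j + i : ℕ) * mn M j i :=
  Matrix.adjugate_fin_succ_eq_det_submatrix M i j

/-- A smooth cubic hypersurface which contains a plane has at least five variables. -/
theorem rl_five {E : Type} [Field E] {n : ℕ} {T : Tn E n} {u : Fin 3 → Fin n → E} (h : Pln T u)
    (hs : ∀ (Ω : Type) [Field Ω] [Algebra E Ω] (x : Fin n → Ω), x ≠ 0 →
      ∃ y, (ex T Ω).D x y ≠ 0) : 5 ≤ n := by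
  by_contra hn
  push Not at hn
  obtain ⟨b, hb⟩ : ∃ b : Fin n → E, ∀ y : Fin n → E, ∃ (c : Fin 3 → E) (d : E),
      ∑ j, c j • u j + d • b = y := by
    by_cases hspan : Submodule.span E (Set.range u) = ⊤
    · refine ⟨0, fun y => ?_⟩
      have hy : y ∈ Submodule.span E (Set.range u) := by
        rw [hspan]
        exact Submodule.mem_top
      obtain ⟨c, hc⟩ := (Submodule.mem_span_range_iff_exists_fun E).1 hy
      exact ⟨c, 0, by rw [hc, zero_smul, add_zero]⟩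
    · obtain ⟨b, hb⟩ : ∃ b, b ∉ Submodule.span E (Set.range u) := by
        by_contra hcon
        push Not at hcon
        exact hspan ((Submodule.eq_top_iff').2 hcon)
      have hli : LinearIndependent E (Fin.cons b u : Fin 4 → Fin n → E) :=
        linearIndependent_finCons.2 ⟨h.ind, hb⟩
      have hle := hli.fintype_card_le_finrank
      rw [Fintype.card_fin, Module.finrank_fin_fun] at hle
      have htop := hli.span_eq_top_of_card_eq_finrank' (by
        rw [Fintype.card_fin, Module.finrank_fin_fun]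
        omega)
      refine ⟨b, fun y => ?_⟩
      have hy : y ∈ Submodule.span E (Set.range (Fin.cons b u : Fin 4 → Fin n → E)) := by
        rw [htop]
        exact Submodule.mem_top
      obtain ⟨c, hc⟩ := (Submodule.mem_span_range_iff_exists_fun E).1 hy
      refine ⟨fun j => c j.succ, c 0, ?_⟩
      rw [← hc, Fin.sum_univ_succ, add_comm]
      rfl
  let Ω := AlgebraicClosure E
  obtain ⟨s, t, hst, hq⟩ := Re.quad2 ((ex T Ω).D (up Ω (u 0)) (up Ω b))
    ((ex T Ω).E (up Ω (u 0)) (up Ω (u 1)) (up Ω b)) ((ex T Ω).D (up Ω (u 1)) (up Ω b))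
  have hD : ∀ y : Fin n → Ω, (ex T Ω).D (s • up Ω (u 0) + t • up Ω (u 1)) y =
      (ex T Ω).D (up Ω (u 0)) y * s ^ 2 + (ex T Ω).E (up Ω (u 0)) (up Ω (u 1)) y * (s * t) +
        (ex T Ω).D (up Ω (u 1)) y * t ^ 2 := by
    intro y
    rw [(ex T Ω).add_D, (ex T Ω).smul_D, (ex T Ω).smul_D, (ex T Ω).E_smul1, (ex T Ω).E_smul2]
    ring
  have hx : s • up Ω (u 0) + t • up Ω (u 1) ≠ 0 := by
    intro h0
    have hu : LinearIndependent Ω (fun i => up Ω (u i)) :=
      (linearIndependent_algebraMap_comp_iff (S := Ω)).2 h.ind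
    have h1 := Fintype.linearIndependent_iff.1 hu ![s, t, 0] (by
      rw [Fin.sum_univ_three]
      simpa using h0)
    rcases hst with h2 | h2
    · exact h2 (h1 0)
    · exact h2 (h1 1)
  have hEu : ∀ j, (ex T Ω).E (up Ω (u 0)) (up Ω (u 1)) (up Ω (u j)) = 0 := by
    intro j
    fin_cases j
    · change (ex T Ω).E (up Ω (u 0)) (up Ω (u 1)) (up Ω (u 0)) = 0
      rw [(ex T Ω).E_comm', (ex T Ω).E_self, h.upD, mul_zero]
    · change (ex T Ω).E (up Ω (u 0)) (up Ω (u 1)) (up Ω (u 1)) = 0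
      rw [(ex T Ω).E_comm, (ex T Ω).E_comm', (ex T Ω).E_self, h.upD, mul_zero]
    · exact h.upE
  obtain ⟨y, hy⟩ := hs Ω _ hx
  apply hy
  refine Re.D_eq_zero _ _ (fun i => ?_) y
  obtain ⟨c, d, hcd⟩ := hb (Pi.single i 1)
  have h1 : (Pi.single i (1 : Ω) : Fin n → Ω) =
      ∑ j, algebraMap E Ω (c j) • up Ω (u j) + algebraMap E Ω d • up Ω b := by
    funext l
    have h2 := congrArg (algebraMap E Ω) (congrFun hcd l)
    have h3 : algebraMap E Ω ((Pi.single i (1 : E) : Fin n → E) l) =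
        (Pi.single i (1 : Ω) : Fin n → Ω) l := by
      by_cases hl : l = i
      · rw [hl, Pi.single_eq_same, Pi.single_eq_same, map_one]
      · rw [Pi.single_eq_of_ne hl, Pi.single_eq_of_ne hl, map_zero]
    rw [h3] at h2
    rw [← h2]
    simp only [Pi.add_apply, Finset.sum_apply, Pi.smul_apply, smul_eq_mul, map_add, map_sum,
      map_mul, up]
  have h2 : ∀ y, (ex T Ω).D (s • up Ω (u 0) + t • up Ω (u 1)) y =
      (ex T Ω).Dl (s • up Ω (u 0) + t • up Ω (u 1)) y := fun y => rfl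
  rw [h1, h2, map_add, map_sum, ← h2, (ex T Ω).D_smul, hD, hq, mul_zero, add_zero]
  refine Finset.sum_eq_zero fun j _ => ?_
  rw [← h2, (ex T Ω).D_smul, hD, h.upD, h.upD, hEu]
  ring

theorem res_line {E : Type} [Field E] [CharZero E] {n : ℕ} {T : Tn E n}
    {u : Fin 3 → Fin n → E} (h : Pln T u)
    (hs : ∀ (Ω : Type) [Field Ω] [Algebra E Ω] (x : Fin n → Ω), x ≠ 0 → ∃ y, (ex T Ω).D x y ≠ 0) :
    ∃ H : MvPolynomial (Fin n ⊕ Fin n) E, H ≠ 0 ∧ ∀ b0 b1 : Fin n → E,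
      MvPolynomial.eval (Sum.elim b0 b1) H ≠ 0 →
        ∃ c : Fin 4 → Fin 4 → Polynomial E, ∑ i, ∑ j, c i j * mn (mt T u (ln b0 b1)) i j = 1 := by
  have h5 := rl_five h hs
  have hSm : Cu.Sm T := fun M _ _ _ x hx => hs M x hx
  have hp : ∀ g : MvPolynomial (Fin n) E, Prime g → ∃ κ : Fin 4 × Fin 4,
      ¬ g ∣ mn (mt T u (MvPolynomial.X : Fin n → MvPolynomial (Fin n) E)) κ.1 κ.2 := by
    intro g hg
    by_contra hcon
    push Not at hcon
    refine Re.no_prime T hSm two_ne_zero u h.ind (by omega) g hg fun i j => ?_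
    rw [← rl_mt_eq, rl_adj]
    exact Dvd.dvd.mul_left (hcon (j, i)) _
  obtain ⟨H, hH, hH'⟩ := Re.gen_line
    (fun κ : Fin 4 × Fin 4 => mn (mt T u (MvPolynomial.X : Fin n → MvPolynomial (Fin n) E))
      κ.1 κ.2) (by
      obtain ⟨κ, hκ⟩ := hp (MvPolynomial.X ⟨0, by omega⟩) MvPolynomial.X_prime
      exact ⟨κ, fun h0 => hκ (by rw [h0]; exact dvd_zero _)⟩) hp
  refine ⟨H, hH, fun b0 b1 hb => ?_⟩
  obtain ⟨c, hc⟩ := hH' b0 b1 hb
  refine ⟨fun i j => c (i, j), ?_⟩
  rw [← hc, Fintype.sum_prod_type]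
  refine Finset.sum_congr rfl fun i _ => Finset.sum_congr rfl fun j _ => ?_
  congr 1
  have h1 := alg_mn_mt T (u := u) (MvPolynomial.aeval (R := E) (ln b0 b1))
    (MvPolynomial.X : Fin n → MvPolynomial (Fin n) E) i j
  simp only [MvPolynomial.aeval_X] at h1
  exact h1.symm

end Cr
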