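import Pool.Agent.Lib.MP_f80667_ag.Cr.ExPt
import Pool.Agent.Lib.MP_f80667_ag.Cr.RCl
import Pool.Agent.Lib.MP_f80667_ag.Cr.EmbS
import Pool.Agent.Lib.MP_f80667_ag.Cr.Plane
import Pool.Agent.Lib.MP_f80667_ag.Cr.ResL
import Pool.Agent.Lib.MP_f80667_ag.Bx.Fin
import Pool.Agent.Lib.MP_f80667_ag.Ts.Plc

/-! Zero-cycles over a number field with prescribed class at one real place. -/

open scoped LinearAlgebra.Projectivization
open NumberField IsDedekindDomain

namespace Cr

open ZC Cu

private theorem zero_transfer'' {F E R : Type*} [Field F] [Field E] [Algebra F E] [IsAlgClosed E]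
    [CommRing R] [IsReduced R] [Algebra F R] {n : ℕ} {ι : Type*} (p : ι → MvPolynomial (Fin n) F)
    (hs : ∀ x : Fin n → E, (∀ i, MvPolynomial.aeval x (p i) = 0) → x = 0) (x : Fin n → R)
    (hx : ∀ i, MvPolynomial.aeval x (p i) = 0) : x = 0 := by
  funext j
  have h1 : MvPolynomial.X j ∈ MvPolynomial.vanishingIdeal F
      (MvPolynomial.zeroLocus E (Ideal.span (Set.range p))) := by
    rw [MvPolynomial.mem_vanishingIdeal_iff]
    intro y hy
    rw [MvPolynomial.zeroLocus_span] at hy
    have h2 := hs y fun i => hy (p i) ⟨i, rfl⟩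
    rw [MvPolynomial.aeval_X, h2, Pi.zero_apply]
  rw [MvPolynomial.vanishingIdeal_zeroLocus_eq_radical] at h1
  obtain ⟨N, hN⟩ := h1
  have h3 : Ideal.span (Set.range p) ≤ RingHom.ker (MvPolynomial.aeval (R := F) x).toRingHom := by
    rw [Ideal.span_le]
    rintro _ ⟨i, rfl⟩
    exact hx i
  have h4 : MvPolynomial.aeval x (MvPolynomial.X (R := F) j ^ N) = 0 := h3 hN
  rw [map_pow, MvPolynomial.aeval_X] at h4
  exact eq_zero_of_pow_eq_zero h4

/-- Smoothness over every extension. Proof: `Cu.F1bar_cubic_inf` has it (`zero_transfer'`) for the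
partial derivatives; `tensor_D` gives `D`. -/
theorem sm_all {F : Type} [Field F] [CharZero F] {n : ℕ} (f : MvPolynomial (Fin n) F)
    (hf : f.IsHomogeneous 3) (T : Tn F n)
    (hT : ∀ (R : Type) [CommRing R] [Algebra F R] (x : Fin n → R),
      MvPolynomial.aeval x f = (ex T R).f x)
    (hs : ∀ x : Fin n → AlgebraicClosure F, x ≠ 0 →
      ∃ i, MvPolynomial.aeval x (MvPolynomial.pderiv i f) ≠ 0) (Ω : Type) [Field Ω] [Algebra F Ω]
    (x : Fin n → Ω) (hx : x ≠ 0) :
    (∃ i, MvPolynomial.aeval x (MvPolynomial.pderiv i f) ≠ 0) ∧ ∃ y, (ex T Ω).D x y ≠ 0 := by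
  have hΩ : CharZero Ω := charZero_of_injective_algebraMap (algebraMap F Ω).injective
  have h1 : ∃ i, MvPolynomial.aeval x (MvPolynomial.pderiv i f) ≠ 0 := by
    by_contra hcon
    push Not at hcon
    apply hx
    refine zero_transfer'' (F := F) (E := AlgebraicClosure F)
      (fun i => MvPolynomial.pderiv i f) (fun y hy => ?_) x fun i => hcon i
    by_contra h0
    obtain ⟨i, hi⟩ := hs y h0
    exact hi (hy i)
  refine ⟨h1, ?_⟩
  obtain ⟨i, hi⟩ := h1
  refine ⟨Pi.single i 1, ?_⟩
  rw [tensor_D f T hT]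
  rw [Finset.sum_eq_single i (fun j _ hj => by rw [Pi.single_eq_of_ne hj, mul_zero])
    (fun h => absurd (Finset.mem_univ i) h), Pi.single_eq_same, mul_one]
  exact hi

/-- The zero-cycle: the trace of `p` minus the trace of `q`. -/
theorem exists_trc {F M : Type} [Field F] [CharZero F] [Field M] [Algebra F M]
    [FiniteDimensional F M] {n : ℕ} {f : MvPolynomial (Fin n) F}
    (hh : ∀ _ : Unit, ∃ d, f.IsHomogeneous d) (y y' : ℙ M (Fin n → M))
    (hy : Zer (fun _ : Unit => f) M y.rep) (hy' : Zer (fun _ : Unit => f) M y'.rep) :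
    ∃ c : Z1 F (fun _ : Unit => f), ∀ (E : Type) [Field E] [Algebra F E],
      (bcZ E hh c).1 = ∑ σ : M →ₐ[F] AlgebraicClosure E,
          Finsupp.single (mapPt (σ : M →+* _) y) (1 : ℤ) -
        ∑ σ : M →ₐ[F] AlgebraicClosure E, Finsupp.single (mapPt (σ : M →+* _) y') (1 : ℤ) := by
  obtain ⟨h1, h2, h3⟩ := tr_bc (f := fun _ : Unit => f) hh y hy
  obtain ⟨h1', h2', h3'⟩ := tr_bc (f := fun _ : Unit => f) hh y' hy'
  have h4 : trPt F (AlgebraicClosure F) y - trPt F (AlgebraicClosure F) y' ∈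
      D0 F (fun _ : Unit => f) := by
    refine AddSubgroup.mem_inf.2 ⟨sub_mem h1 h1', ?_⟩
    rw [AddMonoidHom.mem_ker, map_sub, h2, h2', sub_self]
  refine ⟨⟨_, h4⟩, fun E _ _ => ?_⟩
  have h6 := map_sub (bc (N := n) (emb' F E)) (trPt F (AlgebraicClosure F) y)
    (trPt F (AlgebraicClosure F) y')
  rw [h3 E, h3' E] at h6
  exact h6

/-- The tensor over a tower. -/
theorem map_tower {F E R : Type*} [CommRing F] [CommRing E] [CommRing R] [Algebra F E]
    [Algebra E R] [Algebra F R] [IsScalarTower F E R] {n : ℕ} (T : Tn F n) :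
    (T.map (algebraMap F E)).map (algebraMap E R) = T.map (algebraMap F R) := by
  funext i j l
  exact (IsScalarTower.algebraMap_apply F E R (T i j l)).symm

theorem ex_tower {F E R : Type*} [Field F] [Field E] [CommRing R] [Algebra F E]
    [Algebra E R] [Algebra F R] [IsScalarTower F E R] {n : ℕ} (T : Tn F n) :
    ex (T.map (algebraMap F E)) R = ex T R := by
  unfold ex
  rw [map_tower]

/-- The point over a quadratic extension of `E`, as an extension of `F`. -/
theorem exists_M {F : Type} [Field F] [NumberField F] {n : ℕ} (hn : 7 ≤ n)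
    (f : MvPolynomial (Fin n) F) (hf : f.IsHomogeneous 3)
    (hs : ∀ x : Fin n → AlgebraicClosure F, x ≠ 0 →
      ∃ i, MvPolynomial.aeval x (MvPolynomial.pderiv i f) ≠ 0)
    (φ : F →+* ℝ) (T : Tn F n)
    (hT : ∀ (R : Type) [CommRing R] [Algebra F R] (x : Fin n → R),
      MvPolynomial.aeval x f = (ex T R).f x) :
    ∃ Q : Fin n → ℝ, Q ≠ 0 ∧ ∀ (G : Type) (C : RC (cb (T.map φ)) G) (P : Fin n → ℝ), P ≠ 0 →
      (cb (T.map φ)).f P = 0 →
      ∃ (M : Type) (_ : Field M) (_ : Algebra F M) (_ : FiniteDimensional F M)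
        (p q : Fin n → M) (ψ₁ ψ₂ : M →+* ℝ), p ≠ 0 ∧ q ≠ 0 ∧ MvPolynomial.aeval p f = 0 ∧
        MvPolynomial.aeval q f = 0 ∧ ψ₁ ≠ ψ₂ ∧ (∀ ψ : M →+* ℝ, ψ = ψ₁ ∨ ψ = ψ₂) ∧
        ψ₁.comp (algebraMap F M) = φ ∧ ψ₂.comp (algebraMap F M) = φ ∧
        C.cl (fun i => ψ₁ (p i)) = C.cl P ∧ C.cl (fun i => ψ₂ (p i)) = C.cl Q ∧
        (fun i => ψ₁ (q i)) = Q ∧ (fun i => ψ₂ (q i)) = Q := by
  obtain ⟨E, _, _, _, ι, u, hι, hP⟩ := exists_plane hn T φ
  have : NumberField E := NumberField.of_module_finite F E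
  letI aER : Algebra E ℝ := ι.toAlgebra
  letI aFR : Algebra F ℝ := φ.toAlgebra
  have tFER : IsScalarTower F E ℝ := IsScalarTower.of_algebraMap_eq fun x =>
    (congrArg (fun g : F →+* ℝ => g x) hι).symm
  have hu : u 0 ≠ 0 := hP.ind.ne_zero 0
  have hmapR : (T.map (algebraMap F E)).map (algebraMap E ℝ) = T.map φ := map_tower T
  refine ⟨up ℝ (u 0), comp_ne (algebraMap E ℝ) hu, ?_⟩
  intro G C P hP0 fP
  -- smoothness over all extensions of `E`
  have hsE : ∀ (Ω : Type) [Field Ω] [Algebra E Ω] (x : Fin n → Ω), x ≠ 0 →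
      ∃ y, (ex (T.map (algebraMap F E)) Ω).D x y ≠ 0 := by
    intro Ω _ _ x hx
    letI : Algebra F Ω := ((algebraMap E Ω).comp (algebraMap F E)).toAlgebra
    have : IsScalarTower F E Ω := IsScalarTower.of_algebraMap_eq fun _ => rfl
    rw [ex_tower]
    exact (sm_all f hf T hT hs Ω x hx).2
  have hsC : ∀ x : Fin n → ℂ, x ≠ 0 →
      ∃ y, (ex ((T.map (algebraMap F E)).map (algebraMap E ℝ)) ℂ).D x y ≠ 0 := by
    intro x hx
    letI : Algebra F ℂ := ((algebraMap ℝ ℂ).comp φ).toAlgebra
    have : IsScalarTower F ℝ ℂ := IsScalarTower.of_algebraMap_eq fun _ => rfl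
    have h1 : ex ((T.map (algebraMap F E)).map (algebraMap E ℝ)) ℂ = ex T ℂ := by
      rw [map_tower]
      exact ex_tower (F := F) (E := ℝ) (R := ℂ) T
    rw [h1]
    exact (sm_all f hf T hT hs ℂ x hx).2
  have hCc : cb (T.map φ) = ex (T.map (algebraMap F E)) ℝ := by
    unfold ex
    rw [hmapR]
  let C' : RC (ex (T.map (algebraMap F E)) ℝ) G :=
    { cl := C.cl
      smul := C.smul
      curve := by rw [← hCc]; exact C.curve
      near := by rw [← hCc]; exact C.near }
  obtain ⟨M, _, _, _, p, ψ₁, ψ₂, hp, hfp, hne, hall, hc1, hc2⟩ := exists_pt hP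
    (res_line hP hsE) (hsE (AlgebraicClosure E)) hsC C' hP0 (by rw [← hCc]; exact fP)
  letI aFM : Algebra F M := ((algebraMap E M).comp (algebraMap F E)).toAlgebra
  have tFEM : IsScalarTower F E M := IsScalarTower.of_algebraMap_eq fun _ => rfl
  have hfd : FiniteDimensional F M := FiniteDimensional.trans F E M
  have hq0 : (fun i => algebraMap E M (u 0 i)) ≠ 0 := comp_ne (algebraMap E M) hu
  refine ⟨M, inferInstance, aFM, hfd, p, fun i => algebraMap E M (u 0 i), (ψ₁ : M →+* ℝ),
    (ψ₂ : M →+* ℝ), hp, hq0, ?_, ?_, ?_, hall, ?_, ?_, hc1, hc2, ?_, ?_⟩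
  · rw [hT M, ← ex_tower (F := F) (E := E) (R := M) T]
    exact hfp
  · rw [hT M, ← ex_tower (F := F) (E := E) (R := M) T]
    exact hP.upf (R := M) 0
  · intro h
    apply hne
    ext x
    exact congrArg (fun g : M →+* ℝ => g x) h
  · ext x
    have h1 : ψ₁ (algebraMap E M (algebraMap F E x)) = ι (algebraMap F E x) :=
      ψ₁.commutes (algebraMap F E x)
    have h2 : ι (algebraMap F E x) = φ x := congrArg (fun g : F →+* ℝ => g x) hι
    exact h1.trans h2
  · ext x
    have h1 : ψ₂ (algebraMap E M (algebraMap F E x)) = ι (algebraMap F E x) :=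
      ψ₂.commutes (algebraMap F E x)
    have h2 : ι (algebraMap F E x) = φ x := congrArg (fun g : F →+* ℝ => g x) hι
    exact h1.trans h2
  · funext i
    exact ψ₁.commutes (u 0 i)
  · funext i
    exact ψ₂.commutes (u 0 i)

/-- For every real point `P` of `X` at the real place `v` there is a zero-cycle of degree `0` over `F`
with the class of `P - Q` at `v`, `Q` fixed (a point of the plane), and class `0` at the other infinite
places. Proof: `exists_plane` for `φ₀ : F → F_v ≃ ℝ`, `res_line`, `exists_rc`, `exists_pt` for `E`,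
`T.map (algebraMap F E)`; `c` = trace from `M` to `F` of the point `p` minus the point `u 0` (`tr_bc`); at
`v` the `τ : M →ₐ[F] F_v` are `ψ₁`, `ψ₂` (`emb_sum`); at the other real places there are none. -/
theorem exists_one_pt {F : Type} [Field F] [NumberField F] {n : ℕ} (hn : 7 ≤ n)
    (f : MvPolynomial (Fin n) F) (hf : f.IsHomogeneous 3)
    (hs : ∀ x : Fin n → AlgebraicClosure F, x ≠ 0 →
      ∃ i, MvPolynomial.aeval x (MvPolynomial.pderiv i f) ≠ 0)
    (hh : ∀ _ : Unit, ∃ d, f.IsHomogeneous d) (v : InfinitePlace F) (hv : v.IsReal) :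
    ∃ (Q : Fin n → IK F v) (hQ : Q ≠ 0), ∀ (P : Fin n → IK F v) (hP : P ≠ 0),
      Zer (hE (IK F v) (fun _ : Unit => f)) (IK F v) P → ∃ c : Z1 F (fun _ : Unit => f),
      (bcZ (IK F v) hh c).1 - (Ct.pc (AlgebraicClosure (IK F v)) P hP -
          Ct.pc (AlgebraicClosure (IK F v)) Q hQ) ∈
        ratEq (AlgebraicClosure (IK F v)) (hE (IK F v) (fun _ : Unit => f)) ⊔
          normCyc (AlgebraicClosure (IK F v)) (hE (IK F v) (fun _ : Unit => f)) ∧
      ∀ w : InfinitePlace F, w ≠ v → (bcZ (IK F w) hh c).1 ∈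
        ratEq (AlgebraicClosure (IK F w)) (hE (IK F w) (fun _ : Unit => f)) ⊔
          normCyc (AlgebraicClosure (IK F w)) (hE (IK F w) (fun _ : Unit => f)) := by
  classical
  obtain ⟨e, he⟩ := Ts.exists_e v hv
  let φ : F →+* ℝ := (e : IK F v →+* ℝ).comp (algebraMap F (IK F v))
  obtain ⟨T, hT⟩ := exists_tensor f hf
  obtain ⟨Q, hQ0, hM⟩ := exists_M hn f hf hs φ T hT
  -- the classes over the completion
  have hTK : ∀ (R : Type) [CommRing R] [Algebra (IK F v) R] (x : Fin n → R),
      MvPolynomial.aeval x (f.map (algebraMap F (IK F v))) =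
        (ex (T.map (algebraMap F (IK F v))) R).f x := by
    intro R _ _ x
    letI : Algebra F R := ((algebraMap (IK F v) R).comp (algebraMap F (IK F v))).toAlgebra
    have : IsScalarTower F (IK F v) R := IsScalarTower.of_algebraMap_eq fun _ => rfl
    rw [MvPolynomial.aeval_map_algebraMap, hT R, ← ex_tower (F := F) (E := IK F v) (R := R) T]
  have hsK : ∀ x : Fin n → AlgebraicClosure (IK F v), x ≠ 0 →
      ∃ i, MvPolynomial.aeval x (MvPolynomial.pderiv i (f.map (algebraMap F (IK F v)))) ≠ 0 := by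
    intro x hx
    obtain ⟨i, hi⟩ := (sm_all f hf T hT hs (AlgebraicClosure (IK F v)) x hx).1
    refine ⟨i, ?_⟩
    rw [MvPolynomial.pderiv_map, MvPolynomial.aeval_map_algebraMap]
    exact hi
  obtain ⟨C, hC⟩ := exists_rc (AlgebraicClosure (IK F v)) e (f.map (algebraMap F (IK F v)))
    (hf.map _) (T.map (algebraMap F (IK F v))) hTK hsK
  have hQ' : (fun i => e.symm (Q i)) ≠ 0 := comp_ne (e.symm : ℝ →+* IK F v) hQ0
  have eQ : (fun i => e (e.symm (Q i))) = Q := by
    funext i
    exact e.apply_symm_apply _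
  refine ⟨fun i => e.symm (Q i), hQ', ?_⟩
  intro P hP zP
  have hfP : (cb (T.map φ)).f (fun i => e (P i)) = 0 := by
    have h1 := map_f (e : IK F v →+* ℝ) (T.map (algebraMap F (IK F v))) P
    have h2 : MvPolynomial.aeval P (f.map (algebraMap F (IK F v))) = 0 := zP ()
    rw [hTK (IK F v) P] at h2
    have h3 : (ex (T.map (algebraMap F (IK F v))) (IK F v)) = cb (T.map (algebraMap F (IK F v))) := rfl
    rw [h3] at h2
    rw [h2, map_zero] at h1
    exact h1
  obtain ⟨M, _, _, _, p, q, ψ₁, ψ₂, hp, hq, zp, zq, hne, hall, h1, h2, hc1, hc2, hq1, hq2⟩ :=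
    hM _ C (fun i => e (P i)) (comp_ne (e : IK F v →+* ℝ) hP) hfP
  -- the points
  have hrep : ∀ (x : Fin n → M) (hx : x ≠ 0), MvPolynomial.aeval x f = 0 →
      Zer (fun _ : Unit => f) M (Projectivization.mk M x hx).rep := by
    intro x hx h0 _
    obtain ⟨a, ha⟩ := Projectivization.exists_smul_eq_mk_rep M x hx
    rw [← ha, Units.smul_def, hT M, (ex T M).f_smul, ← hT M, h0, mul_zero]
  obtain ⟨c, hc⟩ := exists_trc hh (Projectivization.mk M p hp) (Projectivization.mk M q hq)
    (hrep p hp zp) (hrep q hq zq)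
  refine ⟨c, ?_, fun w hw => ?_⟩
  · -- the two embeddings
    have hcomm : ∀ ψ : M →+* ℝ, ψ.comp (algebraMap F M) = φ → ∀ x : F,
        ((e.symm : ℝ →+* IK F v).comp ψ) (algebraMap F M x) = algebraMap F (IK F v) x := by
      intro ψ hψ x
      have h3 : ψ (algebraMap F M x) = e (algebraMap F (IK F v) x) :=
        congrArg (fun g : F →+* ℝ => g x) hψ
      change e.symm (ψ (algebraMap F M x)) = _
      rw [h3, e.symm_apply_apply]
    let τ₁ : M →ₐ[F] IK F v := { (e.symm : ℝ →+* IK F v).comp ψ₁ with commutes' := hcomm ψ₁ h1 }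
    let τ₂ : M →ₐ[F] IK F v := { (e.symm : ℝ →+* IK F v).comp ψ₂ with commutes' := hcomm ψ₂ h2 }
    have hτ₁ : ∀ x, e (τ₁ x) = ψ₁ x := fun x => e.apply_symm_apply _
    have hτ₂ : ∀ x, e (τ₂ x) = ψ₂ x := fun x => e.apply_symm_apply _
    have hτne : τ₁ ≠ τ₂ := by
      intro h
      apply hne
      ext x
      rw [← hτ₁, ← hτ₂, h]
    have huniv : (Finset.univ : Finset (M →ₐ[F] IK F v)) = {τ₁, τ₂} := by
      symm
      rw [Finset.eq_univ_iff_forall]
      intro τ
      rw [Finset.mem_insert, Finset.mem_singleton]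
      rcases hall ((e : IK F v →+* ℝ).comp (τ : M →+* IK F v)) with h3 | h3
      · left
        ext x
        apply e.injective
        rw [hτ₁, ← h3]
        rfl
      · right
        ext x
        apply e.injective
        rw [hτ₂, ← h3]
        rfl
    have hsum : ∀ (x : Fin n → M) (hx : x ≠ 0),
        (QuotientAddGroup.mk (∑ τ : M →ₐ[F] IK F v, Finsupp.single
          (mapPt (algebraMap (IK F v) (AlgebraicClosure (IK F v)))
            (mapPt (τ : M →+* IK F v) (Projectivization.mk M x hx))) (1 : ℤ)) :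
          (ℙ (AlgebraicClosure (IK F v)) (Fin n → AlgebraicClosure (IK F v)) →₀ ℤ) ⧸
            (ratEq (AlgebraicClosure (IK F v)) (fun _ : Unit => f.map (algebraMap F (IK F v))) ⊔
              normCyc (AlgebraicClosure (IK F v))
                (fun _ : Unit => f.map (algebraMap F (IK F v))))) =
        C.cl (fun i => ψ₁ (x i)) + C.cl (fun i => ψ₂ (x i)) := by
      intro x hx
      have hx1 : (fun i => τ₁ (x i)) ≠ 0 := comp_ne (τ₁ : M →+* IK F v) hx
      have hx2 : (fun i => τ₂ (x i)) ≠ 0 := comp_ne (τ₂ : M →+* IK F v) hx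
      have e1 := hC _ hx1
      have e2 := hC _ hx2
      have g1 : (fun i => e (τ₁ (x i))) = fun i => ψ₁ (x i) := funext fun i => hτ₁ _
      have g2 : (fun i => e (τ₂ (x i))) = fun i => ψ₂ (x i) := funext fun i => hτ₂ _
      rw [g1] at e1
      rw [g2] at e2
      have pcx : ∀ (τ : M →ₐ[F] IK F v) (h : (fun i => τ (x i)) ≠ 0), Finsupp.single
          (mapPt (algebraMap (IK F v) (AlgebraicClosure (IK F v)))
            (mapPt (τ : M →+* IK F v) (Projectivization.mk M x hx))) (1 : ℤ) =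
          Ct.pc (AlgebraicClosure (IK F v)) (fun i => τ (x i)) h := by
        intro τ h
        unfold Ct.pc
        rw [ZC.mapPt_mk (τ : M →+* IK F v) x hx]
        rfl
      rw [huniv, Finset.sum_pair hτne, QuotientAddGroup.mk_add, e1, e2, pcx τ₁ hx1, pcx τ₂ hx2]
    have n1 := emb_sum (Ω := AlgebraicClosure (IK F v)) e (f := fun _ : Unit => f) hh
      (Projectivization.mk M p hp) (hrep p hp zp)
    have n2 := emb_sum (Ω := AlgebraicClosure (IK F v)) e (f := fun _ : Unit => f) hh
      (Projectivization.mk M q hq) (hrep q hq zq)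
    have s1 := hsum p hp
    have s2 := hsum q hq
    have cP := hC P hP
    have cQ := hC (fun i => e.symm (Q i)) hQ'
    rw [eQ] at cQ
    rw [hc1, hc2, cP, cQ] at s1
    rw [hq1, hq2, cQ] at s2
    have key : (QuotientAddGroup.mk (∑ τ : M →ₐ[F] IK F v, Finsupp.single
          (mapPt (algebraMap (IK F v) (AlgebraicClosure (IK F v)))
            (mapPt (τ : M →+* IK F v) (Projectivization.mk M p hp))) (1 : ℤ) -
        ∑ τ : M →ₐ[F] IK F v, Finsupp.single
          (mapPt (algebraMap (IK F v) (AlgebraicClosure (IK F v)))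
            (mapPt (τ : M →+* IK F v) (Projectivization.mk M q hq))) (1 : ℤ) -
        (Ct.pc (AlgebraicClosure (IK F v)) P hP -
          Ct.pc (AlgebraicClosure (IK F v)) (fun i => e.symm (Q i)) hQ')) :
          (ℙ (AlgebraicClosure (IK F v)) (Fin n → AlgebraicClosure (IK F v)) →₀ ℤ) ⧸
            (ratEq (AlgebraicClosure (IK F v)) (fun _ : Unit => f.map (algebraMap F (IK F v))) ⊔
              normCyc (AlgebraicClosure (IK F v))
                (fun _ : Unit => f.map (algebraMap F (IK F v))))) = 0 := by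
      rw [QuotientAddGroup.mk_sub, QuotientAddGroup.mk_sub, QuotientAddGroup.mk_sub, s1, s2]
      abel
    have key2 := (QuotientAddGroup.eq_zero_iff _).1 key
    have n3 := AddSubgroup.mem_sup_right
      (S := ratEq (AlgebraicClosure (IK F v)) (fun _ : Unit => f.map (algebraMap F (IK F v))))
      (sub_mem n1 n2)
    have n4 := add_mem n3 key2
    rw [hc]
    refine (congrArg (· ∈ _) ?_).mp n4
    abel
  · rcases w.isReal_or_isComplex with hr | hcx
    · obtain ⟨e', he'⟩ := Ts.exists_e w hr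
      have hempty : IsEmpty (M →ₐ[F] IK F w) := by
        refine ⟨fun τ => ?_⟩
        have h3 : ((e' : IK F w →+* ℝ).comp (τ : M →+* IK F w)).comp (algebraMap F M) = φ := by
          rcases hall ((e' : IK F w →+* ℝ).comp (τ : M →+* IK F w)) with h4 | h4
          · rw [h4, h1]
          · rw [h4, h2]
        have h5 : (e' : IK F w →+* ℝ).comp (algebraMap F (IK F w)) = φ := by
          rw [← h3]
          ext x
          change e' (algebraMap F (IK F w) x) = e' (τ (algebraMap F M x))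
          rw [τ.commutes]
        exact hw ((Ts.emb_eq w v _ _ he' he).1 h5)
      have hnil : ∀ y : ℙ M (Fin n → M), ∑ τ : M →ₐ[F] IK F w, Finsupp.single
          (mapPt (algebraMap (IK F w) (AlgebraicClosure (IK F w)))
            (mapPt (τ : M →+* IK F w) y)) (1 : ℤ) = 0 := by
        intro y
        exact Finset.sum_eq_zero fun τ _ => (hempty.false τ).elim
      have n1 := emb_sum (Ω := AlgebraicClosure (IK F w)) e' (f := fun _ : Unit => f) hh
        (Projectivization.mk M p hp) (hrep p hp zp)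
      have n2 := emb_sum (Ω := AlgebraicClosure (IK F w)) e' (f := fun _ : Unit => f) hh
        (Projectivization.mk M q hq) (hrep q hq zq)
      rw [hnil, sub_zero] at n1 n2
      rw [hc]
      exact AddSubgroup.mem_sup_right (sub_mem n1 n2)
    · have h9 := (sub_G1b (A := (Fin.elim0 : Fin 0 → Matrix (Fin 0) (Fin 0) _)) hh w
        (Or.inl hcx)).1
      have h10 : G1b.cls (bcZ (IK F w) hh c) = 0 := Subsingleton.elim _ _
      have h11 := (QuotientAddGroup.eq_zero_iff _).1 h10
      exact h11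

end Cr
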