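import Pool.Agent.Lib.MP_f80667_ag.Cu.Defs

/-! A cubic form which vanishes on a plane: the residual quadric surfaces. -/

namespace Cr

open Cu

/-- The cubic form `T` vanishes on the plane spanned by `u 0`, `u 1`, `u 2`. -/
structure Pln {E : Type*} [Field E] {n : ℕ} (T : Tn E n) (u : Fin 3 → Fin n → E) : Prop where
  ind : LinearIndependent E u
  f : ∀ i, (ex T E).f (u i) = 0
  D : ∀ i j, (ex T E).D (u i) (u j) = 0
  E3 : (ex T E).E (u 0) (u 1) (u 2) = 0

section

variable {E : Type*} [Field E] {n : ℕ} (T : Tn E n) (u : Fin 3 → Fin n → E) {R : Type*}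
  [CommRing R] [Algebra E R]

/-- The matrix of the residual quadric surface of `b`. -/
def mt (b : Fin n → R) : Matrix (Fin 4) (Fin 4) R :=
  !![(ex T R).E (up R (u 0)) (up R (u 0)) b, (ex T R).E (up R (u 0)) (up R (u 1)) b,
      (ex T R).E (up R (u 0)) (up R (u 2)) b, (ex T R).D b (up R (u 0));
    (ex T R).E (up R (u 1)) (up R (u 0)) b, (ex T R).E (up R (u 1)) (up R (u 1)) b,
      (ex T R).E (up R (u 1)) (up R (u 2)) b, (ex T R).D b (up R (u 1));
    (ex T R).E (up R (u 2)) (up R (u 0)) b, (ex T R).E (up R (u 2)) (up R (u 1)) b,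
      (ex T R).E (up R (u 2)) (up R (u 2)) b, (ex T R).D b (up R (u 2));
    (ex T R).D b (up R (u 0)), (ex T R).D b (up R (u 1)), (ex T R).D b (up R (u 2)),
      2 * (ex T R).f b]

/-- The vector `x₀ u₀ + x₁ u₁ + x₂ u₂`. -/
def pl (t : Fin 3 → R) : Fin n → R :=
  t 0 • up R (u 0) + t 1 • up R (u 1) + t 2 • up R (u 2)

/-- The vector `x₀ u₀ + x₁ u₁ + x₂ u₂ + x₃ b`. -/
def pt (b : Fin n → R) (x : Fin 4 → R) : Fin n → R :=
  x 0 • up R (u 0) + x 1 • up R (u 1) + x 2 • up R (u 2) + x 3 • b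

/-- The quadratic form of a matrix. -/
def qf {m : ℕ} (M : Matrix (Fin m) (Fin m) R) (x : Fin m → R) : R := ∑ i, ∑ j, M i j * (x i * x j)

/-- The bilinear form of a matrix. -/
def bf {m : ℕ} (M : Matrix (Fin m) (Fin m) R) (x y : Fin m → R) : R := ∑ i, ∑ j, M i j * (x i * y j)

/-- The `3 × 3` minors. -/
def mn (M : Matrix (Fin 4) (Fin 4) R) (i j : Fin 4) : R :=
  (M.submatrix i.succAbove j.succAbove).det

end

section pln

variable {E : Type*} [Field E] {n : ℕ} {T : Tn E n} {u : Fin 3 → Fin n → E} {R : Type*}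
  [CommRing R] [Algebra E R]

theorem Pln.upf (h : Pln T u) (i : Fin 3) : (ex T R).f (up R (u i)) = 0 := by
  rw [ex_f (M := E), h.f, map_zero]

theorem Pln.upD (h : Pln T u) (i j : Fin 3) : (ex T R).D (up R (u i)) (up R (u j)) = 0 := by
  rw [ex_D (M := E), h.D, map_zero]

theorem Pln.upE (h : Pln T u) : (ex T R).E (up R (u 0)) (up R (u 1)) (up R (u 2)) = 0 := by
  rw [ex_E (M := E), h.E3, map_zero]

theorem mt_comm (b : Fin n → R) (i j : Fin 4) : mt T u b i j = mt T u b j i := by
  fin_cases i <;> fin_cases j <;> simp [mt, (ex T R).E_comm]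

theorem f4 (c : Cb R (Fin n → R)) (x y z w : Fin n → R) :
    c.f (x + y + z + w) = c.f x + c.f y + c.f z + c.f w + c.D x y + c.D y x + c.D x z + c.D z x +
      c.D y z + c.D z y + c.E x y z + c.D x w + c.D y w + c.D z w + c.D w x + c.D w y + c.D w z +
      c.E x y w + c.E x z w + c.E y z w := by
  simp only [c.f_add, c.D_add, c.add_D, c.E_add1]
  ring

/-- The form on the span of the plane and `b`. -/
theorem two_f (h : Pln T u) (b : Fin n → R) (x : Fin 4 → R) :
    2 * (ex T R).f (pt u b x) = x 3 * qf (mt T u b) x := by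
  have h0 := fun i => h.upf (R := R) i
  have h1 := fun i j => h.upD (R := R) i j
  have h2 := h.upE (R := R)
  have h3 : ∀ i, (ex T R).E (up R (u i)) (up R (u i)) b = 2 * (ex T R).D (up R (u i)) b :=
    fun i => (ex T R).E_self _ _
  have h4 : qf (mt T u b) x = (ex T R).E (up R (u 0)) (up R (u 0)) b * (x 0 * x 0) +
      (ex T R).E (up R (u 1)) (up R (u 1)) b * (x 1 * x 1) +
      (ex T R).E (up R (u 2)) (up R (u 2)) b * (x 2 * x 2) +
      2 * (ex T R).E (up R (u 0)) (up R (u 1)) b * (x 0 * x 1) +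
      2 * (ex T R).E (up R (u 0)) (up R (u 2)) b * (x 0 * x 2) +
      2 * (ex T R).E (up R (u 1)) (up R (u 2)) b * (x 1 * x 2) +
      2 * (ex T R).D b (up R (u 0)) * (x 0 * x 3) + 2 * (ex T R).D b (up R (u 1)) * (x 1 * x 3) +
      2 * (ex T R).D b (up R (u 2)) * (x 2 * x 3) + 2 * (ex T R).f b * (x 3 * x 3) := by
    simp only [qf, Fin.sum_univ_four, mt, Matrix.of_apply, Matrix.cons_val', Matrix.cons_val_zero,
      Matrix.cons_val_one, Matrix.cons_val]
    rw [(ex T R).E_comm (up R (u 1)) (up R (u 0)), (ex T R).E_comm (up R (u 2)) (up R (u 0)),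
      (ex T R).E_comm (up R (u 2)) (up R (u 1))]
    ring
  rw [h4, h3, h3, h3, pt, f4]
  simp only [(ex T R).f_smul, (ex T R).D_smul, (ex T R).smul_D, (ex T R).E_smul1,
    (ex T R).E_smul2, (ex T R).E_smul, h0, h1, h2]
  ring

theorem mt_map {S : Type*} [CommRing S] [Algebra E S] (φ : R →ₐ[E] S) (b : Fin n → R) :
    (mt T u b).map φ = mt T u (fun i => φ (b i)) := by
  have h0 : (T.map (algebraMap E R)).map (φ : R →+* S) = T.map (algebraMap E S) := by
    funext i j l
    exact φ.commutes (T i j l)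
  have h1 : ∀ v : Fin n → E, (fun i => (φ : R →+* S) (up R v i)) = up S v := fun v => by
    funext i
    exact φ.commutes (v i)
  have hf : ∀ x : Fin n → R, φ ((ex T R).f x) = (ex T S).f (fun i => φ (x i)) := fun x => by
    have h2 := map_f (φ : R →+* S) (T.map (algebraMap E R)) x
    rw [h0] at h2
    exact h2.symm
  have hD : ∀ x y : Fin n → R, φ ((ex T R).D x y) = (ex T S).D (fun i => φ (x i))
      (fun i => φ (y i)) := fun x y => by
    have h2 := map_D (φ : R →+* S) (T.map (algebraMap E R)) x y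
    rw [h0] at h2
    exact h2.symm
  have hE : ∀ x y z : Fin n → R, φ ((ex T R).E x y z) = (ex T S).E (fun i => φ (x i))
      (fun i => φ (y i)) (fun i => φ (z i)) := fun x y z => by
    have h2 := map_E (φ : R →+* S) (T.map (algebraMap E R)) x y z
    rw [h0] at h2
    exact h2.symm
  have h1' : ∀ v : Fin n → E, (fun i => φ (up R v i)) = up S v := h1
  have h2 : φ (2 : R) = 2 := map_ofNat φ 2
  ext i j
  fin_cases i <;> fin_cases j <;> simp [mt, hf, hD, hE, h1', h2]

end pln

end Cr
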