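import Pool.Agent.Lib.MP_f80667_ag.Ts.Zar
import Pool.Agent.Lib.MP_f80667_ag.Cr.Mat

/-! Choice of the line in the base near two given real points. `H` is the polynomial of the general
line (`Cr.Res`). -/

namespace Cr

open Cu

/-- `b0 + X b1`. -/
noncomputable def ln {E : Type} [Field E] {n : ℕ} (b0 b1 : Fin n → E) : Fin n → Polynomial E :=
  fun i => Polynomial.C (b0 i) + Polynomial.X * Polynomial.C (b1 i)

section alg

variable {E : Type*} [Field E] {n : ℕ} (T : Tn E n) {R S : Type*} [CommRing R] [Algebra E R]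
  [CommRing S] [Algebra E S] (φ : R →ₐ[E] S)

theorem ex_map_eq : (T.map (algebraMap E R)).map (φ : R →+* S) = T.map (algebraMap E S) := by
  funext i j l
  exact φ.commutes (T i j l)

theorem alg_D (x y : Fin n → R) :
    φ ((ex T R).D x y) = (ex T S).D (fun i => φ (x i)) (fun i => φ (y i)) := by
  have h2 := map_D (φ : R →+* S) (T.map (algebraMap E R)) x y
  rw [ex_map_eq] at h2
  exact h2.symm

theorem alg_E (x y z : Fin n → R) :
    φ ((ex T R).E x y z) = (ex T S).E (fun i => φ (x i)) (fun i => φ (y i)) (fun i => φ (z i)) := by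
  have h2 := map_E (φ : R →+* S) (T.map (algebraMap E R)) x y z
  rw [ex_map_eq] at h2
  exact h2.symm

theorem alg_mn (M : Matrix (Fin 4) (Fin 4) R) (i j : Fin 4) :
    φ (mn M i j) = mn (M.map φ) i j := by
  unfold mn
  rw [AlgHom.map_det]
  rfl

theorem alg_mn_mt {u : Fin 3 → Fin n → E} (b : Fin n → R) (i j : Fin 4) :
    φ (mn (mt T u b) i j) = mn (mt T u (fun l => φ (b l))) i j := by
  rw [alg_mn, mt_map]

end alg

/-- Proof: `t`, `t'`, `b`, `b'` give the nonzero polynomials `D t b1` and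
`E t t' b0 * D t b1 - D t b0 * E t t' b1` in `(b0, b1)`; a line with `H ≠ 0` gives a point `c` of `E^n`
where some `3 × 3` minor is not zero (put `X = 0` in the relation), so this minor is a nonzero
polynomial in `b1`. Multiply the four polynomials, `Ts.wap_ne` for `2 n` variables (renumber
`Fin n ⊕ Fin n` as `Fin (n + n)`). -/
theorem exists_line {E : Type} [Field E] [NumberField E] [Algebra E ℝ] {n : ℕ} {T : Tn E n}
    {u : Fin 3 → Fin n → E}
    (hH : ∃ H : MvPolynomial (Fin n ⊕ Fin n) E, H ≠ 0 ∧ ∀ b0 b1 : Fin n → E,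
      MvPolynomial.eval (Sum.elim b0 b1) H ≠ 0 →
        ∃ c : Fin 4 → Fin 4 → Polynomial E, ∑ i, ∑ j, c i j * mn (mt T u (ln b0 b1)) i j = 1)
    {t t' : Fin 3 → E} {b b' : Fin n → E} (h1 : (ex T E).D (pl u t) b = 0)
    (h2 : (ex T E).E (pl u t) (pl u t') b ≠ 0) (h3 : (ex T E).D (pl u t) b' ≠ 0)
    (r0 r1 : Fin n → ℝ) {δ : ℝ} (hδ : 0 < δ) :
    ∃ b0 b1 : Fin n → E,
      (∃ c : Fin 4 → Fin 4 → Polynomial E, ∑ i, ∑ j, c i j * mn (mt T u (ln b0 b1)) i j = 1) ∧
      (∃ i j, mn (mt T u b1) i j ≠ 0) ∧ (ex T E).D (pl u t) b1 ≠ 0 ∧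
      (ex T E).E (pl u t) (pl u t') b0 * (ex T E).D (pl u t) b1 -
        (ex T E).D (pl u t) b0 * (ex T E).E (pl u t) (pl u t') b1 ≠ 0 ∧
      (∀ i, |algebraMap E ℝ (b0 i) - r0 i| < δ) ∧ ∀ i, |algebraMap E ℝ (b1 i) - r1 i| < δ := by
  classical
  obtain ⟨H, hH0, hH⟩ := hH
  -- a point of the base with a nonzero minor
  obtain ⟨b2, i0, j0, hmn⟩ : ∃ (b2 : Fin n → E) (i j : Fin 4), mn (mt T u b2) i j ≠ 0 := by
    obtain ⟨x, hx⟩ : ∃ x : Fin n ⊕ Fin n → E, MvPolynomial.eval x H ≠ 0 := by
      by_contra hcon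
      push Not at hcon
      exact hH0 (MvPolynomial.funext fun x => by rw [hcon, map_zero])
    have hx2 : Sum.elim (fun i => x (Sum.inl i)) (fun i => x (Sum.inr i)) = x := by
      funext s
      rcases s with s | s <;> rfl
    obtain ⟨c, hc⟩ := hH (fun i => x (Sum.inl i)) (fun i => x (Sum.inr i)) (by rw [hx2]; exact hx)
    refine ⟨fun i => x (Sum.inl i), ?_⟩
    by_contra hcon
    push Not at hcon
    have hev := congrArg (Polynomial.aeval (R := E) (0 : E)) hc
    rw [map_sum, map_one] at hev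
    have hz : ∀ i j : Fin 4, (Polynomial.aeval (R := E) (0 : E))
        (mn (mt T u (ln (fun i => x (Sum.inl i)) (fun i => x (Sum.inr i)))) i j) = 0 := by
      intro i j
      rw [alg_mn_mt T (Polynomial.aeval (R := E) (0 : E))]
      have e1 : (fun l => (Polynomial.aeval (R := E) (0 : E))
          (ln (fun i => x (Sum.inl i)) (fun i => x (Sum.inr i)) l)) = fun i => x (Sum.inl i) := by
        funext l
        simp [ln]
      rw [e1]
      exact hcon i j
    refine one_ne_zero (α := E) (hev.symm.trans ?_)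
    refine Finset.sum_eq_zero fun i _ => ?_
    rw [map_sum]
    refine Finset.sum_eq_zero fun j _ => ?_
    rw [map_mul, hz, mul_zero]
  -- the four polynomials
  let β0 : Fin n → MvPolynomial (Fin (n + n)) E := fun i => MvPolynomial.X (Fin.castAdd n i)
  let β1 : Fin n → MvPolynomial (Fin (n + n)) E := fun i => MvPolynomial.X (Fin.natAdd n i)
  let τ : Fin n → MvPolynomial (Fin (n + n)) E := up _ (pl u t)
  let τ' : Fin n → MvPolynomial (Fin (n + n)) E := up _ (pl u t')
  let P1 : MvPolynomial (Fin (n + n)) E := MvPolynomial.rename finSumFinEquiv H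
  let P2 : MvPolynomial (Fin (n + n)) E := mn (mt T u β1) i0 j0
  let P3 : MvPolynomial (Fin (n + n)) E := (ex T _).D τ β1
  let P4 : MvPolynomial (Fin (n + n)) E :=
    (ex T _).E τ τ' β0 * (ex T _).D τ β1 - (ex T _).D τ β0 * (ex T _).E τ τ' β1
  have hb0 : ∀ p : Fin (n + n) → E, (fun i => MvPolynomial.aeval (R := E) p (β0 i)) =
      fun i => p (Fin.castAdd n i) := fun p => by funext i; simp [β0]
  have hb1 : ∀ p : Fin (n + n) → E, (fun i => MvPolynomial.aeval (R := E) p (β1 i)) =
      fun i => p (Fin.natAdd n i) := fun p => by funext i; simp [β1]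
  have ht : ∀ p : Fin (n + n) → E, (fun i => MvPolynomial.aeval (R := E) p (τ i)) = pl u t :=
    fun p => by
      funext i
      exact (MvPolynomial.aeval (R := E) p).commutes (pl u t i)
  have ht' : ∀ p : Fin (n + n) → E, (fun i => MvPolynomial.aeval (R := E) p (τ' i)) = pl u t' :=
    fun p => by
      funext i
      exact (MvPolynomial.aeval (R := E) p).commutes (pl u t' i)
  have e1 : ∀ p : Fin (n + n) → E, MvPolynomial.aeval (R := E) p P1 =
      MvPolynomial.eval (Sum.elim (fun i => p (Fin.castAdd n i)) (fun i => p (Fin.natAdd n i))) H := by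
    intro p
    have e0 : p ∘ finSumFinEquiv =
        Sum.elim (fun i => p (Fin.castAdd n i)) (fun i => p (Fin.natAdd n i)) := by
      funext s
      rcases s with s | s
      · simp
      · simp
    have e2 : MvPolynomial.aeval (R := E) p P1 = MvPolynomial.aeval (R := E) (p ∘ finSumFinEquiv) H :=
      MvPolynomial.aeval_rename _ _ _
    rw [e2, e0, MvPolynomial.aeval_eq_eval]
  have e2 : ∀ p : Fin (n + n) → E, MvPolynomial.aeval (R := E) p P2 =
      mn (mt T u (fun i => p (Fin.natAdd n i))) i0 j0 := by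
    intro p
    have := alg_mn_mt T (u := u) (MvPolynomial.aeval (R := E) p) β1 i0 j0
    rw [hb1] at this
    exact this
  have e3 : ∀ p : Fin (n + n) → E, MvPolynomial.aeval (R := E) p P3 =
      (ex T E).D (pl u t) (fun i => p (Fin.natAdd n i)) := by
    intro p
    have := alg_D T (MvPolynomial.aeval (R := E) p) τ β1
    rw [hb1, ht] at this
    exact this
  have e4 : ∀ p : Fin (n + n) → E, MvPolynomial.aeval (R := E) p P4 =
      (ex T E).E (pl u t) (pl u t') (fun i => p (Fin.castAdd n i)) *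
        (ex T E).D (pl u t) (fun i => p (Fin.natAdd n i)) -
      (ex T E).D (pl u t) (fun i => p (Fin.castAdd n i)) *
        (ex T E).E (pl u t) (pl u t') (fun i => p (Fin.natAdd n i)) := by
    intro p
    have d0 := alg_D T (MvPolynomial.aeval (R := E) p) τ β0
    have d1 := alg_D T (MvPolynomial.aeval (R := E) p) τ β1
    have f0 := alg_E T (MvPolynomial.aeval (R := E) p) τ τ' β0
    have f1 := alg_E T (MvPolynomial.aeval (R := E) p) τ τ' β1
    rw [hb0, ht] at d0
    rw [hb1, ht] at d1
    rw [hb0, ht, ht'] at f0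
    rw [hb1, ht, ht'] at f1
    change MvPolynomial.aeval (R := E) p ((ex T _).E τ τ' β0 * (ex T _).D τ β1 -
      (ex T _).D τ β0 * (ex T _).E τ τ' β1) = _
    rw [map_sub, map_mul, map_mul, d0, d1, f0, f1]
  have n1 : P1 ≠ 0 := by
    intro h
    exact hH0 (MvPolynomial.rename_injective _ finSumFinEquiv.injective (by rw [map_zero]; exact h))
  have n2 : P2 ≠ 0 := by
    intro h
    have := e2 (Fin.append b2 b2)
    rw [h, map_zero] at this
    refine hmn (Eq.trans ?_ this.symm)
    congr 2
    funext i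
    rw [Fin.append_right]
  have n3 : P3 ≠ 0 := by
    intro h
    have := e3 (Fin.append b b')
    rw [h, map_zero] at this
    refine h3 (Eq.trans ?_ this.symm)
    congr 1
    funext i
    rw [Fin.append_right]
  have n4 : P4 ≠ 0 := by
    intro h
    have := e4 (Fin.append b b')
    rw [h, map_zero] at this
    have q0 : (fun i => Fin.append b b' (Fin.castAdd n i)) = b := by
      funext i
      rw [Fin.append_left]
    have q1 : (fun i => Fin.append b b' (Fin.natAdd n i)) = b' := by
      funext i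
      rw [Fin.append_right]
    rw [q0, q1, h1, zero_mul, sub_zero] at this
    exact mul_ne_zero h2 h3 this.symm
  obtain ⟨p, hp1, hp2⟩ := Ts.wap_ne (P1 * P2 * (P3 * P4))
    (mul_ne_zero (mul_ne_zero n1 n2) (mul_ne_zero n3 n4)) (fun _ => Fin.append r0 r1) hδ
  have hp3 : MvPolynomial.aeval (R := E) p (P1 * P2 * (P3 * P4)) ≠ 0 := by
    rw [MvPolynomial.aeval_eq_eval]
    exact hp1
  rw [map_mul, map_mul, map_mul] at hp3
  have m1 := left_ne_zero_of_mul (left_ne_zero_of_mul hp3)
  have m2 := right_ne_zero_of_mul (left_ne_zero_of_mul hp3)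
  have m3 := left_ne_zero_of_mul (right_ne_zero_of_mul hp3)
  have m4 := right_ne_zero_of_mul (right_ne_zero_of_mul hp3)
  rw [e1] at m1
  rw [e2] at m2
  rw [e3] at m3
  rw [e4] at m4
  refine ⟨fun i => p (Fin.castAdd n i), fun i => p (Fin.natAdd n i), hH _ _ m1, ⟨i0, j0, m2⟩, m3,
    m4, fun i => ?_, fun i => ?_⟩
  · have := hp2 (algebraMap E ℝ) (Fin.castAdd n i)
    rwa [Fin.append_left] at this
  · have := hp2 (algebraMap E ℝ) (Fin.natAdd n i)
    rwa [Fin.append_right] at this

end Cr
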