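import Pool.Agent.Lib.MP_f80667_ag.Hm.Loc
import Pool.Agent.Lib.MP_f80667_ag.Cr.Mat

/-! Binary quadratic forms whose discriminant is near a square. -/

open IsDedekindDomain NumberField

namespace Cr

/-- Proof: `b² - 4 a c` is a square `r²` in the completion (`Hm.sq_of_mem_LSq`); if `a ≠ 0` take
`s = -b + r`, `t = 2 a`, otherwise `s = 1`, `t = 0`. -/
theorem iso_near_sq {M : Type} [Field M] [NumberField M] (v : HeightOneSpectrum (𝓞 M))
    (a b c e : M) (he : e ≠ 0)
    (h : v.valuation M (b ^ 2 - 4 * a * c - e ^ 2) < v.valuation M 4 * v.valuation M e ^ 2) :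
    ∃ s t : v.adicCompletion M, (s ≠ 0 ∨ t ≠ 0) ∧
      algebraMap M (v.adicCompletion M) a * s ^ 2 + algebraMap M (v.adicCompletion M) b * (s * t) +
        algebraMap M (v.adicCompletion M) c * t ^ 2 = 0 := by
  by_cases ha : a = 0
  · refine ⟨1, 0, Or.inl one_ne_zero, ?_⟩
    rw [ha, map_zero]
    ring
  · have hval : ∀ z : M, Valued.v (algebraMap M (v.adicCompletion M) z) = v.valuation M z :=
      fun z => HeightOneSpectrum.valuedAdicCompletion_eq_valuation' v z
    have h44 : Valued.v (4 : v.adicCompletion M) = v.valuation M 4 := by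
      rw [← hval, map_ofNat (algebraMap M (v.adicCompletion M)) 4]
    have hve : 0 < v.valuation M e ^ 2 := by
      refine zero_lt_iff.2 (pow_ne_zero _ ?_)
      rwa [Ne, map_eq_zero]
    obtain ⟨s0, -, hs0⟩ := Hm.exists_sq_of_near (v := v)
      (z := algebraMap M (v.adicCompletion M) ((b ^ 2 - 4 * a * c) / e ^ 2)) (by
        rw [h44, ← map_one (algebraMap M (v.adicCompletion M)), ← map_sub, hval]
        have h1 : (b ^ 2 - 4 * a * c) / e ^ 2 - 1 = (b ^ 2 - 4 * a * c - e ^ 2) / e ^ 2 := by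
          field_simp
        rw [h1, map_div₀, map_pow, div_lt_iff₀ hve]
        exact h)
    obtain ⟨r, hr⟩ : ∃ r, r = s0 * algebraMap M (v.adicCompletion M) e := ⟨_, rfl⟩
    have hr2 : r ^ 2 = algebraMap M (v.adicCompletion M) (b ^ 2 - 4 * a * c) := by
      rw [hr, mul_pow, hs0, ← map_pow, ← map_mul, div_mul_cancel₀ _ (pow_ne_zero 2 he)]
    have h2 : (2 : v.adicCompletion M) ≠ 0 := two_ne_zero
    have ha' : algebraMap M (v.adicCompletion M) a ≠ 0 := by rwa [Ne, map_eq_zero]
    refine ⟨-algebraMap M (v.adicCompletion M) b + r, 2 * algebraMap M (v.adicCompletion M) a,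
      Or.inr (mul_ne_zero h2 ha'), ?_⟩
    simp only [map_sub, map_mul, map_pow, map_ofNat] at hr2
    linear_combination algebraMap M (v.adicCompletion M) a * hr2

end Cr
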