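import Pool.Agent.Lib.MP_f80667_ag.Cr.GoodP
import Pool.Agent.Lib.MP_f80667_ag.Cr.SqP
import Pool.Agent.Lib.MP_f80667_ag.Cr.Gen

/-! The residual quadrics of a line have points at all finite places, if the parameter is near a
given one at finitely many places. -/

open IsDedekindDomain NumberField

namespace Cr

open Cu

namespace FinP

open GoodP Polynomial

section alg

theorem mn_map {R S : Type*} [CommRing R] [CommRing S] (φ : R →+* S) (A : Matrix (Fin 4) (Fin 4) R)
    (i j : Fin 4) : mn (A.map φ) i j = φ (mn A i j) := by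
  unfold mn
  rw [RingHom.map_det]
  rfl

variable {E : Type*} [Field E] {n : ℕ} {T : Tn E n} {u : Fin 3 → Fin n → E} {R : Type*}
  [CommRing R] [Algebra E R]

/-- The matrix of a multiple of `b`. -/
theorem mt_smul (c : R) (b : Fin n → R) (i j : Fin 4) :
    mt T u (c • b) i j =
      c * ((![1, 1, 1, c] : Fin 4 → R) i * (![1, 1, 1, c] : Fin 4 → R) j) * mt T u b i j := by
  fin_cases i <;> fin_cases j <;>
    simp [mt, (ex T R).E_smul, (ex T R).smul_D, (ex T R).f_smul] <;> ring

/-- The quadratic form of a multiple of `b`, after base change. -/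
theorem qf_smul {S : Type*} [CommRing S] (ρ : R →+* S) (c : R) (b : Fin n → R) (x : Fin 4 → S) :
    qf ((mt T u (c • b)).map ρ) x =
      ρ c * qf ((mt T u b).map ρ) (fun i => ρ ((![1, 1, 1, c] : Fin 4 → R) i) * x i) := by
  simp only [qf, Matrix.map_apply, Finset.mul_sum]
  refine Finset.sum_congr rfl fun i _ => Finset.sum_congr rfl fun j _ => ?_
  rw [mt_smul, map_mul, map_mul, map_mul]
  ring

/-- A point of the plane as a vector with four coordinates. -/
def v4 {R : Type*} [Zero R] (t : Fin 3 → R) : Fin 4 → R := ![t 0, t 1, t 2, 0]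

theorem bf_v4 (b : Fin n → R) (t t' : Fin 3 → R) :
    bf (mt T u b) (v4 t) (v4 t') = (ex T R).E (pl u t) (pl u t') b := by
  simp only [bf, Fin.sum_univ_four, mt, v4, pl, Matrix.of_apply, Matrix.cons_val', Matrix.cons_val_zero,
    Matrix.cons_val_one, Matrix.cons_val, (ex T R).E_add1, (ex T R).E_add2, (ex T R).E_smul1,
    (ex T R).E_smul2]
  ring

theorem bf_v4_self (b : Fin n → R) (t : Fin 3 → R) :
    bf (mt T u b) (v4 t) (v4 t) = 2 * (ex T R).D (pl u t) b := by
  rw [bf_v4, (ex T R).E_self]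

theorem up_pl (t : Fin 3 → E) : up R (pl u t) = pl u (fun i => algebraMap E R (t i)) := by
  funext i
  simp [up, pl, Algebra.smul_def]

end alg

section poly

variable {E M : Type*} [Field E] [Field M] [Algebra E M] {Γ : Type*}
  [LinearOrderedCommGroupWithZero Γ] (vv : Valuation M Γ)

/-- The coefficients of `p` are integral. -/
def IntP (p : Polynomial E) : Prop := ∀ k, vv (algebraMap E M (p.coeff k)) ≤ 1

theorem IntP.aeval {p : Polynomial E} (hp : IntP vv p) {l : M} (hl : vv l ≤ 1) :
    vv (Polynomial.aeval l p) ≤ 1 := by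
  rw [Polynomial.aeval_eq_sum_range]
  refine Valuation.map_sum_le _ fun k _ => ?_
  rw [Algebra.smul_def, map_mul, map_pow]
  exact mul_le_one' (hp k) (pow_le_one' hl k)

theorem IntP.unit {p : Polynomial E} (hp : IntP vv p) {l : M} (hl : vv l < 1)
    (h0 : vv (algebraMap E M (p.coeff 0)) = 1) : vv (Polynomial.aeval l p) = 1 := by
  have h1 : Polynomial.aeval l p = Polynomial.aeval l p.divX * l + algebraMap E M (p.coeff 0) := by
    conv_lhs => rw [← Polynomial.divX_mul_X_add p]
    rw [map_add, map_mul, Polynomial.aeval_X, Polynomial.aeval_C]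
  have h2 : IntP vv p.divX := fun k => by
    rw [Polynomial.coeff_divX]
    exact hp (k + 1)
  have h3 : vv (Polynomial.aeval l p.divX * l) < 1 := sm_mul' vv (h2.aeval vv hl.le) hl
  rw [h1, Valuation.map_add_eq_of_lt_right vv (by rwa [h0]), h0]

end poly

theorem finite_intP {E M : Type} [Field E] [Field M] [NumberField M] [Algebra E M]
    (p : Polynomial E) : {v : HeightOneSpectrum (𝓞 M) | ¬ IntP (v.valuation M) p}.Finite := by
  have h : (⋃ k ∈ p.support, {v : HeightOneSpectrum (𝓞 M) |
      1 < v.valuation M (algebraMap E M (p.coeff k))}).Finite :=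
    p.support.finite_toSet.biUnion fun k _ => HeightOneSpectrum.Support.finite (𝓞 M) _
  refine h.subset fun v hv => ?_
  have hv' : ¬ ∀ k, v.valuation M (algebraMap E M (p.coeff k)) ≤ 1 := hv
  push Not at hv'
  obtain ⟨k, hk⟩ := hv'
  refine Set.mem_biUnion (x := k) ?_ hk
  rw [Finset.mem_coe, Polynomial.mem_support_iff]
  intro h0
  rw [h0, map_zero, map_zero] at hk
  exact absurd hk (not_lt.2 zero_le_one)

theorem aeval_ln {E M : Type} [Field E] [Field M] [Algebra E M] {n : ℕ} {T : Tn E n}
    {u : Fin 3 → Fin n → E} (b0 b1 : Fin n → E) (l : M) :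
    (mt T u (ln b0 b1)).map (Polynomial.aeval l : Polynomial E →ₐ[E] M) =
      mt T u (up M b0 + l • up M b1) := by
  rw [mt_map]
  congr 1
  funext i
  show (Polynomial.aeval l : Polynomial E →ₐ[E] M)
    (Polynomial.C (b0 i) + Polynomial.X * Polynomial.C (b1 i)) =
      algebraMap E M (b0 i) + l * algebraMap E M (b1 i)
  rw [map_add, map_mul, Polynomial.aeval_C, Polynomial.aeval_C, Polynomial.aeval_X]

/-- A binary form with nearly square discriminant at the place gives a zero. -/
theorem zero_of_near {E : Type} [Field E] {n : ℕ} {T : Tn E n} {u : Fin 3 → Fin n → E}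
    {t t' : Fin 3 → E} {b0 b1 : Fin n → E} (h1 : (ex T E).D (pl u t) b1 ≠ 0)
    (h2 : (ex T E).E (pl u t) (pl u t') b0 * (ex T E).D (pl u t) b1 -
        (ex T E).D (pl u t) b0 * (ex T E).E (pl u t) (pl u t') b1 ≠ 0)
    (M : Type) [Field M] [NumberField M] [Algebra E M] (v : HeightOneSpectrum (𝓞 M)) (l e : M)
    (he : e ≠ 0)
    (hl : v.valuation M ((ex T M).E (pl u fun i => algebraMap E M (t i))
        (pl u fun i => algebraMap E M (t' i)) (up M b0 + l • up M b1) ^ 2 -
        4 * (ex T M).D (pl u fun i => algebraMap E M (t i)) (up M b0 + l • up M b1) *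
        (ex T M).D (pl u fun i => algebraMap E M (t' i)) (up M b0 + l • up M b1) - e ^ 2) <
        v.valuation M 4 * v.valuation M e ^ 2) :
    ∃ x : Fin 4 → v.adicCompletion M, x ≠ 0 ∧
      qf ((mt T u (up M b0 + l • up M b1)).map (algebraMap M (v.adicCompletion M))) x = 0 := by
  obtain ⟨s, s', hs, hz⟩ := iso_near_sq v _ _ _ e he hl
  set ρ := algebraMap M (v.adicCompletion M) with hρ
  set τ : Fin 4 → M := v4 fun i => algebraMap E M (t i) with hτ
  set τ' : Fin 4 → M := v4 fun i => algebraMap E M (t' i) with hτ'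
  let x : Fin 4 → v.adicCompletion M :=
    s • (fun i => ρ (τ i)) + s' • (fun i => ρ (τ' i))
  refine ⟨x, fun hx => ?_, ?_⟩
  · -- the vectors are independent
    have key : ∀ b : Fin n → E, s * (2 * ρ (algebraMap E M ((ex T E).D (pl u t) b))) +
        s' * ρ (algebraMap E M ((ex T E).E (pl u t) (pl u t') b)) = 0 := by
      intro b
      have e1 : bf ((mt T u (up M b)).map ρ) (fun i => ρ (τ i)) x = 0 := by
        rw [hx, bf_zero_r]
      have e2 : bf ((mt T u (up M b)).map ρ) (fun i => ρ (τ i)) x =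
          s * ρ (bf (mt T u (up M b)) τ τ) + s' * ρ (bf (mt T u (up M b)) τ τ') := by
        simp only [x, bf_add_r, bf_smul_r, bf_map]
      rw [e2, hτ, hτ', bf_v4_self, bf_v4, ← up_pl, ← up_pl, ex_D, ex_E, map_mul, map_ofNat] at e1
      exact e1
    have k0 := key b0
    have k1 := key b1
    have hinj : ∀ a : E, a ≠ 0 → ρ (algebraMap E M a) ≠ 0 := fun a ha => by
      rw [Ne, map_eq_zero, map_eq_zero]
      exact ha
    have d1 := hinj _ h1
    have d2 := hinj _ h2
    rw [map_sub, map_mul, map_mul, map_sub, map_mul, map_mul] at d2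
    have hs' : s' = 0 := by
      refine (mul_eq_zero.1 ?_).resolve_right d2
      linear_combination (ρ (algebraMap E M ((ex T E).D (pl u t) b1))) * k0 -
        (ρ (algebraMap E M ((ex T E).D (pl u t) b0))) * k1
    rw [hs', zero_mul, add_zero] at k1
    have h22 : (2 : v.adicCompletion M) ≠ 0 := two_ne_zero
    have hs0 : s = 0 := (mul_eq_zero.1 k1).resolve_right (mul_ne_zero h22 d1)
    rcases hs with h | h
    · exact h hs0
    · exact h hs'
  · set b := up M b0 + l • up M b1 with hb
    have e : qf ((mt T u b).map ρ) x = bf ((mt T u b).map ρ) x x := rfl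
    have e2 : bf ((mt T u b).map ρ) x x = s * (s * ρ (bf (mt T u b) τ τ)) +
        s * (s' * ρ (bf (mt T u b) τ τ')) + (s' * (s * ρ (bf (mt T u b) τ' τ)) +
        s' * (s' * ρ (bf (mt T u b) τ' τ'))) := by
      simp only [x, bf_add_r, bf_add_l, bf_smul_r, bf_smul_l, bf_map]
      ring
    rw [e, e2, hτ, hτ', bf_v4_self, bf_v4_self, bf_v4, bf_v4,
      (ex T M).E_comm (pl u fun i => algebraMap E M (t' i)), map_mul, map_mul, map_ofNat]
    linear_combination 2 * hz

/-- The determinant of an integral `3 × 3` matrix is integral. -/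
theorem val_det_le {K : Type*} [Field K] {Γ : Type*} [LinearOrderedCommGroupWithZero Γ]
    (vv : Valuation K Γ) {X : Matrix (Fin 3) (Fin 3) K} (hX : ∀ k l, vv (X k l) ≤ 1) :
    vv X.det ≤ 1 := by
  have h3 : ∀ k l k' l' k'' l'', vv (X k l * X k' l' * X k'' l'') ≤ 1 :=
    fun k l k' l' k'' l'' => in_mul vv (in_mul vv (hX _ _) (hX _ _)) (hX _ _)
  have ha : ∀ {x y : K}, vv x ≤ 1 → vv y ≤ 1 → vv (x + y) ≤ 1 := fun hx hy =>
    (Valuation.map_add _ _ _).trans (max_le hx hy)
  rw [Matrix.det_fin_three]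
  exact in_sub vv (ha (ha (in_sub vv (in_sub vv (h3 _ _ _ _ _ _) (h3 _ _ _ _ _ _))
    (h3 _ _ _ _ _ _)) (h3 _ _ _ _ _ _)) (h3 _ _ _ _ _ _)) (h3 _ _ _ _ _ _)

end FinP

open FinP GoodP

/-- Proof. `S`: the places of `M` where `2`, or a coordinate of `T`, `u`, `b0`, `b1`, or a coefficient
of the polynomials `c i j` is not integral or `v 2 ≠ 1`, or where the nonzero minor of `mt T u b1` is
not a unit. `l₀ = - D t b0 / D t b1` (in `E`), so `D t (b0 + l₀ b1) = 0` and
`e = E t t' (b0 + l₀ b1) ≠ 0`. `v ∈ S`: for `l` near `l₀` the discriminant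
`(E t t' b)² - 4 D t b D t' b`, `b = b0 + l b1`, is near `e²`: `iso_near_sq` for the binary form
`qf (mt T u b)` on the span of `t`, `t'` (`D (s t + s' t') b = s² D t b + s s' E t t' b + s'² D t' b`;
`t`, `t'` are linearly independent because `E t t b0 = 2 D t b0` ..). `v ∉ S`: if `v l ≤ 1` then
`mt T u (b0 + l b1)` is integral and one of its `3 × 3` minors is a unit (evaluate the relation at
`l`): `iso_good`. If `v l > 1` consider `l⁻¹ b0 + b1`: its matrix is integral and congruent to
`mt T u b1`, so it has a unit minor: `iso_good`; and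
`qf (mt T u (c • b)) x = c qf (mt T u b) (x₀, x₁, x₂, c x₃)`. -/
theorem fin_iso {E : Type} [Field E] [NumberField E] {n : ℕ} {T : Tn E n}
    {u : Fin 3 → Fin n → E} (h : Pln T u) {t t' : Fin 3 → E} {b0 b1 : Fin n → E}
    (hc : ∃ c : Fin 4 → Fin 4 → Polynomial E, ∑ i, ∑ j, c i j * mn (mt T u (ln b0 b1)) i j = 1)
    (hm : ∃ i j, mn (mt T u b1) i j ≠ 0) (h1 : (ex T E).D (pl u t) b1 ≠ 0)
    (h2 : (ex T E).E (pl u t) (pl u t') b0 * (ex T E).D (pl u t) b1 -
        (ex T E).D (pl u t) b0 * (ex T E).E (pl u t) (pl u t') b1 ≠ 0)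
    (M : Type) [Field M] [NumberField M] [Algebra E M] :
    ∃ (S : Finset (HeightOneSpectrum (𝓞 M))) (l₀ : M)
      (g : HeightOneSpectrum (𝓞 M) → WithZero (Multiplicative ℤ)), (∀ v, g v ≠ 0) ∧
      ∀ l : M, (∀ v ∈ S, v.valuation M (l - l₀) < g v) → ∀ v : HeightOneSpectrum (𝓞 M),
        ∃ x : Fin 4 → v.adicCompletion M, x ≠ 0 ∧
          qf ((mt T u (up M b0 + l • up M b1)).map (algebraMap M (v.adicCompletion M))) x = 0 := by
  classical
  obtain ⟨c, hc⟩ := hc
  obtain ⟨i0, j0, hm⟩ := hm
  let P := mt T u (ln b0 b1)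
  let P' := mt T u (ln b1 b0)
  let a0 : M := algebraMap E M (mn (mt T u b1) i0 j0)
  have ha0 : a0 ≠ 0 := by
    rw [Ne, map_eq_zero]
    exact hm
  -- the bad places
  have hfin : ({v : HeightOneSpectrum (𝓞 M) | v.valuation M 2 ≠ 1} ∪
      {v : HeightOneSpectrum (𝓞 M) | v.valuation M a0 ≠ 1} ∪
      {v : HeightOneSpectrum (𝓞 M) | ¬ IntP (v.valuation M) (mn P' i0 j0)} ∪
      (⋃ i : Fin 4, ⋃ j : Fin 4, {v : HeightOneSpectrum (𝓞 M) | ¬ IntP (v.valuation M) (P i j)}) ∪
      (⋃ i : Fin 4, ⋃ j : Fin 4, {v : HeightOneSpectrum (𝓞 M) | ¬ IntP (v.valuation M) (P' i j)}) ∪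
      (⋃ i : Fin 4, ⋃ j : Fin 4,
        {v : HeightOneSpectrum (𝓞 M) | ¬ IntP (v.valuation M) (c i j)})).Finite := by
    refine Set.Finite.union (Set.Finite.union (Set.Finite.union (Set.Finite.union
      (Set.Finite.union ?_ ?_) ?_) ?_) ?_) ?_
    · exact Hm.finite_val_ne_one (K := M) (Units.mk0 2 two_ne_zero)
    · exact Hm.finite_val_ne_one (K := M) (Units.mk0 a0 ha0)
    · exact finite_intP _
    · exact Set.finite_iUnion fun i => Set.finite_iUnion fun j => finite_intP _
    · exact Set.finite_iUnion fun i => Set.finite_iUnion fun j => finite_intP _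
    · exact Set.finite_iUnion fun i => Set.finite_iUnion fun j => finite_intP _
  -- the special value
  set ι := algebraMap E M with hι
  let tM : Fin 3 → M := fun i => ι (t i)
  let tM' : Fin 3 → M := fun i => ι (t' i)
  have eD : ∀ b, (ex T M).D (pl u tM) (up M b) = ι ((ex T E).D (pl u t) b) := fun b => by
    rw [← ex_D, up_pl]
  have eD' : ∀ b, (ex T M).D (pl u tM') (up M b) = ι ((ex T E).D (pl u t') b) := fun b => by
    rw [← ex_D, up_pl]
  have eE : ∀ b, (ex T M).E (pl u tM) (pl u tM') (up M b) =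
      ι ((ex T E).E (pl u t) (pl u t') b) := fun b => by
    rw [← ex_E, up_pl, up_pl]
  set D0 := ι ((ex T E).D (pl u t) b0) with hD0
  set D1 := ι ((ex T E).D (pl u t) b1) with hD1
  set D0' := ι ((ex T E).D (pl u t') b0) with hD0'
  set D1' := ι ((ex T E).D (pl u t') b1) with hD1'
  set E0 := ι ((ex T E).E (pl u t) (pl u t') b0) with hE0
  set E1 := ι ((ex T E).E (pl u t) (pl u t') b1) with hE1
  have hD1n : D1 ≠ 0 := by rwa [hD1, Ne, map_eq_zero]
  have hdet : E0 * D1 - D0 * E1 ≠ 0 := by
    rw [hE0, hD1, hD0, hE1, ← map_mul, ← map_mul, ← map_sub, Ne, map_eq_zero]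
    exact h2
  let l₀ : M := - D0 / D1
  let e : M := E0 + l₀ * E1
  have he : e ≠ 0 := by
    intro h0
    apply hdet
    have : e * D1 = E0 * D1 - D0 * E1 := by
      simp only [e, l₀]
      field_simp
      ring
    rw [← this, h0, zero_mul]
  have hDl₀ : D0 + l₀ * D1 = 0 := by
    simp only [l₀]
    field_simp
    ring
  let K1 : M := 2 * e * E1 - 4 * D1 * (D0' + l₀ * D1')
  let K2 : M := E1 ^ 2 - 4 * D1 * D1'
  let N : HeightOneSpectrum (𝓞 M) → WithZero (Multiplicative ℤ) := fun v =>
    max 1 (max (v.valuation M K1) (v.valuation M K2))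
  have hN : ∀ v, 0 < N v := fun v => lt_of_lt_of_le zero_lt_one (le_max_left _ _)
  have h4e : ∀ v : HeightOneSpectrum (𝓞 M), 0 < v.valuation M 4 * v.valuation M e ^ 2 := fun v => by
    rw [← map_pow, ← map_mul, zero_lt_iff, Ne, map_eq_zero]
    exact mul_ne_zero (by norm_num) (pow_ne_zero 2 he)
  refine ⟨hfin.toFinset, l₀, fun v => min 1 (v.valuation M 4 * v.valuation M e ^ 2 / N v),
    fun v => ?_, fun l hl v => ?_⟩
  · exact (lt_min zero_lt_one (div_pos (h4e v) (hN v))).ne'
  by_cases hv : v ∈ hfin.toFinset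
  · -- the places of `S`
    have hlv := hl v hv
    refine zero_of_near h1 h2 M v l e he ?_
    set δ := l - l₀ with hδ
    have hlδ : l = l₀ + δ := by rw [hδ]; ring
    have hδ1 : v.valuation M δ ≤ 1 := (hlv.trans_le (min_le_left _ _)).le
    have hδ2 : v.valuation M δ * N v < v.valuation M 4 * v.valuation M e ^ 2 :=
      (lt_div_iff₀ (hN v)).1 (hlv.trans_le (min_le_right _ _))
    have eq1 : (ex T M).E (pl u tM) (pl u tM') (up M b0 + l • up M b1) ^ 2 -
        4 * (ex T M).D (pl u tM) (up M b0 + l • up M b1) *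
        (ex T M).D (pl u tM') (up M b0 + l • up M b1) - e ^ 2 = δ * (K1 + δ * K2) := by
      rw [(ex T M).E_add, (ex T M).E_smul, (ex T M).D_add, (ex T M).D_smul, (ex T M).D_add,
        (ex T M).D_smul, eD, eD, eD', eD', eE, eE]
      have e3 : D0 + l * D1 = δ * D1 := by rw [hlδ]; linear_combination hDl₀
      have e4 : E0 + l * E1 = e + δ * E1 := by
        simp only [e]
        rw [hlδ]
        ring
      rw [← hD0, ← hD1, ← hE0, ← hE1, ← hD0', ← hD1', e3, e4, hlδ]
      simp only [K1, K2]
      ring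
    have eq2 : v.valuation M (δ * (K1 + δ * K2)) ≤ v.valuation M δ * N v := by
      rw [map_mul]
      refine mul_le_mul_right ?_ _
      refine (Valuation.map_add _ _ _).trans (max_le ?_ ?_)
      · exact (le_max_left _ _).trans (le_max_right _ _)
      · rw [map_mul]
        calc v.valuation M δ * v.valuation M K2 ≤ 1 * v.valuation M K2 :=
              mul_le_mul_left hδ1 _
          _ = v.valuation M K2 := one_mul _
          _ ≤ N v := (le_max_right _ _).trans (le_max_right _ _)
    show v.valuation M ((ex T M).E (pl u tM) (pl u tM') (up M b0 + l • up M b1) ^ 2 -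
        4 * (ex T M).D (pl u tM) (up M b0 + l • up M b1) *
        (ex T M).D (pl u tM') (up M b0 + l • up M b1) - e ^ 2) < _
    rw [eq1]
    exact eq2.trans_lt hδ2
  · -- the good places
    rw [Set.Finite.mem_toFinset] at hv
    simp only [Set.mem_union, Set.mem_iUnion, Set.mem_ofPred_eq, not_or, not_exists, not_not] at hv
    obtain ⟨⟨⟨⟨⟨hv2, hva⟩, hvm⟩, hvP⟩, hvP'⟩, hvc⟩ := hv
    rcases le_or_gt (v.valuation M l) 1 with hl1 | hl1
    · -- integral parameter
      have hA := aeval_ln (T := T) (u := u) b0 b1 l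
      have hrel := congrArg (Polynomial.aeval l : Polynomial E →ₐ[E] M) hc
      simp only [map_sum, map_mul, map_one] at hrel
      have hmn : ∀ i j, (Polynomial.aeval l : Polynomial E →ₐ[E] M) (mn (mt T u (ln b0 b1)) i j) =
          mn (mt T u (up M b0 + l • up M b1)) i j := fun i j => by
        rw [← hA]
        exact (mn_map ((Polynomial.aeval l : Polynomial E →ₐ[E] M) : Polynomial E →+* M) _ i j).symm
      have hAi : ∀ i j, v.valuation M (mt T u (up M b0 + l • up M b1) i j) ≤ 1 := fun i j => by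
        rw [← hA, Matrix.map_apply]
        exact (hvP i j).aeval _ hl1
      obtain ⟨i, j, hij⟩ : ∃ i j, v.valuation M (mn (mt T u (up M b0 + l • up M b1)) i j) = 1 := by
        by_contra hcon
        push Not at hcon
        have hmi : ∀ i j, v.valuation M (mn (mt T u (up M b0 + l • up M b1)) i j) ≤ 1 := fun i j =>
          val_det_le _ fun k m => hAi _ _
        have : v.valuation M (1 : M) < 1 := by
          rw [← hrel]
          refine Valuation.map_sum_lt _ one_ne_zero fun i _ =>
            Valuation.map_sum_lt _ one_ne_zero fun j _ => ?_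
          rw [hmn]
          exact sm_mul' _ ((hvc i j).aeval _ hl1) (lt_of_le_of_ne (hmi i j) (hcon i j))
        rw [map_one] at this
        exact lt_irrefl _ this
      exact iso_good v hv2 _ (mt_comm _) hAi i j hij
    · -- the parameter has a pole
      have hl0 : l ≠ 0 := by
        rintro rfl
        rw [map_zero] at hl1
        exact absurd hl1 (not_lt.2 zero_le_one)
      have hli : v.valuation M l⁻¹ < 1 := by
        rw [map_inv₀]
        exact inv_lt_one_of_one_lt₀ hl1
      have hA := aeval_ln (T := T) (u := u) b1 b0 l⁻¹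
      have hAi : ∀ i j, v.valuation M (mt T u (up M b1 + l⁻¹ • up M b0) i j) ≤ 1 := fun i j => by
        rw [← hA, Matrix.map_apply]
        exact (hvP' i j).aeval _ hli.le
      have hmn : mn (mt T u (up M b1 + l⁻¹ • up M b0)) i0 j0 =
          (Polynomial.aeval l⁻¹ : Polynomial E →ₐ[E] M) (mn P' i0 j0) := by
        rw [← hA]
        exact mn_map ((Polynomial.aeval l⁻¹ : Polynomial E →ₐ[E] M) : Polynomial E →+* M) _ i0 j0
      have hc0 : (mn P' i0 j0).coeff 0 = mn (mt T u b1) i0 j0 := by
        have h3 := aeval_ln (T := T) (u := u) (M := E) b1 b0 0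
        have h4 : mn (mt T u (up E b1 + (0 : E) • up E b0)) i0 j0 =
            (Polynomial.aeval (0 : E) : Polynomial E →ₐ[E] E) (mn P' i0 j0) := by
          rw [← h3]
          exact mn_map ((Polynomial.aeval (0 : E) : Polynomial E →ₐ[E] E) :
            Polynomial E →+* E) _ i0 j0
        rw [zero_smul, add_zero, Polynomial.aeval_def, Polynomial.eval₂_at_zero] at h4
        exact h4.symm
      have hun : v.valuation M (mn (mt T u (up M b1 + l⁻¹ • up M b0)) i0 j0) = 1 := by
        rw [hmn]
        refine hvm.unit _ hli ?_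
        rw [hc0]
        exact hva
      obtain ⟨x, hx0, hx⟩ := iso_good v hv2 _ (mt_comm _) hAi i0 j0 hun
      set ρ := algebraMap M (v.adicCompletion M) with hρ
      have hρl : ρ l ≠ 0 := by rwa [Ne, map_eq_zero]
      have hb : up M b0 + l • up M b1 = l • (up M b1 + l⁻¹ • up M b0) := by
        rw [smul_add, smul_smul, mul_inv_cancel₀ hl0, one_smul, add_comm]
      have hd : ∀ i, ρ ((![1, 1, 1, l] : Fin 4 → M) i) ≠ 0 := by
        intro i
        fin_cases i
        · simp
        · simp
        · simp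
        · exact hρl
      refine ⟨fun i => (ρ ((![1, 1, 1, l] : Fin 4 → M) i))⁻¹ * x i, fun h0 => ?_, ?_⟩
      · apply hx0
        funext i
        have h5 := congrFun h0 i
        rw [Pi.zero_apply] at h5
        exact (mul_eq_zero.1 h5).resolve_left (inv_ne_zero (hd i))
      · rw [hb, qf_smul]
        have h6 : (fun i => ρ ((![1, 1, 1, l] : Fin 4 → M) i) *
            ((ρ ((![1, 1, 1, l] : Fin 4 → M) i))⁻¹ * x i)) = x := by
          funext i
          rw [← mul_assoc, mul_inv_cancel₀ (hd i), one_mul]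
        rw [h6, hx, mul_zero]

end Cr
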