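import Pool.Agent.Lib.MP_f80667_ag.Cr.RC

/-! The real points of a residual quadric surface have the same class. -/

namespace Cr

open Cu

variable {E : Type} [Field E] {n : ℕ} {T : Tn E n} {u : Fin 3 → Fin n → E}

theorem qd_left {u : Fin 3 → Fin n → E} (h : LinearIndependent E u) :
    ∃ A : Fin 3 → Fin n → E, ∀ k i, ∑ j, A k j * u i j = if k = i then 1 else 0 := by
  have hinj : LinearMap.ker (Fintype.linearCombination E u) = ⊥ := by
    rw [LinearMap.ker_eq_bot]
    exact h.fintypeLinearCombination_injective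
  obtain ⟨g, hg⟩ := LinearMap.exists_leftInverse_of_injective _ hinj
  refine ⟨fun k j => g (Pi.single j 1) k, fun k i => ?_⟩
  have h1 : g (u i) = Pi.single i 1 := by
    have h2 := LinearMap.congr_fun hg (Pi.single i 1)
    rw [LinearMap.comp_apply, Fintype.linearCombination_apply_single, one_smul,
      LinearMap.id_apply] at h2
    exact h2
  have h3 : u i = ∑ j, u i j • (Pi.single j 1 : Fin n → E) := by
    funext l
    simp [Finset.sum_apply, Pi.single_apply]
  have h4 := congrFun h1 k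
  rw [h3, map_sum, Finset.sum_apply] at h4
  rw [show (if k = i then (1 : E) else 0) = (Pi.single i 1 : Fin 3 → E) k by
    rw [Pi.single_apply], ← h4]
  exact Finset.sum_congr rfl fun j _ => by
    rw [map_smul, Pi.smul_apply, smul_eq_mul, mul_comm]

theorem qd_ind {R : Type} [Field R] [Algebra E R] {u : Fin 3 → Fin n → E}
    (h : LinearIndependent E u) {t : Fin 3 → R} (ht : pl u t = 0) : t = 0 := by
  obtain ⟨A, hA⟩ := qd_left h
  funext k
  have h1 : ∀ j, t 0 * algebraMap E R (u 0 j) + t 1 * algebraMap E R (u 1 j) +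
      t 2 * algebraMap E R (u 2 j) = 0 := fun j => by
    have h2 := congrArg (fun v => v j) ht
    simpa [pl, up] using h2
  have h2 : ∀ i, ∑ j, algebraMap E R (A k j) * algebraMap E R (u i j) =
      if k = i then 1 else 0 := fun i => by
    have h3 := congrArg (algebraMap E R) (hA k i)
    rw [map_sum] at h3
    simp only [map_mul] at h3
    rw [h3]
    split_ifs <;> simp
  have h3 : ∑ j, algebraMap E R (A k j) * (t 0 * algebraMap E R (u 0 j) +
      t 1 * algebraMap E R (u 1 j) + t 2 * algebraMap E R (u 2 j)) = 0 :=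
    Finset.sum_eq_zero fun j _ => by rw [h1, mul_zero]
  have h4 : ∑ j, algebraMap E R (A k j) * (t 0 * algebraMap E R (u 0 j) +
      t 1 * algebraMap E R (u 1 j) + t 2 * algebraMap E R (u 2 j)) =
      t 0 * ∑ j, algebraMap E R (A k j) * algebraMap E R (u 0 j) +
      t 1 * ∑ j, algebraMap E R (A k j) * algebraMap E R (u 1 j) +
      t 2 * ∑ j, algebraMap E R (A k j) * algebraMap E R (u 2 j) := by
    rw [Finset.mul_sum, Finset.mul_sum, Finset.mul_sum, ← Finset.sum_add_distrib,
      ← Finset.sum_add_distrib]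
    exact Finset.sum_congr rfl fun j _ => by ring
  rw [h4, h2, h2, h2] at h3
  fin_cases k <;> simpa using h3

theorem qd_E {R : Type} [CommRing R] [Algebra E R] (h : Pln T u) (i j k : Fin 3) :
    (ex T R).E (up R (u i)) (up R (u j)) (up R (u k)) = 0 := by
  have h1 : ∀ i j, (ex T R).E (up R (u i)) (up R (u i)) (up R (u j)) = 0 := fun i j => by
    rw [(ex T R).E_self, h.upD, mul_zero]
  have h2 : ∀ i j, (ex T R).E (up R (u i)) (up R (u j)) (up R (u i)) = 0 := fun i j => by
    rw [(ex T R).E_comm', h1]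
  have h3 : ∀ i j, (ex T R).E (up R (u j)) (up R (u i)) (up R (u i)) = 0 := fun i j => by
    rw [(ex T R).E_comm, h2]
  have h4 := h.upE (R := R)
  have h5 : (ex T R).E (up R (u 1)) (up R (u 0)) (up R (u 2)) = 0 := by
    rw [(ex T R).E_comm, h4]
  have h6 : (ex T R).E (up R (u 0)) (up R (u 2)) (up R (u 1)) = 0 := by
    rw [(ex T R).E_comm', h4]
  have h7 : (ex T R).E (up R (u 2)) (up R (u 0)) (up R (u 1)) = 0 := by
    rw [(ex T R).E_comm, h6]
  have h8 : (ex T R).E (up R (u 1)) (up R (u 2)) (up R (u 0)) = 0 := by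
    rw [(ex T R).E_comm', h5]
  have h9 : (ex T R).E (up R (u 2)) (up R (u 1)) (up R (u 0)) = 0 := by
    rw [(ex T R).E_comm, h8]
  have key : ∀ i j k : Fin 3, i = j ∨ i = k ∨ j = k ∨ (i = 0 ∧ j = 1 ∧ k = 2) ∨
      (i = 1 ∧ j = 0 ∧ k = 2) ∨ (i = 0 ∧ j = 2 ∧ k = 1) ∨ (i = 2 ∧ j = 0 ∧ k = 1) ∨
      (i = 1 ∧ j = 2 ∧ k = 0) ∨ (i = 2 ∧ j = 1 ∧ k = 0) := by decide
  rcases key i j k with rfl | rfl | rfl | ⟨rfl, rfl, rfl⟩ | ⟨rfl, rfl, rfl⟩ | ⟨rfl, rfl, rfl⟩ |
    ⟨rfl, rfl, rfl⟩ | ⟨rfl, rfl, rfl⟩ | ⟨rfl, rfl, rfl⟩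
  exacts [h1 _ _, h2 _ _, h3 _ _, h4, h5, h6, h7, h8, h9]

theorem qd_mt {R : Type} [CommRing R] [Algebra E R] (h : Pln T u) (t : Fin 3 → R) :
    mt T u (pl u t) = 0 := by
  have hE := fun i j k => qd_E (R := R) h i j k
  have hf := fun i => h.upf (R := R) i
  have hD := fun i j => h.upD (R := R) i j
  have h1 : ∀ i j, (ex T R).E (up R (u i)) (up R (u j)) (pl u t) = 0 := fun i j => by
    simp only [pl, (ex T R).E_add, (ex T R).E_smul, hE, mul_zero, add_zero]
  have h2 : ∀ j, (ex T R).D (pl u t) (up R (u j)) = 0 := fun j => by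
    simp only [pl, (ex T R).add_D, (ex T R).smul_D, (ex T R).E_add1, (ex T R).E_smul1,
      (ex T R).E_smul2, hE, hD, mul_zero, add_zero]
  have h3 : (ex T R).f (pl u t) = 0 := by
    simp only [pl, (ex T R).f_add, (ex T R).f_smul, (ex T R).add_D, (ex T R).smul_D,
      (ex T R).D_add, (ex T R).D_smul, (ex T R).E_smul, (ex T R).E_smul1, (ex T R).E_smul2,
      hE, hD, hf, mul_zero, add_zero]
  ext i j
  fin_cases i <;> fin_cases j <;> simp [mt, h1, h2, h3]

theorem qd_mn0 {R : Type} [CommRing R] (i j : Fin 4) : mn (0 : Matrix (Fin 4) (Fin 4) R) i j = 0 := by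
  rw [mn, Matrix.submatrix_zero]
  exact Matrix.det_zero

/-- If some `3 × 3` minor is not zero, `u 0`, `u 1`, `u 2`, `b` are linearly independent. Proof:
otherwise `b` is in the span of the plane and `mt T u b = 0`. -/
theorem pt_ne {R : Type} [Field R] [Algebra E R] (h : Pln T u) {b : Fin n → R} {i j : Fin 4}
    (hm : mn (mt T u b) i j ≠ 0) {x : Fin 4 → R} (hx : x ≠ 0) : pt u b x ≠ 0 := by
  intro h0
  by_cases h3 : x 3 = 0
  · apply hx
    have h1 : pl u ![x 0, x 1, x 2] = 0 := by
      rw [pt, h3, zero_smul, add_zero] at h0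
      exact h0
    have h2 := qd_ind h.ind h1
    have e0 := congrArg (fun v => v 0) h2
    have e1 := congrArg (fun v => v 1) h2
    have e2 := congrArg (fun v => v 2) h2
    simp at e0 e1 e2
    funext k
    fin_cases k
    · exact e0
    · exact e1
    · exact e2
    · exact h3
  · apply hm
    have h1 : b = pl u ![-(x 3)⁻¹ * x 0, -(x 3)⁻¹ * x 1, -(x 3)⁻¹ * x 2] := by
      funext l
      have h2 := congrArg (fun v => v l) h0
      simp only [pt, Pi.add_apply, Pi.smul_apply, smul_eq_mul, Pi.zero_apply] at h2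
      simp only [pl, Pi.add_apply, Pi.smul_apply, smul_eq_mul, Matrix.cons_val_zero,
        Matrix.cons_val_one, Matrix.cons_val]
      field_simp
      linear_combination h2
    rw [h1, qd_mt h, qd_mn0]

section form

variable {M : Matrix (Fin 4) (Fin 4) ℝ}

theorem qd_bf (x y : Fin 4 → ℝ) : bf M x y = x ⬝ᵥ (M.mulVec y) := by
  simp only [bf, dotProduct, Matrix.mulVec, Finset.mul_sum]
  exact Finset.sum_congr rfl fun i _ => Finset.sum_congr rfl fun j _ => by ring

theorem qd_add (x y z : Fin 4 → ℝ) : bf M x (y + z) = bf M x y + bf M x z := by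
  rw [qd_bf, qd_bf, qd_bf, Matrix.mulVec_add, dotProduct_add]

theorem qd_smul (a : ℝ) (x y : Fin 4 → ℝ) : bf M x (a • y) = a * bf M x y := by
  rw [qd_bf, qd_bf, Matrix.mulVec_smul, dotProduct_smul, smul_eq_mul]

theorem qd_add' (x y z : Fin 4 → ℝ) : bf M (x + y) z = bf M x z + bf M y z := by
  rw [qd_bf, qd_bf, qd_bf, add_dotProduct]

theorem qd_smul' (a : ℝ) (x y : Fin 4 → ℝ) : bf M (a • x) y = a * bf M x y := by
  rw [qd_bf, qd_bf, smul_dotProduct, smul_eq_mul]

theorem qd_comm (hM : ∀ i j, M i j = M j i) (x y : Fin 4 → ℝ) : bf M x y = bf M y x := by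
  rw [bf, bf, Finset.sum_comm]
  exact Finset.sum_congr rfl fun i _ => Finset.sum_congr rfl fun j _ => by rw [hM j i]; ring

theorem qd_single (i j : Fin 4) : bf M (Pi.single i 1) (Pi.single j 1) = M i j := by
  rw [qd_bf]
  simp

theorem qd_det (p q r s : Fin 3 → ℝ) (N : Matrix (Fin 3) (Fin 3) ℝ)
    (hN : ∀ a b, N a b = p a * q b + r a * s b) : N.det = 0 := by
  rw [Matrix.det_fin_three]
  simp only [hN]
  ring

theorem qd_rank (hM : ∀ i j, M i j = M j i) {x y : Fin 4 → ℝ} (hxy : bf M x y ≠ 0)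
    (hz : ∀ z, bf M x z = 0 → qf M z = 0) (i j : Fin 4) : mn M i j = 0 := by
  have h0 : ∀ z w, bf M x z = 0 → bf M x w = 0 → bf M z w = 0 := fun z w h1 h2 => by
    have h3 : bf M (z + w) (z + w) = 0 := hz _ (by rw [qd_add, h1, h2, add_zero])
    have h4 : bf M z z = 0 := hz _ h1
    have h5 : bf M w w = 0 := hz _ h2
    have h6 := qd_comm hM z w
    rw [qd_add, qd_add', qd_add'] at h3
    linarith
  obtain ⟨β, hβ⟩ : ∃ β : (Fin 4 → ℝ) → ℝ, ∀ v, β v * bf M x y = bf M x v :=
    ⟨fun v => bf M x v / bf M x y, fun v => div_mul_cancel₀ _ hxy⟩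
  have h1 : ∀ v, bf M x (v + (-β v) • y) = 0 := fun v => by
    rw [qd_add, qd_smul, ← hβ v]
    ring
  have h2 : ∀ v w, bf M v w = bf M v y * β w + β v * (bf M y w - β w * bf M y y) := fun v w => by
    have h3 := h0 _ _ (h1 v) (h1 w)
    rw [qd_add, qd_add', qd_add', qd_smul', qd_smul', qd_smul, qd_smul] at h3
    linear_combination h3
  refine qd_det (fun a => bf M (Pi.single (i.succAbove a) 1) y)
    (fun b => β (Pi.single (j.succAbove b) 1)) (fun a => β (Pi.single (i.succAbove a) 1))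
    (fun b => bf M y (Pi.single (j.succAbove b) 1) - β (Pi.single (j.succAbove b) 1) * bf M y y)
    _ fun a b => ?_
  have h3 := h2 (Pi.single (i.succAbove a) 1) (Pi.single (j.succAbove b) 1)
  rw [qd_single] at h3
  exact h3

end form

theorem qd_pt_add (b : Fin n → ℝ) [Algebra E ℝ] (u : Fin 3 → Fin n → E) (x y : Fin 4 → ℝ) :
    pt u b (x + y) = pt u b x + pt u b y := by
  simp only [pt, Pi.add_apply, add_smul]
  abel

theorem qd_pt_smul (b : Fin n → ℝ) [Algebra E ℝ] (u : Fin 3 → Fin n → E) (a : ℝ)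
    (x : Fin 4 → ℝ) : pt u b (a • x) = a • pt u b x := by
  simp only [pt, Pi.smul_apply, smul_eq_mul, mul_smul, smul_add]

/-- Two zeros `x`, `y` of the quadratic form. Write `B` for the bilinear form `bf (mt T u b)`
(symmetric, `qf = B x x`). If `B x y = 0` the line `x + s y` is on the quadric: `curve` with `N = 1`.
If `B x y ≠ 0`: there is `z` with `B x z = 0`, `qf z ≠ 0` (otherwise `qf` vanishes on the hyperplane
`B x · = 0` and has rank at most `2`); for `z_s = y + s z` the points
`w (s) = qf (z_s) x - 2 B x z_s z_s` are zeros, `w (s) = w₀ + s w₁ + s² w₂` with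
`w₀ = - 2 B x y y` and `w₂ = qf z x`: `curve` with `N = 2`, `smul`. Everything is applied to
`pt u b`, by `two_f`. -/
theorem quad_cl [Algebra E ℝ] {G : Type} (h : Pln T u) (C : RC (ex T ℝ) G) (b : Fin n → ℝ)
    {i j : Fin 4} (hm : mn (mt T u b) i j ≠ 0) {x y : Fin 4 → ℝ} (hx : x ≠ 0) (hy : y ≠ 0)
    (qx : qf (mt T u b) x = 0) (qy : qf (mt T u b) y = 0) :
    C.cl (pt u b x) = C.cl (pt u b y) := by
  have hM : ∀ i j, mt T u b i j = mt T u b j i := mt_comm b
  have hf : ∀ w, bf (mt T u b) w w = 0 → (ex T ℝ).f (pt u b w) = 0 := fun w hw => by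
    have h1 := two_f h b w
    rw [show qf (mt T u b) w = 0 from hw, mul_zero] at h1
    linarith
  have bx : bf (mt T u b) x x = 0 := qx
  have by' : bf (mt T u b) y y = 0 := qy
  by_cases hxy : bf (mt T u b) x y = 0
  · have h1 := C.curve 1 (fun a => if a = 0 then pt u b x else pt u b y)
      (by simpa using pt_ne h hm hx) (by simpa using pt_ne h hm hy) (fun s => by
        have h2 : ∑ a ∈ Finset.range (1 + 1), s ^ a • (if a = 0 then pt u b x else pt u b y) =
            pt u b (x + s • y) := by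
          rw [Finset.sum_range_succ, Finset.sum_range_one, qd_pt_add, qd_pt_smul]
          simp
        rw [h2]
        apply hf
        rw [qd_add, qd_add', qd_add', qd_smul, qd_smul, qd_smul', qd_smul', bx, by', hxy,
          qd_comm hM y x, hxy]
        ring)
    simpa using h1
  · have hz : ∃ z, bf (mt T u b) x z = 0 ∧ qf (mt T u b) z ≠ 0 := by
      by_contra hno
      push Not at hno
      exact hm (qd_rank hM hxy hno i j)
    obtain ⟨z, hz1, hz2⟩ := hz
    set β := bf (mt T u b) x y with hβ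
    have hγ : bf (mt T u b) y x = β := qd_comm hM y x
    have hz3 : bf (mt T u b) z x = 0 := by rw [qd_comm hM, hz1]
    have hzy : bf (mt T u b) z y = bf (mt T u b) y z := qd_comm hM z y
    set γ := bf (mt T u b) y z with hγ'
    have hζ : bf (mt T u b) z z = qf (mt T u b) z := rfl
    set ζ := qf (mt T u b) z with hζ'
    have h0 : (-2 * β) ≠ 0 := mul_ne_zero (by norm_num) hxy
    have h1 := C.curve 2 (fun a => if a = 0 then pt u b ((-2 * β) • y) else
      if a = 1 then pt u b ((2 * γ) • x + (-2 * β) • z) else pt u b (ζ • x))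
      (by simpa using pt_ne h hm (smul_ne_zero h0 hy))
      (by simpa using pt_ne h hm (smul_ne_zero hz2 hx)) (fun s => by
        have h2 : ∑ a ∈ Finset.range (2 + 1), s ^ a • (if a = 0 then pt u b ((-2 * β) • y) else
            if a = 1 then pt u b ((2 * γ) • x + (-2 * β) • z) else pt u b (ζ • x)) =
            pt u b ((-2 * β) • y + (s • ((2 * γ) • x + (-2 * β) • z) + (s ^ 2) • (ζ • x))) := by
          rw [qd_pt_add b u ((-2 * β) • y), qd_pt_add b u (s • _), qd_pt_smul b u s,
            qd_pt_smul b u (s ^ 2), ← add_assoc, Finset.sum_range_succ, Finset.sum_range_succ,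
            Finset.sum_range_one]
          simp
        rw [h2]
        apply hf
        simp only [qd_add, qd_add', qd_smul, qd_smul', bx, by', hγ, hz1, hz3, hzy, hζ, ← hβ,
          ← hγ']
        ring)
    simp only [if_true, if_neg (show (2 : ℕ) ≠ 0 by norm_num),
      if_neg (show (2 : ℕ) ≠ 1 by norm_num)] at h1
    rw [qd_pt_smul, qd_pt_smul, C.smul _ _ h0, C.smul _ _ hz2] at h1
    exact h1.symm

end Cr
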