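import Pool.Agent.Lib.MP_f80667_ag.Cr.RealPl

/-! Real residual quadrics through points of a given class. -/

namespace Cr

open Cu Filter Topology

variable {E : Type} [Field E] [Algebra E ℝ] {n : ℕ} {T : Tn E n} {u : Fin 3 → Fin n → E} {G : Type}

private theorem rp_cont (T : Tn E n) : Continuous fun x : Fin n → ℝ => (ex T ℝ).f x := by
  change Continuous fun x : Fin n → ℝ =>
    ∑ i, ∑ j, ∑ l, (T.map (algebraMap E ℝ)) i j l * (x i * x j * x l)
  fun_prop

private theorem rp_pl (h : Pln T u) (τ : Fin 3 → ℝ) : (ex T ℝ).f (pl u τ) = 0 := by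
  have h0 := fun i => h.upf (R := ℝ) i
  have h1 := fun i j => h.upD (R := ℝ) i j
  have h2 := h.upE (R := ℝ)
  unfold pl
  simp only [(ex T ℝ).f_add, (ex T ℝ).add_D, (ex T ℝ).D_add, (ex T ℝ).f_smul, (ex T ℝ).D_smul,
    (ex T ℝ).smul_D, (ex T ℝ).E_smul1, (ex T ℝ).E_smul2, (ex T ℝ).E_smul, h0, h1, h2]
  ring

/-- Expansion of the form along a line with a direction in the plane. -/
private theorem rp_exp (h : Pln T u) (P : Fin n → ℝ) (τ : Fin 3 → ℝ) (l : ℝ) :
    (ex T ℝ).f (P + l • pl u τ) =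
      (ex T ℝ).f P + l * (ex T ℝ).D P (pl u τ) + l ^ 2 * (ex T ℝ).D (pl u τ) P := by
  rw [(ex T ℝ).f_add, (ex T ℝ).f_smul, (ex T ℝ).D_smul, (ex T ℝ).smul_D, rp_pl h]
  ring

private theorem rp_pt (b : Fin n → ℝ) (τ : Fin 3 → ℝ) (l : ℝ) :
    pt u b ![l * τ 0, l * τ 1, l * τ 2, 1] = b + l • pl u τ := by
  unfold pt pl
  funext i
  simp only [Matrix.cons_val_zero, Matrix.cons_val_one, Matrix.cons_val, Pi.add_apply,
    Pi.smul_apply, smul_eq_mul]
  ring

/-- The argument with the change of sign. -/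
private theorem rp_ivt (h : Pln T u) (C : RC (ex T ℝ) G) {P : Fin n → ℝ} {δ0 : ℝ} (hδ0 : 0 < δ0)
    (near : ∀ y : Fin n → ℝ, y ≠ 0 → (ex T ℝ).f y = 0 → (∀ i, |y i - P i| < δ0) →
      C.cl y = C.cl P) (b₀ : Fin n → ℝ) (τ : Fin 3 → ℝ) (l1 l2 : ℝ) (hl : l1 ≤ l2)
    (hneg : (ex T ℝ).f (b₀ + l1 • pl u τ) * (ex T ℝ).f (b₀ + l2 • pl u τ) < 0)
    (hd : ∀ l ∈ Set.Icc l1 l2, ∀ i, |b₀ i + l * pl u τ i - P i| < 2 * δ0 / 3) :
    ∃ δ > 0, ∀ b : Fin n → ℝ, (∀ i, |b i - b₀ i| < δ) →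
      ∃ x : Fin 4 → ℝ, x ≠ 0 ∧ qf (mt T u b) x = 0 ∧
        (pt u b x ≠ 0 → C.cl (pt u b x) = C.cl P) := by
  have hc := rp_cont T
  have hopen : IsOpen {b : Fin n → ℝ |
      (ex T ℝ).f (b + l1 • pl u τ) * (ex T ℝ).f (b + l2 • pl u τ) < 0} := by
    refine isOpen_lt ?_ continuous_const
    exact (hc.comp (continuous_id.add continuous_const)).mul
      (hc.comp (continuous_id.add continuous_const))
  obtain ⟨δ2, hδ2, hball⟩ := Metric.isOpen_iff.1 hopen b₀ hneg
  refine ⟨min δ2 (δ0 / 3), lt_min hδ2 (by positivity), ?_⟩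
  intro b hb
  have hbm : b ∈ Metric.ball b₀ δ2 := by
    rw [Metric.mem_ball, dist_pi_lt_iff hδ2]
    intro i
    rw [Real.dist_eq]
    exact (hb i).trans_le (min_le_left _ _)
  have hn : (ex T ℝ).f (b + l1 • pl u τ) * (ex T ℝ).f (b + l2 • pl u τ) < 0 := hball hbm
  have hg : Continuous fun l : ℝ => (ex T ℝ).f (b + l • pl u τ) :=
    hc.comp (continuous_const.add (continuous_id.smul continuous_const))
  obtain ⟨l, hlm, hl0⟩ : ∃ l ∈ Set.Icc l1 l2, (ex T ℝ).f (b + l • pl u τ) = 0 := by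
    rcases mul_neg_iff.1 hn with ⟨h1, h2⟩ | ⟨h1, h2⟩
    · exact intermediate_value_Icc' hl hg.continuousOn ⟨h2.le, h1.le⟩
    · exact intermediate_value_Icc hl hg.continuousOn ⟨h1.le, h2.le⟩
  refine ⟨![l * τ 0, l * τ 1, l * τ 2, 1], ?_, ?_, ?_⟩
  · intro h0
    have := congrFun h0 3
    simp at this
  · have h2 := two_f h b ![l * τ 0, l * τ 1, l * τ 2, 1]
    rw [rp_pt, hl0, mul_zero] at h2
    have h3 : (![l * τ 0, l * τ 1, l * τ 2, 1] : Fin 4 → ℝ) 3 = 1 := rfl
    rw [h3, one_mul] at h2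
    exact h2.symm
  · intro hne
    rw [rp_pt] at hne ⊢
    refine near _ hne hl0 ?_
    intro i
    have h1 := hd l hlm i
    have h2 := (hb i).trans_le (min_le_right _ _)
    have h3 : (b + l • pl u τ) i - P i = (b i - b₀ i) + (b₀ i + l * pl u τ i - P i) := by
      simp only [Pi.add_apply, Pi.smul_apply, smul_eq_mul]
      ring
    rw [h3]
    calc |(b i - b₀ i) + (b₀ i + l * pl u τ i - P i)|
        ≤ |b i - b₀ i| + |b₀ i + l * pl u τ i - P i| := abs_add_le _ _
      _ < δ0 / 3 + 2 * δ0 / 3 := add_lt_add h2 h1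
      _ = δ0 := by ring

/-- A real direction which is not tangent. -/
private theorem rp_sm (T : Tn E n)
    (hs : ∀ x : Fin n → ℂ, x ≠ 0 → ∃ y, (ex (T.map (algebraMap E ℝ)) ℂ).D x y ≠ 0)
    {P : Fin n → ℝ} (hP : P ≠ 0) : ∃ y : Fin n → ℝ, (ex T ℝ).D P y ≠ 0 := by
  have hP' : (fun i => algebraMap ℝ ℂ (P i)) ≠ 0 := by
    intro h
    apply hP
    funext i
    have := congrFun h i
    simpa using this
  obtain ⟨y, hy⟩ := hs _ hP'
  by_contra hcon
  push Not at hcon
  apply hy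
  have hD : ∀ z : Fin n → ℝ, (ex (T.map (algebraMap E ℝ)) ℂ).D (fun i => algebraMap ℝ ℂ (P i))
      (fun i => algebraMap ℝ ℂ (z i)) = 0 := by
    intro z
    have h1 := map_D (algebraMap ℝ ℂ) (T.map (algebraMap E ℝ)) P z
    have h2 : (cb (T.map (algebraMap E ℝ))).D P z = 0 := hcon z
    rw [h2, map_zero] at h1
    exact h1
  have hyy : y = (fun i => algebraMap ℝ ℂ (y i).re) +
      Complex.I • (fun i => algebraMap ℝ ℂ (y i).im) := by
    funext i
    simp only [Pi.add_apply, Pi.smul_apply, smul_eq_mul, Complex.coe_algebraMap]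
    rw [mul_comm]
    exact (Complex.re_add_im (y i)).symm
  rw [hyy, (ex (T.map (algebraMap E ℝ)) ℂ).D_add, (ex (T.map (algebraMap E ℝ)) ℂ).D_smul, hD, hD,
    mul_zero, add_zero]

private theorem rp_norm (x : Fin n → ℝ) (i : Fin n) : |x i| ≤ ‖x‖ := by
  rw [← Real.norm_eq_abs]
  exact norm_le_pi_norm x i

/-- `P` a real point of `X`. For all `b` near some `b₀` the residual quadric has a real point of the
class of `P`. Proof. If there is `t` in the plane with `D P t ≠ 0`: `b₀ = P`, the quadratic polynomial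
`f (b + l t) = f b + l D b t + l² D t b` has a zero `l` near `0` for all `b` near `P` (sign change);
`near`. If `D P t = 0` for all `t` of the plane and `D t P ≠ 0` for some `t` of the plane: take `y` with
`D P y ≠ 0` (smoothness) and `b₀ = P + ε y` with `ε` small, `ε D P y D t P < 0`: then
`f (b₀ + l t) = f b₀ + l D b₀ t + l² D t b₀` with `f b₀ · D t b₀ < 0` has a zero near `l = 0`, and so
have all `b` near `b₀`. If `D P t = 0` and `D t P = 0` for all `t` of the plane: the line through `P` and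
`u₀` is on `X` (or `P` is in the plane), so `P` has the class of `u₀`: `real_pl`. -/
theorem real_pt (h : Pln T u)
    (hs : ∀ x : Fin n → ℂ, x ≠ 0 → ∃ y, (ex (T.map (algebraMap E ℝ)) ℂ).D x y ≠ 0)
    (C : RC (ex T ℝ) G) {P : Fin n → ℝ} (hP : P ≠ 0) (fP : (ex T ℝ).f P = 0) :
    ∃ b₀ : Fin n → ℝ, ∃ δ > 0, ∀ b : Fin n → ℝ, (∀ i, |b i - b₀ i| < δ) →
      ∃ x : Fin 4 → ℝ, x ≠ 0 ∧ qf (mt T u b) x = 0 ∧
        (pt u b x ≠ 0 → C.cl (pt u b x) = C.cl P) := by
  obtain ⟨δ0, hδ0, near⟩ := C.near P hP fP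
  by_cases h1 : ∃ τ : Fin 3 → ℝ, (ex T ℝ).D P (pl u τ) ≠ 0
  · obtain ⟨τ, hτ⟩ := h1
    have ev1 : ∀ᶠ ε : ℝ in 𝓝[>] 0,
        ε ^ 2 * (ex T ℝ).D (pl u τ) P ^ 2 < (ex T ℝ).D P (pl u τ) ^ 2 := by
      have hc : Continuous fun ε : ℝ => ε ^ 2 * (ex T ℝ).D (pl u τ) P ^ 2 := by fun_prop
      have ht : Tendsto (fun ε : ℝ => ε ^ 2 * (ex T ℝ).D (pl u τ) P ^ 2) (𝓝[>] 0) (𝓝 0) := by
        have := (hc.tendsto 0).mono_left (nhdsWithin_le_nhds (s := Set.Ioi (0 : ℝ)))
        simpa using this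
      exact ht.eventually_lt_const (by positivity)
    have ev2 : ∀ᶠ ε : ℝ in 𝓝[>] 0, ε * ‖(pl u τ : Fin n → ℝ)‖ < 2 * δ0 / 3 := by
      have hc : Continuous fun ε : ℝ => ε * ‖(pl u τ : Fin n → ℝ)‖ := by fun_prop
      have ht : Tendsto (fun ε : ℝ => ε * ‖(pl u τ : Fin n → ℝ)‖) (𝓝[>] 0) (𝓝 0) := by
        have := (hc.tendsto 0).mono_left (nhdsWithin_le_nhds (s := Set.Ioi (0 : ℝ)))
        simpa using this
      exact ht.eventually_lt_const (by positivity)
    obtain ⟨ε, ⟨h2, h3⟩, h4⟩ := ((ev1.and ev2).and self_mem_nhdsWithin).exists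
    have hε : 0 < ε := h4
    refine ⟨P, rp_ivt h C hδ0 near P τ (-ε) ε (by linarith) ?_ ?_⟩
    · rw [rp_exp h, rp_exp h, fP]
      have e : (0 + -ε * (ex T ℝ).D P (pl u τ) + (-ε) ^ 2 * (ex T ℝ).D (pl u τ) P) *
          (0 + ε * (ex T ℝ).D P (pl u τ) + ε ^ 2 * (ex T ℝ).D (pl u τ) P) =
          ε ^ 2 * (ε ^ 2 * (ex T ℝ).D (pl u τ) P ^ 2 - (ex T ℝ).D P (pl u τ) ^ 2) := by
        ring
      rw [e]
      exact mul_neg_of_pos_of_neg (by positivity) (by linarith)
    · intro l hl i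
      have e : P i + l * pl u τ i - P i = l * pl u τ i := by ring
      rw [e, abs_mul]
      refine lt_of_le_of_lt ?_ h3
      exact mul_le_mul (abs_le.2 hl) (rp_norm _ i) (abs_nonneg _) hε.le
  · push Not at h1
    by_cases h2 : ∃ τ : Fin 3 → ℝ, (ex T ℝ).D (pl u τ) P ≠ 0
    · obtain ⟨τ, hτ⟩ := h2
      obtain ⟨y, hy⟩ := rp_sm T hs hP
      obtain ⟨l0, hl0, hlt⟩ : ∃ l0 : ℝ, 0 < l0 ∧ l0 * ‖(pl u τ : Fin n → ℝ)‖ < δ0 / 3 := by
        have hc : Continuous fun ε : ℝ => ε * ‖(pl u τ : Fin n → ℝ)‖ := by fun_prop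
        have ht : Tendsto (fun ε : ℝ => ε * ‖(pl u τ : Fin n → ℝ)‖) (𝓝[>] 0) (𝓝 0) := by
          have := (hc.tendsto 0).mono_left (nhdsWithin_le_nhds (s := Set.Ioi (0 : ℝ)))
          simpa using this
        obtain ⟨ε, h3, h4⟩ := ((ht.eventually_lt_const (show (0 : ℝ) < δ0 / 3 by positivity)).and
          self_mem_nhdsWithin).exists
        exact ⟨ε, h4, h3⟩
      set c : ℝ := (ex T ℝ).D P y * (l0 ^ 2 * (ex T ℝ).D (pl u τ) P) with hc
      have hc0 : c ≠ 0 := mul_ne_zero hy (mul_ne_zero (pow_ne_zero _ hl0.ne') hτ)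
      have hcf := rp_cont T
      have ev1 : ∀ᶠ r : ℝ in 𝓝[>] 0, 0 < c * (((ex T ℝ).D P y + (-c * r) * (ex T ℝ).D y P +
          (-c * r) ^ 2 * (ex T ℝ).f y) * (ex T ℝ).f (P + (-c * r) • y + l0 • pl u τ)) := by
        have hcc : Continuous fun r : ℝ => c * (((ex T ℝ).D P y + (-c * r) * (ex T ℝ).D y P +
            (-c * r) ^ 2 * (ex T ℝ).f y) * (ex T ℝ).f (P + (-c * r) • y + l0 • pl u τ)) := by
          refine continuous_const.mul (Continuous.mul (by fun_prop) (hcf.comp ?_))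
          fun_prop
        have ht := (hcc.tendsto 0).mono_left (nhdsWithin_le_nhds (s := Set.Ioi (0 : ℝ)))
        refine ht.eventually_const_lt ?_
        have e : (P + (-c * 0) • y + l0 • pl u τ : Fin n → ℝ) = P + l0 • pl u τ := by
          rw [mul_zero, zero_smul, add_zero]
        rw [e, rp_exp h, fP, h1]
        have e2 : c * (((ex T ℝ).D P y + -c * 0 * (ex T ℝ).D y P +
            (-c * 0) ^ 2 * (ex T ℝ).f y) * (0 + l0 * 0 + l0 ^ 2 * (ex T ℝ).D (pl u τ) P)) =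
            c * c := by
          rw [hc]
          ring
        rw [e2]
        exact mul_self_pos.2 hc0
      have ev2 : ∀ᶠ r : ℝ in 𝓝[>] 0, |(-c * r)| * ‖y‖ < δ0 / 3 := by
        have hcc : Continuous fun r : ℝ => |(-c * r)| * ‖y‖ := by fun_prop
        have ht : Tendsto (fun r : ℝ => |(-c * r)| * ‖y‖) (𝓝[>] 0) (𝓝 0) := by
          have := (hcc.tendsto 0).mono_left (nhdsWithin_le_nhds (s := Set.Ioi (0 : ℝ)))
          simpa using this
        exact ht.eventually_lt_const (by positivity)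
      obtain ⟨r, ⟨h3, h4⟩, h5⟩ := ((ev1.and ev2).and self_mem_nhdsWithin).exists
      have hr : 0 < r := h5
      refine ⟨P + (-c * r) • y, rp_ivt h C hδ0 near (P + (-c * r) • y) τ 0 l0 hl0.le ?_ ?_⟩
      · have e1 : (ex T ℝ).f (P + (-c * r) • y + (0 : ℝ) • pl u τ) =
            (-c * r) * ((ex T ℝ).D P y + (-c * r) * (ex T ℝ).D y P +
              (-c * r) ^ 2 * (ex T ℝ).f y) := by
          rw [zero_smul, add_zero, (ex T ℝ).f_add, (ex T ℝ).f_smul, (ex T ℝ).D_smul,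
            (ex T ℝ).smul_D, fP]
          ring
        rw [e1]
        have e2 : (-c * r) * ((ex T ℝ).D P y + (-c * r) * (ex T ℝ).D y P +
            (-c * r) ^ 2 * (ex T ℝ).f y) * (ex T ℝ).f (P + (-c * r) • y + l0 • pl u τ) =
            -(r * (c * (((ex T ℝ).D P y + (-c * r) * (ex T ℝ).D y P +
              (-c * r) ^ 2 * (ex T ℝ).f y) * (ex T ℝ).f (P + (-c * r) • y + l0 • pl u τ)))) := by
          ring
        rw [e2, neg_lt_zero]
        exact mul_pos hr h3
      · intro l hl i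
        have e : (P + (-c * r) • y) i + l * pl u τ i - P i = (-c * r) * y i + l * pl u τ i := by
          simp only [Pi.add_apply, Pi.smul_apply, smul_eq_mul]
          ring
        rw [e]
        have h6 : |(-c * r) * y i| ≤ |(-c * r)| * ‖y‖ := by
          rw [abs_mul]
          exact mul_le_mul_of_nonneg_left (rp_norm y i) (abs_nonneg _)
        have h7 : |l * pl u τ i| ≤ l0 * ‖(pl u τ : Fin n → ℝ)‖ := by
          rw [abs_mul, abs_of_nonneg hl.1]
          exact mul_le_mul hl.2 (rp_norm _ i) (abs_nonneg _) hl0.le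
        have h8 := abs_add_le ((-c * r) * y i) (l * pl u τ i)
        linarith
    · push Not at h2
      have hcl : C.cl (up ℝ (u 0)) = C.cl P := by
        have hu : pl u ![(1 : ℝ), 0, 0] = up ℝ (u 0) := by
          unfold pl
          simp
        have h3 := h1 ![1, 0, 0]
        have h4 := h2 ![1, 0, 0]
        rw [hu] at h3 h4
        have hne : up ℝ (u 0) ≠ 0 := by
          intro h0
          apply h.ind.ne_zero 0
          funext i
          have := congrFun h0 i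
          have h5 : algebraMap E ℝ (u 0 i) = 0 := this
          exact (algebraMap E ℝ).injective (h5.trans (map_zero _).symm)
        have h6 := C.curve 1 (fun k => if k = 0 then P else up ℝ (u 0)) (by simpa using hP)
          (by simpa using hne) ?_
        · simpa using h6.symm
        · intro s
          have e : (∑ a ∈ Finset.range (1 + 1), s ^ a • (if a = 0 then P else up ℝ (u 0))) =
              P + s • up ℝ (u 0) := by
            rw [Finset.sum_range_succ, Finset.sum_range_one]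
            simp
          rw [e, (ex T ℝ).f_add, (ex T ℝ).f_smul, (ex T ℝ).D_smul, (ex T ℝ).smul_D, fP, h3, h4,
            h.upf]
          ring
      obtain ⟨b₀, δ, hδ, hb⟩ := real_pl h hs C
      refine ⟨b₀, δ, hδ, fun b hbb => ?_⟩
      obtain ⟨x, hx, hq, hx2⟩ := hb b hbb
      exact ⟨x, hx, hq, fun _ => hx2.trans hcl⟩

end Cr
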