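import Pool.Agent.Lib.MP_f80667_ag.Cr.Iso4
import Pool.Agent.Lib.MP_f80667_ag.Cr.FinP
import Pool.Agent.Lib.MP_f80667_ag.Cr.Quad
import Pool.Agent.Lib.MP_f80667_ag.Cr.RealPt
import Pool.Agent.Lib.MP_f80667_ag.Cr.ChT
import Pool.Agent.Lib.MP_f80667_ag.Ts.QuadM
import Pool.Agent.Lib.MP_f80667_ag.Ts.ConcA

/-! A point over a quadratic extension with prescribed classes at its two real places. -/

open NumberField

namespace Cr

open Cu

private theorem ep_ext {E M : Type} [Field E] [Field M] [Algebra E M] [FiniteDimensional E M]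
    [Algebra E ℝ] {α : M} (hM : IntermediateField.adjoin E {α} = ⊤) {τ τ' : M →ₐ[E] ℝ}
    (h : τ α = τ' α) : τ = τ' := by
  have hint : IsAlgebraic E α := (IsIntegral.of_finite E α).isAlgebraic
  have h1 := IntermediateField.adjoin_simple_toSubalgebra_of_isAlgebraic hint
  refine AlgHom.ext_of_adjoin_eq_top (s := {α}) ?_ ?_
  · rw [← h1, hM]
    rfl
  · intro y hy
    rw [Set.mem_singleton_iff] at hy
    rw [hy]
    exact h

private theorem ep_two {E M : Type} [Field E] [CharZero E] [Field M] [Algebra E M]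
    [FiniteDimensional E M] [Algebra E ℝ] {a : E} {α : M} (h2 : Module.finrank E M = 2)
    (hα : α ^ 2 = algebraMap E M a) (hM : IntermediateField.adjoin E {α} = ⊤)
    (ha : 0 < algebraMap E ℝ a) : ∃ τ₁ τ₂ : M →ₐ[E] ℝ, τ₁ ≠ τ₂ ∧
      ∀ τ : M →ₐ[E] ℝ, τ = τ₁ ∨ τ = τ₂ := by
  have hs : (Real.sqrt (algebraMap E ℝ a)) ^ 2 = algebraMap E ℝ a := Real.sq_sqrt ha.le
  have hc : Fintype.card (M →ₐ[E] ℂ) = 2 := by rw [AlgHom.card E M ℂ, h2]
  obtain ⟨σ₁, σ₂, hσ⟩ := Fintype.one_lt_card_iff.1 (by rw [hc]; norm_num :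
    1 < Fintype.card (M →ₐ[E] ℂ))
  obtain ⟨τ₁, h1⟩ := Ts.exists_tau (K := ℝ) hα hM hs σ₁
  obtain ⟨τ₂, h2⟩ := Ts.exists_tau (K := ℝ) hα hM hs σ₂
  have hne : τ₁ ≠ τ₂ := by
    intro h
    apply hσ
    ext x
    rw [h1, h2, h]
  have hq : ∀ τ : M →ₐ[E] ℝ, τ α ^ 2 = algebraMap E ℝ a := fun τ => by
    rw [← map_pow, hα, AlgHom.commutes]
  have hneg : τ₂ α = -τ₁ α := by
    have h3 : (τ₂ α - τ₁ α) * (τ₂ α + τ₁ α) = 0 := by
      linear_combination hq τ₂ - hq τ₁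
    rcases mul_eq_zero.1 h3 with h | h
    · exact absurd (ep_ext hM (sub_eq_zero.1 h).symm) hne
    · exact eq_neg_of_add_eq_zero_left h
  refine ⟨τ₁, τ₂, hne, fun τ => ?_⟩
  have h3 : (τ α - τ₁ α) * (τ α + τ₁ α) = 0 := by
    linear_combination hq τ - hq τ₁
  rcases mul_eq_zero.1 h3 with h | h
  · exact Or.inl (ep_ext hM (sub_eq_zero.1 h))
  · right
    apply ep_ext hM
    rw [hneg]
    exact eq_neg_of_add_eq_zero_left h

private theorem ep_qf {R S : Type*} [CommRing R] [CommRing S] (φ : R →+* S) {m : ℕ}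
    (A : Matrix (Fin m) (Fin m) R) (x : Fin m → R) :
    qf (A.map φ) (fun i => φ (x i)) = φ (qf A x) := by
  simp only [qf, Matrix.map_apply, map_sum, map_mul]

private theorem ep_mn {R S : Type*} [CommRing R] [CommRing S] (φ : R →+* S)
    (A : Matrix (Fin 4) (Fin 4) R) (i j : Fin 4) : mn (A.map φ) i j = φ (mn A i j) := by
  rw [mn, mn, RingHom.map_det]
  rfl

private theorem ep_pt {E : Type*} [Field E] {n : ℕ} (u : Fin 3 → Fin n → E) {R S : Type*}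
    [CommRing R] [Algebra E R] [CommRing S] [Algebra E S] (φ : R →ₐ[E] S) (b : Fin n → R)
    (x : Fin 4 → R) : (fun i => φ (pt u b x i)) = pt u (fun i => φ (b i)) (fun i => φ (x i)) := by
  funext i
  simp only [pt, Pi.add_apply, Pi.smul_apply, smul_eq_mul, map_add, map_mul, up, AlgHom.commutes]

/-- The class of a point over `M` at a real place. -/
private theorem ep_cl {E : Type} [Field E] [Algebra E ℝ] {n : ℕ} {T : Tn E n}
    {u : Fin 3 → Fin n → E} (h : Pln T u) {G : Type} (C : RC (ex T ℝ) G) {M : Type} [Field M]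
    [Algebra E M] (ψ : M →ₐ[E] ℝ) {b : Fin n → M} {i j : Fin 4} (hm : mn (mt T u b) i j ≠ 0)
    {x : Fin 4 → M} (hx : x ≠ 0) (hq : qf (mt T u b) x = 0) {g : G}
    (hr : ∃ y : Fin 4 → ℝ, y ≠ 0 ∧ qf (mt T u fun l => ψ (b l)) y = 0 ∧
      (pt u (fun l => ψ (b l)) y ≠ 0 → C.cl (pt u (fun l => ψ (b l)) y) = g)) :
    C.cl (fun l => ψ (pt u b x l)) = g := by
  obtain ⟨y, hy, hqy, hcl⟩ := hr
  have hm' : mn (mt T u fun l => ψ (b l)) i j ≠ 0 := by
    rw [← mt_map ψ b]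
    have h1 := ep_mn (ψ : M →+* ℝ) (mt T u b) i j
    intro h0
    apply hm
    have h2 : (ψ : M →+* ℝ) (mn (mt T u b) i j) = 0 := h1.symm.trans h0
    exact (map_eq_zero (ψ : M →+* ℝ)).1 h2
  have hx' : (fun l => ψ (x l)) ≠ 0 := by
    intro h0
    apply hx
    funext l
    exact (map_eq_zero (ψ : M →+* ℝ)).1 (congrFun h0 l)
  have hq' : qf (mt T u fun l => ψ (b l)) (fun l => ψ (x l)) = 0 := by
    rw [← mt_map ψ b]
    have h1 := ep_qf (ψ : M →+* ℝ) (mt T u b) x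
    rw [hq, map_zero] at h1
    exact h1
  rw [ep_pt u ψ b x, quad_cl h C _ hm' hx' hy hq' hqy]
  exact hcl (pt_ne h hm' hy)

/-- Proof. `M = E(√a)` from `Ts.exists_M` for the embedding `algebraMap E ℝ`: all real embeddings of
`M` are over it, there are exactly two, `ψ₁ ≠ ψ₂`. `real_pt` gives `r₁`, `real_pl` gives `r₂`;
`exists_line` gives `b0` near `r₁`, `b1` near `r₂ - r₁`; `Hm.wapr` for `M` gives `l : M` near `l₀` of
`fin_iso` at the places of `S`, `ψ₁ l` near `0`, `ψ₂ l` near `1`. `b = b0 + l b1`: `ψ₁ b` near `r₁`, `ψ₂ b`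
near `r₂`. `iso4` (real embeddings of `M`: only `ψ₁`, `ψ₂`, zeros from `real_pt`, `real_pl`) gives
`x : Fin 4 → M`, `p = pt u b x`, `two_f`. Some `3 × 3` minor of `mt T u b` is not zero (the relation at
`l`), so `p ≠ 0` and `quad_cl` at `ψ₁`, `ψ₂` (`mt_map`). -/
theorem exists_pt {E : Type} [Field E] [NumberField E] [Algebra E ℝ] {n : ℕ} {T : Tn E n}
    {u : Fin 3 → Fin n → E} (h : Pln T u)
    (hH : ∃ H : MvPolynomial (Fin n ⊕ Fin n) E, H ≠ 0 ∧ ∀ b0 b1 : Fin n → E,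
      MvPolynomial.eval (Sum.elim b0 b1) H ≠ 0 →
        ∃ c : Fin 4 → Fin 4 → Polynomial E, ∑ i, ∑ j, c i j * mn (mt T u (ln b0 b1)) i j = 1)
    (hs : ∀ x : Fin n → AlgebraicClosure E, x ≠ 0 → ∃ y, (ex T (AlgebraicClosure E)).D x y ≠ 0)
    (hs' : ∀ x : Fin n → ℂ, x ≠ 0 → ∃ y, (ex (T.map (algebraMap E ℝ)) ℂ).D x y ≠ 0) {G : Type}
    (C : RC (ex T ℝ) G) {P : Fin n → ℝ} (hP : P ≠ 0) (fP : (ex T ℝ).f P = 0) :
    ∃ (M : Type) (_ : Field M) (_ : Algebra E M) (_ : FiniteDimensional E M) (p : Fin n → M)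
      (ψ₁ ψ₂ : M →ₐ[E] ℝ), p ≠ 0 ∧ (ex T M).f p = 0 ∧ ψ₁ ≠ ψ₂ ∧
      (∀ ψ : M →+* ℝ, ψ = ψ₁ ∨ ψ = ψ₂) ∧ C.cl (fun i => ψ₁ (p i)) = C.cl P ∧
      C.cl (fun i => ψ₂ (p i)) = C.cl (up ℝ (u 0)) := by
  classical
  obtain ⟨M, _, _, _, a, α, hfr, hα, hM, ha0, haneg⟩ := Ts.exists_M E (algebraMap E ℝ)
  have hNF : NumberField M := NumberField.of_module_finite E M
  obtain ⟨ψ₁, ψ₂, hne, htwo⟩ := ep_two hfr hα hM ha0
  have hall : ∀ ψ : M →+* ℝ, ψ = (ψ₁ : M →+* ℝ) ∨ ψ = (ψ₂ : M →+* ℝ) := by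
    intro ψ
    have hψ : ψ.comp (algebraMap E M) = algebraMap E ℝ := by
      by_contra hne
      have h1 := haneg _ hne
      have h3 : ψ (algebraMap E M a) = ψ α ^ 2 := by rw [← hα, map_pow]
      have h4 : (ψ.comp (algebraMap E M)) a = ψ α ^ 2 := h3
      rw [h4] at h1
      exact absurd h1 (not_lt.2 (sq_nonneg _))
    let ψ' : M →ₐ[E] ℝ := { ψ with commutes' := fun r => RingHom.congr_fun hψ r }
    have hψ' : (ψ' : M →+* ℝ) = ψ := rfl
    rcases htwo ψ' with h1 | h1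
    · left
      rw [← hψ', h1]
    · right
      rw [← hψ', h1]
  obtain ⟨t, t', b, b', k1, k2, k3⟩ := exists_tt h hs
  obtain ⟨r₁, δ₁, hδ₁, hr₁⟩ := real_pt h hs' C hP fP
  obtain ⟨r₂, δ₂, hδ₂, hr₂⟩ := real_pl h hs' C
  set δ : ℝ := min δ₁ δ₂ / 3 with hδd
  have hδ : 0 < δ := by
    rw [hδd]
    have := lt_min hδ₁ hδ₂
    positivity
  have hδ1 : 3 * δ ≤ δ₁ := by
    rw [hδd]
    have := min_le_left δ₁ δ₂
    linarith
  have hδ2 : 3 * δ ≤ δ₂ := by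
    rw [hδd]
    have := min_le_right δ₁ δ₂
    linarith
  obtain ⟨b0, b1, hc, hm, m1, m2, hn0, hn1⟩ := exists_line hH k1 k2 k3 r₁ (r₂ - r₁) hδ
  obtain ⟨S, l₀, g, hg, hfin⟩ := fin_iso h hc hm m1 m2 M
  set Bd : ℝ := ‖r₂ - r₁‖ + δ with hBd
  have hBd0 : 0 < Bd := by
    have := norm_nonneg (r₂ - r₁)
    linarith
  obtain ⟨l, hl1, hl2⟩ := Hm.wapr (K := M) S (fun _ => l₀)
    (fun ψ => if ψ = (ψ₁ : M →+* ℝ) then 0 else 1) g hg (δ / Bd) (by positivity)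
  have hne' : (ψ₂ : M →+* ℝ) ≠ (ψ₁ : M →+* ℝ) := by
    intro h0
    apply hne
    ext x
    exact (RingHom.congr_fun h0 x).symm
  have hlψ1 := hl2 (ψ₁ : M →+* ℝ)
  rw [if_pos rfl, sub_zero] at hlψ1
  have hlψ2 := hl2 (ψ₂ : M →+* ℝ)
  rw [if_neg hne'] at hlψ2
  set bb : Fin n → M := up M b0 + l • up M b1 with hbb
  have hψb : ∀ (ψ : M →ₐ[E] ℝ) i, ψ (bb i) = algebraMap E ℝ (b0 i) + ψ l * algebraMap E ℝ (b1 i) := by
    intro ψ i
    rw [hbb]
    simp only [Pi.add_apply, Pi.smul_apply, smul_eq_mul, map_add, map_mul, up, AlgHom.commutes]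
  have hb1 : ∀ i, |algebraMap E ℝ (b1 i)| ≤ Bd := by
    intro i
    have h1 := hn1 i
    have h2 : |(r₂ - r₁) i| ≤ ‖r₂ - r₁‖ := by
      rw [← Real.norm_eq_abs]
      exact norm_le_pi_norm (r₂ - r₁) i
    have h3 : algebraMap E ℝ (b1 i) = (algebraMap E ℝ (b1 i) - (r₂ - r₁) i) + (r₂ - r₁) i := by
      ring
    rw [h3]
    have h4 := abs_add_le (algebraMap E ℝ (b1 i) - (r₂ - r₁) i) ((r₂ - r₁) i)
    linarith
  have hprod : ∀ (z : ℝ) i, |z| < δ / Bd → |z * algebraMap E ℝ (b1 i)| ≤ δ := by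
    intro z i hz
    rw [abs_mul]
    calc |z| * |algebraMap E ℝ (b1 i)| ≤ (δ / Bd) * Bd :=
          mul_le_mul hz.le (hb1 i) (abs_nonneg _) (by positivity)
      _ = δ := div_mul_cancel₀ _ hBd0.ne'
  have hnear1 : ∀ i, |ψ₁ (bb i) - r₁ i| < δ₁ := by
    intro i
    have e : ψ₁ (bb i) - r₁ i = (algebraMap E ℝ (b0 i) - r₁ i) + ψ₁ l * algebraMap E ℝ (b1 i) := by
      rw [hψb]
      ring
    rw [e]
    have h1 := hprod (ψ₁ l) i hlψ1
    have h2 := hn0 i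
    have h3 := abs_add_le (algebraMap E ℝ (b0 i) - r₁ i) (ψ₁ l * algebraMap E ℝ (b1 i))
    linarith
  have hnear2 : ∀ i, |ψ₂ (bb i) - r₂ i| < δ₂ := by
    intro i
    have e : ψ₂ (bb i) - r₂ i = (algebraMap E ℝ (b0 i) - r₁ i) +
        (algebraMap E ℝ (b1 i) - (r₂ - r₁) i) + (ψ₂ l - 1) * algebraMap E ℝ (b1 i) := by
      rw [hψb, Pi.sub_apply]
      ring
    rw [e]
    have h1 := hprod (ψ₂ l - 1) i hlψ2
    have h2 := hn0 i
    have h2' := hn1 i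
    have h3 := abs_add_le ((algebraMap E ℝ (b0 i) - r₁ i) +
        (algebraMap E ℝ (b1 i) - (r₂ - r₁) i)) ((ψ₂ l - 1) * algebraMap E ℝ (b1 i))
    have h4 := abs_add_le (algebraMap E ℝ (b0 i) - r₁ i) (algebraMap E ℝ (b1 i) - (r₂ - r₁) i)
    linarith
  obtain ⟨y1, hy1, hq1, hcl1⟩ := hr₁ (fun i => ψ₁ (bb i)) hnear1
  obtain ⟨y2, hy2, hq2, hcl2⟩ := hr₂ (fun i => ψ₂ (bb i)) hnear2
  obtain ⟨x, hx, hqx⟩ := iso4 (mt T u bb) (mt_comm bb) (hfin l hl1) (by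
    intro φ
    rcases hall φ with rfl | rfl
    · refine ⟨y1, hy1, ?_⟩
      have h1 := mt_map (T := T) (u := u) ψ₁ bb
      exact (congrArg (fun A => qf A y1) h1).trans hq1
    · refine ⟨y2, hy2, ?_⟩
      have h1 := mt_map (T := T) (u := u) ψ₂ bb
      exact (congrArg (fun A => qf A y2) h1).trans hq2)
  -- a minor
  obtain ⟨i, j, hij⟩ : ∃ i j, mn (mt T u bb) i j ≠ 0 := by
    by_contra hcon
    push Not at hcon
    obtain ⟨c, hc⟩ := hc
    let ev : Polynomial E →ₐ[E] M := Polynomial.aeval l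
    have h1 := mt_map (T := T) (u := u) ev (ln b0 b1)
    have h2 : (fun i => ev (ln b0 b1 i)) = bb := by
      funext i
      show Polynomial.aeval l (Polynomial.C (b0 i) + Polynomial.X * Polynomial.C (b1 i)) = _
      rw [map_add, map_mul, Polynomial.aeval_C, Polynomial.aeval_C, Polynomial.aeval_X]
      rfl
    rw [h2] at h1
    have h3 := congrArg ev hc
    rw [map_one, map_sum] at h3
    have h4 : ∑ i, ev (∑ j, c i j * mn (mt T u (ln b0 b1)) i j) = 0 := by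
      refine Finset.sum_eq_zero fun i _ => ?_
      rw [map_sum]
      refine Finset.sum_eq_zero fun j _ => ?_
      have h5 := ep_mn (ev : Polynomial E →+* M) (mt T u (ln b0 b1)) i j
      have h6 : (ev : Polynomial E →+* M) (mn (mt T u (ln b0 b1)) i j) = 0 := by
        rw [← h5]
        exact (congrArg (fun A => mn A i j) h1).trans (hcon i j)
      have h7 : ev (mn (mt T u (ln b0 b1)) i j) = 0 := h6
      rw [map_mul, h7, mul_zero]
    rw [h4] at h3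
    exact zero_ne_one h3
  refine ⟨M, inferInstance, inferInstance, inferInstance, pt u bb x, ψ₁, ψ₂, pt_ne h hij hx, ?_,
    hne, hall, ?_, ?_⟩
  · have h1 := two_f h bb x
    rw [hqx, mul_zero] at h1
    exact (mul_eq_zero.1 h1).resolve_left two_ne_zero
  · exact ep_cl h C ψ₁ hij hx hqx ⟨y1, hy1, hq1, hcl1⟩
  · exact ep_cl h C ψ₂ hij hx hqx ⟨y2, hy2, hq2, fun _ => hcl2⟩

end Cr
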