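import Pool.Agent.Lib.MP_f80667_ag.Hm.Frm5
import Pool.Agent.Lib.MP_f80667_ag.Cr.Mat

/-! Quadratic forms of rank at least three modulo a prime. -/

open IsDedekindDomain NumberField

namespace Cr

namespace GoodP

section bil

variable {R : Type*} [CommRing R] {m : ℕ} (A : Matrix (Fin m) (Fin m) R)

theorem bf_add_l (x y z : Fin m → R) : bf A (x + y) z = bf A x z + bf A y z := by
  simp only [bf, Pi.add_apply, add_mul, mul_add, Finset.sum_add_distrib]

theorem bf_add_r (x y z : Fin m → R) : bf A x (y + z) = bf A x y + bf A x z := by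
  simp only [bf, Pi.add_apply, mul_add, Finset.sum_add_distrib]

theorem bf_smul_l (c : R) (x z : Fin m → R) : bf A (c • x) z = c * bf A x z := by
  simp only [bf, Pi.smul_apply, smul_eq_mul, Finset.mul_sum]
  refine Finset.sum_congr rfl fun i _ => Finset.sum_congr rfl fun j _ => ?_
  ring

theorem bf_smul_r (c : R) (x z : Fin m → R) : bf A x (c • z) = c * bf A x z := by
  simp only [bf, Pi.smul_apply, smul_eq_mul, Finset.mul_sum]
  refine Finset.sum_congr rfl fun i _ => Finset.sum_congr rfl fun j _ => ?_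
  ring

theorem bf_sub_l (x y z : Fin m → R) : bf A (x - y) z = bf A x z - bf A y z := by
  simp only [bf, Pi.sub_apply, sub_mul, mul_sub, Finset.sum_sub_distrib]

theorem bf_sub_r (x y z : Fin m → R) : bf A x (y - z) = bf A x y - bf A x z := by
  simp only [bf, Pi.sub_apply, mul_sub, Finset.sum_sub_distrib]

theorem bf_zero_r (x : Fin m → R) : bf A x 0 = 0 := by
  simp only [bf, Pi.zero_apply, mul_zero, Finset.sum_const_zero]

theorem bf_zero_l (x : Fin m → R) : bf A 0 x = 0 := by
  simp only [bf, Pi.zero_apply, zero_mul, mul_zero, Finset.sum_const_zero]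

theorem bf_symm {A : Matrix (Fin m) (Fin m) R} (hA : ∀ i j, A i j = A j i) (x y : Fin m → R) :
    bf A x y = bf A y x := by
  unfold bf
  rw [Finset.sum_comm]
  refine Finset.sum_congr rfl fun i _ => Finset.sum_congr rfl fun j _ => ?_
  rw [hA j i]
  ring

theorem bf_single (i j : Fin m) : bf A (Pi.single i 1) (Pi.single j 1) = A i j := by
  unfold bf
  rw [Finset.sum_eq_single i, Finset.sum_eq_single j]
  · rw [Pi.single_eq_same, Pi.single_eq_same, mul_one, mul_one]
  · intro l _ hl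
    rw [Pi.single_eq_of_ne hl, mul_zero, mul_zero]
  · intro h
    exact absurd (Finset.mem_univ j) h
  · intro k _ hk
    refine Finset.sum_eq_zero fun l _ => ?_
    rw [Pi.single_eq_of_ne hk, zero_mul, mul_zero]
  · intro h
    exact absurd (Finset.mem_univ i) h

theorem bf_map {S : Type*} [CommRing S] (φ : R →+* S) (x y : Fin m → R) :
    bf (A.map φ) (fun i => φ (x i)) (fun i => φ (y i)) = φ (bf A x y) := by
  simp only [bf, Matrix.map_apply, map_sum, map_mul]

end bil

section val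

variable {K : Type*} [Field K] {Γ : Type*} [LinearOrderedCommGroupWithZero Γ] (vv : Valuation K Γ)

theorem sm_mul {x y : K} (hx : vv x < 1) (hy : vv y ≤ 1) : vv (x * y) < 1 := by
  rw [map_mul]
  exact mul_lt_one_of_lt_of_le hx hy

theorem sm_mul' {x y : K} (hx : vv x ≤ 1) (hy : vv y < 1) : vv (x * y) < 1 := by
  rw [mul_comm]
  exact sm_mul vv hy hx

theorem in_mul {x y : K} (hx : vv x ≤ 1) (hy : vv y ≤ 1) : vv (x * y) ≤ 1 := by
  rw [map_mul]
  exact mul_le_one' hx hy

theorem sm_add {x y : K} (hx : vv x < 1) (hy : vv y < 1) : vv (x + y) < 1 :=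
  Valuation.map_add_lt _ hx hy

theorem sm_sub {x y : K} (hx : vv x < 1) (hy : vv y < 1) : vv (x - y) < 1 :=
  (Valuation.map_sub _ _ _).trans_lt (max_lt hx hy)

theorem in_sub {x y : K} (hx : vv x ≤ 1) (hy : vv y ≤ 1) : vv (x - y) ≤ 1 :=
  (Valuation.map_sub _ _ _).trans (max_le hx hy)

theorem sm_mul3 {a b c a' b' c' : K} (hb : vv b ≤ 1) (hc : vv c ≤ 1) (ha' : vv a' ≤ 1)
    (hb' : vv b' ≤ 1) (h1 : vv (a - a') < 1) (h2 : vv (b - b') < 1) (h3 : vv (c - c') < 1) :
    vv (a * b * c - a' * b' * c') < 1 := by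
  have e : a * b * c - a' * b' * c' =
      (a - a') * b * c + a' * (b - b') * c + a' * b' * (c - c') := by ring
  rw [e]
  exact sm_add vv (sm_add vv (sm_mul vv (sm_mul vv h1 hb) hc) (sm_mul vv (sm_mul' vv ha' h2) hc))
    (sm_mul' vv (in_mul vv ha' hb') h3)

theorem det_sm {X Y : Matrix (Fin 3) (Fin 3) K} (hX : ∀ k l, vv (X k l) ≤ 1)
    (hY : ∀ k l, vv (Y k l) ≤ 1) (h : ∀ k l, vv (X k l - Y k l) < 1) (h0 : Y.det = 0) :
    vv X.det < 1 := by
  have e : X.det = X.det - Y.det := by rw [h0, sub_zero]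
  have h3 : ∀ k l k' l' k'' l'', vv (X k l * X k' l' * X k'' l'' - Y k l * Y k' l' * Y k'' l'') < 1 :=
    fun k l k' l' k'' l'' => sm_mul3 vv (hX _ _) (hX _ _) (hY _ _) (hY _ _) (h _ _) (h _ _) (h _ _)
  have e2 : X.det - Y.det =
      (X 0 0 * X 1 1 * X 2 2 - Y 0 0 * Y 1 1 * Y 2 2) -
      (X 0 0 * X 1 2 * X 2 1 - Y 0 0 * Y 1 2 * Y 2 1) -
      (X 0 1 * X 1 0 * X 2 2 - Y 0 1 * Y 1 0 * Y 2 2) +
      (X 0 1 * X 1 2 * X 2 0 - Y 0 1 * Y 1 2 * Y 2 0) +
      (X 0 2 * X 1 0 * X 2 1 - Y 0 2 * Y 1 0 * Y 2 1) -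
      (X 0 2 * X 1 1 * X 2 0 - Y 0 2 * Y 1 1 * Y 2 0) := by
    rw [Matrix.det_fin_three, Matrix.det_fin_three]
    ring
  rw [e, e2]
  exact sm_sub vv (sm_add vv (sm_add vv (sm_sub vv (sm_sub vv (h3 _ _ _ _ _ _) (h3 _ _ _ _ _ _))
    (h3 _ _ _ _ _ _)) (h3 _ _ _ _ _ _)) (h3 _ _ _ _ _ _)) (h3 _ _ _ _ _ _)

variable {A : Matrix (Fin 4) (Fin 4) K}

theorem in_bf (hint : ∀ i j, vv (A i j) ≤ 1) {x y : Fin 4 → K} (hx : ∀ k, vv (x k) ≤ 1)
    (hy : ∀ k, vv (y k) ≤ 1) : vv (bf A x y) ≤ 1 :=
  Valuation.map_sum_le _ fun i _ => Valuation.map_sum_le _ fun j _ =>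
    in_mul vv (hint i j) (in_mul vv (hx i) (hy j))

/-- A further vector with unit value in the orthogonal complement. -/
theorem exists_unit_vec (h2 : vv 2 = 1) (hA : ∀ i j, A i j = A j i)
    (hint : ∀ i j, vv (A i j) ≤ 1) (i j : Fin 4) (hm : vv (mn A i j) = 1)
    {x y : Fin 4 → K} (hx : ∀ k, vv (x k) ≤ 1) (hy : ∀ k, vv (y k) ≤ 1) {α β : K}
    (hα : vv α ≤ 1) (hβ : vv β ≤ 1) (hαx : α * (α * bf A x x) = α)
    (hβy : β * (β * bf A y y) = β) (hxy : bf A x y = 0) :
    ∃ z : Fin 4 → K, (∀ k, vv (z k) ≤ 1) ∧ vv (bf A z z) = 1 ∧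
      (α * bf A x x = 1 → bf A x z = 0) ∧ (β * bf A y y = 1 → bf A y z = 0) := by
  have hyx : bf A y x = 0 := by rw [bf_symm hA, hxy]
  let pr : (Fin 4 → K) → (Fin 4 → K) := fun u =>
    u - (α * bf A x u) • x - (β * bf A y u) • y
  have hprx : ∀ u, bf A x (pr u) = bf A x u - α * bf A x u * bf A x x := fun u => by
    simp only [pr, bf_sub_r, bf_smul_r, hxy, mul_zero, sub_zero]
  have hpry : ∀ u, bf A y (pr u) = bf A y u - β * bf A y u * bf A y y := fun u => by
    simp only [pr, bf_sub_r, bf_smul_r, hyx, mul_zero, sub_zero]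
  have hpr : ∀ u w, bf A (pr u) (pr w) =
      bf A u w - α * (bf A x u * bf A x w) - β * (bf A y u * bf A y w) := by
    intro u w
    have e1 : bf A (pr u) (pr w) = bf A u (pr w) - (α * bf A x u) * bf A x (pr w) -
        (β * bf A y u) * bf A y (pr w) := by
      simp only [pr, bf_sub_l, bf_smul_l]
    have e2 : bf A u (pr w) = bf A u w - (α * bf A x w) * bf A x u -
        (β * bf A y w) * bf A y u := by
      simp only [pr, bf_sub_r, bf_smul_r, bf_symm hA u x, bf_symm hA u y]
    rw [e1, e2, hprx, hpry]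
    linear_combination (bf A x u * bf A x w) * hαx + (bf A y u * bf A y w) * hβy
  have hpi : ∀ u : Fin 4 → K, (∀ k, vv (u k) ≤ 1) → ∀ k, vv (pr u k) ≤ 1 := by
    intro u hu k
    exact in_sub vv (in_sub vv (hu k) (in_mul vv (in_mul vv hα (in_bf vv hint hx hu)) (hx k)))
      (in_mul vv (in_mul vv hβ (in_bf vv hint hy hu)) (hy k))
  by_contra hcon
  push Not at hcon
  have hsm : ∀ u : Fin 4 → K, (∀ k, vv (u k) ≤ 1) → vv (bf A (pr u) (pr u)) < 1 := by
    intro u hu
    refine lt_of_le_of_ne (in_bf vv hint (hpi u hu) (hpi u hu)) fun h1 => ?_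
    by_cases h3 : α * bf A x x = 1
    · have h4 : bf A x (pr u) = 0 := by
        rw [hprx]
        linear_combination -(bf A x u) * h3
      obtain ⟨h5, h6⟩ := hcon (pr u) (hpi u hu) h1 (fun _ => h4)
      apply h6
      rw [hpry]
      linear_combination -(bf A y u) * h5
    · obtain ⟨h5, h6⟩ := hcon (pr u) (hpi u hu) h1 (fun h => absurd h h3)
      apply h6
      rw [hpry]
      linear_combination -(bf A y u) * h5
  have hei : ∀ k : Fin 4, ∀ l, vv ((Pi.single k (1 : K) : Fin 4 → K) l) ≤ 1 := by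
    intro k l
    by_cases h : l = k
    · subst h
      rw [Pi.single_eq_same, map_one]
    · rw [Pi.single_eq_of_ne h, map_zero]
      exact zero_le_one
  have hC : ∀ k l : Fin 4, vv (bf A (pr (Pi.single k 1)) (pr (Pi.single l 1))) < 1 := by
    intro k l
    have h3 := hsm (Pi.single k 1 + Pi.single l 1) fun t =>
      (Valuation.map_add _ _ _).trans (max_le (hei k t) (hei l t))
    have h4 := hsm (Pi.single k 1) (hei k)
    have h5 := hsm (Pi.single l 1) (hei l)
    have e : 2 * bf A (pr (Pi.single k 1)) (pr (Pi.single l 1)) =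
        bf A (pr (Pi.single k 1 + Pi.single l 1)) (pr (Pi.single k 1 + Pi.single l 1)) -
        bf A (pr (Pi.single k 1)) (pr (Pi.single k 1)) -
        bf A (pr (Pi.single l 1)) (pr (Pi.single l 1)) := by
      simp only [hpr, bf_add_l, bf_add_r, bf_symm hA (Pi.single l 1) (Pi.single k 1)]
      ring
    have h6 : vv (2 * bf A (pr (Pi.single k 1)) (pr (Pi.single l 1))) < 1 := by
      rw [e]
      exact sm_sub vv (sm_sub vv h3 h4) h5
    rwa [map_mul, h2, one_mul] at h6
  let p : Fin 4 → K := fun k => bf A x (Pi.single k 1)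
  let q : Fin 4 → K := fun k => bf A y (Pi.single k 1)
  have hp : ∀ k, vv (p k) ≤ 1 := fun k => in_bf vv hint hx (hei k)
  have hq : ∀ k, vv (q k) ≤ 1 := fun k => in_bf vv hint hy (hei k)
  let Y : Matrix (Fin 3) (Fin 3) K := fun k l =>
    α * (p (i.succAbove k) * p (j.succAbove l)) + β * (q (i.succAbove k) * q (j.succAbove l))
  have hlt : vv (mn A i j) < 1 := by
    refine det_sm vv (Y := Y) (fun k l => hint _ _) (fun k l => ?_) (fun k l => ?_) ?_
    · exact (Valuation.map_add _ _ _).trans (max_le (in_mul vv hα (in_mul vv (hp _) (hp _)))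
        (in_mul vv hβ (in_mul vv (hq _) (hq _))))
    · have h3 := hC (i.succAbove k) (j.succAbove l)
      rw [hpr, bf_single] at h3
      have e : A.submatrix i.succAbove j.succAbove k l - Y k l =
          A (i.succAbove k) (j.succAbove l) - α * (p (i.succAbove k) * p (j.succAbove l)) -
            β * (q (i.succAbove k) * q (j.succAbove l)) := by
        simp only [Y, Matrix.submatrix_apply]
        ring
      rw [e]
      exact h3
    · rw [Matrix.det_fin_three]
      simp only [Y]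
      ring
  exact absurd hm hlt.ne

end val

end GoodP

open GoodP

/-- A quadratic form in four variables which is integral at `v`, not dyadic, with a `3 × 3` minor
which is a unit at `v`, has a zero over the completion. Proof: over the (finite) residue field the
form has rank at least `3`; diagonalise there; a ternary form `a x² + b y² + c z²` with `a, b, c ≠ 0`
over a finite field of odd characteristic has a nontrivial zero; lift it by Hensel's lemma
(or: diagonalise over the local ring, a symmetric matrix of rank `≥ 3` modulo `v` is congruent to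
`diag (a, b, c) ⊕ (d)` with units `a, b, c`; then `Hm.three`, see `Hm.iso5_of` and `Hm.Three`). -/
theorem iso_good {M : Type} [Field M] [NumberField M] (v : HeightOneSpectrum (𝓞 M))
    (h2 : v.valuation M 2 = 1) (A : Matrix (Fin 4) (Fin 4) M) (hA : ∀ i j, A i j = A j i)
    (hint : ∀ i j, v.valuation M (A i j) ≤ 1) (i j : Fin 4) (hm : v.valuation M (mn A i j) = 1) :
    ∃ x : Fin 4 → v.adicCompletion M, x ≠ 0 ∧
      qf (A.map (algebraMap M (v.adicCompletion M))) x = 0 := by
  have h0i : ∀ k : Fin 4, v.valuation M ((0 : Fin 4 → M) k) ≤ 1 := fun k => by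
    rw [Pi.zero_apply, map_zero]
    exact zero_le_one
  have h0v : v.valuation M (0 : M) ≤ 1 := by
    rw [map_zero]
    exact zero_le_one
  have hne : ∀ a : M, v.valuation M a = 1 → a ≠ 0 := by
    rintro _ h rfl
    rw [map_zero] at h
    exact zero_ne_one h
  have hinv : ∀ a : M, v.valuation M a = 1 → v.valuation M a⁻¹ ≤ 1 := fun a h => by
    rw [map_inv₀, h, inv_one]
  obtain ⟨x, hxi, hx1, -, -⟩ := exists_unit_vec (v.valuation M) h2 hA hint i j hm
    (x := 0) (y := 0) (α := 0) (β := 0) h0i h0i h0v h0v (by ring) (by ring) (bf_zero_r _ _)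
  have hx0 := hne _ hx1
  have hxx : (bf A x x)⁻¹ * bf A x x = 1 := inv_mul_cancel₀ hx0
  obtain ⟨y, hyi, hy1, hxy', -⟩ := exists_unit_vec (v.valuation M) h2 hA hint i j hm
    (x := x) (y := 0) (α := (bf A x x)⁻¹) (β := 0) hxi h0i (hinv _ hx1) h0v
    (by rw [hxx, mul_one]) (by ring) (bf_zero_r _ _)
  have hxy := hxy' hxx
  have hy0 := hne _ hy1
  have hyy : (bf A y y)⁻¹ * bf A y y = 1 := inv_mul_cancel₀ hy0
  obtain ⟨z, hzi, hz1, hxz', hyz'⟩ := exists_unit_vec (v.valuation M) h2 hA hint i j hm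
    (x := x) (y := y) (α := (bf A x x)⁻¹) (β := (bf A y y)⁻¹) hxi hyi (hinv _ hx1) (hinv _ hy1)
    (by rw [hxx, mul_one]) (by rw [hyy, mul_one]) hxy
  have hxz := hxz' hxx
  have hyz := hyz' hyy
  have hz0 := hne _ hz1
  obtain ⟨t, ht0, ht⟩ := Hm.iso3_unit h2 ![bf A x x, bf A y y, bf A z z] (by
    intro k
    fin_cases k
    · exact hx1
    · exact hy1
    · exact hz1)
  set ρ := algebraMap M (v.adicCompletion M) with hρ
  let B := A.map ρ
  let x' : Fin 4 → v.adicCompletion M := fun k => ρ (x k)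
  let y' : Fin 4 → v.adicCompletion M := fun k => ρ (y k)
  let z' : Fin 4 → v.adicCompletion M := fun k => ρ (z k)
  have exx : bf B x' x' = ρ (bf A x x) := bf_map A ρ x x
  have eyy : bf B y' y' = ρ (bf A y y) := bf_map A ρ y y
  have ezz : bf B z' z' = ρ (bf A z z) := bf_map A ρ z z
  have exy : bf B x' y' = 0 := by rw [bf_map A ρ x y, hxy, map_zero]
  have exz : bf B x' z' = 0 := by rw [bf_map A ρ x z, hxz, map_zero]
  have eyz : bf B y' z' = 0 := by rw [bf_map A ρ y z, hyz, map_zero]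
  have eyx : bf B y' x' = 0 := by rw [bf_map A ρ y x, bf_symm hA, hxy, map_zero]
  have ezx : bf B z' x' = 0 := by rw [bf_map A ρ z x, bf_symm hA, hxz, map_zero]
  have ezy : bf B z' y' = 0 := by rw [bf_map A ρ z y, bf_symm hA, hyz, map_zero]
  let X : Fin 4 → v.adicCompletion M := t 0 • x' + t 1 • y' + t 2 • z'
  have bX : ∀ u, bf B u X = t 0 * bf B u x' + t 1 * bf B u y' + t 2 * bf B u z' := fun u => by
    simp only [X, bf_add_r, bf_smul_r]
  have Xb : ∀ u, bf B X u = t 0 * bf B x' u + t 1 * bf B y' u + t 2 * bf B z' u := fun u => by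
    simp only [X, bf_add_l, bf_smul_l]
  refine ⟨X, fun hX => ?_, ?_⟩
  · apply ht0
    have hu : ∀ u, bf B u X = 0 := fun u => by rw [hX, bf_zero_r]
    have f0 := hu x'
    have f1 := hu y'
    have f2 := hu z'
    rw [bX, exx, exy, exz, mul_zero, mul_zero, add_zero, add_zero] at f0
    rw [bX, eyy, eyx, eyz, mul_zero, mul_zero, zero_add, add_zero] at f1
    rw [bX, ezz, ezx, ezy, mul_zero, mul_zero, zero_add, zero_add] at f2
    have g : ∀ a : M, a ≠ 0 → ρ a ≠ 0 := fun a ha => by rwa [Ne, map_eq_zero]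
    funext k
    fin_cases k
    · exact (mul_eq_zero.1 f0).resolve_right (g _ hx0)
    · exact (mul_eq_zero.1 f1).resolve_right (g _ hy0)
    · exact (mul_eq_zero.1 f2).resolve_right (g _ hz0)
  · have e : qf (A.map ρ) X = bf B X X := rfl
    rw [e, bX, Xb, Xb, Xb, exx, exy, exz, eyx, eyy, eyz, ezx, ezy, ezz]
    rw [Fin.sum_univ_three] at ht
    simp only [Matrix.cons_val_zero, Matrix.cons_val_one, Matrix.cons_val] at ht
    linear_combination ht

end Cr
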