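import Pool.Agent.Lib.MP_f80667_ag.Hm.Frm5
import Pool.Agent.Lib.MP_f80667_ag.Cr.Mat

/-! Hasse - Minkowski in four variables for symmetric matrices. -/

open IsDedekindDomain NumberField

namespace Cr

open Matrix

/-- The quadratic form in terms of the product of matrices. -/
theorem qf_eq_dot {R : Type*} [CommRing R] {m : ℕ} (A : Matrix (Fin m) (Fin m) R) (x : Fin m → R) :
    qf A x = x ⬝ᵥ (A *ᵥ x) := by
  unfold qf
  simp only [dotProduct, mulVec, Finset.mul_sum]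
  refine Finset.sum_congr rfl fun i _ => Finset.sum_congr rfl fun j _ => ?_
  ring

/-- The values of a diagonalised form. -/
theorem qf_of_diag {F : Type*} [Field F] (h2 : (2 : F) ≠ 0) {m : ℕ}
    {A P : Matrix (Fin m) (Fin m) F} {w : Fin m → F}
    (hD : Pᵀ * A * P + (Pᵀ * A * P)ᵀ = (2 : F) • diagonal w) (x : Fin m → F) :
    qf A (P *ᵥ x) = ∑ i, w i * x i ^ 2 := by
  rw [qf_eq_dot]
  have h1 : (P *ᵥ x) ⬝ᵥ (A *ᵥ (P *ᵥ x)) = x ⬝ᵥ ((Pᵀ * A * P) *ᵥ x) := by
    rw [Matrix.mul_assoc, ← Matrix.mulVec_mulVec, ← Matrix.mulVec_mulVec,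
      Matrix.dotProduct_mulVec x, Matrix.vecMul_transpose]
  have h3 : x ⬝ᵥ ((Pᵀ * A * P)ᵀ *ᵥ x) = x ⬝ᵥ ((Pᵀ * A * P) *ᵥ x) := by
    rw [Matrix.mulVec_transpose, dotProduct_comm, Matrix.dotProduct_mulVec]
  have h4 : x ⬝ᵥ (((2 : F) • diagonal w) *ᵥ x) = 2 * ∑ i, w i * x i ^ 2 := by
    rw [Matrix.smul_mulVec, dotProduct_smul, smul_eq_mul]
    congr 1
    simp only [dotProduct, mulVec_diagonal]
    exact Finset.sum_congr rfl fun i _ => by ring
  have h5 : 2 * (x ⬝ᵥ ((Pᵀ * A * P) *ᵥ x)) = 2 * ∑ i, w i * x i ^ 2 := by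
    rw [← h4, ← hD, Matrix.add_mulVec, dotProduct_add, h3]
    ring
  rw [h1]
  exact mul_left_cancel₀ h2 h5

/-- A zero of a form is a zero of its diagonalisation, over every extension. -/
theorem diag_zero {M L : Type*} [Field M] [Field L] (φ : M →+* L) (h2 : (2 : L) ≠ 0) {m : ℕ}
    {A P Q : Matrix (Fin m) (Fin m) M} {w : Fin m → M} (hPQ : P * Q = 1)
    (hD : Pᵀ * A * P + (Pᵀ * A * P)ᵀ = (2 : M) • diagonal w) {x : Fin m → L} (hx0 : x ≠ 0)
    (hx : qf (A.map φ) x = 0) : ∃ y : Fin m → L, y ≠ 0 ∧ ∑ i, φ (w i) * y i ^ 2 = 0 := by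
  have hDφ : (P.map φ)ᵀ * A.map φ * P.map φ + ((P.map φ)ᵀ * A.map φ * P.map φ)ᵀ =
      (2 : L) • diagonal fun i => φ (w i) := by
    have h1 := congrArg (fun M : Matrix (Fin m) (Fin m) M => M.map φ) hD
    simp only [Matrix.map_add φ (map_add φ), Matrix.map_mul, Matrix.transpose_map] at h1
    rw [h1]
    ext i j
    rw [Matrix.map_apply, Matrix.smul_apply, Matrix.smul_apply, smul_eq_mul, smul_eq_mul,
      map_mul, map_ofNat]
    by_cases hij : i = j
    · subst hij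
      rw [diagonal_apply_eq, diagonal_apply_eq]
    · rw [diagonal_apply_ne _ hij, diagonal_apply_ne _ hij, map_zero]
  have hPQφ : P.map φ * Q.map φ = 1 := by
    rw [← Matrix.map_mul, hPQ, Matrix.map_one _ (map_zero φ) (map_one φ)]
  have hPy : P.map φ *ᵥ (Q.map φ *ᵥ x) = x := by
    rw [Matrix.mulVec_mulVec, hPQφ, Matrix.one_mulVec]
  refine ⟨Q.map φ *ᵥ x, ?_, ?_⟩
  · intro h
    rw [h, Matrix.mulVec_zero] at hPy
    exact hx0 hPy.symm
  · rw [← qf_of_diag h2 hDφ, hPy, hx]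

/-- Proof: diagonalise (`Hm.exists_diag`, see `Hm.isoM_of`), `Hm.near_of_loc` at the finite places,
`Hm.four`. -/
theorem iso4 {M : Type} [Field M] [NumberField M] (A : Matrix (Fin 4) (Fin 4) M)
    (hA : ∀ i j, A i j = A j i)
    (hf : ∀ v : HeightOneSpectrum (𝓞 M), ∃ x : Fin 4 → v.adicCompletion M, x ≠ 0 ∧
      qf (A.map (algebraMap M (v.adicCompletion M))) x = 0)
    (hr : ∀ φ : M →+* ℝ, ∃ x : Fin 4 → ℝ, x ≠ 0 ∧ qf (A.map φ) x = 0) :
    ∃ x : Fin 4 → M, x ≠ 0 ∧ qf A x = 0 := by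
  classical
  obtain ⟨w, P, Q, hPQ, hQP, hD⟩ := Hm.exists_diag A
  have h2 : (2 : M) ≠ 0 := two_ne_zero
  have hinj : ∀ x : Fin 4 → M, P *ᵥ x = 0 → x = 0 := by
    intro x hx
    have : Q *ᵥ (P *ᵥ x) = x := by rw [Matrix.mulVec_mulVec, hQP, Matrix.one_mulVec]
    rw [← this, hx, Matrix.mulVec_zero]
  suffices hs : ∃ x : Fin 4 → M, x ≠ 0 ∧ ∑ i, w i * x i ^ 2 = 0 by
    obtain ⟨x, hx0, hx⟩ := hs
    exact ⟨P *ᵥ x, fun h => hx0 (hinj x h), by rw [qf_of_diag h2 hD, hx]⟩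
  by_cases hw : ∃ i, w i = 0
  · obtain ⟨i, hi⟩ := hw
    refine ⟨Pi.single i 1, fun h => ?_, ?_⟩
    · have := congrFun h i
      simp at this
    · rw [Finset.sum_eq_single i]
      · rw [hi, zero_mul]
      · intro j _ hj
        rw [Pi.single_eq_of_ne hj]
        ring
      · intro h
        exact absurd (Finset.mem_univ i) h
  · push Not at hw
    refine Hm.four M w hw ?_ ?_
    · intro v B hB
      obtain ⟨x, hx0, hx⟩ := hf v
      have h2v : (2 : v.adicCompletion M) ≠ 0 := by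
        rw [← map_ofNat (algebraMap M (v.adicCompletion M)) 2]
        rwa [Ne, map_eq_zero]
      have h3 := diag_zero (algebraMap M (v.adicCompletion M)) h2v hPQ hD hx0 hx
      exact Hm.near_of_loc v w h3 hB
    · intro φ
      obtain ⟨x, hx0, hx⟩ := hr φ
      obtain ⟨y, hy0, hzero⟩ := diag_zero φ two_ne_zero hPQ hD hx0 hx
      have hw' : ∀ i, φ (w i) ≠ 0 := fun i => by
        have := hw i
        rwa [Ne, map_eq_zero]
      obtain ⟨j, hj⟩ := Function.ne_iff.1 hy0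
      have hj2 : 0 < y j ^ 2 := by
        have : y j ≠ 0 := hj
        positivity
      constructor
      · by_contra hcon
        push Not at hcon
        have hneg : ∀ i, φ (w i) < 0 := fun i => lt_of_le_of_ne (hcon i) (hw' i)
        have : ∑ i, φ (w i) * y i ^ 2 < 0 := by
          refine Finset.sum_neg' (fun i _ => mul_nonpos_of_nonpos_of_nonneg (hneg i).le (sq_nonneg _))
            ⟨j, Finset.mem_univ j, mul_neg_of_neg_of_pos (hneg j) hj2⟩
        linarith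
      · by_contra hcon
        push Not at hcon
        have hpos : ∀ i, 0 < φ (w i) := fun i => lt_of_le_of_ne (hcon i) (Ne.symm (hw' i))
        have : 0 < ∑ i, φ (w i) * y i ^ 2 := by
          refine Finset.sum_pos' (fun i _ => mul_nonneg (hpos i).le (sq_nonneg _))
            ⟨j, Finset.mem_univ j, mul_pos (hpos j) hj2⟩
        linarith

end Cr
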