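import Pool.Agent.Lib.MP_f80667_ag.Cr.Lin

/-! The affine system and its Jacobian matrix. -/

namespace Cr

open MvPolynomial

variable {m : ℕ} {p : Fin m → ℕ} {K : Type*} [Field K]

/-- Dehomogenisation. -/
noncomputable def dh (R : Type*) [CommRing R] [Algebra K R] (F : MvPolynomial (PV p) K) :
    MvPolynomial (AV p) R := aeval (aff (X : AV p → MvPolynomial (AV p) R)) F

theorem eval_dh {R : Type*} [CommRing R] [Algebra K R] (F : MvPolynomial (PV p) K)
    (y : AV p → R) : eval y (dh R F) = aeval (aff y) F := by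
  unfold dh
  have h : (aeval y : MvPolynomial (AV p) R →ₐ[R] R).restrictScalars K
      (aeval (aff (X : AV p → MvPolynomial (AV p) R)) F) = aeval (aff y) F := by
    refine (comp_aeval_apply (f := aff (X : AV p → MvPolynomial (AV p) R))
      ((aeval y : MvPolynomial (AV p) R →ₐ[R] R).restrictScalars K) F).trans ?_
    congr 2
    funext v
    have h1 := aff_map ((aeval y : MvPolynomial (AV p) R →ₐ[R] R) : MvPolynomial (AV p) R →+* R)
      (X : AV p → MvPolynomial (AV p) R) v
    simp only [AlgHom.coe_toRingHom, aeval_X] at h1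
    exact h1
  exact h

theorem map_dh {R S : Type*} [CommRing R] [Algebra K R] [CommRing S] [Algebra K S]
    (φ : R →ₐ[K] S) (F : MvPolynomial (PV p) K) : map (φ : R →+* S) (dh R F) = dh S F := by
  unfold dh
  have h : (mapAlgHom φ : MvPolynomial (AV p) R →ₐ[K] MvPolynomial (AV p) S)
      (aeval (aff (X : AV p → MvPolynomial (AV p) R)) F) =
      aeval (aff (X : AV p → MvPolynomial (AV p) S)) F := by
    refine (comp_aeval_apply (f := aff (X : AV p → MvPolynomial (AV p) R))
      (mapAlgHom φ : MvPolynomial (AV p) R →ₐ[K] MvPolynomial (AV p) S) F).trans ?_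
    congr 2
    funext v
    have h1 := aff_map ((mapAlgHom φ : MvPolynomial (AV p) R →ₐ[K] MvPolynomial (AV p) S) :
      MvPolynomial (AV p) R →+* MvPolynomial (AV p) S) (X : AV p → MvPolynomial (AV p) R) v
    simp only [AlgHom.coe_toRingHom, mapAlgHom_apply, map_X] at h1
    exact h1
  exact h

theorem dh_mul {R : Type*} [CommRing R] [Algebra K R] (F G : MvPolynomial (PV p) K) :
    dh R (F * G) = dh R F * dh R G := map_mul _ _ _

/-- The system of the deformation. -/
noncomputable def hP {R : Type*} [CommRing R] [Algebra K R] (G F : AV p → MvPolynomial (PV p) K)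
    (τ : R) (e : AV p) : MvPolynomial (AV p) R :=
  C (1 - τ) * dh R (G e) + C τ * dh R (F e)

theorem eval_hP {R : Type*} [CommRing R] [Algebra K R] (G F : AV p → MvPolynomial (PV p) K)
    (τ : R) (e : AV p) (y : AV p → R) :
    eval y (hP G F τ e) = (1 - τ) * aeval (aff y) (G e) + τ * aeval (aff y) (F e) := by
  unfold hP
  rw [map_add, map_mul, map_mul, eval_C, eval_C, eval_dh, eval_dh]

theorem map_hP {R S : Type*} [CommRing R] [Algebra K R] [CommRing S] [Algebra K S]
    (φ : R →ₐ[K] S) (G F : AV p → MvPolynomial (PV p) K) (τ : R) (e : AV p) :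
    map (φ : R →+* S) (hP G F τ e) = hP G F (φ τ) e := by
  unfold hP
  rw [map_add, map_mul, map_mul, map_C, map_C, map_dh, map_dh]
  simp

theorem hP_zero {R : Type*} [CommRing R] [Algebra K R] (G F : AV p → MvPolynomial (PV p) K)
    (e : AV p) : hP G F (0 : R) e = dh R (G e) := by
  unfold hP
  rw [sub_zero, C_1, one_mul, C_0, zero_mul, add_zero]

/-- The Jacobian matrix. -/
noncomputable def jac {R : Type*} [CommRing R] (g : AV p → MvPolynomial (AV p) R) (y : AV p → R) :
    Matrix (AV p) (AV p) R := Matrix.of fun e a => eval y (pderiv a (g e))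

theorem jac_map {R S : Type*} [CommRing R] [CommRing S] (φ : R →+* S)
    (g : AV p → MvPolynomial (AV p) R) (y : AV p → R) :
    (jac g y).map φ = jac (fun e => map φ (g e)) (fun a => φ (y a)) := by
  ext e a
  change φ (eval y (pderiv a (g e))) = eval (fun a => φ (y a)) (pderiv a (map φ (g e)))
  rw [pderiv_map, eval_map]
  exact (eval₂_comp φ y _)

variable {δ : AV p → Fin m → ℕ} (c : (Σ e : AV p, Fc δ e) → K)

theorem pderiv_Lf (a : K) (b : Fin m) (u : AV p → K) (y : AV p → K) :
    ∑ t, eval y (pderiv t (dh K (Lf a b))) * u t = ∑ i : Fin (p b), a ^ (i : ℕ) * u ⟨b, i⟩ := by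
  classical
  have h1 : dh K (Lf a b) = (∑ i : Fin (p b), C (a ^ (i : ℕ)) * X (⟨b, i⟩ : AV p)) +
      C (a ^ p b) := by
    unfold dh Lf
    rw [map_sum, Fin.sum_univ_castSucc]
    congr 1
    · refine Finset.sum_congr rfl fun i _ => ?_
      rw [map_mul, aeval_X, aff_cast, aeval_C]
      rfl
    · rw [map_mul, aeval_X, aff_last, aeval_C, mul_one]
      rfl
  have h2 : ∀ t : AV p, eval y (pderiv t (dh K (Lf a b))) =
      ∑ i : Fin (p b), if (⟨b, i⟩ : AV p) = t then a ^ (i : ℕ) else 0 := by
    intro t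
    rw [h1, map_add, pderiv_C, add_zero, map_sum, map_sum]
    refine Finset.sum_congr rfl fun i _ => ?_
    rw [pderiv_C_mul, pderiv_X]
    rw [map_mul, eval_C]
    by_cases h : (⟨b, i⟩ : AV p) = t
    · rw [if_pos h, h, Pi.single_eq_same, map_one, mul_one]
    · rw [if_neg h, Pi.single_eq_of_ne h, map_zero, mul_zero]
  simp_rw [h2, Finset.sum_mul]
  rw [Finset.sum_comm]
  refine Finset.sum_congr rfl fun i _ => ?_
  rw [Finset.sum_eq_single (⟨b, i⟩ : AV p)]
  · rw [if_pos rfl]
  · intro t _ ht
    rw [if_neg (fun h => ht h.symm), zero_mul]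
  · intro h
    exact absurd (Finset.mem_univ _) h

/-- The zeros of the special system are simple. -/
theorem det_jac (hc : Function.Injective c) (σ : ∀ e : AV p, Fc δ e)
    (h : ∀ b, (Finset.univ.filter fun e => (σ e).1 = b).card = p b) :
    (jac (fun e => dh K (Gp c e)) (sol c σ)).det ≠ 0 := by
  classical
  intro h0
  obtain ⟨u, hu, hJ⟩ := Matrix.exists_mulVec_eq_zero_iff.2 h0
  apply hu
  -- the derivative of the form e in the direction u
  have key : ∀ e, ∑ i : Fin (p (σ e).1), c ⟨e, σ e⟩ ^ (i : ℕ) * u ⟨(σ e).1, i⟩ = 0 := by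
    intro e
    have h1 := congrFun hJ e
    change ∑ t, eval (sol c σ) (pderiv t (dh K (Gp c e))) * u t = 0 at h1
    have h2 : Gp c e = Lf (c ⟨e, σ e⟩) (σ e).1 *
        ∏ s ∈ Finset.univ.erase (σ e), Lf (c ⟨e, s⟩) s.1 :=
      (Finset.mul_prod_erase Finset.univ (fun s : Fc δ e => Lf (c ⟨e, s⟩) s.1)
        (Finset.mem_univ (σ e))).symm
    have h3 : eval (sol c σ) (dh K (Lf (p := p) (c ⟨e, σ e⟩) (σ e).1)) = 0 := by
      rw [eval_dh, aeval_Lf]
      exact (sol_factor c hc σ h e (σ e)).2 rfl
    have h4 : eval (sol c σ) (dh K (∏ s ∈ Finset.univ.erase (σ e), Lf (p := p) (c ⟨e, s⟩) s.1)) ≠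
        0 := by
      rw [eval_dh, map_prod]
      refine Finset.prod_ne_zero_iff.2 fun s hs => ?_
      rw [aeval_Lf]
      exact fun h5 => (Finset.mem_erase.1 hs).1 ((sol_factor c hc σ h e s).1 h5)
    have h5 : ∀ t, eval (sol c σ) (pderiv t (dh K (Gp c e))) =
        eval (sol c σ) (dh K (∏ s ∈ Finset.univ.erase (σ e), Lf (p := p) (c ⟨e, s⟩) s.1)) *
          eval (sol c σ) (pderiv t (dh K (Lf (p := p) (c ⟨e, σ e⟩) (σ e).1))) := by
      intro t
      rw [h2, dh_mul, pderiv_mul, map_add, map_mul, map_mul, h3]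
      ring
    simp_rw [h5, mul_assoc] at h1
    rw [← Finset.mul_sum, pderiv_Lf] at h1
    exact (mul_eq_zero.1 h1).resolve_left h4
  funext ⟨b, i⟩
  -- the polynomial with the coefficients u
  let U : Polynomial K := ∑ j : Fin (p b), Polynomial.C (u ⟨b, j⟩) * Polynomial.X ^ (j : ℕ)
  have hcoeff : U.coeff i = u ⟨b, i⟩ := by
    change (∑ j : Fin (p b), Polynomial.C (u ⟨b, j⟩) * Polynomial.X ^ (j : ℕ)).coeff i = _
    rw [Polynomial.finsetSum_coeff]
    simp only [Polynomial.coeff_C_mul_X_pow]
    rw [Finset.sum_eq_single i]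
    · rw [if_pos rfl]
    · intro j _ hj
      rw [if_neg]
      exact fun h => hj (Fin.ext h.symm)
    · intro h
      exact absurd (Finset.mem_univ i) h
  have hU : U = 0 := by
    refine Polynomial.eq_zero_of_degree_lt_of_eval_finset_eq_zero
      ((Finset.univ.filter fun e => (σ e).1 = b).image fun e => c ⟨e, σ e⟩) ?_ ?_
    · rw [Finset.card_image_of_injective _ (fun e e' h => congrArg Sigma.fst (hc h)), h b]
      rw [Polynomial.degree_lt_iff_coeff_zero]
      intro j hj
      change (∑ j : Fin (p b), Polynomial.C (u ⟨b, j⟩) * Polynomial.X ^ (j : ℕ)).coeff j = 0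
      rw [Polynomial.finsetSum_coeff]
      refine Finset.sum_eq_zero fun l _ => ?_
      rw [Polynomial.coeff_C_mul_X_pow, if_neg]
      intro h
      have := l.2
      omega
    · intro a ha
      obtain ⟨e, he, rfl⟩ := Finset.mem_image.1 ha
      have he' := (Finset.mem_filter.1 he).2
      subst he'
      rw [Polynomial.eval_finsetSum, ← key e]
      refine Finset.sum_congr rfl fun j _ => ?_
      rw [Polynomial.eval_mul, Polynomial.eval_C, Polynomial.eval_pow, Polynomial.eval_X, mul_comm]
  rw [← hcoeff, hU, Polynomial.coeff_zero]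
  rfl

end Cr
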