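import Mathlib

/-! Systems of products of linear forms in several blocks of variables: zeros and Jacobians. -/

namespace Cr

open MvPolynomial

variable {m : ℕ} (p : Fin m → ℕ)

/-- Homogeneous variables: the block `b` has `p b + 1` variables. -/
abbrev PV := Σ b : Fin m, Fin (p b + 1)

/-- Affine variables. -/
abbrev AV := Σ b : Fin m, Fin (p b)

variable {p}

/-- The last coordinate of every block is `1`. -/
def aff {R : Type*} [One R] (y : AV p → R) (v : PV p) : R :=
  Fin.snoc (α := fun _ => R) (fun i => y ⟨v.1, i⟩) 1 v.2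

theorem aff_cast {R : Type*} [One R] (y : AV p → R) (b : Fin m) (i : Fin (p b)) :
    aff y ⟨b, i.castSucc⟩ = y ⟨b, i⟩ := by
  unfold aff
  exact Fin.snoc_castSucc (α := fun _ => R) _ _ _

theorem aff_last {R : Type*} [One R] (y : AV p → R) (b : Fin m) :
    aff y ⟨b, Fin.last (p b)⟩ = 1 := by
  unfold aff
  exact Fin.snoc_last (α := fun _ => R) _ _

theorem aff_map {R S : Type*} [Semiring R] [Semiring S] (φ : R →+* S) (y : AV p → R) (v : PV p) :
    φ (aff y v) = aff (fun a => φ (y a)) v := by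
  obtain ⟨b, i⟩ := v
  refine Fin.lastCases ?_ (fun i => ?_) i
  · rw [aff_last, aff_last, map_one]
  · rw [aff_cast, aff_cast]

section forms

variable {K : Type*} [Field K] (δ : AV p → Fin m → ℕ)

/-- The factors of the form `e`. -/
abbrev Fc (e : AV p) := Σ b : Fin m, Fin (δ e b)

variable {δ} (c : (Σ e : AV p, Fc δ e) → K)

/-- The linear form `∑ c^i X_i` in the block `b`. -/
noncomputable def Lf (a : K) (b : Fin m) : MvPolynomial (PV p) K :=
  ∑ i : Fin (p b + 1), C (a ^ (i : ℕ)) * X ⟨b, i⟩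

/-- The products of linear forms. -/
noncomputable def Gp (e : AV p) : MvPolynomial (PV p) K :=
  ∏ s : Fc δ e, Lf (c ⟨e, s⟩) s.1

/-- The polynomial with the coefficients `x_(b,i)`. -/
noncomputable def pol {κ : Type*} [Semiring κ] (x : PV p → κ) (b : Fin m) : Polynomial κ :=
  ∑ i : Fin (p b + 1), Polynomial.C (x ⟨b, i⟩) * Polynomial.X ^ (i : ℕ)

variable {κ : Type*} [Field κ] [Algebra K κ]

theorem aeval_Lf {R : Type*} [CommRing R] [Algebra K R] (a : K) (b : Fin m) (x : PV p → R) :
    aeval x (Lf a b) = (pol x b).eval (algebraMap K R a) := by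
  unfold Lf pol
  rw [map_sum, Polynomial.eval_finsetSum]
  refine Finset.sum_congr rfl fun i _ => ?_
  rw [map_mul, aeval_C, aeval_X, Polynomial.eval_mul, Polynomial.eval_C, Polynomial.eval_pow,
    Polynomial.eval_X, map_pow, mul_comm]

theorem aeval_Gp {R : Type*} [CommRing R] [Algebra K R] (e : AV p) (x : PV p → R) :
    aeval x (Gp c e) = ∏ s : Fc δ e, (pol x s.1).eval (algebraMap K R (c ⟨e, s⟩)) := by
  unfold Gp
  rw [map_prod]
  exact Finset.prod_congr rfl fun s _ => aeval_Lf _ _ _

theorem natDegree_pol_le {κ : Type*} [Semiring κ] (x : PV p → κ) (b : Fin m) :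
    (pol x b).natDegree ≤ p b := by
  unfold pol
  refine Polynomial.natDegree_sum_le_of_forall_le _ _ fun i _ => ?_
  exact (Polynomial.natDegree_C_mul_X_pow_le _ _).trans (Nat.lt_succ_iff.1 i.2)

theorem coeff_pol {κ : Type*} [Semiring κ] (x : PV p → κ) (b : Fin m) (i : Fin (p b + 1)) :
    (pol x b).coeff i = x ⟨b, i⟩ := by
  unfold pol
  rw [Polynomial.finsetSum_coeff]
  simp only [Polynomial.coeff_C_mul_X_pow]
  rw [Finset.sum_eq_single i]
  · rw [if_pos rfl]
  · intro j _ hj
    rw [if_neg]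
    exact fun h => hj (Fin.ext h.symm)
  · intro h
    exact absurd (Finset.mem_univ i) h

theorem pol_ne_zero {κ : Type*} [Semiring κ] {x : PV p → κ} {b : Fin m}
    (h : ∃ i, x ⟨b, i⟩ ≠ 0) : pol x b ≠ 0 := by
  obtain ⟨i, hi⟩ := h
  intro h0
  apply hi
  rw [← coeff_pol x b i, h0, Polynomial.coeff_zero]

/-- A zero of the system: every form has exactly one vanishing factor, and the block `b` contains
`p b` of them. -/
theorem zeros (hc : Function.Injective c) (x : PV p → κ) (hx : ∀ b, ∃ i, x ⟨b, i⟩ ≠ 0)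
    (h0 : ∀ e, aeval x (Gp c e) = 0) :
    ∃ σ : ∀ e : AV p, Fc δ e,
      (∀ e s, (pol x s.1).eval (algebraMap K κ (c ⟨e, s⟩)) = 0 ↔ s = σ e) ∧
      (∀ b, (Finset.univ.filter fun e => (σ e).1 = b).card = p b) := by
  classical
  have h1 : ∀ e, ∃ s : Fc δ e, (pol x s.1).eval (algebraMap K κ (c ⟨e, s⟩)) = 0 := by
    intro e
    have h2 := h0 e
    rw [aeval_Gp, Finset.prod_eq_zero_iff] at h2
    obtain ⟨s, _, hs⟩ := h2
    exact ⟨s, hs⟩
  choose σ hσ using h1
  -- the vanishing factors in the block b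
  let Z : Fin m → Finset (Σ e : AV p, Fc δ e) := fun b =>
    Finset.univ.filter fun t => t.2.1 = b ∧ (pol x t.2.1).eval (algebraMap K κ (c t)) = 0
  have hZ : ∀ b, (Z b).card ≤ p b := by
    intro b
    have h2 : ((Z b).image fun t => algebraMap K κ (c t)).card = (Z b).card :=
      Finset.card_image_of_injective _ ((algebraMap K κ).injective.comp hc)
    rw [← h2]
    by_contra hcon
    push Not at hcon
    refine pol_ne_zero (hx b) (Polynomial.eq_zero_of_natDegree_lt_card_of_eval_eq_zero' _ _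
      (fun a ha => ?_) ((natDegree_pol_le x b).trans_lt hcon))
    obtain ⟨t, ht, rfl⟩ := Finset.mem_image.1 ha
    obtain ⟨h3, h4⟩ := (Finset.mem_filter.1 ht).2
    rw [← h3]
    exact h4
  have hsum : ∑ b, p b = Fintype.card (AV p) := by
    rw [Fintype.card_sigma]
    exact Finset.sum_congr rfl fun b _ => (Fintype.card_fin _).symm
  -- all vanishing factors
  let W : Finset (Σ e : AV p, Fc δ e) :=
    Finset.univ.filter fun t => (pol x t.2.1).eval (algebraMap K κ (c t)) = 0
  have hW : W.card = ∑ b, (Z b).card := by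
    rw [Finset.card_eq_sum_card_fiberwise (f := fun t : Σ e : AV p, Fc δ e => t.2.1)
      (t := Finset.univ) (fun _ _ => Finset.mem_univ _)]
    refine Finset.sum_congr rfl fun b _ => ?_
    congr 1
    ext t
    simp only [W, Z, Finset.mem_filter, Finset.mem_univ, true_and]
    exact and_comm
  let S : Finset (Σ e : AV p, Fc δ e) := Finset.univ.image fun e => ⟨e, σ e⟩
  have hS : S.card = Fintype.card (AV p) := by
    rw [Finset.card_image_of_injective _ (fun a b h => congrArg Sigma.fst h), Finset.card_univ]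
  have hSW : S ⊆ W := by
    intro t ht
    obtain ⟨e, _, rfl⟩ := Finset.mem_image.1 ht
    exact Finset.mem_filter.2 ⟨Finset.mem_univ _, hσ e⟩
  have hle : W.card ≤ S.card := by
    rw [hW, hS, ← hsum]
    exact Finset.sum_le_sum fun b _ => hZ b
  have hEq : S = W := Finset.eq_of_subset_of_card_le hSW hle
  have hZ' : ∀ b, (Z b).card = p b := by
    intro b
    by_contra hne
    have h2 : ∑ b, (Z b).card < ∑ b, p b :=
      Finset.sum_lt_sum (fun b _ => hZ b) ⟨b, Finset.mem_univ _, lt_of_le_of_ne (hZ b) hne⟩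
    have h3 := Finset.card_le_card hSW
    rw [hW, hS, ← hsum] at h3
    omega
  have key : ∀ e s, (pol x s.1).eval (algebraMap K κ (c ⟨e, s⟩)) = 0 ↔ s = σ e := by
    intro e s
    constructor
    · intro h
      have h2 : (⟨e, s⟩ : Σ e : AV p, Fc δ e) ∈ W :=
        Finset.mem_filter.2 ⟨Finset.mem_univ _, h⟩
      rw [← hEq] at h2
      obtain ⟨e', _, h3⟩ := Finset.mem_image.1 h2
      have h4 : e' = e := congrArg Sigma.fst h3
      subst h4
      exact (eq_of_heq (Sigma.mk.inj h3).2).symm
    · rintro rfl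
      exact hσ e
  refine ⟨σ, key, fun b => ?_⟩
  rw [← hZ' b]
  have h2 : Z b = (Finset.univ.filter fun e => (σ e).1 = b).image
      fun e => (⟨e, σ e⟩ : Σ e : AV p, Fc δ e) := by
    ext ⟨e, s⟩
    simp only [Z, Finset.mem_filter, Finset.mem_univ, true_and, Finset.mem_image]
    constructor
    · rintro ⟨h3, h4⟩
      have h5 := (key e s).1 h4
      subst h5
      exact ⟨e, h3, rfl⟩
    · rintro ⟨e', h3, h4⟩
      have h5 : e' = e := congrArg Sigma.fst h4
      subst h5
      have h6 : σ e' = s := eq_of_heq (Sigma.mk.inj h4).2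
      subst h6
      exact ⟨h3, hσ e'⟩
  rw [h2, Finset.card_image_of_injective _ (fun a b h => congrArg Sigma.fst h)]

/-- The monic polynomial of the block `b` of the zero `σ`. -/
noncomputable def mon (σ : ∀ e : AV p, Fc δ e) (b : Fin m) : Polynomial K :=
  ∏ e ∈ Finset.univ.filter (fun e => (σ e).1 = b), (Polynomial.X - Polynomial.C (c ⟨e, σ e⟩))

theorem mon_monic (σ : ∀ e : AV p, Fc δ e) (b : Fin m) : (mon c σ b).Monic :=
  Polynomial.monic_prod_of_monic _ _ fun _ _ => Polynomial.monic_X_sub_C _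

theorem natDegree_mon (σ : ∀ e : AV p, Fc δ e) (b : Fin m)
    (h : (Finset.univ.filter fun e => (σ e).1 = b).card = p b) : (mon c σ b).natDegree = p b := by
  unfold mon
  rw [Polynomial.natDegree_prod_of_monic _ _ fun _ _ => Polynomial.monic_X_sub_C _]
  simp only [Polynomial.natDegree_X_sub_C, Finset.sum_const, smul_eq_mul, mul_one]
  exact h

/-- The affine zero of `σ`. -/
noncomputable def sol (σ : ∀ e : AV p, Fc δ e) (a : AV p) : K := (mon c σ a.1).coeff a.2

theorem pol_aff_sol (σ : ∀ e : AV p, Fc δ e) (b : Fin m)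
    (h : (Finset.univ.filter fun e => (σ e).1 = b).card = p b) :
    pol (aff (sol c σ)) b = mon c σ b := by
  ext i
  by_cases hi : i < p b + 1
  · have h1 := coeff_pol (aff (sol c σ)) b ⟨i, hi⟩
    change (pol (aff (sol c σ)) b).coeff i = _ at h1
    rw [h1]
    rcases Nat.lt_succ_iff_lt_or_eq.1 hi with h2 | h2
    · have h3 : (⟨i, hi⟩ : Fin (p b + 1)) = Fin.castSucc ⟨i, h2⟩ := rfl
      rw [h3, aff_cast]
      rfl
    · have h3 : (⟨i, hi⟩ : Fin (p b + 1)) = Fin.last (p b) := Fin.ext h2
      rw [h3, aff_last]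
      have h4 := mon_monic c σ b
      rw [Polynomial.Monic, Polynomial.leadingCoeff, natDegree_mon c σ b h] at h4
      rw [h2, h4]
  · rw [Polynomial.coeff_eq_zero_of_natDegree_lt, Polynomial.coeff_eq_zero_of_natDegree_lt]
    · rw [natDegree_mon c σ b h]
      omega
    · exact (natDegree_pol_le _ b).trans_lt (by omega)

theorem pol_map (x : PV p → K) (b : Fin m) :
    pol (fun v => algebraMap K κ (x v)) b = (pol x b).map (algebraMap K κ) := by
  unfold pol
  rw [Polynomial.map_sum]
  refine Finset.sum_congr rfl fun i _ => ?_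
  rw [Polynomial.map_mul, Polynomial.map_C, Polynomial.map_pow, Polynomial.map_X]

/-- A zero of the system is the zero of a selection. -/
theorem zeros_eq (hc : Function.Injective c) (x : PV p → κ) (hx : ∀ b, ∃ i, x ⟨b, i⟩ ≠ 0)
    (h0 : ∀ e, aeval x (Gp c e) = 0) :
    ∃ σ : ∀ e : AV p, Fc δ e,
      (∀ b, (Finset.univ.filter fun e => (σ e).1 = b).card = p b) ∧
      (∀ b, x ⟨b, Fin.last (p b)⟩ ≠ 0) ∧
      ∀ a : AV p, x ⟨a.1, a.2.castSucc⟩ = x ⟨a.1, Fin.last (p a.1)⟩ * algebraMap K κ (sol c σ a) := by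
  classical
  obtain ⟨σ, h1, h2⟩ := zeros c hc x hx h0
  have key : ∀ b, pol x b = Polynomial.C (x ⟨b, Fin.last (p b)⟩) *
      (mon c σ b).map (algebraMap K κ) := by
    intro b
    have hcard : ((Finset.univ.filter fun e => (σ e).1 = b).image
        fun e => algebraMap K κ (c ⟨e, σ e⟩)).card = p b := by
      rw [Finset.card_image_of_injective, h2 b]
      intro e e' h
      exact congrArg Sigma.fst (hc ((algebraMap K κ).injective h))
    refine Polynomial.eq_of_degree_sub_lt_of_eval_finset_eq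
      ((Finset.univ.filter fun e => (σ e).1 = b).image fun e => algebraMap K κ (c ⟨e, σ e⟩)) ?_ ?_
    · rw [hcard]
      have hm : ((mon c σ b).map (algebraMap K κ)).Monic := (mon_monic c σ b).map _
      have hd : ((mon c σ b).map (algebraMap K κ)).natDegree = p b := by
        rw [(mon_monic c σ b).natDegree_map, natDegree_mon c σ b (h2 b)]
      rw [Polynomial.degree_lt_iff_coeff_zero]
      intro i hi
      rw [Polynomial.coeff_sub, Polynomial.coeff_C_mul]
      rcases lt_or_eq_of_le hi with h3 | h3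
      · rw [Polynomial.coeff_eq_zero_of_natDegree_lt ((natDegree_pol_le x b).trans_lt h3),
          Polynomial.coeff_eq_zero_of_natDegree_lt (by rw [hd]; exact h3)]
        ring
      · have h4 := coeff_pol x b (Fin.last (p b))
        rw [Fin.val_last] at h4
        have h5 : ((mon c σ b).map (algebraMap K κ)).coeff (p b) = 1 := by
          rw [← hd]
          exact hm
        rw [← h3, h4, h5]
        ring
    · intro a ha
      obtain ⟨e, he, rfl⟩ := Finset.mem_image.1 ha
      have he' := (Finset.mem_filter.1 he).2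
      have h3 : (pol x b).eval (algebraMap K κ (c ⟨e, σ e⟩)) = 0 := by
        rw [← he']
        exact (h1 e (σ e)).2 rfl
      rw [h3, Polynomial.eval_mul, Polynomial.eval_map_algebraMap, mon, map_prod,
        Finset.prod_eq_zero he, mul_zero]
      rw [map_sub, Polynomial.aeval_X, Polynomial.aeval_C, sub_self]
  have hlast : ∀ b, x ⟨b, Fin.last (p b)⟩ ≠ 0 := by
    intro b h3
    apply pol_ne_zero (hx b)
    rw [key b, h3, Polynomial.C_0, zero_mul]
  refine ⟨σ, h2, hlast, fun a => ?_⟩
  have h3 := coeff_pol x a.1 a.2.castSucc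
  rw [← h3, key a.1, Polynomial.coeff_C_mul, Polynomial.coeff_map]
  rfl

/-- The zero of a selection. -/
theorem sol_zero (σ : ∀ e : AV p, Fc δ e)
    (h : ∀ b, (Finset.univ.filter fun e => (σ e).1 = b).card = p b) (e : AV p) :
    aeval (aff (sol c σ)) (Gp c e) = 0 := by
  rw [aeval_Gp]
  refine Finset.prod_eq_zero (Finset.mem_univ (σ e)) ?_
  rw [pol_aff_sol c σ _ (h _), mon, Polynomial.eval_prod]
  refine Finset.prod_eq_zero (Finset.mem_filter.2 ⟨Finset.mem_univ e, rfl⟩) ?_
  rw [Polynomial.eval_sub, Polynomial.eval_X, Polynomial.eval_C, Algebra.algebraMap_self,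
    RingHom.id_apply, sub_self]

/-- The vanishing factors of the zero of a selection. -/
theorem sol_factor (hc : Function.Injective c) (σ : ∀ e : AV p, Fc δ e)
    (h : ∀ b, (Finset.univ.filter fun e => (σ e).1 = b).card = p b) (e : AV p) (s : Fc δ e) :
    (pol (aff (sol c σ)) s.1).eval (c ⟨e, s⟩) = 0 ↔ s = σ e := by
  rw [pol_aff_sol c σ _ (h _), mon, Polynomial.eval_prod, Finset.prod_eq_zero_iff]
  constructor
  · rintro ⟨e', he', h2⟩
    rw [Polynomial.eval_sub, Polynomial.eval_X, Polynomial.eval_C, sub_eq_zero] at h2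
    have h3 := hc h2
    have h4 : e' = e := (congrArg Sigma.fst h3).symm
    subst h4
    exact eq_of_heq (Sigma.mk.inj h3).2
  · rintro rfl
    exact ⟨e, Finset.mem_filter.2 ⟨Finset.mem_univ e, rfl⟩, by
      rw [Polynomial.eval_sub, Polynomial.eval_X, Polynomial.eval_C, sub_self]⟩

theorem sol_inj (hc : Function.Injective c) {σ τ : ∀ e : AV p, Fc δ e}
    (hσ : ∀ b, (Finset.univ.filter fun e => (σ e).1 = b).card = p b)
    (hτ : ∀ b, (Finset.univ.filter fun e => (τ e).1 = b).card = p b)
    (h : sol c σ = sol c τ) : σ = τ := by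
  funext e
  rw [← sol_factor c hc τ hτ e, ← h]
  exact (sol_factor c hc σ hσ e (σ e)).2 rfl

end forms

end Cr
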