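import Mathlib

/-! A finite system of algebraic solutions with an odd number of elements contains one which
generates an extension of odd degree. -/

namespace Cr

open MvPolynomial IntermediateField

theorem exists_odd {k L : Type} [Field k] [CharZero k] [Field L] [Algebra k L] [IsAlgClosure k L]
    {ι κ : Type} [Finite ι] (h : κ → MvPolynomial ι k) (hf : {y : ι → L | ∀ e, aeval y (h e) = 0}.Finite)
    (hodd : Odd {y : ι → L | ∀ e, aeval y (h e) = 0}.ncard) :
    ∃ y : ι → L, (∀ e, aeval y (h e) = 0) ∧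
      Odd (Module.finrank k (adjoin k (Set.range y))) := by
  classical
  have hac : IsAlgClosed L := IsAlgClosure.isAlgClosed k
  have hal : Algebra.IsAlgebraic k L := IsAlgClosure.isAlgebraic
  by_contra hcon
  push Not at hcon
  obtain ⟨S, hS⟩ : ∃ S : Set (ι → L), S = {y : ι → L | ∀ e, aeval y (h e) = 0} := ⟨_, rfl⟩
  have hmem : ∀ y : ι → L, y ∈ S ↔ ∀ e, aeval y (h e) = 0 := fun y => by rw [hS]; rfl
  rw [← hS] at hf hodd
  have : Fintype S := hf.fintype
  -- the group of automorphisms
  let G := L ≃ₐ[k] L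
  let R : Setoid S := (MulAction.orbitRel G (ι → L)).comap Subtype.val
  have hinv : ∀ (φ : L →ₐ[k] L) (y : ι → L), y ∈ S → (fun a => φ (y a)) ∈ S := by
    intro φ y hy
    rw [hmem] at hy ⊢
    intro e
    have h1 := comp_aeval_apply y φ (h e)
    rw [hy e, map_zero] at h1
    exact h1.symm
  have hcard : ∀ y : S, Even (Nat.card {x : S // Quotient.mk R x = Quotient.mk R y}) := by
    intro y
    obtain ⟨E, hE⟩ : ∃ E : IntermediateField k L, E = adjoin k (Set.range y.1) := ⟨_, rfl⟩
    have hyE : ∀ a, y.1 a ∈ E := fun a => by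
      rw [hE]
      exact subset_adjoin k _ ⟨a, rfl⟩
    have hfd : FiniteDimensional k E := by
      rw [hE]
      exact finiteDimensional_adjoin fun x _ =>
        (Algebra.IsAlgebraic.isAlgebraic (R := k) x).isIntegral
    have h1 := hcon y.1 ((hmem _).1 y.2)
    rw [← hE, Nat.not_odd_iff_even, ← AlgHom.card k E L, ← Nat.card_eq_fintype_card] at h1
    have hext : ∀ φ : E →ₐ[k] L, ∃ g : L ≃ₐ[k] L, ∀ x : E, g x = φ x := by
      intro φ
      let ψ : L →ₐ[k] L := φ.liftNormal L
      have hψ : ∀ x : E, ψ x = φ x := fun x => φ.liftNormal_commutes L x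
      exact ⟨AlgEquiv.ofBijective ψ (Algebra.IsAlgebraic.algHom_bijective ψ), hψ⟩
    let Φ : (E →ₐ[k] L) → {x : S // Quotient.mk R x = Quotient.mk R y} := fun φ =>
      ⟨⟨fun a => φ ⟨y.1 a, hyE a⟩, by
        obtain ⟨g, hg⟩ := hext φ
        have h2 := hinv (g : L →ₐ[k] L) y.1 y.2
        have h3 : (fun a => (g : L →ₐ[k] L) (y.1 a)) = fun a => φ ⟨y.1 a, hyE a⟩ := by
          funext a
          exact hg ⟨y.1 a, hyE a⟩
        rwa [h3] at h2⟩, by
        obtain ⟨g, hg⟩ := hext φ
        refine Quotient.sound (a := _) (b := y) ?_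
        refine ⟨g, ?_⟩
        funext a
        exact hg ⟨y.1 a, hyE a⟩⟩
    have hΦ : Function.Bijective Φ := by
      constructor
      · intro φ ψ hφψ
        have h2 : ∀ a, φ ⟨y.1 a, hyE a⟩ = ψ ⟨y.1 a, hyE a⟩ := fun a =>
          congrFun (congrArg (fun z => z.1.1) hφψ) a
        refine algHom_ext_of_eq_adjoin k hE ?_
        rintro x ⟨a, rfl⟩
        exact h2 a
      · rintro ⟨x, hx⟩
        obtain ⟨g, hg⟩ := Quotient.exact hx
        refine ⟨(g : L →ₐ[k] L).comp E.val, ?_⟩
        apply Subtype.ext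
        apply Subtype.ext
        funext a
        exact congrFun hg a
    rw [← Nat.card_congr (Equiv.ofBijective Φ hΦ)]
    exact h1
  have h2 : Nat.card S = ∑ q : Quotient R, Nat.card {x : S // Quotient.mk R x = q} := by
    rw [Nat.card_eq_fintype_card, ← Fintype.card_congr (Equiv.sigmaFiberEquiv (Quotient.mk R)),
      Fintype.card_sigma]
    exact Finset.sum_congr rfl fun q _ => (Nat.card_eq_fintype_card).symm
  rw [Set.ncard_eq_toFinset_card' S, Set.toFinset_card, ← Nat.card_eq_fintype_card, h2,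
    ← Nat.not_even_iff_odd] at hodd
  apply hodd
  refine Finset.even_sum _ fun q _ => ?_
  obtain ⟨y, rfl⟩ := Quotient.exists_rep q
  exact hcard y

end Cr
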