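import Pool.Agent.Lib.MP_f80667_ag.Cr.Cnt

/-! The parity of the number of selections. -/

namespace Cr

variable {m : ℕ} {p : Fin m → ℕ}

/-- The selections as pairs of a map and choices. -/
def selEquiv (δ : AV p → Fin m → ℕ) : Sel p δ ≃
    Σ π : {π : AV p → Fin m // ∀ b, (Finset.univ.filter fun e => π e = b).card = p b},
      ∀ e, Fin (δ e (π.1 e)) where
  toFun σ := ⟨⟨fun e => (σ.1 e).1, σ.2⟩, fun e => (σ.1 e).2⟩
  invFun τ := ⟨fun e => ⟨τ.1.1 e, τ.2 e⟩, τ.1.2⟩
  left_inv _ := rfl
  right_inv _ := rfl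

theorem card_fst (b : Fin m) : (Finset.univ.filter fun e : AV p => e.1 = b).card = p b := by
  have h : (Finset.univ.filter fun e : AV p => e.1 = b) =
      Finset.univ.map ⟨fun i : Fin (p b) => (⟨b, i⟩ : AV p), fun i j h => by
        exact eq_of_heq (Sigma.mk.inj h).2⟩ := by
    ext ⟨c, i⟩
    simp only [Finset.mem_filter, Finset.mem_univ, true_and, Finset.mem_map]
    constructor
    · rintro rfl
      exact ⟨i, rfl⟩
    · rintro ⟨j, hj⟩
      exact (congrArg Sigma.fst hj).symm
  rw [h, Finset.card_map, Finset.card_univ, Fintype.card_fin]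

theorem sum_val (π : AV p → Fin m)
    (h : ∀ b, (Finset.univ.filter fun e => π e = b).card = p b) :
    ∑ e, (π e : ℕ) = ∑ b : Fin m, p b * b := by
  rw [← Finset.sum_fiberwise Finset.univ π]
  refine Finset.sum_congr rfl fun b _ => ?_
  rw [← h b, Finset.sum_congr rfl (g := fun _ => (b : ℕ)), Finset.sum_const, smul_eq_mul]
  intro e he
  rw [(Finset.mem_filter.1 he).2]

/-- A triangular system has an odd number of selections. -/
theorem odd_card_sel {δ : AV p → Fin m → ℕ} (h1 : ∀ e : AV p, Odd (δ e e.1))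
    (h2 : ∀ (e : AV p) (c : Fin m), c < e.1 → Even (δ e c)) : Odd (Nat.card (Sel p δ)) := by
  classical
  rw [Nat.card_congr (selEquiv δ), Nat.card_eq_fintype_card, Fintype.card_sigma]
  simp only [Fintype.card_pi, Fintype.card_fin]
  let π₀ : {π : AV p → Fin m // ∀ b, (Finset.univ.filter fun e => π e = b).card = p b} :=
    ⟨Sigma.fst, card_fst⟩
  rw [← Finset.add_sum_erase _ _ (Finset.mem_univ π₀)]
  refine Odd.add_even ?_ (Finset.even_sum _ fun π hπ => ?_)
  · exact Finset.prod_induction _ Odd (fun _ _ => Odd.mul) odd_one fun e _ => h1 e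
  · by_contra hodd
    rw [Nat.not_even_iff_odd] at hodd
    have h3 : ∀ e, Odd (δ e (π.1 e)) := by
      intro e
      by_contra h
      rw [Nat.not_odd_iff_even, even_iff_two_dvd] at h
      rw [← Nat.not_even_iff_odd, even_iff_two_dvd] at hodd
      exact hodd (h.trans (Finset.dvd_prod_of_mem _ (Finset.mem_univ e)))
    have h4 : ∀ e ∈ (Finset.univ : Finset (AV p)), ((e.1 : Fin m) : ℕ) ≤ (π.1 e : ℕ) := by
      intro e _
      by_contra h
      push Not at h
      exact (Nat.not_odd_iff_even.2 (h2 e (π.1 e) h)) (h3 e)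
    have h5 : ∑ e : AV p, ((e.1 : Fin m) : ℕ) = ∑ e, (π.1 e : ℕ) :=
      (sum_val Sigma.fst card_fst).trans (sum_val π.1 π.2).symm
    have h6 := (Finset.sum_eq_sum_iff_of_le h4).1 h5
    refine (Finset.mem_erase.1 hπ).1 (Subtype.ext (funext fun e => ?_))
    exact (Fin.ext (h6 e (Finset.mem_univ e))).symm

end Cr
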