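import Mathlib

/-! A finite extension of odd degree of `K(X)` has a place over `X = a` with residue field `K`, if `K`
has no extensions of odd degree. -/

namespace Cr

open Polynomial

/-- `K` has no extensions of odd degree. -/
def NoOdd (K : Type) [Field K] : Prop :=
  ∀ f : K[X], Irreducible f → Odd f.natDegree → f.natDegree = 1

theorem NoOdd.finrank_eq {K : Type} [Field K] [CharZero K] (hK : NoOdd K) (L : Type) [Field L]
    [Algebra K L] [FiniteDimensional K L] (hodd : Odd (Module.finrank K L)) :
    Module.finrank K L = 1 := by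
  obtain ⟨pb⟩ : Nonempty (PowerBasis K L) := ⟨Field.powerBasisOfFiniteOfSeparable K L⟩
  rw [pb.finrank, ← pb.natDegree_minpoly] at hodd ⊢
  exact hK _ (minpoly.irreducible pb.isIntegral_gen) hodd

/-- A quotient of odd degree over the residue field of `X = a` is `K`. -/
theorem exists_hom {K : Type} [Field K] [CharZero K] (hK : NoOdd K) (a : K) (p : Ideal K[X])
    (hp : p = Ideal.span {X - C a}) (κ : Type) [Field κ] [Algebra (K[X] ⧸ p) κ]
    (hodd : Odd (Module.finrank (K[X] ⧸ p) κ)) :
    ∃ ρ : κ →+* K, ∀ f : K[X], ρ (algebraMap (K[X] ⧸ p) κ (Ideal.Quotient.mk p f)) = f.eval a := by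
  subst hp
  have hp : (Ideal.span {X - C a}).IsMaximal :=
    PrincipalIdealRing.isMaximal_of_irreducible (irreducible_X_sub_C a)
  let : Field (K[X] ⧸ Ideal.span {X - C a}) := Ideal.Quotient.field _
  let : Algebra K κ := ((algebraMap (K[X] ⧸ Ideal.span {X - C a}) κ).comp
    (algebraMap K (K[X] ⧸ Ideal.span {X - C a}))).toAlgebra
  have : IsScalarTower K (K[X] ⧸ Ideal.span {X - C a}) κ := IsScalarTower.of_algebraMap_eq fun _ => rfl
  have h1 : Module.finrank K (K[X] ⧸ Ideal.span {X - C a}) = 1 := by
    rw [(quotientSpanXSubCAlgEquiv a).toLinearEquiv.finrank_eq, Module.finrank_self]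
  have h2 := Module.finrank_mul_finrank K (K[X] ⧸ Ideal.span {X - C a}) κ
  rw [h1, one_mul] at h2
  rw [h2] at hodd
  have hfd : FiniteDimensional K κ := Module.finite_of_finrank_pos hodd.pos
  have h3 := hK.finrank_eq _ hodd
  have h4 : Function.Bijective (Algebra.ofId K κ) := by
    refine ⟨(algebraMap K κ).injective, fun y => ?_⟩
    have h5 : y ∈ (⊥ : Subalgebra K κ) := by
      rw [Subalgebra.bot_eq_top_of_finrank_eq_one h3]
      trivial
    exact h5
  let e := AlgEquiv.ofBijective _ h4
  refine ⟨(e.symm : κ →+* K), fun f => ?_⟩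
  change e.symm _ = _
  rw [AlgEquiv.symm_apply_eq]
  change _ = algebraMap (K[X] ⧸ Ideal.span {X - C a}) κ
    (algebraMap K (K[X] ⧸ Ideal.span {X - C a}) (f.eval a))
  congr 1
  change Ideal.Quotient.mk _ f = Ideal.Quotient.mk _ (C (f.eval a))
  rw [Ideal.Quotient.mk_eq_mk_iff_sub_mem, Ideal.mem_span_singleton]
  exact X_sub_C_dvd_sub_C_eval

/-- A homomorphism from the integral closure to `K`. -/
theorem exists_prime {K : Type} [Field K] [CharZero K] (hK : NoOdd K) (S : Type) [CommRing S]
    [Algebra K[X] S] [Module.Finite K[X] S] [Module.Free K[X] S] [IsDedekindDomain S]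
    [FaithfulSMul K[X] S] (hodd : Odd (Module.finrank K[X] S)) (a : K) :
    ∃ ρ : S →+* K, ∀ f : K[X], ρ (algebraMap K[X] S f) = f.eval a := by
  classical
  obtain ⟨p, hpd⟩ : ∃ p : Ideal K[X], p = Ideal.span {X - C a} := ⟨_, rfl⟩
  have hp : p.IsMaximal := by
    rw [hpd]
    exact PrincipalIdealRing.isMaximal_of_irreducible (irreducible_X_sub_C a)
  have : Fintype (p.primesOver S) := Fintype.ofFinite _
  rw [← Ideal.sum_ramification_inertia_eq_finrank p S] at hodd
  obtain ⟨P, hP⟩ : ∃ P : p.primesOver S, Odd (P.1.inertiaDeg K[X]) := by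
    by_contra hcon
    push Not at hcon
    rw [← Nat.not_even_iff_odd] at hodd
    apply hodd
    refine Finset.even_sum _ fun P _ => ?_
    exact (Nat.not_odd_iff_even.1 (hcon P)).mul_left _
  obtain ⟨P, hP1, hP2⟩ := P
  have hPm : P.IsMaximal := Ideal.IsMaximal.of_liesOver_isMaximal P p
  rw [Ideal.inertiaDeg_eq_of_isMaximal p P] at hP
  let : Field (S ⧸ P) := Ideal.Quotient.field P
  obtain ⟨ρ, hρ⟩ := exists_hom hK a p hpd (S ⧸ P) hP
  refine ⟨ρ.comp (Ideal.Quotient.mk P), fun f => ?_⟩
  rw [← hρ]
  rfl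

/-- The localization of a Dedekind domain at the kernel of a homomorphism to `K`. -/
theorem exists_val_loc {K : Type} [Field K] (S : Type) [CommRing S] [IsDomain S] [Algebra K[X] S]
    (M : Type) [Field M] [Algebra K[X] M] [Algebra K M] [IsScalarTower K K[X] M] [Algebra S M]
    [IsFractionRing S M] [IsScalarTower K[X] S M] (a : K) (ρ : S →+* K)
    (hρ : ∀ f : K[X], ρ (algebraMap K[X] S f) = f.eval a) (P : Ideal S) [P.IsPrime]
    (hP : ∀ x, x ∈ P ↔ ρ x = 0) (O : Type) [CommRing O] [IsDomain O] [ValuationRing O]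
    [Algebra S O] [IsLocalization.AtPrime O P] :
    ∃ (_ : Algebra K O) (_ : Algebra O M) (_ : IsFractionRing O M) (_ : IsScalarTower K O M)
      (τ : O) (ρ : O →ₐ[K] K), algebraMap O M τ = algebraMap K[X] M X ∧ ρ τ = a := by
  have hu : ∀ y : P.primeCompl, IsUnit (algebraMap S M y) := fun y =>
    isUnit_iff_ne_zero.2 fun h => y.2 (by
      have h1 : (y : S) = 0 := IsFractionRing.injective S M (h.trans (map_zero _).symm)
      rw [h1]
      exact P.zero_mem)
  let iM : Algebra O M := (IsLocalization.lift (M := P.primeCompl) hu).toAlgebra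
  have hst : IsScalarTower S O M := IsScalarTower.of_algebraMap_eq fun x =>
    (IsLocalization.lift_eq (M := P.primeCompl) hu x).symm
  have hfrO : IsFractionRing O M :=
    IsFractionRing.isFractionRing_of_isDomain_of_isLocalization P.primeCompl O M
  let iK : Algebra K O := ((algebraMap S O).comp ((algebraMap K[X] S).comp C)).toAlgebra
  have hiK : ∀ r : K, algebraMap K O r = algebraMap S O (algebraMap K[X] S (C r)) := fun _ => rfl
  have hK' : IsScalarTower K O M := IsScalarTower.of_algebraMap_eq fun x => by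
    rw [hiK, ← IsScalarTower.algebraMap_apply S O M, ← IsScalarTower.algebraMap_apply K[X] S M,
      IsScalarTower.algebraMap_apply K K[X] M]
    rfl
  have hρu : ∀ y : P.primeCompl, IsUnit (ρ y) := fun y =>
    isUnit_iff_ne_zero.2 fun h => y.2 ((hP _).2 h)
  let ρ' : O →+* K := IsLocalization.lift (M := P.primeCompl) (g := ρ) hρu
  have hρ' : ∀ x, ρ' (algebraMap S O x) = ρ x := fun x =>
    IsLocalization.lift_eq (M := P.primeCompl) (g := ρ) hρu x
  refine ⟨iK, iM, hfrO, hK', algebraMap S O (algebraMap K[X] S X),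
    { ρ' with commutes' := fun r => ?_ }, ?_, ?_⟩
  · change ρ' (algebraMap K O r) = r
    rw [hiK, hρ', hρ, eval_C]
  · rw [← IsScalarTower.algebraMap_apply, ← IsScalarTower.algebraMap_apply]
  · change ρ' _ = a
    rw [hρ', hρ, eval_X]

/-- A valuation ring of `M` with a homomorphism to `K`. -/
theorem exists_val {K : Type} [Field K] [CharZero K] (hK : NoOdd K) (M : Type) [Field M]
    [Algebra K[X] M] [Algebra (RatFunc K) M] [IsScalarTower K[X] (RatFunc K) M] [Algebra K M]
    [IsScalarTower K K[X] M] [FiniteDimensional (RatFunc K) M]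
    (hodd : Odd (Module.finrank (RatFunc K) M)) (a : K) :
    ∃ (O : Type) (_ : CommRing O) (_ : IsDomain O) (_ : ValuationRing O) (_ : Algebra K O)
      (_ : Algebra O M) (_ : IsFractionRing O M) (_ : IsScalarTower K O M) (τ : O)
      (ρ : O →ₐ[K] K), algebraMap O M τ = algebraMap K[X] M X ∧ ρ τ = a := by
  have hch : CharZero (RatFunc K) := charZero_of_injective_algebraMap (algebraMap K (RatFunc K)).injective
  have hinj : Function.Injective (algebraMap K[X] M) := by
    rw [IsScalarTower.algebraMap_eq K[X] (RatFunc K) M]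
    exact (algebraMap (RatFunc K) M).injective.comp (IsFractionRing.injective K[X] (RatFunc K))
  obtain ⟨S, iS, jS, aS, bS, sS, cS⟩ : ∃ (S : Type) (_ : CommRing S) (_ : IsDomain S)
      (_ : Algebra K[X] S) (_ : Algebra S M) (_ : IsScalarTower K[X] S M),
      IsIntegralClosure S K[X] M :=
    ⟨integralClosure K[X] M, inferInstance, inferInstance, inferInstance, inferInstance,
      inferInstance, inferInstance⟩
  have hfin : Module.Finite K[X] S := IsIntegralClosure.finite K[X] (RatFunc K) M S
  have hded : IsDedekindDomain S := IsIntegralClosure.isDedekindDomain K[X] (RatFunc K) M S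
  have htf : Module.IsTorsionFree K[X] M := Module.isTorsionFree_iff_algebraMap_injective.2 hinj
  have hfree : Module.Free K[X] S := IsIntegralClosure.module_free K[X] (RatFunc K) M S
  have hrank : Module.finrank K[X] S = Module.finrank (RatFunc K) M :=
    IsIntegralClosure.rank K[X] (RatFunc K) M S
  have hfr : IsFractionRing S M :=
    IsIntegralClosure.isFractionRing_of_finite_extension K[X] (RatFunc K) M S
  have hfaith : FaithfulSMul K[X] S := by
    rw [faithfulSMul_iff_algebraMap_injective]
    refine Function.Injective.of_comp (f := algebraMap S M) ?_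
    rw [← RingHom.coe_comp, ← IsScalarTower.algebraMap_eq]
    exact hinj
  obtain ⟨ρ, hρ⟩ := exists_prime hK S (by rw [hrank]; exact hodd) a
  obtain ⟨P, hPd⟩ : ∃ P : Ideal S, P = RingHom.ker ρ := ⟨_, rfl⟩
  have hP : P.IsPrime := by
    rw [hPd]
    exact RingHom.ker_isPrime _
  have hmem : ∀ x, x ∈ P ↔ ρ x = 0 := fun x => by rw [hPd, RingHom.mem_ker]
  have hP0 : P ≠ ⊥ := by
    intro h0
    have h1 : algebraMap K[X] S (X - C a) ∈ P := by
      rw [hmem, hρ, eval_sub, eval_X, eval_C, sub_self]
    rw [h0, Ideal.mem_bot] at h1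
    have h2 := congrArg (algebraMap S M) h1
    rw [map_zero, ← IsScalarTower.algebraMap_apply] at h2
    exact X_sub_C_ne_zero a (hinj (h2.trans (map_zero _).symm))
  have hdvr : IsDiscreteValuationRing (Localization.AtPrime P) :=
    IsLocalization.AtPrime.isDiscreteValuationRing_of_dedekind_domain _ hP0 _
  exact ⟨Localization.AtPrime P, inferInstance, inferInstance, inferInstance,
    exists_val_loc S M a ρ hρ P hmem (Localization.AtPrime P)⟩

end Cr
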