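import Pool.Agent.Lib.MP_f80667_ag.Cr.Cnt
import Pool.Agent.Lib.MP_f80667_ag.Cr.Alg
import Pool.Agent.Lib.MP_f80667_ag.Cr.Odd
import Pool.Agent.Lib.MP_f80667_ag.Cr.Plc

/-! Systems of multihomogeneous equations over a field without extensions of odd degree. -/

namespace Cr

open MvPolynomial

variable {m : ℕ} {p : Fin m → ℕ} {K : Type} [Field K] [CharZero K]

/-- From a solution over an extension of odd degree of `K(t)` to one over `K`. -/
theorem zero_of_sol (hK : NoOdd K) {δ : AV p → Fin m → ℕ} {c : (Σ e : AV p, Fc δ e) → K}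
    {F : AV p → MvPolynomial (PV p) K} (hF : ∀ e, Sc (δ e) (F e)) (M : Type) [Field M]
    [Algebra (RatFunc K) M] [FiniteDimensional (RatFunc K) M]
    (hodd : Odd (Module.finrank (RatFunc K) M)) (y : AV p → M)
    (hy : ∀ e, aeval y (hP (Gp c) F (RatFunc.X : RatFunc K) e) = 0) :
    ∃ x : PV p → K, (∀ b, ∃ i, x ⟨b, i⟩ ≠ 0) ∧ ∀ e, aeval x (F e) = 0 := by
  let a1 : Algebra (Polynomial K) M :=
    ((algebraMap (RatFunc K) M).comp (algebraMap (Polynomial K) (RatFunc K))).toAlgebra
  have s1 : IsScalarTower (Polynomial K) (RatFunc K) M := IsScalarTower.of_algebraMap_eq fun _ => rfl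
  let a2 : Algebra K M := ((algebraMap (Polynomial K) M).comp Polynomial.C).toAlgebra
  have s2 : IsScalarTower K (Polynomial K) M := IsScalarTower.of_algebraMap_eq fun _ => rfl
  have s3 : IsScalarTower K (RatFunc K) M := IsScalarTower.of_algebraMap_eq fun r => by
    rw [IsScalarTower.algebraMap_apply K (Polynomial K) M,
      IsScalarTower.algebraMap_apply (Polynomial K) (RatFunc K) M,
      ← IsScalarTower.algebraMap_apply K (Polynomial K) (RatFunc K)]
  obtain ⟨O, _, _, _, _, _, _, _, τ, ρ, hτ, hρ⟩ := exists_val hK M hodd 1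
  have hτM : algebraMap O M τ = algebraMap (RatFunc K) M RatFunc.X := by
    rw [hτ, IsScalarTower.algebraMap_apply (Polynomial K) (RatFunc K) M]
    rfl
  have h0 : ∀ e, (1 - algebraMap O M τ) * aeval (aff y) (Gp c e) +
      algebraMap O M τ * aeval (aff y) (F e) = 0 := by
    intro e
    rw [hτM, ← eval_hP]
    have h1 := map_hP (IsScalarTower.toAlgHom K (RatFunc K) M) (Gp c) F RatFunc.X e
    have h2 : (IsScalarTower.toAlgHom K (RatFunc K) M) RatFunc.X =
        algebraMap (RatFunc K) M RatFunc.X := rfl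
    rw [h2] at h1
    rw [← h1, eval_map]
    exact hy e
  obtain ⟨x', s, _, _, h1, h2⟩ := exists_int (fun e => sc_Gp c e) hF τ (aff y)
    (fun b => ⟨Fin.last (p b), by rw [aff_last]; exact one_ne_zero⟩) h0
  refine ⟨fun v => ρ (x' v), fun b => ?_, fun e => ?_⟩
  · obtain ⟨i, hi⟩ := h1 b
    refine ⟨i, ?_⟩
    change ρ (x' ⟨b, i⟩) ≠ 0
    rw [hi, map_one]
    exact one_ne_zero
  · have h3 := congrArg ρ (h2 e)
    rw [map_add, map_mul, map_mul, map_sub, map_one, hρ, sub_self, zero_mul, one_mul, zero_add,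
      map_zero] at h3
    rw [← h3]
    exact (comp_aeval_apply x' ρ (F e)).symm

/-- **The parity theorem.** If the number of selections is odd, a system of multihomogeneous equations
with as many equations as the dimension has a solution. -/
theorem exists_zero_of_odd (hK : NoOdd K) {δ : AV p → Fin m → ℕ}
    (hsel : Odd (Nat.card (Sel p δ))) {F : AV p → MvPolynomial (PV p) K}
    (hF : ∀ e, Sc (δ e) (F e)) :
    ∃ x : PV p → K, (∀ b, ∃ i, x ⟨b, i⟩ ≠ 0) ∧ ∀ e, aeval x (F e) = 0 := by
  classical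
  obtain ⟨c, hc⟩ : ∃ c : (Σ e : AV p, Fc δ e) → K, Function.Injective c :=
    ⟨fun s => ((Fintype.equivFin _ s : ℕ) : K), fun s t h =>
      (Fintype.equivFin _).injective (Fin.ext (Nat.cast_injective h))⟩
  obtain ⟨L, hL⟩ := exists_sols hc hF
  let Q := FractionRing (PowerSeries K)
  let Ω := AlgebraicClosure Q
  let ψ : PowerSeries K →ₐ[K] Ω := IsScalarTower.toAlgHom K (PowerSeries K) Ω
  have hψ : Function.Injective ψ := by
    change Function.Injective (algebraMap (PowerSeries K) Ω)
    rw [IsScalarTower.algebraMap_eq (PowerSeries K) Q Ω]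
    exact (algebraMap Q Ω).injective.comp (IsFractionRing.injective (PowerSeries K) Q)
  let j0 : Polynomial K →+* Ω :=
    (ψ : PowerSeries K →+* Ω).comp (Polynomial.coeToPowerSeries.ringHom)
  have hj0 : Function.Injective j0 := hψ.comp (Polynomial.coe_injective K)
  let j : RatFunc K →+* Ω := IsFractionRing.lift hj0
  have hj : ∀ f : Polynomial K, j (algebraMap (Polynomial K) (RatFunc K) f) = j0 f := fun f =>
    IsFractionRing.lift_algebraMap hj0 f
  let iΩ : Algebra (RatFunc K) Ω := j.toAlgebra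
  have hjX : algebraMap (RatFunc K) Ω RatFunc.X = ψ PowerSeries.X := by
    change j RatFunc.X = _
    rw [← RatFunc.algebraMap_X, hj]
    change ψ ((Polynomial.X : Polynomial K) : PowerSeries K) = _
    rw [Polynomial.coe_X]
  have sΩ : IsScalarTower K (RatFunc K) Ω := IsScalarTower.of_algebraMap_eq fun r => by
    change _ = j (algebraMap K (RatFunc K) r)
    rw [IsScalarTower.algebraMap_apply K (Polynomial K) (RatFunc K), hj]
    change _ = ψ ((Polynomial.C r : Polynomial K) : PowerSeries K)
    rw [Polynomial.coe_C]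
    exact (ψ.commutes r).symm
  obtain ⟨hinj, hsol, hall⟩ := hL Ω ψ
  obtain ⟨g, hg⟩ : ∃ g : AV p → MvPolynomial (AV p) (RatFunc K),
    g = hP (Gp c) F (RatFunc.X : RatFunc K) := ⟨_, rfl⟩
  have hgΩ : ∀ e, map (algebraMap (RatFunc K) Ω) (g e) = hP (Gp c) F (ψ PowerSeries.X) e := by
    intro e
    rw [hg, ← hjX]
    exact map_hP (IsScalarTower.toAlgHom K (RatFunc K) Ω) (Gp c) F RatFunc.X e
  have haev : ∀ (y : AV p → Ω) e, aeval y (g e) = eval y (hP (Gp c) F (ψ PowerSeries.X) e) := by
    intro y e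
    rw [← hgΩ, eval_map]
    rfl
  -- all solutions are algebraic
  have halg : ∀ y : AV p → Ω, (∀ e, aeval y (g e) = 0) → ∀ a, IsAlgebraic (RatFunc K) (y a) := by
    intro y hy a
    refine isAlgebraic_of_jac g y hy ?_ a
    have h1 := (hall y fun e => by rw [← haev, hy]).2
    have h2 : (Matrix.of fun e a => aeval y (pderiv a (g e))) =
        jac (hP (Gp c) F (ψ PowerSeries.X)) y := by
      ext e a
      change aeval y (pderiv a (g e)) = eval y (pderiv a (hP (Gp c) F (ψ PowerSeries.X) e))
      rw [← hgΩ, pderiv_map, eval_map]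
      rfl
    rw [h2]
    exact h1
  let kb := algebraicClosure (RatFunc K) Ω
  have hkb : ∀ (y : AV p → kb) e, ((aeval y (g e) : kb) : Ω) = aeval (fun a => (y a : Ω)) (g e) :=
    fun y e => comp_aeval_apply y kb.val (g e)
  have hbij : Function.Bijective (fun σ : Sel p δ =>
      (⟨fun a => ⟨ψ (L σ a), mem_algebraicClosure_iff.2
        (halg (fun a => ψ (L σ a)) (fun e => by rw [haev, hsol]) a)⟩, fun e => by
        apply Subtype.ext
        rw [hkb, haev]
        exact hsol σ e⟩ : {y : AV p → kb | ∀ e, aeval y (g e) = 0})) := by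
    constructor
    · intro σ σ' h
      apply hinj
      funext a
      exact congrArg (fun z : {y : AV p → kb | ∀ e, aeval y (g e) = 0} => (z.1 a : Ω)) h
    · rintro ⟨y, hy⟩
      obtain ⟨σ, hσ⟩ := (hall (fun a => (y a : Ω)) fun e => by
        rw [← haev, ← hkb, hy e]
        rfl).1
      refine ⟨σ, ?_⟩
      apply Subtype.ext
      funext a
      apply Subtype.ext
      exact (congrFun hσ a).symm
  have hfin : {y : AV p → kb | ∀ e, aeval y (g e) = 0}.Finite := by
    rw [← Set.finite_coe_iff]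
    exact Finite.of_surjective _ hbij.2
  have hcard : {y : AV p → kb | ∀ e, aeval y (g e) = 0}.ncard = Nat.card (Sel p δ) := by
    rw [← Nat.card_coe_set_eq]
    exact (Nat.card_congr (Equiv.ofBijective _ hbij)).symm
  have hch : CharZero (RatFunc K) := charZero_of_injective_algebraMap (algebraMap K (RatFunc K)).injective
  obtain ⟨y, hy, hodd⟩ := exists_odd g hfin (by rw [hcard]; exact hsel)
  obtain ⟨M, hM⟩ : ∃ M : IntermediateField (RatFunc K) kb,
    M = IntermediateField.adjoin (RatFunc K) (Set.range y) := ⟨_, rfl⟩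
  rw [← hM] at hodd
  have hyM : ∀ a, y a ∈ M := fun a => by
    rw [hM]
    exact IntermediateField.subset_adjoin _ _ ⟨a, rfl⟩
  have hfd : FiniteDimensional (RatFunc K) M := Module.finite_of_finrank_pos hodd.pos
  refine zero_of_sol hK (c := c) hF M hodd (fun a => ⟨y a, hyM a⟩) fun e => ?_
  apply Subtype.ext
  have h1 := comp_aeval_apply (fun a => (⟨y a, hyM a⟩ : M)) M.val (g e)
  rw [hg] at h1
  refine h1.trans ?_
  have h2 := hy e
  rw [hg] at h2
  exact h2

end Cr
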