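import Pool.Agent.Lib.MP_f80667_ag.Cr.Mat
import Pool.Agent.Lib.MP_f80667_ag.Cr.Par
import Pool.Agent.Lib.MP_f80667_ag.Cr.Zero

/-! Planes on cubic hypersurfaces over a field without extensions of odd degree in which sums of
squares vanish only trivially. -/

namespace Cr

open Cu MvPolynomial

/-- Dimensions of the three projective spaces. -/
def pp : Fin 3 → ℕ := ![6, 4, 3]

section sys

variable {K : Type} [Field K] {n : ℕ} (T : Tn K n)

/-- The vector of the block `b`. -/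
def vec {R : Type} [CommRing R] (n : ℕ) (x : PV pp → R) (b : Fin 3) (j : Fin n) : R :=
  if h : (j : ℕ) < pp b + 1 then x ⟨b, ⟨j, h⟩⟩ else 0

/-- The `13` equations for three vectors. -/
def Fv {R : Type} [CommRing R] [Algebra K R] (v : Fin 3 → Fin n → R) : Fin 3 → ℕ → R
  | 0, 0 => (ex T R).f (v 0)
  | 0, 1 => (ex T R).D (v 1) (v 0)
  | 0, 2 => (ex T R).D (v 2) (v 0)
  | 0, 3 => (ex T R).E (v 0) (v 1) (v 2)
  | 0, 4 => ∑ j, v 0 j * v 1 j
  | 0, _ => ∑ j, v 0 j * v 2 j
  | 1, 0 => (ex T R).f (v 1)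
  | 1, 1 => (ex T R).D (v 0) (v 1)
  | 1, 2 => (ex T R).D (v 2) (v 1)
  | 1, _ => ∑ j, v 1 j * v 2 j
  | 2, 0 => (ex T R).f (v 2)
  | 2, 1 => (ex T R).D (v 0) (v 2)
  | 2, _ => (ex T R).D (v 1) (v 2)

/-- The degrees. -/
def dg : Fin 3 → ℕ → Fin 3 → ℕ
  | 0, 0 => ![3, 0, 0]
  | 0, 1 => ![1, 2, 0]
  | 0, 2 => ![1, 0, 2]
  | 0, 3 => ![1, 1, 1]
  | 0, 4 => ![1, 1, 0]
  | 0, _ => ![1, 0, 1]
  | 1, 0 => ![0, 3, 0]
  | 1, 1 => ![2, 1, 0]
  | 1, 2 => ![0, 1, 2]
  | 1, _ => ![0, 1, 1]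
  | 2, 0 => ![0, 0, 3]
  | 2, 1 => ![2, 0, 1]
  | 2, _ => ![0, 2, 1]

theorem Fv_smul {R : Type} [CommRing R] [Algebra K R] (s : Fin 3 → R) (v : Fin 3 → Fin n → R)
    (b : Fin 3) (i : ℕ) :
    Fv T (fun b => s b • v b) b i = (∏ c, s c ^ dg b i c) * Fv T v b i := by
  rw [Fin.prod_univ_three]
  have hs : ∀ b c : Fin 3, ∑ j, (s b • v b) j * (s c • v c) j = s b * s c * ∑ j, v b j * v c j := by
    intro b c
    rw [Finset.mul_sum]
    refine Finset.sum_congr rfl fun j _ => ?_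
    simp only [Pi.smul_apply, smul_eq_mul]
    ring
  unfold Fv dg
  split <;> simp only [(ex T R).f_smul, (ex T R).D_smul, (ex T R).smul_D, (ex T R).E_smul1,
    (ex T R).E_smul2, (ex T R).E_smul, hs, Matrix.cons_val_zero, Matrix.cons_val_one,
    Matrix.cons_val] <;> ring

theorem Fv_map {R S : Type} [CommRing R] [Algebra K R] [CommRing S] [Algebra K S] (φ : R →ₐ[K] S)
    (v : Fin 3 → Fin n → R) (b : Fin 3) (i : ℕ) :
    φ (Fv T v b i) = Fv T (fun b j => φ (v b j)) b i := by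
  have h0 : (T.map (algebraMap K R)).map (φ : R →+* S) = T.map (algebraMap K S) := by
    funext i j l
    exact φ.commutes (T i j l)
  have hf : ∀ x : Fin n → R, φ ((ex T R).f x) = (ex T S).f (fun i => φ (x i)) := fun x => by
    have h2 := map_f (φ : R →+* S) (T.map (algebraMap K R)) x
    rw [h0] at h2
    exact h2.symm
  have hD : ∀ x y : Fin n → R, φ ((ex T R).D x y) = (ex T S).D (fun i => φ (x i))
      (fun i => φ (y i)) := fun x y => by
    have h2 := map_D (φ : R →+* S) (T.map (algebraMap K R)) x y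
    rw [h0] at h2
    exact h2.symm
  have hE : ∀ x y z : Fin n → R, φ ((ex T R).E x y z) = (ex T S).E (fun i => φ (x i))
      (fun i => φ (y i)) (fun i => φ (z i)) := fun x y z => by
    have h2 := map_E (φ : R →+* S) (T.map (algebraMap K R)) x y z
    rw [h0] at h2
    exact h2.symm
  unfold Fv
  split <;> simp only [hf, hD, hE, map_sum, map_mul]

/-- The equations. -/
noncomputable def FF (e : AV pp) : MvPolynomial (PV pp) K :=
  Fv T (vec n (X : PV pp → MvPolynomial (PV pp) K)) e.1 e.2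

theorem aeval_FF {R : Type} [CommRing R] [Algebra K R] (e : AV pp) (x : PV pp → R) :
    aeval x (FF T e) = Fv T (vec n x) e.1 e.2 := by
  unfold FF
  rw [Fv_map]
  congr 1
  funext b j
  unfold vec
  split_ifs
  · rw [aeval_X]
  · rw [map_zero]

theorem sc_FF (e : AV pp) : Sc (dg e.1 e.2) (FF T e) := by
  intro R _ _ s x
  rw [aeval_FF, aeval_FF, ← Fv_smul]
  congr 1
  funext b j
  unfold vec
  rw [Pi.smul_apply, smul_eq_mul]
  split_ifs
  · rfl
  · rw [mul_zero]

end sys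

theorem odd_pp : Odd (Nat.card (Sel pp fun e => dg e.1 e.2)) := by
  refine odd_card_sel ?_ ?_
  · rintro ⟨b, i⟩
    change Odd (dg b i b)
    fin_cases b
    · have h : (i : ℕ) < 6 := i.2
      generalize (i : ℕ) = l at h
      interval_cases l <;> decide
    · have h : (i : ℕ) < 4 := i.2
      generalize (i : ℕ) = l at h
      interval_cases l <;> decide
    · have h : (i : ℕ) < 3 := i.2
      generalize (i : ℕ) = l at h
      interval_cases l <;> decide
  · rintro ⟨b, i⟩ c hc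
    change Even (dg b i c)
    change c < b at hc
    fin_cases b
    · exact absurd hc (by simp)
    · have h : (i : ℕ) < 4 := i.2
      generalize (i : ℕ) = l at h
      fin_cases c
      · interval_cases l <;> decide
      · exact absurd hc (by decide)
      · exact absurd hc (by decide)
    · have h : (i : ℕ) < 3 := i.2
      generalize (i : ℕ) = l at h
      fin_cases c
      · interval_cases l <;> decide
      · interval_cases l <;> decide
      · exact absurd hc (by decide)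

/-- Three pairwise orthogonal nonzero vectors are linearly independent. -/
theorem ind_of_orth {K : Type} [Field K] {n : ℕ} (hpos : ∀ v : Fin n → K, ∑ j, v j * v j = 0 → v = 0)
    (v : Fin 3 → Fin n → K) (h0 : ∀ b, v b ≠ 0) (h01 : ∑ j, v 0 j * v 1 j = 0)
    (h02 : ∑ j, v 0 j * v 2 j = 0) (h12 : ∑ j, v 1 j * v 2 j = 0) : LinearIndependent K v := by
  have hne : ∀ b c, b ≠ c → ∑ j, v b j * v c j = 0 := by
    have hc : ∀ b c, ∑ j, v b j * v c j = ∑ j, v c j * v b j := fun b c =>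
      Finset.sum_congr rfl fun j _ => mul_comm _ _
    intro b c hbc
    fin_cases b <;> fin_cases c
    all_goals first
      | exact absurd rfl hbc
      | exact h01
      | exact h02
      | exact h12
      | exact (hc _ _).trans h01
      | exact (hc _ _).trans h02
      | exact (hc _ _).trans h12
  rw [Fintype.linearIndependent_iff]
  intro g hg b
  have h1 : ∑ j, (∑ c, g c • v c) j * v b j = 0 := by
    rw [hg]
    simp
  have h2 : ∑ j, (∑ c, g c • v c) j * v b j = g b * ∑ j, v b j * v b j := by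
    have h3 : ∀ j, (∑ c, g c • v c) j * v b j = ∑ c, g c * (v c j * v b j) := by
      intro j
      rw [Finset.sum_apply, Finset.sum_mul]
      refine Finset.sum_congr rfl fun c _ => ?_
      rw [Pi.smul_apply, smul_eq_mul, mul_assoc]
    simp only [h3]
    rw [Finset.sum_comm]
    simp only [← Finset.mul_sum]
    rw [Finset.sum_eq_single b]
    · intro c _ hc
      rw [hne c b hc, mul_zero]
    · intro h
      exact absurd (Finset.mem_univ b) h
  rw [h2] at h1
  exact (mul_eq_zero.1 h1).resolve_right fun h => h0 b (hpos _ h)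

theorem exists_pln {K : Type} [Field K] [CharZero K] (hK : NoOdd K) {n : ℕ} (hn : 7 ≤ n)
    (hpos : ∀ v : Fin n → K, ∑ j, v j * v j = 0 → v = 0) (T : Tn K n) :
    ∃ u : Fin 3 → Fin n → K, Pln T u := by
  obtain ⟨x, hx, h0⟩ := exists_zero_of_odd hK odd_pp (F := FF T) (sc_FF T)
  obtain ⟨v, hv⟩ : ∃ v, v = vec n x := ⟨_, rfl⟩
  have hF : ∀ (b : Fin 3) (i : ℕ), i < pp b → Fv T v b i = 0 := by
    intro b i hi
    have h1 := h0 ⟨b, ⟨i, hi⟩⟩
    rw [aeval_FF, ← hv] at h1
    exact h1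
  have hv0 : ∀ b, v b ≠ 0 := by
    intro b hb
    obtain ⟨i, hi⟩ := hx b
    apply hi
    have h7 : (i : ℕ) < n := by
      have h1 : pp b ≤ 6 := by fin_cases b <;> decide
      have := i.2
      omega
    have h1 := congrFun hb ⟨i, h7⟩
    rw [hv] at h1
    have h2 : vec n x b ⟨i, h7⟩ = x ⟨b, i⟩ := by
      unfold vec
      rw [dif_pos i.2]
    rw [h2] at h1
    exact h1
  have f0 : (ex T K).f (v 0) = 0 := hF 0 0 (by decide)
  have f1 : (ex T K).f (v 1) = 0 := hF 1 0 (by decide)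
  have f2 : (ex T K).f (v 2) = 0 := hF 2 0 (by decide)
  have d10 : (ex T K).D (v 1) (v 0) = 0 := hF 0 1 (by decide)
  have d20 : (ex T K).D (v 2) (v 0) = 0 := hF 0 2 (by decide)
  have d01 : (ex T K).D (v 0) (v 1) = 0 := hF 1 1 (by decide)
  have d21 : (ex T K).D (v 2) (v 1) = 0 := hF 1 2 (by decide)
  have d02 : (ex T K).D (v 0) (v 2) = 0 := hF 2 1 (by decide)
  have d12 : (ex T K).D (v 1) (v 2) = 0 := hF 2 2 (by decide)
  have d00 : (ex T K).D (v 0) (v 0) = 0 := by rw [(ex T K).D_self, f0, mul_zero]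
  have d11 : (ex T K).D (v 1) (v 1) = 0 := by rw [(ex T K).D_self, f1, mul_zero]
  have d22 : (ex T K).D (v 2) (v 2) = 0 := by rw [(ex T K).D_self, f2, mul_zero]
  have e3 : (ex T K).E (v 0) (v 1) (v 2) = 0 := hF 0 3 (by decide)
  have s01 : ∑ j, v 0 j * v 1 j = 0 := hF 0 4 (by decide)
  have s02 : ∑ j, v 0 j * v 2 j = 0 := hF 0 5 (by decide)
  have s12 : ∑ j, v 1 j * v 2 j = 0 := hF 1 3 (by decide)
  have hf : ∀ i, (ex T K).f (v i) = 0 := Fin.forall_fin_succ.2 ⟨f0, Fin.forall_fin_two.2 ⟨f1, f2⟩⟩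
  have hD : ∀ i j, (ex T K).D (v i) (v j) = 0 := Fin.forall_fin_succ.2
    ⟨Fin.forall_fin_succ.2 ⟨d00, Fin.forall_fin_two.2 ⟨d01, d02⟩⟩, Fin.forall_fin_two.2
      ⟨Fin.forall_fin_succ.2 ⟨d10, Fin.forall_fin_two.2 ⟨d11, d12⟩⟩,
        Fin.forall_fin_succ.2 ⟨d20, Fin.forall_fin_two.2 ⟨d21, d22⟩⟩⟩⟩
  exact ⟨v, ind_of_orth hpos v hv0 s01 s02 s12, hf, hD, e3⟩

end Cr
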