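import Pool.Agent.Lib.MP_f80667_ag.Cr.Mat

/-! Classes of the real points of a cubic hypersurface: the formal properties. -/

namespace Cr

open Cu

/-- A class function on the real points of a cubic hypersurface. -/
structure RC {n : ℕ} (c : Cb ℝ (Fin n → ℝ)) (G : Type) where
  cl : (Fin n → ℝ) → G
  smul : ∀ (a : ℝ) (x : Fin n → ℝ), a ≠ 0 → cl (a • x) = cl x
  curve : ∀ (N : ℕ) (d : ℕ → Fin n → ℝ), d 0 ≠ 0 → d N ≠ 0 →
    (∀ s : ℝ, c.f (∑ a ∈ Finset.range (N + 1), s ^ a • d a) = 0) → cl (d 0) = cl (d N)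
  near : ∀ x : Fin n → ℝ, x ≠ 0 → c.f x = 0 → ∃ δ > 0, ∀ y : Fin n → ℝ, y ≠ 0 → c.f y = 0 →
    (∀ i, |y i - x i| < δ) → cl y = cl x

end Cr
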