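import Pool.Agent.Lib.MP_f80667_ag.Cr.RC

/-! Real residual quadrics which meet the plane. -/

namespace Cr

open Cu

section dual

variable {E : Type} [Field E] {n : ℕ} {u : Fin 3 → Fin n → E}

/-- A dual family of the three vectors. -/
theorem rp_dual (h : LinearIndependent E u) :
    ∃ W : Fin 3 → Fin n → E, ∀ i l, ∑ j, W i j * u l j = if i = l then 1 else 0 := by
  classical
  obtain ⟨g, hg⟩ := LinearMap.exists_leftInverse_of_injective (Fintype.linearCombination E u)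
    (LinearMap.ker_eq_bot.2 h.fintypeLinearCombination_injective)
  refine ⟨fun i j => g (Pi.single j 1) i, fun i l => ?_⟩
  have h1 : g (u l) = Pi.single l 1 := by
    have h2 := LinearMap.congr_fun hg (Pi.single l 1)
    rw [LinearMap.comp_apply, Fintype.linearCombination_apply_single, one_smul,
      LinearMap.id_apply] at h2
    exact h2
  have h3 : u l = ∑ j, u l j • (Pi.single j 1 : Fin n → E) := by
    funext m
    simp [Finset.sum_apply, Pi.single_apply]
  have h4 : g (u l) i = ∑ j, u l j * g (Pi.single j 1) i := by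
    conv_lhs => rw [h3]
    rw [map_sum, Finset.sum_apply]
    simp only [map_smul, Pi.smul_apply, smul_eq_mul]
  rw [h1] at h4
  simp only [mul_comm (g _ i)]
  rw [← h4, Pi.single_apply]

/-- The vectors of the plane are not zero. -/
theorem rp_ne {R : Type*} [Field R] [Algebra E R] (h : LinearIndependent E u) {t : Fin 3 → R}
    (ht : t ≠ 0) : pl u t ≠ 0 := by
  obtain ⟨W, hW⟩ := rp_dual h
  intro h0
  apply ht
  have key : ∀ i, ∑ j, algebraMap E R (W i j) * pl u t j = t i := by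
    intro i
    have e : ∀ l, ∑ j, algebraMap E R (W i j) * up R (u l) j = if i = l then 1 else 0 := by
      intro l
      unfold up
      have := congrArg (algebraMap E R) (hW i l)
      rw [map_sum] at this
      simp only [map_mul] at this
      rw [this]
      split_ifs
      · exact map_one _
      · exact map_zero _
    have e' : ∑ j, algebraMap E R (W i j) * pl u t j =
        ∑ l, t l * ∑ j, algebraMap E R (W i j) * up R (u l) j := by
      rw [Fin.sum_univ_three, Finset.mul_sum, Finset.mul_sum, Finset.mul_sum,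
        ← Finset.sum_add_distrib, ← Finset.sum_add_distrib]
      refine Finset.sum_congr rfl fun j _ => ?_
      simp only [pl, Pi.add_apply, Pi.smul_apply, smul_eq_mul]
      ring
    rw [e']
    simp only [e]
    simp
  funext i
  rw [← key i, h0]
  simp

end dual

section zero

variable {E : Type} [Field E] {n : ℕ} {T : Tn E n} {u : Fin 3 → Fin n → E} {R : Type*}
  [CommRing R] [Algebra E R]

/-- The form vanishes on the plane. -/
theorem rp_f (h : Pln T u) (t : Fin 3 → R) : (ex T R).f (pl u t) = 0 := by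
  have h0 := fun i => h.upf (R := R) i
  have h1 := fun i j => h.upD (R := R) i j
  have h2 := h.upE (R := R)
  unfold pl
  simp only [(ex T R).f_add, (ex T R).D_add, (ex T R).add_D, (ex T R).f_smul, (ex T R).D_smul,
    (ex T R).smul_D, (ex T R).E_smul1, (ex T R).E_smul2, (ex T R).E_smul, h0, h1, h2]
  ring

end zero

variable {E : Type} [Field E] [Algebra E ℝ] {n : ℕ} {T : Tn E n} {u : Fin 3 → Fin n → E} {G : Type}

/-- All real points of the plane have the same class. Proof: `curve` with `N = 1` (and `smul`). -/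
theorem pl_cl (h : Pln T u) (C : RC (ex T ℝ) G) {t : Fin 3 → ℝ} (ht : t ≠ 0) :
    C.cl (pl u t) = C.cl (up ℝ (u 0)) := by
  have e0 : up ℝ (u 0) = pl u (![1, 0, 0] : Fin 3 → ℝ) := by
    simp [pl]
  have hne : (![1, 0, 0] : Fin 3 → ℝ) ≠ 0 := by
    intro h0
    have := congrFun h0 0
    simp at this
  rw [e0]
  have := C.curve 1 (fun a => if a = 0 then pl u t else pl u (![1, 0, 0] : Fin 3 → ℝ))
    (by simpa using rp_ne h.ind ht) (by simpa using rp_ne h.ind hne) (fun s => by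
      have e1 : pl u t + s • pl u (![1, 0, 0] : Fin 3 → ℝ) = pl u (t + s • ![1, 0, 0]) := by
        simp only [pl, Pi.add_apply, Pi.smul_apply, smul_eq_mul]
        module
      have e2 := rp_f h (t + s • (![1, 0, 0] : Fin 3 → ℝ))
      rw [← e1] at e2
      simpa [Finset.sum_range_succ] using e2)
  simpa using this

/-- A binary quadratic form with positive discriminant has a zero. -/
theorem rp_bin {A B C : ℝ} (h : 0 < B ^ 2 - 4 * A * C) :
    ∃ s t : ℝ, (s ≠ 0 ∨ t ≠ 0) ∧ A * s ^ 2 + B * (s * t) + C * t ^ 2 = 0 := by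
  by_cases hA : A = 0
  · exact ⟨1, 0, Or.inl one_ne_zero, by rw [hA]; ring⟩
  · refine ⟨-B + Real.sqrt (B ^ 2 - 4 * A * C), 2 * A, Or.inr (by positivity), ?_⟩
    have hr := Real.sq_sqrt h.le
    set r := Real.sqrt (B ^ 2 - 4 * A * C)
    linear_combination A * hr

/-- Complex vectors. -/
theorem rp_cplx (w : Fin n → ℂ) : w = (fun i => (algebraMap ℝ ℂ) ((w i).re)) +
    Complex.I • (fun i => (algebraMap ℝ ℂ) ((w i).im)) := by
  funext i
  simp only [Pi.add_apply, Pi.smul_apply, smul_eq_mul, Complex.coe_algebraMap]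
  rw [mul_comm]
  exact (Complex.re_add_im (w i)).symm

/-- There is a vector for which the binary form has positive discriminant. -/
theorem rp_disc (h : Pln T u)
    (hs : ∀ x : Fin n → ℂ, x ≠ 0 → ∃ y, (ex (T.map (algebraMap E ℝ)) ℂ).D x y ≠ 0) :
    ∃ b : Fin n → ℝ, 0 < (ex T ℝ).E (up ℝ (u 0)) (up ℝ (u 1)) b ^ 2 -
      4 * (ex T ℝ).D (up ℝ (u 0)) b * (ex T ℝ).D (up ℝ (u 1)) b := by
  by_contra hcon
  push Not at hcon
  obtain ⟨U0, hU0⟩ : ∃ U0, U0 = up ℝ (u 0) := ⟨_, rfl⟩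
  obtain ⟨U1, hU1⟩ : ∃ U1, U1 = up ℝ (u 1) := ⟨_, rfl⟩
  rw [← hU0, ← hU1] at hcon
  let φ : ℝ →+* ℂ := algebraMap ℝ ℂ
  have mD : ∀ x y : Fin n → ℝ, (ex (T.map (algebraMap E ℝ)) ℂ).D (fun i => φ (x i))
      (fun i => φ (y i)) = φ ((ex T ℝ).D x y) := fun x y => map_D φ (T.map (algebraMap E ℝ)) x y
  have mE : ∀ x y z : Fin n → ℝ, (ex (T.map (algebraMap E ℝ)) ℂ).E (fun i => φ (x i))
      (fun i => φ (y i)) (fun i => φ (z i)) = φ ((ex T ℝ).E x y z) :=
    fun x y z => map_E φ (T.map (algebraMap E ℝ)) x y z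
  -- independence over the complex numbers
  obtain ⟨W, hW⟩ := rp_dual h.ind
  have hind : ∀ s t : ℂ, (s ≠ 0 ∨ t ≠ 0) → s • (fun i => φ (U0 i)) + t • (fun i => φ (U1 i)) ≠ 0 := by
    intro s t hst h0
    have e : ∀ i l, ∑ j, φ (algebraMap E ℝ (W i j)) * φ (up ℝ (u l) j) =
        if i = l then 1 else 0 := by
      intro i l
      have := congrArg (fun x => φ (algebraMap E ℝ x)) (hW i l)
      simp only [map_sum, map_mul] at this
      unfold up
      rw [this]
      split_ifs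
      · simp
      · simp
    have e' : ∀ i, ∑ j, φ (algebraMap E ℝ (W i j)) *
        (s • (fun i => φ (U0 i)) + t • (fun i => φ (U1 i)) : Fin n → ℂ) j =
        s * (if i = 0 then 1 else 0) + t * (if i = 1 then 1 else 0) := by
      intro i
      rw [← e i 0, ← e i 1, Finset.mul_sum, Finset.mul_sum, ← Finset.sum_add_distrib]
      refine Finset.sum_congr rfl fun j _ => ?_
      rw [hU0, hU1]
      simp only [Pi.add_apply, Pi.smul_apply, smul_eq_mul]
      ring
    have e0 := e' 0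
    have e1 := e' 1
    rw [h0] at e0 e1
    simp at e0 e1
    rcases hst with hs | ht
    · exact hs e0.symm
    · exact ht e1.symm
  -- the first form is not zero
  obtain ⟨b', hb'⟩ : ∃ b', (ex T ℝ).D U0 b' = 1 := by
    have h0 : (fun i => φ (U0 i)) ≠ 0 := by
      have := hind 1 0 (Or.inl one_ne_zero)
      simpa using this
    obtain ⟨y, hy⟩ := hs _ h0
    rw [rp_cplx y, (ex _ ℂ).D_add, (ex _ ℂ).D_smul] at hy
    have e1 := mD U0 (fun i => (y i).re)
    have e2 := mD U0 (fun i => (y i).im)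
    rw [e1, e2] at hy
    have h3 : ∃ w, (ex T ℝ).D U0 w ≠ 0 := by
      by_contra hall
      push Not at hall
      rw [hall, hall] at hy
      simp at hy
    obtain ⟨w, hw⟩ := h3
    refine ⟨((ex T ℝ).D U0 w)⁻¹ • w, ?_⟩
    rw [(ex T ℝ).D_smul]
    exact inv_mul_cancel₀ hw
  obtain ⟨d, hd⟩ : ∃ d, d = (ex T ℝ).E U0 U1 b' := ⟨_, rfl⟩
  obtain ⟨e, he⟩ : ∃ e, e = (ex T ℝ).D U1 b' := ⟨_, rfl⟩
  -- the kernel of the first form
  have hker : ∀ w, (ex T ℝ).D U0 w = 0 → (ex T ℝ).E U0 U1 w = 0 ∧ (ex T ℝ).D U1 w = 0 := by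
    intro w hw
    have h1 := hcon w
    rw [hw] at h1
    have h2 : (ex T ℝ).E U0 U1 w = 0 := by
      have : (ex T ℝ).E U0 U1 w ^ 2 ≤ 0 := by linarith
      exact pow_eq_zero_iff two_ne_zero |>.1 (le_antisymm this (sq_nonneg _))
    refine ⟨h2, ?_⟩
    by_contra h3
    have h4 := hcon (b' + (-(e + 1) / (ex T ℝ).D U1 w) • w)
    rw [(ex T ℝ).E_add, (ex T ℝ).D_add, (ex T ℝ).D_add, (ex T ℝ).E_smul, (ex T ℝ).D_smul,
      (ex T ℝ).D_smul, hw, h2, hb', ← hd, ← he, div_mul_cancel₀ _ h3] at h4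
    nlinarith [sq_nonneg d]
  have hB : ∀ w, (ex T ℝ).E U0 U1 w = d * (ex T ℝ).D U0 w ∧
      (ex T ℝ).D U1 w = e * (ex T ℝ).D U0 w := by
    intro w
    have h1 := hker (w + (-(ex T ℝ).D U0 w) • b') (by
      rw [(ex T ℝ).D_add, (ex T ℝ).D_smul, hb']; ring)
    rw [(ex T ℝ).E_add, (ex T ℝ).E_smul, (ex T ℝ).D_add, (ex T ℝ).D_smul, ← hd, ← he] at h1
    exact ⟨by linear_combination h1.1, by linear_combination h1.2⟩
  -- a complex zero
  obtain ⟨r, hr⟩ : ∃ r : ℂ, r ^ 2 = φ (d ^ 2 - 4 * e) :=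
    IsAlgClosed.exists_pow_nat_eq _ (by norm_num)
  have hr' : r ^ 2 = φ d ^ 2 - 4 * φ e := by
    rw [hr, map_sub, map_pow, map_mul, map_ofNat]
  obtain ⟨w, hw⟩ := hs _ (hind ((-φ d + r) / 2) 1 (Or.inr one_ne_zero))
  apply hw
  obtain ⟨z, hz⟩ : ∃ z, z = (-φ d + r) / 2 := ⟨_, rfl⟩
  have hz2 : z ^ 2 + φ d * z + φ e = 0 := by
    rw [hz]
    linear_combination (1 / 4 : ℂ) * hr'
  have key : ∀ w : Fin n → ℝ, (ex (T.map (algebraMap E ℝ)) ℂ).D
      (z • (fun i => φ (U0 i)) + (1 : ℂ) • (fun i => φ (U1 i))) (fun i => φ (w i)) = 0 := by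
    intro w
    rw [(ex _ ℂ).add_D, (ex _ ℂ).smul_D, (ex _ ℂ).smul_D, (ex _ ℂ).E_smul1, (ex _ ℂ).E_smul2,
      mD, mD, mE, (hB w).1, (hB w).2, map_mul, map_mul]
    linear_combination φ ((ex T ℝ).D U0 w) * hz2
  rw [← hz, rp_cplx w, (ex _ ℂ).D_add, (ex _ ℂ).D_smul]
  have k1 := key (fun i => (w i).re)
  have k2 := key (fun i => (w i).im)
  have k1' : (ex (T.map (algebraMap E ℝ)) ℂ).D
      (z • (fun i => φ (U0 i)) + (1 : ℂ) • (fun i => φ (U1 i)))
      (fun i => algebraMap ℝ ℂ ((w i).re)) = 0 := k1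
  have k2' : (ex (T.map (algebraMap E ℝ)) ℂ).D
      (z • (fun i => φ (U0 i)) + (1 : ℂ) • (fun i => φ (U1 i)))
      (fun i => algebraMap ℝ ℂ ((w i).im)) = 0 := k2
  rw [k1', k2', mul_zero, add_zero]

/-- For all `b` near some `b₀` the residual quadric has a real point on the plane. Proof. Let
`A = D u₀ ·`, `B = E u₀ u₁ ·`, `C = D u₁ ·` (linear forms on `ℝ^n`); we need `b₀` with
`B(b₀)² - 4 A(b₀) C(b₀) > 0` (then the binary form `D (s u₀ + t u₁) b = A s² + B s t + C t²` has a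
real zero for all `b` near `b₀`). `A ≠ 0`, `C ≠ 0` by smoothness. If `A`, `C` are linearly
independent there is `b₀` with `A = 1`, `C = -1`. Otherwise `C = c A`, and if `B` is not a multiple of
`A` take `b₀` with `A = 0`, `B ≠ 0`. Otherwise `D (s u₀ + t u₁) · = (s² + d s t + c t²) A`, and a
complex zero of `s² + d s t + c t²` contradicts the smoothness over `ℂ`. -/
theorem real_pl (h : Pln T u)
    (hs : ∀ x : Fin n → ℂ, x ≠ 0 → ∃ y, (ex (T.map (algebraMap E ℝ)) ℂ).D x y ≠ 0)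
    (C : RC (ex T ℝ) G) : ∃ b₀ : Fin n → ℝ, ∃ δ > 0, ∀ b : Fin n → ℝ, (∀ i, |b i - b₀ i| < δ) →
      ∃ x : Fin 4 → ℝ, x ≠ 0 ∧ qf (mt T u b) x = 0 ∧
        C.cl (pt u b x) = C.cl (up ℝ (u 0)) := by
  obtain ⟨b₀, hb₀⟩ := rp_disc h hs
  have cD : ∀ x : Fin n → ℝ, Continuous fun b => (ex T ℝ).D x b := fun x =>
    LinearMap.continuous_of_finiteDimensional ((ex T ℝ).Dl x)
  have cE : ∀ x y : Fin n → ℝ, Continuous fun b => (ex T ℝ).E x y b := fun x y =>
    LinearMap.continuous_of_finiteDimensional ((ex T ℝ).El x y)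
  have hcont : Continuous fun b : Fin n → ℝ =>
      (ex T ℝ).E (up ℝ (u 0)) (up ℝ (u 1)) b ^ 2 -
        4 * (ex T ℝ).D (up ℝ (u 0)) b * (ex T ℝ).D (up ℝ (u 1)) b :=
    ((cE _ _).pow 2).sub ((continuous_const.mul (cD _)).mul (cD _))
  have hopen : IsOpen {b : Fin n → ℝ | 0 < (ex T ℝ).E (up ℝ (u 0)) (up ℝ (u 1)) b ^ 2 -
        4 * (ex T ℝ).D (up ℝ (u 0)) b * (ex T ℝ).D (up ℝ (u 1)) b} :=
    isOpen_lt continuous_const hcont
  obtain ⟨δ, hδ, hball⟩ := Metric.isOpen_iff.1 hopen b₀ hb₀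
  refine ⟨b₀, δ, hδ, fun b hb => ?_⟩
  have hb' : b ∈ Metric.ball b₀ δ := by
    rw [Metric.mem_ball, dist_pi_lt_iff hδ]
    intro i
    rw [Real.dist_eq]
    exact hb i
  have hpos := hball hb'
  obtain ⟨s, t, hst, hzero⟩ := rp_bin hpos
  refine ⟨![s, t, 0, 0], ?_, ?_, ?_⟩
  · intro h0
    have h1 := congrFun h0 0
    have h2 := congrFun h0 1
    simp at h1 h2
    rcases hst with h3 | h3
    · exact h3 h1
    · exact h3 h2
  · have h3 : ∀ i, (ex T ℝ).E (up ℝ (u i)) (up ℝ (u i)) b = 2 * (ex T ℝ).D (up ℝ (u i)) b :=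
      fun i => (ex T ℝ).E_self _ _
    simp only [qf, Fin.sum_univ_four, mt, Matrix.of_apply, Matrix.cons_val', Matrix.cons_val_zero,
      Matrix.cons_val_one, Matrix.cons_val, mul_zero, zero_mul, add_zero]
    rw [(ex T ℝ).E_comm (up ℝ (u 1)) (up ℝ (u 0)), h3, h3]
    linear_combination 2 * hzero
  · have e1 : pt u b (![s, t, 0, 0] : Fin 4 → ℝ) = pl u (![s, t, 0] : Fin 3 → ℝ) := by
      simp [pt, pl]
    rw [e1]
    refine pl_cl h C (fun h0 => ?_)
    have h1 := congrFun h0 0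
    have h2 := congrFun h0 1
    simp at h1 h2
    rcases hst with h3 | h3
    · exact h3 h1
    · exact h3 h2

end Cr
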