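import Pool.Agent.Lib.MP_f80667_ag.Cr.Jac
import Pool.Agent.Lib.MP_f80667_ag.Hens

/-! Solutions over the fraction field of a valuation ring: they are integral and determined by their
reductions. -/

namespace Cr

open MvPolynomial IsLocalRing

variable {m : ℕ} {p : Fin m → ℕ} {K : Type} [Field K]

/-- `F` is homogeneous of degree `d b` in the block `b`. -/
def Sc (d : Fin m → ℕ) (F : MvPolynomial (PV p) K) : Prop :=
  ∀ (R : Type) [CommRing R] [Algebra K R] (s : Fin m → R) (x : PV p → R),
    aeval (fun v => s v.1 * x v) F = (∏ b, s b ^ d b) * aeval x F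

theorem sc_Gp {δ : AV p → Fin m → ℕ} (c : (Σ e : AV p, Fc δ e) → K) (e : AV p) :
    Sc (δ e) (Gp c e) := by
  intro R _ _ s x
  rw [aeval_Gp, aeval_Gp]
  have h1 : ∀ t : Fc δ e, (pol (fun v => s v.1 * x v) t.1).eval (algebraMap K R (c ⟨e, t⟩)) =
      s t.1 * (pol x t.1).eval (algebraMap K R (c ⟨e, t⟩)) := by
    intro t
    unfold pol
    rw [Polynomial.eval_finsetSum, Polynomial.eval_finsetSum, Finset.mul_sum]
    refine Finset.sum_congr rfl fun i _ => ?_
    rw [Polynomial.eval_mul, Polynomial.eval_mul, Polynomial.eval_C, Polynomial.eval_C, mul_assoc]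
  rw [Finset.prod_congr rfl fun t _ => h1 t, Finset.prod_mul_distrib]
  congr 1
  rw [Fintype.prod_sigma]
  refine Finset.prod_congr rfl fun b _ => ?_
  change ∏ _y : Fin (δ e b), s b = _
  rw [Finset.prod_const, Finset.card_univ, Fintype.card_fin]

variable {O : Type} [CommRing O] [IsDomain O] [ValuationRing O] [Algebra K O]
  {M : Type} [Field M] [Algebra O M] [IsFractionRing O M] [Algebra K M] [IsScalarTower K O M]

/-- In a nonzero vector there is a coordinate which divides all the others. -/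
theorem exists_max {ι : Type} [Finite ι] (x : ι → M) (hx : ∃ i, x i ≠ 0) :
    ∃ i, x i ≠ 0 ∧ ∀ j, ∃ a : O, (x i)⁻¹ * x j = algebraMap O M a := by
  classical
  have : Fintype ι := Fintype.ofFinite ι
  have key : ∀ s : Finset ι, (∃ i ∈ s, x i ≠ 0) →
      ∃ i ∈ s, x i ≠ 0 ∧ ∀ j ∈ s, ∃ a : O, (x i)⁻¹ * x j = algebraMap O M a := by
    intro s
    induction s using Finset.induction_on with
    | empty => rintro ⟨i, hi, _⟩; exact absurd hi (Finset.notMem_empty i)
    | insert t s hts ih =>
      intro hne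
      by_cases hs : ∃ i ∈ s, x i ≠ 0
      · obtain ⟨i, hi, hi0, h1⟩ := ih hs
        obtain ⟨a, ha⟩ := ValuationRing.isInteger_or_isInteger O ((x i)⁻¹ * x t)
        · refine ⟨i, Finset.mem_insert_of_mem hi, hi0, fun j hj => ?_⟩
          rcases Finset.mem_insert.1 hj with rfl | hj
          · exact ⟨a, ha.symm⟩
          · exact h1 j hj
        · rename_i h
          obtain ⟨a, ha⟩ := h
          by_cases ht : x t = 0
          · refine ⟨i, Finset.mem_insert_of_mem hi, hi0, fun j hj => ?_⟩
            rcases Finset.mem_insert.1 hj with rfl | hj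
            · exact ⟨0, by rw [ht, mul_zero, map_zero]⟩
            · exact h1 j hj
          · refine ⟨t, Finset.mem_insert_self t s, ht, fun j hj => ?_⟩
            rcases Finset.mem_insert.1 hj with rfl | hj
            · exact ⟨1, by rw [inv_mul_cancel₀ ht, map_one]⟩
            · obtain ⟨b, hb⟩ := h1 j hj
              refine ⟨a * b, ?_⟩
              rw [map_mul, ← hb, ha, mul_inv, inv_inv]
              field_simp
      · push Not at hs
        obtain ⟨i, hi, hi0⟩ := hne
        have h2 : i = t := by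
          rcases Finset.mem_insert.1 hi with h | h
          · exact h
          · exact absurd (hs i h) hi0
        subst h2
        refine ⟨i, Finset.mem_insert_self i s, hi0, fun j hj => ?_⟩
        rcases Finset.mem_insert.1 hj with rfl | hj
        · exact ⟨1, by rw [inv_mul_cancel₀ hi0, map_one]⟩
        · exact ⟨0, by rw [hs j hj, mul_zero, map_zero]⟩
  obtain ⟨i, _, hi, h⟩ := key Finset.univ (by
    obtain ⟨i, hi⟩ := hx
    exact ⟨i, Finset.mem_univ i, hi⟩)
  exact ⟨i, hi, fun j => h j (Finset.mem_univ j)⟩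

/-- Every projective solution has integral coordinates, one coordinate of each block being `1`. -/
theorem exists_int {δ : AV p → Fin m → ℕ} {G F : AV p → MvPolynomial (PV p) K}
    (hG : ∀ e, Sc (δ e) (G e)) (hF : ∀ e, Sc (δ e) (F e)) (τ : O) (x : PV p → M)
    (hx : ∀ b, ∃ i, x ⟨b, i⟩ ≠ 0)
    (h0 : ∀ e, (1 - algebraMap O M τ) * aeval x (G e) + algebraMap O M τ * aeval x (F e) = 0) :
    ∃ (x' : PV p → O) (s : Fin m → M), (∀ b, s b ≠ 0) ∧
      (∀ v, algebraMap O M (x' v) = s v.1 * x v) ∧ (∀ b, ∃ i, x' ⟨b, i⟩ = 1) ∧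
      ∀ e, (1 - τ) * aeval x' (G e) + τ * aeval x' (F e) = 0 := by
  choose i hi h1 using fun b => exists_max (O := O) (fun i => x ⟨b, i⟩) (hx b)
  choose y hy using h1
  have hv : ∀ v : PV p, algebraMap O M (y v.1 v.2) = (x ⟨v.1, i v.1⟩)⁻¹ * x v := fun v =>
    (hy v.1 v.2).symm
  have hinj := IsFractionRing.injective O M
  refine ⟨fun v => y v.1 v.2, fun b => (x ⟨b, i b⟩)⁻¹, fun b => inv_ne_zero (hi b), hv,
    fun b => ⟨i b, hinj ?_⟩, fun e => hinj ?_⟩
  · rw [hv ⟨b, i b⟩, inv_mul_cancel₀ (hi b), map_one]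
  · have h2 : ∀ H : MvPolynomial (PV p) K, algebraMap O M (aeval (fun v => y v.1 v.2) H) =
        aeval (fun v : PV p => (x ⟨v.1, i v.1⟩)⁻¹ * x v) H := by
      intro H
      have h3 := comp_aeval_apply (fun v : PV p => y v.1 v.2) (IsScalarTower.toAlgHom K O M) H
      refine h3.trans ?_
      congr 2
      funext v
      exact hv v
    rw [map_add, map_mul, map_mul, map_sub, map_one, h2, h2,
      hG e M (fun b => (x ⟨b, i b⟩)⁻¹) x, hF e M (fun b => (x ⟨b, i b⟩)⁻¹) x, map_zero]
    linear_combination (∏ b, (x ⟨b, i b⟩)⁻¹ ^ δ e b) * h0 e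

theorem res_aeval (x : PV p → O) (H : MvPolynomial (PV p) K) :
    residue O (aeval x H) = aeval (fun v => residue O (x v)) H :=
  comp_aeval_apply x (IsScalarTower.toAlgHom K O (ResidueField O)) H

/-- Every projective solution is affine, integral, and its reduction is a zero of the special
system. -/
theorem exists_red {δ : AV p → Fin m → ℕ} {c : (Σ e : AV p, Fc δ e) → K}
    (hc : Function.Injective c) {F : AV p → MvPolynomial (PV p) K} (hF : ∀ e, Sc (δ e) (F e))
    {τ : O} (hτ : residue O τ = 0) (x : PV p → M) (hx : ∀ b, ∃ i, x ⟨b, i⟩ ≠ 0)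
    (h0 : ∀ e, (1 - algebraMap O M τ) * aeval x (Gp c e) + algebraMap O M τ * aeval x (F e) = 0) :
    ∃ (σ : ∀ e : AV p, Fc δ e) (y : AV p → O),
      (∀ b, (Finset.univ.filter fun e => (σ e).1 = b).card = p b) ∧
      (∀ b, x ⟨b, Fin.last (p b)⟩ ≠ 0) ∧
      (∀ a : AV p, x ⟨a.1, a.2.castSucc⟩ = x ⟨a.1, Fin.last (p a.1)⟩ * algebraMap O M (y a)) ∧
      (∀ a, residue O (y a) = algebraMap K (ResidueField O) (sol c σ a)) ∧
      ∀ e, eval y (hP (Gp c) F τ e) = 0 := by
  obtain ⟨x', s, hs, hv, h1, h2⟩ := exists_int (fun e => sc_Gp c e) hF τ x hx h0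
  have hinj := IsFractionRing.injective O M
  obtain ⟨σ, hσ, hl, ha⟩ := zeros_eq c hc (κ := ResidueField O) (fun v => residue O (x' v))
    (fun b => by
      obtain ⟨i, hi⟩ := h1 b
      exact ⟨i, by
        rw [hi, map_one]
        exact one_ne_zero⟩)
    (fun e => by
      have h3 := congrArg (residue O) (h2 e)
      rw [map_add, map_mul, map_mul, map_sub, map_one, hτ, sub_zero, one_mul, zero_mul, add_zero,
        map_zero, res_aeval] at h3
      exact h3)
  have hu : ∀ b, IsUnit (x' ⟨b, Fin.last (p b)⟩) := fun b => by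
    rw [← residue_ne_zero_iff_isUnit]
    exact hl b
  choose u hu' using fun b => (hu b).exists_right_inv
  have hval : ∀ b, x ⟨b, Fin.last (p b)⟩ ≠ 0 := by
    intro b h3
    have h4 := hv ⟨b, Fin.last (p b)⟩
    rw [h3, mul_zero] at h4
    exact (hu b).ne_zero (hinj (h4.trans (map_zero _).symm))
  let y : AV p → O := fun a => u a.1 * x' ⟨a.1, a.2.castSucc⟩
  have hy : ∀ v : PV p, aff y v = u v.1 * x' v := by
    rintro ⟨b, i⟩
    refine Fin.lastCases ?_ (fun i => ?_) i
    · rw [aff_last, mul_comm]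
      exact (hu' b).symm
    · rw [aff_cast]
  refine ⟨σ, y, hσ, hval, fun a => ?_, fun a => ?_, fun e => ?_⟩
  · have h3 := hv ⟨a.1, a.2.castSucc⟩
    have h4 := hv ⟨a.1, Fin.last (p a.1)⟩
    have h5 : algebraMap O M (x' ⟨a.1, Fin.last (p a.1)⟩) * algebraMap O M (u a.1) = 1 := by
      rw [← map_mul, hu', map_one]
    rw [map_mul]
    simp only [] at h3 h4
    have h6 : s a.1 * x ⟨a.1, a.2.castSucc⟩ = s a.1 * (x ⟨a.1, Fin.last (p a.1)⟩ *
        (algebraMap O M (u a.1) * algebraMap O M (x' ⟨a.1, a.2.castSucc⟩))) := by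
      rw [← h3]
      calc algebraMap O M (x' ⟨a.1, a.2.castSucc⟩)
          = (algebraMap O M (x' ⟨a.1, Fin.last (p a.1)⟩) * algebraMap O M (u a.1)) *
            algebraMap O M (x' ⟨a.1, a.2.castSucc⟩) := by rw [h5, one_mul]
        _ = _ := by rw [h4]; ring
    exact mul_left_cancel₀ (hs a.1) h6
  · have h3 := ha a
    have h5 : residue O (x' ⟨a.1, Fin.last (p a.1)⟩) * residue O (u a.1) = 1 := by
      rw [← map_mul, hu', map_one]
    change residue O (u a.1 * x' ⟨a.1, a.2.castSucc⟩) = _
    rw [map_mul, h3, ← mul_assoc, mul_comm (residue O (u a.1)), h5, one_mul]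
  · rw [eval_hP]
    have h3 : aff y = fun v => u v.1 * x' v := funext hy
    rw [h3, sc_Gp c e O u x', hF e O u x']
    linear_combination (∏ b, u b ^ δ e b) * h2 e

/-- The determinant of the Jacobian matrix at a lift is a unit. -/
theorem isUnit_det {δ : AV p → Fin m → ℕ} {c : (Σ e : AV p, Fc δ e) → K}
    (hc : Function.Injective c) (F : AV p → MvPolynomial (PV p) K)
    {τ : O} (hτ : residue O τ = 0) (σ : ∀ e : AV p, Fc δ e)
    (hσ : ∀ b, (Finset.univ.filter fun e => (σ e).1 = b).card = p b) (y : AV p → O)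
    (hy : ∀ a, residue O (y a) = algebraMap K (ResidueField O) (sol c σ a)) :
    IsUnit (jac (hP (Gp c) F τ) y).det := by
  rw [← residue_ne_zero_iff_isUnit, RingHom.map_det, RingHom.mapMatrix_apply, jac_map]
  have h1 : (fun e => map (residue O) (hP (Gp c) F τ e)) =
      fun e => map (algebraMap K (ResidueField O)) (dh K (Gp c e)) := by
    funext e
    have h2 := map_hP (IsScalarTower.toAlgHom K O (ResidueField O)) (Gp c) F τ e
    have h3 := map_dh (Algebra.ofId K (ResidueField O)) (Gp c e)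
    have h4 : (IsScalarTower.toAlgHom K O (ResidueField O)) τ = 0 := hτ
    rw [h4, hP_zero] at h2
    exact h2.trans h3.symm
  have h5 : (fun a => residue O (y a)) = fun a => algebraMap K (ResidueField O) (sol c σ a) :=
    funext hy
  rw [h1, h5, ← jac_map, ← RingHom.mapMatrix_apply, ← RingHom.map_det]
  exact fun h => det_jac c hc σ hσ ((algebraMap K (ResidueField O)).injective (h.trans (map_zero _).symm))

/-- A solution over the local ring is determined by its reduction. -/
theorem unique_lift {δ : AV p → Fin m → ℕ} {c : (Σ e : AV p, Fc δ e) → K}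
    (hc : Function.Injective c) (F : AV p → MvPolynomial (PV p) K)
    {τ : O} (hτ : residue O τ = 0) (σ : ∀ e : AV p, Fc δ e)
    (hσ : ∀ b, (Finset.univ.filter fun e => (σ e).1 = b).card = p b) (y z : AV p → O)
    (hy : ∀ a, residue O (y a) = algebraMap K (ResidueField O) (sol c σ a))
    (hz : ∀ a, residue O (z a) = algebraMap K (ResidueField O) (sol c σ a))
    (hy0 : ∀ e, eval y (hP (Gp c) F τ e) = 0) (hz0 : ∀ e, eval z (hP (Gp c) F τ e) = 0) :
    y = z := by
  classical
  obtain ⟨J, hJ⟩ : ∃ J : Ideal O, J = Ideal.span (Set.range fun a => z a - y a) := ⟨_, rfl⟩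
  have hmem : ∀ a, z a - y a ∈ J := fun a => by
    rw [hJ]
    exact Ideal.subset_span ⟨a, rfl⟩
  have hle : J ≤ maximalIdeal O := by
    rw [hJ, Ideal.span_le]
    rintro _ ⟨a, rfl⟩
    change z a - y a ∈ maximalIdeal O
    rw [← residue_eq_zero_iff, map_sub, hy, hz, sub_self]
  have hdet := isUnit_det hc F hτ σ hσ y hy
  have h1 : ∀ e, ∑ a, jac (hP (Gp c) F τ) y e a * (z a - y a) ∈ J ^ 2 := by
    intro e
    have h2 := Pool.Agent.Lib.MP_f80667_ag.taylor_mem J (hP (Gp c) F τ e) y (fun a => z a - y a)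
      hmem
    have h3 : (fun a => y a + (z a - y a)) = z := by
      funext a
      ring
    rw [h3, hy0, hz0, sub_zero, zero_sub, neg_mem_iff] at h2
    exact h2
  have h4 : ∀ a, z a - y a ∈ J ^ 2 := by
    intro a
    have h5 : z a - y a = ∑ e, (jac (hP (Gp c) F τ) y)⁻¹ a e *
        ∑ a', jac (hP (Gp c) F τ) y e a' * (z a' - y a') := by
      have h6 := congrFun (congrArg (fun N => Matrix.mulVec N fun a => z a - y a)
        (Matrix.nonsing_inv_mul _ hdet)) a
      simp only [Matrix.one_mulVec] at h6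
      rw [← h6, ← Matrix.mulVec_mulVec]
      rfl
    rw [h5]
    exact sum_mem fun e _ => Ideal.mul_mem_left _ _ (h1 e)
  have h7 : J ≤ maximalIdeal O • J := by
    have h8 : J ≤ J ^ 2 := by
      conv_lhs => rw [hJ]
      rw [Ideal.span_le]
      rintro _ ⟨a, rfl⟩
      exact h4 a
    refine h8.trans ?_
    rw [pow_two, smul_eq_mul]
    exact Ideal.mul_mono_left hle
  have h9 : J = ⊥ := by
    refine Submodule.eq_bot_of_le_smul_of_le_jacobson_bot (maximalIdeal O) J ?_ h7 ?_
    · rw [hJ]
      exact ⟨(Set.finite_range _).toFinset, by rw [Set.Finite.coe_toFinset]⟩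
    · exact IsLocalRing.maximalIdeal_le_jacobson ⊥
  funext a
  have h10 := hmem a
  rw [h9, Ideal.mem_bot, sub_eq_zero] at h10
  exact h10.symm

end Cr
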