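import Pool.Agent.Lib.MP_f80667_ag.Cu.GlobB

/-! The residual quadrics of a cubic form `f`: for vectors `u i` and a vector `b` the symmetric
matrix of the quadratic form `q` with `2 (f (x + s b) - f x) = s q (x, s)`, `x` in the span of the
`u i`, and its derivatives with respect to `b`. -/

open MvPolynomial

namespace Cr.Re

universe u

section form

variable {R V : Type*} [CommRing R] [AddCommGroup V] [Module R V] (c : Cu.Cb R V)

/-- The bilinear form of the residual quadric at `b`; the pair `(x, s)` stands for `x + s b`. -/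
def rb (b : V) (x y : V × R) : R :=
  c.E x.1 y.1 b + x.2 * c.D b y.1 + y.2 * c.D b x.1 + 2 * (x.2 * y.2) * c.f b

/-- The derivative of `rb` in the direction `e`. -/
def rd (b e : V) (x y : V × R) : R :=
  c.E x.1 y.1 e + x.2 * c.E b e y.1 + y.2 * c.E b e x.1 + 2 * (x.2 * y.2) * c.D b e

theorem rb_comm (b : V) (x y : V × R) : rb c b x y = rb c b y x := by
  unfold rb
  rw [c.E_comm x.1 y.1]
  ring

theorem rb_self (b : V) (x : V × R) :
    2 * c.f (x.1 + x.2 • b) = 2 * c.f x.1 + x.2 * rb c b x x := by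
  unfold rb
  rw [c.f_add, c.f_smul, c.D_smul, c.smul_D, c.E_self]
  ring

theorem rd_self (b e : V) (x : V × R) : 2 * c.D (x.1 + x.2 • b) e = rd c b e x x := by
  unfold rd
  rw [c.add_D, c.smul_D, c.E_smul2, c.E_self, c.E_comm' x.1 b e, c.E_comm x.1 e b,
    c.E_comm' e x.1 b, c.E_comm e b x.1]
  ring

theorem rb_add (b : V) (x y z : V × R) : rb c b x (y + z) = rb c b x y + rb c b x z := by
  unfold rb
  rw [Prod.fst_add, Prod.snd_add, c.E_add2, c.D_add]
  ring

theorem rb_smul (b : V) (x : V × R) (a : R) (y : V × R) : rb c b x (a • y) = a * rb c b x y := by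
  unfold rb
  rw [Prod.smul_fst, Prod.smul_snd, c.E_smul2, c.D_smul, smul_eq_mul]
  ring

theorem rd_comm (b e : V) (x y : V × R) : rd c b e x y = rd c b e y x := by
  unfold rd
  rw [c.E_comm x.1 y.1]
  ring

theorem rd_add (b e : V) (x y z : V × R) : rd c b e x (y + z) = rd c b e x y + rd c b e x z := by
  unfold rd
  rw [Prod.fst_add, Prod.snd_add, c.E_add2, c.E_add]
  ring

theorem rd_smul (b e : V) (x : V × R) (a : R) (y : V × R) :
    rd c b e x (a • y) = a * rd c b e x y := by
  unfold rd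
  rw [Prod.smul_fst, Prod.smul_snd, c.E_smul2, c.E_smul, smul_eq_mul]
  ring

/-- `rb` as a linear map. -/
def rbl (b : V) (x : V × R) : V × R →ₗ[R] R where
  toFun := rb c b x
  map_add' := rb_add c b x
  map_smul' a y := by rw [rb_smul]; rfl

/-- `rd` as a linear map. -/
def rdl (b e : V) (x : V × R) : V × R →ₗ[R] R where
  toFun := rd c b e x
  map_add' := rd_add c b e x
  map_smul' a y := by rw [rd_smul]; rfl

variable {m : ℕ} (w : Fin m → V)

/-- The vectors `u i` and `b` in `V × R`. -/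
def bs : Fin (m + 1) → V × R := Fin.lastCases (0, 1) fun i => (w i, 0)

/-- The vector with coordinates `z` in `V × R`. -/
def ve (z : Fin (m + 1) → R) : V × R := ∑ i, z i • bs w i

omit [Module R V] in
theorem bs_last : bs (R := R) w (Fin.last m) = (0, 1) := by
  unfold bs
  rw [Fin.lastCases_last]

omit [Module R V] in
theorem bs_cast (i : Fin m) : bs (R := R) w i.castSucc = (w i, 0) := by
  unfold bs
  rw [Fin.lastCases_castSucc]

theorem ve_eq (z : Fin (m + 1) → R) :
    ve w z = (∑ i : Fin m, z i.castSucc • w i, z (Fin.last m)) := by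
  unfold ve
  rw [Fin.sum_univ_castSucc, bs_last]
  simp only [bs_cast]
  ext
  · simp [Prod.fst_sum]
  · simp [Prod.snd_sum]

/-- The matrix of the residual quadric. -/
def Nm (b : V) : Matrix (Fin (m + 1)) (Fin (m + 1)) R :=
  Matrix.of fun i j => rb c b (bs w i) (bs w j)

/-- Its derivative in the direction `e`. -/
def Nd (b e : V) : Matrix (Fin (m + 1)) (Fin (m + 1)) R :=
  Matrix.of fun i j => rd c b e (bs w i) (bs w j)

theorem Nm_transpose (b : V) : (Nm c w b).transpose = Nm c w b := by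
  ext i j
  exact rb_comm c b _ _

theorem Nm_mulVec (b : V) (z : Fin (m + 1) → R) (i : Fin (m + 1)) :
    (Nm c w b).mulVec z i = rb c b (bs w i) (ve w z) := by
  have h : rb c b (bs w i) (ve w z) = rbl c b (bs w i) (ve w z) := rfl
  rw [h, ve, map_sum, Matrix.mulVec, dotProduct]
  refine Finset.sum_congr rfl fun j _ => ?_
  rw [map_smul, smul_eq_mul, mul_comm]
  rfl

theorem Nd_mulVec (b e : V) (z : Fin (m + 1) → R) (i : Fin (m + 1)) :
    (Nd c w b e).mulVec z i = rd c b e (bs w i) (ve w z) := by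
  have h : rd c b e (bs w i) (ve w z) = rdl c b e (bs w i) (ve w z) := rfl
  rw [h, ve, map_sum, Matrix.mulVec, dotProduct]
  refine Finset.sum_congr rfl fun j _ => ?_
  rw [map_smul, smul_eq_mul, mul_comm]
  rfl

theorem dot_Nm (b : V) (y z : Fin (m + 1) → R) :
    y ⬝ᵥ (Nm c w b).mulVec z = rb c b (ve w y) (ve w z) := by
  rw [rb_comm]
  have h : rb c b (ve w z) (ve w y) = rbl c b (ve w z) (∑ j, y j • bs w j) := rfl
  rw [h, map_sum, dotProduct]
  refine Finset.sum_congr rfl fun j _ => ?_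
  rw [map_smul, smul_eq_mul, Nm_mulVec, rb_comm]
  rfl

theorem dot_Nd (b e : V) (y z : Fin (m + 1) → R) :
    y ⬝ᵥ (Nd c w b e).mulVec z = rd c b e (ve w y) (ve w z) := by
  rw [rd_comm]
  have h : rd c b e (ve w z) (ve w y) = rdl c b e (ve w z) (∑ j, y j • bs w j) := rfl
  rw [h, map_sum, dotProduct]
  refine Finset.sum_congr rfl fun j _ => ?_
  rw [map_smul, smul_eq_mul, Nd_mulVec, rd_comm]
  rfl

/-- The residual quadric. -/
theorem quad (b : V) (z : Fin (m + 1) → R) :
    2 * c.f ((ve w z).1 + z (Fin.last m) • b) =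
      2 * c.f (ve w z).1 + z (Fin.last m) * (z ⬝ᵥ (Nm c w b).mulVec z) := by
  have h := rb_self c b (ve w z)
  rw [dot_Nm]
  have h2 : (ve w z).2 = z (Fin.last m) := by rw [ve_eq]
  rw [h2] at h
  exact h

/-- The derivative of the residual quadric. -/
theorem dquad (b e : V) (z : Fin (m + 1) → R) :
    z ⬝ᵥ (Nd c w b e).mulVec z = 2 * c.D ((ve w z).1 + z (Fin.last m) • b) e := by
  have h := rd_self c b e (ve w z)
  rw [dot_Nd, ← h]
  have h2 : (ve w z).2 = z (Fin.last m) := by rw [ve_eq]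
  rw [h2]

end form

section map

variable {k : Type*} [Field k] {n : ℕ} (T : Cu.Tn k n) {R S : Type*} [CommRing R] [CommRing S]
  [Algebra k R] [Algebra k S] (φ : R →ₐ[k] S)

theorem map_ex_f (x : Fin n → R) : (Cu.ex T S).f (fun i => φ (x i)) = φ ((Cu.ex T R).f x) := by
  have h := Cu.map_f (φ : R →+* S) (T.map (algebraMap k R)) x
  have h2 : (T.map (algebraMap k R)).map (φ : R →+* S) = T.map (algebraMap k S) := by
    funext i j l
    exact φ.commutes _
  rw [h2] at h
  exact h

theorem map_ex_D (x y : Fin n → R) :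
    (Cu.ex T S).D (fun i => φ (x i)) (fun i => φ (y i)) = φ ((Cu.ex T R).D x y) := by
  have h := Cu.map_D (φ : R →+* S) (T.map (algebraMap k R)) x y
  have h2 : (T.map (algebraMap k R)).map (φ : R →+* S) = T.map (algebraMap k S) := by
    funext i j l
    exact φ.commutes _
  rw [h2] at h
  exact h

theorem map_ex_E (x y z : Fin n → R) :
    (Cu.ex T S).E (fun i => φ (x i)) (fun i => φ (y i)) (fun i => φ (z i)) =
      φ ((Cu.ex T R).E x y z) := by
  have h := Cu.map_E (φ : R →+* S) (T.map (algebraMap k R)) x y z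
  have h2 : (T.map (algebraMap k R)).map (φ : R →+* S) = T.map (algebraMap k S) := by
    funext i j l
    exact φ.commutes _
  rw [h2] at h
  exact h

theorem map_rb (b : Fin n → R) (x y : (Fin n → R) × R) :
    rb (Cu.ex T S) (fun i => φ (b i)) (fun i => φ (x.1 i), φ x.2) (fun i => φ (y.1 i), φ y.2) =
      φ (rb (Cu.ex T R) b x y) := by
  unfold rb
  simp only [map_ex_f, map_ex_D, map_ex_E, map_add, map_mul, map_ofNat]

theorem map_rd (b e : Fin n → R) (x y : (Fin n → R) × R) :
    rd (Cu.ex T S) (fun i => φ (b i)) (fun i => φ (e i)) (fun i => φ (x.1 i), φ x.2)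
      (fun i => φ (y.1 i), φ y.2) = φ (rd (Cu.ex T R) b e x y) := by
  unfold rd
  simp only [map_ex_D, map_ex_E, map_add, map_mul, map_ofNat]

variable {m : ℕ} (w : Fin m → Fin n → k)

/-- The vectors over a `k`-algebra. -/
abbrev uw (R : Type*) [CommRing R] [Algebra k R] : Fin m → Fin n → R := fun i => Cu.up R (w i)

/-- The matrix of the residual quadric at `b`, for vectors `w i` over `k`. -/
def Nt (R : Type*) [CommRing R] [Algebra k R] (b : Fin n → R) :
    Matrix (Fin (m + 1)) (Fin (m + 1)) R := Nm (Cu.ex T R) (uw w R) b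

/-- Its derivative. -/
def Ntd (R : Type*) [CommRing R] [Algebra k R] (b e : Fin n → R) :
    Matrix (Fin (m + 1)) (Fin (m + 1)) R := Nd (Cu.ex T R) (uw w R) b e

theorem bs_map (i : Fin (m + 1)) :
    bs (R := S) (uw w S) i = (fun j => φ ((bs (R := R) (uw w R) i).1 j),
      φ (bs (R := R) (uw w R) i).2) := by
  refine Fin.lastCases ?_ (fun i => ?_) i
  · rw [bs_last, bs_last]
    simp
    rfl
  · rw [bs_cast, bs_cast]
    ext
    · exact (φ.commutes _).symm
    · exact (map_zero φ).symm

theorem Nt_map (b : Fin n → R) : (Nt T w R b).map φ = Nt T w S (fun i => φ (b i)) := by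
  ext i j
  change φ (rb _ b _ _) = rb _ _ _ _
  rw [bs_map φ w i, bs_map φ w j, map_rb]

theorem Ntd_map (b e : Fin n → R) :
    (Ntd T w R b e).map φ = Ntd T w S (fun i => φ (b i)) (fun i => φ (e i)) := by
  ext i j
  change φ (rd _ b e _ _) = rd _ _ _ _ _
  rw [bs_map φ w i, bs_map φ w j, map_rd]

theorem Nt_transpose (b : Fin n → R) : (Nt T w R b).transpose = Nt T w R b := Nm_transpose _ _ _

end map

section der

variable {k : Type*} [Field k] {n : ℕ} (T : Cu.Tn k n) {R : Type*} [CommRing R] [Algebra k R]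
  (δ : Derivation k R R)

theorem der_f (x : Fin n → R) : δ ((Cu.ex T R).f x) = (Cu.ex T R).D x (fun i => δ (x i)) := by
  simp only [Cu.ex, Cu.cb, Cu.Tn.map, map_sum, Derivation.leibniz, Derivation.map_algebraMap,
    smul_eq_mul, mul_zero, add_zero]
  refine Finset.sum_congr rfl fun i _ => Finset.sum_congr rfl fun j _ =>
    Finset.sum_congr rfl fun l _ => ?_
  ring

theorem der_D (x y : Fin n → R) : δ ((Cu.ex T R).D x y) =
    (Cu.ex T R).E x (fun i => δ (x i)) y + (Cu.ex T R).D x (fun i => δ (y i)) := by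
  simp only [Cu.ex, Cu.cb, Cu.Tn.map, map_sum, Derivation.leibniz, Derivation.map_algebraMap,
    smul_eq_mul, mul_zero, add_zero, map_add, ← Finset.sum_add_distrib]
  refine Finset.sum_congr rfl fun i _ => Finset.sum_congr rfl fun j _ =>
    Finset.sum_congr rfl fun l _ => ?_
  ring

theorem der_E (x y z : Fin n → R) : δ ((Cu.ex T R).E x y z) =
    (Cu.ex T R).E (fun i => δ (x i)) y z + (Cu.ex T R).E x (fun i => δ (y i)) z +
      (Cu.ex T R).E x y (fun i => δ (z i)) := by
  simp only [Cu.ex, Cu.cb, Cu.Tn.map, map_sum, Derivation.leibniz, Derivation.map_algebraMap,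
    smul_eq_mul, mul_zero, add_zero, map_add, ← Finset.sum_add_distrib]
  refine Finset.sum_congr rfl fun i _ => Finset.sum_congr rfl fun j _ =>
    Finset.sum_congr rfl fun l _ => ?_
  ring

theorem der_rb (b : Fin n → R) (x y : (Fin n → R) × R) (hx : ∀ i, δ (x.1 i) = 0) (hx' : δ x.2 = 0)
    (hy : ∀ i, δ (y.1 i) = 0) (hy' : δ y.2 = 0) :
    δ (rb (Cu.ex T R) b x y) = rd (Cu.ex T R) b (fun i => δ (b i)) x y := by
  have h1 : (fun i => δ (x.1 i)) = 0 := funext hx
  have h2 : (fun i => δ (y.1 i)) = 0 := funext hy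
  have h3 : δ (2 : R) = 0 := by
    have := Derivation.map_algebraMap δ (2 : k)
    rwa [map_ofNat] at this
  unfold rb rd
  simp only [map_add, Derivation.leibniz, der_f, der_D, der_E, h1, h2, h3, hx', hy', smul_eq_mul,
    mul_zero, add_zero, Cu.Cb.D_zero]
  rw [(Cu.ex T R).E_comm 0 y.1 b, (Cu.ex T R).E_comm' y.1 0 b, (Cu.ex T R).E_comm' x.1 0 b]
  simp only [Cu.Cb.E_zero, zero_add]

variable {m : ℕ} (w : Fin m → Fin n → k)

theorem der_Nt (b : Fin n → R) (i j : Fin (m + 1)) :
    δ (Nt T w R b i j) = Ntd T w R b (fun l => δ (b l)) i j := by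
  have h : ∀ i : Fin (m + 1), (∀ l, δ ((bs (R := R) (uw w R) i).1 l) = 0) ∧
      δ (bs (R := R) (uw w R) i).2 = 0 := by
    intro i
    refine Fin.lastCases ?_ (fun i => ?_) i
    · rw [bs_last]
      exact ⟨fun l => map_zero δ, Derivation.map_one_eq_zero δ⟩
    · rw [bs_cast]
      exact ⟨fun l => Derivation.map_algebraMap δ _, map_zero δ⟩
  exact der_rb T δ b _ _ (h i).1 (h i).2 (h j).1 (h j).2

end der

end Cr.Re
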