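import Pool.Agent.Lib.MP_f80667_ag.Cr.ResA

/-! Preparations: kernels of matrices with vanishing adjugate, smoothness over reduced rings. -/

open MvPolynomial

namespace Cr.Re

universe u

/-- A matrix whose adjugate vanishes has two independent vectors in its kernel. -/
theorem ker2 {K : Type*} [Field K] {m : ℕ} (M : Matrix (Fin (m + 1)) (Fin (m + 1)) K)
    (h : M.adjugate = 0) : ∃ v v' : Fin (m + 1) → K, LinearIndependent K ![v, v'] ∧
      M.mulVec v = 0 ∧ M.mulVec v' = 0 := by
  classical
  obtain ⟨L, L', D, hM⟩ := Matrix.Pivot.exists_list_transvec_mul_diagonal_mul_list_transvec M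
  have hP : (L.map Matrix.TransvectionStruct.toMatrix).prod.det = 1 :=
    Matrix.TransvectionStruct.det_toMatrix_prod L
  have hQ : (L'.map Matrix.TransvectionStruct.toMatrix).prod.det = 1 :=
    Matrix.TransvectionStruct.det_toMatrix_prod L'
  generalize (L.map Matrix.TransvectionStruct.toMatrix).prod = P at hM hP
  generalize (L'.map Matrix.TransvectionStruct.toMatrix).prod = Q at hM hQ
  have hP1 : P.adjugate * P = 1 := by rw [Matrix.adjugate_mul, hP, one_smul]
  have hQ1 : Q * Q.adjugate = 1 := by rw [Matrix.mul_adjugate, hQ, one_smul]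
  have hD : (Matrix.diagonal D).adjugate = 0 := by
    have h1 : Q * (M.adjugate * P) = (Matrix.diagonal D).adjugate := by
      rw [hM, Matrix.adjugate_mul_distrib, Matrix.adjugate_mul_distrib, Matrix.mul_assoc,
        Matrix.mul_assoc, hP1, Matrix.mul_one, ← Matrix.mul_assoc, hQ1, Matrix.one_mul]
    rw [← h1, h, Matrix.zero_mul, Matrix.mul_zero]
  have hz : ∀ i, ∃ j, j ≠ i ∧ D j = 0 := by
    intro i
    rw [Matrix.adjugate_diagonal] at hD
    have h1 := congrFun (congrFun hD i) i
    rw [Matrix.diagonal_apply_eq, Matrix.zero_apply, Finset.prod_eq_zero_iff] at h1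
    obtain ⟨j, hj, h2⟩ := h1
    exact ⟨j, (Finset.mem_erase.1 hj).1, h2⟩
  obtain ⟨i, -, hi⟩ := hz 0
  obtain ⟨j, hji, hj⟩ := hz i
  have hk : ∀ l, D l = 0 → M.mulVec (Q.adjugate.mulVec (Pi.single l 1)) = 0 := by
    intro l hl
    rw [hM, Matrix.mulVec_mulVec, Matrix.mul_assoc, hQ1, Matrix.mul_one, ← Matrix.mulVec_mulVec]
    have h1 : (Matrix.diagonal D).mulVec (Pi.single l 1) = 0 := by
      funext t
      rw [Matrix.mulVec_diagonal, Pi.zero_apply]
      by_cases ht : t = l
      · rw [ht, hl, zero_mul]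
      · rw [Pi.single_eq_of_ne ht, mul_zero]
    rw [h1, Matrix.mulVec_zero]
  refine ⟨_, _, ?_, hk i hi, hk j hj⟩
  rw [LinearIndependent.pair_iff]
  intro a b hab
  have h1 := congrArg Q.mulVec hab
  rw [Matrix.mulVec_add, Matrix.mulVec_smul, Matrix.mulVec_smul, Matrix.mulVec_mulVec,
    Matrix.mulVec_mulVec, hQ1, Matrix.one_mulVec, Matrix.one_mulVec, Matrix.mulVec_zero] at h1
  have h2 := congrFun h1 i
  have h3 := congrFun h1 j
  simp only [Pi.add_apply, Pi.smul_apply, smul_eq_mul, Pi.single_eq_same, mul_one,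
    Pi.single_eq_of_ne hji, Pi.single_eq_of_ne hji.symm, mul_zero, zero_add, add_zero,
    Pi.zero_apply] at h2 h3
  exact ⟨h2, h3⟩

theorem D_eq_zero {R : Type*} [CommRing R] {n : ℕ} (c : Cu.Cb R (Fin n → R)) (x : Fin n → R)
    (h : ∀ i, c.D x (Pi.single i 1) = 0) (y : Fin n → R) : c.D x y = 0 := by
  classical
  have h1 : c.D x y = c.Dl x y := rfl
  rw [h1, LinearMap.pi_apply_eq_sum_univ]
  refine Finset.sum_eq_zero fun i _ => ?_
  have h2 : (fun j => if i = j then (1 : R) else 0) = Pi.single i 1 := by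
    funext j
    by_cases hj : i = j
    · rw [if_pos hj, hj, Pi.single_eq_same]
    · rw [if_neg hj, Pi.single_eq_of_ne (Ne.symm hj)]
  rw [h2, Cu.Cb.Dl_apply, h i, smul_zero]

theorem aeval_D {k : Type*} [Field k] {n : ℕ} (T : Cu.Tn k n) {S : Type*} [CommRing S]
    [Algebra k S] (y : Fin n → S) (i : Fin n) :
    aeval y ((Cu.ex T (MvPolynomial (Fin n) k)).D X (Pi.single i 1)) =
      (Cu.ex T S).D y (Pi.single i 1) := by
  rw [← map_ex_D T (aeval y : MvPolynomial (Fin n) k →ₐ[k] S)]
  congr 1
  · funext j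
    exact aeval_X y j
  · funext j
    by_cases hj : j = i
    · rw [hj, Pi.single_eq_same, Pi.single_eq_same, map_one]
    · rw [Pi.single_eq_of_ne hj, Pi.single_eq_of_ne hj, map_zero]

/-- Smoothness over the reduced `k`-algebras. -/
theorem sm_red {k : Type u} [Field k] {n : ℕ} (T : Cu.Tn k n) (hT : Cu.Sm T) (R : Type*)
    [CommRing R] [IsReduced R] [Algebra k R] (x : Fin n → R)
    (h : ∀ i, (Cu.ex T R).D x (Pi.single i 1) = 0) : x = 0 := by
  classical
  refine Cu.zero_transfer (F := k) (E := AlgebraicClosure k)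
    (fun i : Fin n => (Cu.ex T (MvPolynomial (Fin n) k)).D X (Pi.single i 1)) ?_ x ?_
  · intro y hy
    by_contra hy0
    let M := IntermediateField.adjoin k (Set.range y)
    have hfd : FiniteDimensional k M :=
      IntermediateField.finiteDimensional_adjoin fun z _ => Algebra.IsIntegral.isIntegral z
    let y' : Fin n → M := fun i => ⟨y i, IntermediateField.subset_adjoin k _ ⟨i, rfl⟩⟩
    have hy' : y' ≠ 0 := by
      intro h0
      apply hy0
      funext i
      exact congrArg (algebraMap M (AlgebraicClosure k)) (congrFun h0 i)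
    obtain ⟨z, hz⟩ := hT M y' hy'
    apply hz
    refine D_eq_zero _ _ (fun i => ?_) z
    have h1 := hy i
    rw [aeval_D] at h1
    have h2 := Cu.ex_D T (L := AlgebraicClosure k) y' (Pi.single i 1)
    have h3 : Cu.up (AlgebraicClosure k) (Pi.single i (1 : M)) = Pi.single i 1 := by
      funext j
      change algebraMap M (AlgebraicClosure k) _ = _
      by_cases hj : j = i
      · rw [hj, Pi.single_eq_same, Pi.single_eq_same, map_one]
      · rw [Pi.single_eq_of_ne hj, Pi.single_eq_of_ne hj, map_zero]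
    rw [h3] at h2
    have h4 : Cu.up (AlgebraicClosure k) y' = y := rfl
    rw [h4, h1] at h2
    exact (algebraMap M (AlgebraicClosure k)).injective (h2.symm.trans (map_zero _).symm)
  · intro i
    rw [aeval_D]
    exact h i

/-- Vectors over the fraction field are multiples of integral vectors. -/
theorem exists_num {A : Type*} [CommRing A] (I : Ideal A) [I.IsPrime] {m : ℕ}
    (v : Fin m → FractionRing (A ⧸ I)) :
    ∃ (a : Fin m → A) (b : FractionRing (A ⧸ I)), b ≠ 0 ∧
      ∀ i, algebraMap (A ⧸ I) (FractionRing (A ⧸ I)) (Ideal.Quotient.mk I (a i)) = b * v i := by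
  obtain ⟨b, hb⟩ := IsLocalization.exist_integer_multiples_of_finite
    (nonZeroDivisors (A ⧸ I)) v
  choose c hc using hb
  choose a ha using fun i => Ideal.Quotient.mk_surjective (c i)
  refine ⟨a, algebraMap _ _ (b : A ⧸ I), ?_, fun i => ?_⟩
  · intro h0
    exact nonZeroDivisors.ne_zero b.2
      (FaithfulSMul.algebraMap_injective (A ⧸ I) (FractionRing (A ⧸ I))
        (h0.trans (map_zero _).symm))
  · rw [ha, hc, Algebra.smul_def]

/-- Two vectors over the ring of polynomials, independent modulo `g`, which the matrix maps to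
multiples of `g`. -/
theorem exists_pair {A : Type*} [CommRing A] {m : ℕ} (N : Matrix (Fin (m + 1)) (Fin (m + 1)) A)
    (g : A) (hg : Prime g) (hN : ∀ i j, g ∣ N.adjugate i j) :
    ∃ v v' w w' : Fin (m + 1) → A, N.mulVec v = g • w ∧ N.mulVec v' = g • w' ∧
      LinearIndependent (A ⧸ Ideal.span {g}) ![(fun i => Ideal.Quotient.mk (Ideal.span {g}) (v i)),
        fun i => Ideal.Quotient.mk (Ideal.span {g}) (v' i)] := by
  have hI : (Ideal.span {g}).IsPrime := (Ideal.span_singleton_prime hg.ne_zero).2 hg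
  let B := A ⧸ Ideal.span {g}
  let K := FractionRing B
  let φ : A →+* K := (algebraMap B K).comp (Ideal.Quotient.mk (Ideal.span {g}))
  have hinj : Function.Injective (algebraMap B K) := FaithfulSMul.algebraMap_injective B K
  have hker : ∀ a, φ a = 0 ↔ g ∣ a := by
    intro a
    rw [← Ideal.mem_span_singleton, ← Ideal.Quotient.eq_zero_iff_mem]
    exact ⟨fun h => hinj (h.trans (map_zero _).symm), fun h => by
      change algebraMap B K (Ideal.Quotient.mk _ a) = 0
      rw [h, map_zero]⟩
  have hadj : (N.map φ).adjugate = 0 := by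
    have h1 : (N.map φ).adjugate = N.adjugate.map φ := (φ.map_adjugate N).symm
    rw [h1]
    ext i j
    exact (hker _).2 (hN i j)
  obtain ⟨v, v', hv, h1, h2⟩ := ker2 _ hadj
  obtain ⟨a, b, hb, ha⟩ := exists_num (Ideal.span {g}) v
  obtain ⟨a', b', hb', ha'⟩ := exists_num (Ideal.span {g}) v'
  have hmul : ∀ (a : Fin (m + 1) → A) (b : K) (v : Fin (m + 1) → K), (∀ i, φ (a i) = b * v i) →
      (N.map φ).mulVec v = 0 → ∃ w, N.mulVec a = g • w := by
    intro a b v ha hv
    have h3 : ∀ i, g ∣ N.mulVec a i := by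
      intro i
      rw [← hker]
      have h4 : φ (N.mulVec a i) = b * (N.map φ).mulVec v i := by
        rw [Matrix.mulVec, Matrix.mulVec, dotProduct, dotProduct, map_sum, Finset.mul_sum]
        refine Finset.sum_congr rfl fun j _ => ?_
        rw [map_mul, ha, Matrix.map_apply]
        ring
      rw [h4, hv, Pi.zero_apply, mul_zero]
    choose w hw using h3
    exact ⟨w, funext hw⟩
  obtain ⟨w, hw⟩ := hmul a b v ha h1
  obtain ⟨w', hw'⟩ := hmul a' b' v' ha' h2
  refine ⟨a, a', w, w', hw, hw', ?_⟩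
  rw [← linearIndependent_algebraMap_comp_iff (S := K)]
  have h6 : (fun i => algebraMap (A ⧸ Ideal.span {g}) K ∘
      (![(fun i => Ideal.Quotient.mk (Ideal.span {g}) (a i)),
        fun i => Ideal.Quotient.mk (Ideal.span {g}) (a' i)] : Fin 2 → _) i) =
      ![(fun i => φ (a i)), fun i => φ (a' i)] := by
    funext i
    fin_cases i <;> rfl
  rw [h6, LinearIndependent.pair_iff]
  intro s t hst
  rw [LinearIndependent.pair_iff] at hv
  have h3 : (s * b) • v + (t * b') • v' = 0 := by
    rw [← hst]
    funext i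
    have e1 := ha i
    have e2 := ha' i
    change s * b * v i + t * b' * v' i = s * φ (a i) + t * φ (a' i)
    change φ (a i) = _ at e1
    change φ (a' i) = _ at e2
    rw [e1, e2]
    ring
  obtain ⟨h4, h5⟩ := hv _ _ h3
  exact ⟨(mul_eq_zero.1 h4).resolve_right hb, (mul_eq_zero.1 h5).resolve_right hb'⟩

end Cr.Re
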