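import Mathlib

/-! Polynomials without a common prime divisor generate the unit ideal on a general line. -/

namespace Cr.Re

attribute [local instance] Polynomial.algebra Polynomial.isLocalization in
/-- Polynomials over a factorial ring `S` without a common prime divisor: their ideal contains a
nonzero constant. -/
theorem span_C {S : Type*} [CommRing S] [IsDomain S] [UniqueFactorizationMonoid S] {ι : Type*}
    (P : ι → Polynomial S) (h : ∀ q : Polynomial S, Prime q → ∃ i, ¬ q ∣ P i) :
    ∃ s : S, s ≠ 0 ∧ Polynomial.C s ∈ Ideal.span (Set.range P) := by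
  let K := FractionRing S
  let M : Submonoid (Polynomial S) := (nonZeroDivisors S).map Polynomial.C
  have hinj : Function.Injective (algebraMap (Polynomial S) (Polynomial K)) :=
    Polynomial.map_injective (algebraMap S K) (FaithfulSMul.algebraMap_injective S K)
  have hloc : IsLocalization M (Polynomial K) := Polynomial.isLocalization (nonZeroDivisors S) K
  by_cases hJ : (Ideal.span (Set.range P)).map (algebraMap (Polynomial S) (Polynomial K)) = ⊤
  · have h1 : (1 : Polynomial K) ∈
        (Ideal.span (Set.range P)).map (algebraMap (Polynomial S) (Polynomial K)) := by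
      rw [hJ]
      exact Submodule.mem_top
    rw [IsLocalization.mem_map_algebraMap_iff M (Polynomial K)] at h1
    obtain ⟨⟨⟨p, hp⟩, ⟨t, ht⟩⟩, h2⟩ := h1
    obtain ⟨s, hs, rfl⟩ := ht
    rw [one_mul] at h2
    have h3 : Polynomial.C s = p := hinj h2
    exact ⟨s, nonZeroDivisors.ne_zero hs, h3 ▸ hp⟩
  · exfalso
    obtain ⟨m, hm, hle⟩ := Ideal.exists_le_maximal _ hJ
    have hm0 : m ≠ ⊥ := by
      intro h0
      rw [h0] at hm
      exact Polynomial.not_isField K (Ring.isField_iff_maximal_bot.2 hm)
    obtain ⟨hp, hd⟩ := (IsLocalization.isPrime_iff_isPrime_disjoint M (Polynomial K) m).1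
      hm.isPrime
    have hp0 : m.under (Polynomial S) ≠ ⊥ := by
      intro h0
      apply hm0
      have h1 := IsLocalization.map_under M (Polynomial K) m
      rw [← h1, h0, Ideal.map_bot]
    obtain ⟨q, hq, hq'⟩ := hp.exists_mem_prime_of_ne_bot hp0
    have hqI : (Ideal.span {q}).IsPrime := (Ideal.span_singleton_prime hq'.ne_zero).2 hq'
    have hle2 : Ideal.span {q} ≤ m.under (Polynomial S) :=
      (Ideal.span_singleton_le_iff_mem _).2 hq
    have hdis : Disjoint (M : Set (Polynomial S)) (Ideal.span {q} : Ideal (Polynomial S)) :=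
      hd.mono_right hle2
    have h1 := IsLocalization.isPrime_of_isPrime_disjoint M (Polynomial K) _ hqI hdis
    have h2 : (Ideal.span {q}).map (algebraMap (Polynomial S) (Polynomial K)) ≠ ⊥ := by
      intro h0
      have h3 : algebraMap (Polynomial S) (Polynomial K) q ∈
          (Ideal.span {q}).map (algebraMap (Polynomial S) (Polynomial K)) :=
        Ideal.mem_map_of_mem _ (Ideal.mem_span_singleton_self q)
      rw [h0, Ideal.mem_bot] at h3
      exact hq'.ne_zero (hinj (h3.trans (map_zero _).symm))
    have h3 : (Ideal.span {q}).map (algebraMap (Polynomial S) (Polynomial K)) = m := by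
      refine (h1.isMaximal h2).eq_of_le hm.ne_top ?_
      exact Ideal.map_le_iff_le_comap.2 hle2
    obtain ⟨i, hi⟩ := h q hq'
    apply hi
    rw [← Ideal.mem_span_singleton]
    have h4 := IsLocalization.under_map_of_isPrime_disjoint M (Polynomial K) hqI hdis
    rw [← h4, h3]
    exact hle (Ideal.mem_map_of_mem _ (Ideal.subset_span ⟨i, rfl⟩))

end Cr.Re
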