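import Pool.Agent.Lib.MP_f80667_ag.Cr.Conc
import Pool.Agent.Lib.MP_f80667_ag.Ts.Top
import Pool.Agent.Lib.MP_f80667_ag.Cu.GlobB

/-! Smooth cubic hypersurfaces of dimension at least six over number fields. -/

open scoped LinearAlgebra.Projectivization
open NumberField IsDedekindDomain

namespace Cr

open ZC Cu

section aux

variable {K : Type} [Field K] {m : ℕ} {κ : Type} {h : κ → MvPolynomial (Fin m) K}

private theorem top_eq {x y : Z1 K h}
    (H : x.1 - y.1 ∈ ratEq (AlgebraicClosure K) h ⊔ normCyc (AlgebraicClosure K) h) :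
    G1b.cls x = G1b.cls y := by
  refine QuotientAddGroup.eq.2 ?_
  rw [AddSubgroup.mem_addSubgroupOf]
  have h1 := AddSubgroup.neg_mem _ H
  rw [neg_sub, sub_eq_neg_add] at h1
  exact h1

private theorem top_zero {x : Z1 K h}
    (H : x.1 ∈ ratEq (AlgebraicClosure K) h ⊔ normCyc (AlgebraicClosure K) h) :
    G1b.cls x = 0 := by
  refine (QuotientAddGroup.eq_zero_iff (G := D0 K h) _).2 ?_
  rw [AddSubgroup.mem_addSubgroupOf]
  exact H

end aux

variable {F : Type} [Field F] [NumberField F] {n : ℕ}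

private theorem top_cl (hn : 7 ≤ n) (f : MvPolynomial (Fin n) F) (hf : f.IsHomogeneous 3)
    (hs : ∀ x : Fin n → AlgebraicClosure F, x ≠ 0 →
      ∃ i, MvPolynomial.aeval x (MvPolynomial.pderiv i f) ≠ 0)
    (hh : ∀ _ : Unit, ∃ d, f.IsHomogeneous d) (v : InfinitePlace F) (hv : v.IsReal)
    (a : ℙ (AlgebraicClosure (IK F v)) (Fin n → AlgebraicClosure (IK F v)) →₀ ℤ)
    (ha : a ∈ AddSubgroup.closure {z | ∃ (P P' : Fin n → IK F v) (hP : P ≠ 0) (hP' : P' ≠ 0),
      Zer (hE (IK F v) (fun _ : Unit => f)) (IK F v) P ∧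
      Zer (hE (IK F v) (fun _ : Unit => f)) (IK F v) P' ∧
      z = Ct.pc (AlgebraicClosure (IK F v)) P hP - Ct.pc (AlgebraicClosure (IK F v)) P' hP'}) :
    ∃ c : Z1 F (fun _ : Unit => f),
      (bcZ (IK F v) hh c).1 - a ∈
        ratEq (AlgebraicClosure (IK F v)) (hE (IK F v) (fun _ : Unit => f)) ⊔
          normCyc (AlgebraicClosure (IK F v)) (hE (IK F v) (fun _ : Unit => f)) ∧
      ∀ w : InfinitePlace F, w ≠ v → (bcZ (IK F w) hh c).1 ∈
        ratEq (AlgebraicClosure (IK F w)) (hE (IK F w) (fun _ : Unit => f)) ⊔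
          normCyc (AlgebraicClosure (IK F w)) (hE (IK F w) (fun _ : Unit => f)) := by
  have hbc : ∀ (w : InfinitePlace F) (c : Z1 F (fun _ : Unit => f)),
      (bcZ (IK F w) hh c).1 = bc (emb' F (IK F w)) c.1 := fun _ _ => rfl
  induction ha using AddSubgroup.closure_induction with
  | mem z hz =>
    obtain ⟨P, P', hP, hP', zP, zP', rfl⟩ := hz
    obtain ⟨Q, hQ, HQ⟩ := exists_one_pt hn f hf hs hh v hv
    obtain ⟨c, hc1, hc2⟩ := HQ P hP zP
    obtain ⟨d, hd1, hd2⟩ := HQ P' hP' zP'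
    refine ⟨(⟨c.1 - d.1, AddSubgroup.sub_mem _ c.2 d.2⟩ : D0 F (fun _ : Unit => f)), ?_,
      fun w hw => ?_⟩
    · have h1 := AddSubgroup.sub_mem _ hc1 hd1
      rw [hbc] at h1 ⊢
      rw [hbc] at h1
      change bc _ (c.1 - d.1) - _ ∈ _
      rw [map_sub]
      rw [sub_sub_sub_comm, sub_sub_sub_cancel_right] at h1
      exact h1
    · have h1 := AddSubgroup.sub_mem _ (hc2 w hw) (hd2 w hw)
      rw [hbc] at h1 ⊢
      rw [hbc] at h1
      change bc _ (c.1 - d.1) ∈ _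
      rwa [map_sub]
  | zero =>
    refine ⟨(0 : D0 F (fun _ : Unit => f)), ?_, fun w _ => ?_⟩
    · rw [hbc]
      change bc _ (0 : D0 F (fun _ : Unit => f)).1 - 0 ∈ _
      rw [ZeroMemClass.coe_zero, map_zero, sub_zero]
      exact AddSubgroup.zero_mem _
    · rw [hbc]
      change bc _ (0 : D0 F (fun _ : Unit => f)).1 ∈ _
      rw [ZeroMemClass.coe_zero, map_zero]
      exact AddSubgroup.zero_mem _
  | add x y _ _ hx hy =>
    obtain ⟨c, hc1, hc2⟩ := hx
    obtain ⟨d, hd1, hd2⟩ := hy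
    refine ⟨(⟨c.1 + d.1, AddSubgroup.add_mem _ c.2 d.2⟩ : D0 F (fun _ : Unit => f)), ?_,
      fun w hw => ?_⟩
    · have h1 := AddSubgroup.add_mem _ hc1 hd1
      rw [hbc] at h1 ⊢
      rw [hbc] at h1
      change bc _ (c.1 + d.1) - (x + y) ∈ _
      rwa [map_add, add_sub_add_comm]
    · have h1 := AddSubgroup.add_mem _ (hc2 w hw) (hd2 w hw)
      rw [hbc] at h1 ⊢
      rw [hbc] at h1
      change bc _ (c.1 + d.1) ∈ _
      rwa [map_add]
  | neg x _ hx =>
    obtain ⟨c, hc1, hc2⟩ := hx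
    refine ⟨(⟨-c.1, AddSubgroup.neg_mem _ c.2⟩ : D0 F (fun _ : Unit => f)), ?_, fun w hw => ?_⟩
    · have h1 := AddSubgroup.neg_mem _ hc1
      rw [hbc] at h1 ⊢
      change bc _ (-c.1) - (-x) ∈ _
      rwa [map_neg, neg_sub_neg, ← neg_sub]
    · have h1 := AddSubgroup.neg_mem _ (hc2 w hw)
      rw [hbc] at h1 ⊢
      change bc _ (-c.1) ∈ _
      rwa [map_neg]

private theorem top_one (hn : 7 ≤ n) (f : MvPolynomial (Fin n) F) (hf : f.IsHomogeneous 3)
    (hs : ∀ x : Fin n → AlgebraicClosure F, x ≠ 0 →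
      ∃ i, MvPolynomial.aeval x (MvPolynomial.pderiv i f) ≠ 0)
    (hh : ∀ _ : Unit, ∃ d, f.IsHomogeneous d) (v : InfinitePlace F)
    (g : G1b (IK F v) (hE (IK F v) (fun _ : Unit => f))) : ∃ c : G1 F (fun _ : Unit => f),
      dl1b (IK F v) hh c = g ∧ ∀ w, w ≠ v → dl1b (IK F w) hh c = 0 := by
  by_cases hv : v.IsReal
  · obtain ⟨z, rfl⟩ : ∃ z : Z1 (IK F v) (hE (IK F v) (fun _ : Unit => f)), G1b.cls z = g :=
      Quotient.exists_rep g
    have hg : ∀ i, ∃ d, (hE (IK F v) (fun _ : Unit => f) i).IsHomogeneous d := fun i => by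
      obtain ⟨d, hd⟩ := hh i
      exact ⟨d, hd.map _⟩
    let e : IK F v ≃+* ℝ := InfinitePlace.Completion.ringEquivRealOfIsReal hv
    obtain ⟨a, ha, b, hb, hab⟩ := AddSubgroup.mem_sup.1
      (Ts.gen_real (AlgebraicClosure (IK F v)) e hg z.2)
    obtain ⟨c, hc1, hc2⟩ := top_cl hn f hf hs hh v hv a ha
    refine ⟨G1.cls c, ?_, fun w hw => ?_⟩
    · rw [dl1b_cls]
      refine top_eq ?_
      have h1 := AddSubgroup.sub_mem _ hc1 (AddSubgroup.mem_sup_right hb :
        b ∈ ratEq (AlgebraicClosure (IK F v)) (hE (IK F v) (fun _ : Unit => f)) ⊔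
          normCyc (AlgebraicClosure (IK F v)) (hE (IK F v) (fun _ : Unit => f)))
      rwa [sub_sub, hab] at h1
    · rw [dl1b_cls]
      exact top_zero (hc2 w hw)
  · have h1 := (sub_G1b (A := fun i : Fin 0 => (i.elim0 : Matrix (Fin 0) (Fin 0)
      (MvPolynomial (Fin n) F))) hh v (Or.inl (InfinitePlace.not_isReal_iff_isComplex.1 hv))).1
    exact ⟨0, Subsingleton.elim _ _, fun w _ => map_zero _⟩

/-- Proof: as `Ts.dl_surj` (`Ts.exists_one`, `Ts.gen_real`), with `exists_one_pt` and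
`Cu.F1_cubic_adic` at the finite places. -/
theorem dl_surj {F : Type} [Field F] [NumberField F] {n : ℕ} (hn : 8 ≤ n)
    (f : MvPolynomial (Fin n) F) (hf : f.IsHomogeneous 3)
    (hs : ∀ x : Fin n → AlgebraicClosure F, x ≠ 0 →
      ∃ i, MvPolynomial.aeval x (MvPolynomial.pderiv i f) ≠ 0)
    (hh : ∀ _ : Unit, ∃ d, f.IsHomogeneous d) :
    Function.Surjective (dl (h := fun _ : Unit => f) hh) := by
  classical
  rintro ⟨y₁, y₂⟩
  choose c hc hc' using fun v => top_one (by omega) f hf hs hh v (y₂ v)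
  refine ⟨∑ v, c v, Prod.ext (funext fun v => ?_) (funext fun w => ?_)⟩
  · have h1 : Subsingleton (G1 (FK F v) (hE (FK F v) (fun _ : Unit => f))) :=
      F1_cubic_adic F v f hf hn hs
    exact Subsingleton.elim _ _
  · change dl1b (IK F w) hh (∑ v, c v) = y₂ w
    rw [map_sum, Finset.sum_eq_single w (fun v _ hv => hc' v w hv.symm)
      (fun h => absurd (Finset.mem_univ w) h)]
    exact hc w

theorem q1 (F : Type) [Field F] [NumberField F] {n : ℕ} (hn : 8 ≤ n)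
    (f : MvPolynomial (Fin n) F) (hf : f.IsHomogeneous 3)
    (hs : ∀ x : Fin n → AlgebraicClosure F, x ≠ 0 →
      ∃ i, MvPolynomial.aeval x (MvPolynomial.pderiv i f) ≠ 0)
    (hh : ∀ _ : Unit, ∃ d, f.IsHomogeneous d) :
    (∀ v : HeightOneSpectrum (𝓞 F), Subsingleton (G1 (FK F v) (hE (FK F v) fun _ : Unit => f))) ∧
      ∀ z : LHat (FA (fun _ : Unit => f)), ImD hh z :=
  ⟨fun v => F1_cubic_adic F v f hf hn hs, Ts.imD_of_surj hh (dl_surj hn f hf hs hh)⟩

end Cr
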